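import Pool.Agent.CycSyl.Label2

/-!
Nonvanishing of a coefficient for `p = 3` and many slots.
-/

set_option autoImplicit false

namespace Pool.Agent.PowF

open Pool.Agent.CycSyl Pool.Agent.CycSyl.Hz

theorem prod_unit {A : Type*} [CommRing A] {p : ℕ} (hp : p.Prime) (v : ℕ) (S : Finset ℕ)
    (V : ℕ → A) (h : ∀ s ∈ S, ∃ (Y : ℤ) (e : A), ¬ (p : ℤ) ∣ Y ∧
      V s = (Y : A) + (p : A) ^ (v + 1) * e) :
    ∃ (Y : ℤ) (e : A), ¬ (p : ℤ) ∣ Y ∧ ∏ s ∈ S, V s = (Y : A) + (p : A) ^ (v + 1) * e := by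
  classical
  induction S using Finset.induction_on with
  | empty =>
    refine ⟨1, 0, ?_, by simp⟩
    intro h1
    have := Int.isUnit_iff.1 (isUnit_of_dvd_one h1)
    have h2 := hp.two_le
    omega
  | insert s S hs ih =>
    obtain ⟨Y, e, hY, he⟩ := ih (fun t ht => h t (Finset.mem_insert_of_mem ht))
    obtain ⟨Y', e', hY', he'⟩ := h s (Finset.mem_insert_self _ _)
    refine ⟨Y' * Y, Y' * e + Y * e' + (p : A) ^ (v + 1) * e' * e, ?_, ?_⟩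
    · intro h1
      rcases (Nat.prime_iff_prime_int.1 hp).dvd_or_dvd h1 with h2 | h2
      · exact hY' h2
      · exact hY h2
    · rw [Finset.prod_insert hs, he, he']
      push_cast
      ring

theorem coef_aux2 {p : ℕ} (c : ZMod p) (hc : c ≠ 0) (v : ℕ) (X Y : ℤ)
    (w0 e f Va Vb : AddMonoidAlgebra ℤ (ZMod p)) (hX : (p : ℤ) ∣ X)
    (ha : Va = (X : AddMonoidAlgebra ℤ (ZMod p)) + (p : AddMonoidAlgebra ℤ (ZMod p)) ^ (v + 1) *
      (w0 + (p : AddMonoidAlgebra ℤ (ZMod p)) * e))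
    (hb : Vb = (Y : AddMonoidAlgebra ℤ (ZMod p)) +
      (p : AddMonoidAlgebra ℤ (ZMod p)) ^ (v + 1) * f) :
    ∃ k : ℤ, cf c (Va * Vb) = (p : ℤ) ^ (v + 1) * (Y * cf c w0 + p * k) := by
  obtain ⟨X', rfl⟩ := hX
  have h : Va * Vb = ((p * X' * Y : ℤ) : AddMonoidAlgebra ℤ (ZMod p)) +
      (((p : ℤ) ^ (v + 1) * Y : ℤ) : AddMonoidAlgebra ℤ (ZMod p)) * w0 +
      (((p : ℤ) ^ (v + 2) : ℤ) : AddMonoidAlgebra ℤ (ZMod p)) * (X' * f + Y * e +
        (p : AddMonoidAlgebra ℤ (ZMod p)) ^ v * (w0 + p * e) * f) := by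
    rw [ha, hb]; push_cast; ring
  refine ⟨cf c (X' * f + Y * e +
        (p : AddMonoidAlgebra ℤ (ZMod p)) ^ v * (w0 + p * e) * f), ?_⟩
  rw [h, map_add, map_add, cf_int c hc, cf_int_mul, cf_int_mul]
  ring

open AddMonoidAlgebra in
theorem coef3_multi (v : ℕ) (S : Finset ℕ)
    (hS : ∀ s ∈ S, s.Prime ∧ s.Coprime 22 ∧ s % 3 = 1) :
    ¬ (3 : ℤ) ^ (v + 2) ∣ cf 1 (∏ s ∈ insert 17 S, Vs (T L3.toWt (fun _ => True) s)
      ((s : ℤ) : AddMonoidAlgebra ℤ (ZMod 3)) (3 ^ (v + 1))) := by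
  have h17 : 17 ∉ S := fun h => by
    have := (hS 17 h).2.2
    norm_num at this
  have hg5 : (single (1 : ZMod 3) (1 : ℤ)) ^ 3 = (1 : AddMonoidAlgebra ℤ (ZMod 3)) := by
    rw [pow_single, AddMonoidAlgebra.one_def]; congr 1
  have hg4 : (single (2 : ZMod 3) (1 : ℤ)) = (single (1 : ZMod 3) (1 : ℤ)) ^ 2 := by
    rw [pow_single]; congr 1
  obtain ⟨X, e, hX, hX0⟩ := A3 (10 + 4 * single (1 : ZMod 3) (1 : ℤ) +
    4 * (single (1 : ZMod 3) (1 : ℤ)) ^ 2) _ 4914 (by decide) (poly3 _ hg5) v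
  obtain ⟨Y, f, hY, hf⟩ := prod_unit (p := 3) (by norm_num) v S
    (fun s => Vs (T L3.toWt (fun _ => True) s)
      ((s : ℤ) : AddMonoidAlgebra ℤ (ZMod 3)) (3 ^ (v + 1))) (by
      intro s hs
      obtain ⟨hq, hq22, hq3⟩ := hS s hs
      obtain ⟨e0, he0⟩ := T_pow (by norm_num) L3 s
      obtain ⟨Y, f, hY, hf⟩ := B3 (T L3.toWt (fun _ => True) s) (s : ℤ) e0
        (((CycSyl.X s).card : ℕ) : ℤ) (by
          rw [card_X hq hq22]
          have : ((s + 1 : ℕ) : ℤ) % 3 = 2 := by omega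
          exact this) (by rw [he0]; norm_num) v
      refine ⟨Y, f, ?_, by rw [hf]; norm_num⟩
      have h1 : Y % 3 = 2 := hY
      push_cast
      omega)
  obtain ⟨w0, hw0⟩ : ∃ w0 : AddMonoidAlgebra ℤ (ZMod 3), w0 =
      556 * (single (1 : ZMod 3) (1 : ℤ) + single (1 : ZMod 3) (1 : ℤ) ^ 2 - 2) := ⟨_, rfl⟩
  rw [← hw0] at hX
  rw [Finset.prod_insert h17, T17_eq, hg4]
  obtain ⟨k, hk⟩ := coef_aux2 (p := 3) (1 : ZMod 3) (by decide) v X Y w0 e f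
    (Vs (10 + 4 * single (1 : ZMod 3) (1 : ℤ) + 4 * (single (1 : ZMod 3) (1 : ℤ)) ^ 2)
      (((17 : ℕ) : ℤ) : AddMonoidAlgebra ℤ (ZMod 3)) (3 ^ (v + 1))) _
    (Int.modEq_zero_iff_dvd.1 hX0)
    (by
      have e17 : ((((17 : ℕ) : ℤ)) : AddMonoidAlgebra ℤ (ZMod 3)) = 17 := by norm_num
      rw [e17, hX]; norm_num) hf
  rw [hk]
  have hw : cf (1 : ZMod 3) w0 = 556 := by
    have h1 : w0 = ((556 : ℤ) : AddMonoidAlgebra ℤ (ZMod 3)) * single (1 : ZMod 3) (1 : ℤ) +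
        ((556 : ℤ) : AddMonoidAlgebra ℤ (ZMod 3)) * single (2 : ZMod 3) (1 : ℤ) +
        ((-1112 : ℤ) : AddMonoidAlgebra ℤ (ZMod 3)) := by
      rw [hw0, ← hg4]; push_cast; ring
    rw [h1]
    simp only [map_add, cf_int_mul, cf_single, cf_int (1 : ZMod 3) (by decide)]
    have h2 : ¬ ((2 : ZMod 3) = 1) := by decide
    simp [h2]
  rw [hw]
  apply coef_ndvd (p := 3) (by norm_num) v Y 556 k
  intro h
  push_cast at h hY
  omega

end Pool.Agent.PowF
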