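import Pool.Agent.PowF.Coef3

/-!
Nonvanishing of a coefficient for `p = 5` and many slots.
-/

set_option autoImplicit false

namespace Pool.Agent.PowF

open Pool.Agent.CycSyl Pool.Agent.CycSyl.Hz

theorem X19_eq : X 19 = {⟨1, 4, 3, -7⟩,
    ⟨6, 4, 3, -7⟩,
    ⟨0, 2, 3, -6⟩,
    ⟨2, 3, 6, -6⟩,
    ⟨3, 6, 4, -6⟩,
    ⟨4, 3, 6, -6⟩,
    ⟨6, 2, 3, -6⟩,
    ⟨0, 0, 3, -5⟩,
    ⟨5, 0, 3, -5⟩,
    ⟨1, -2, 4, -2⟩,
    ⟨-2, 3, 3, -1⟩,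
    ⟨3, 3, 3, -1⟩,
    ⟨-3, 1, 3, 0⟩,
    ⟨3, 1, 3, 0⟩,
    ⟨-3, -1, 3, 1⟩,
    ⟨2, -1, 3, 1⟩,
    ⟨-2, -2, -5, 2⟩,
    ⟨0, -2, -5, 2⟩,
    ⟨-5, -3, -5, 8⟩,
    ⟨-3, -3, -5, 8⟩} := by
  symm
  apply Finset.eq_of_subset_of_card_le
  · intro x hx
    rw [mem_X]
    simp only [Finset.mem_insert, Finset.mem_singleton] at hx
    rcases hx with rfl | rfl | rfl | rfl | rfl | rfl | rfl | rfl | rfl | rfl | rfl | rfl | rfl | rfl | rfl | rfl | rfl | rfl | rfl | rfl <;> decide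
  · rw [card_X (by norm_num) (by decide)]
    decide

open AddMonoidAlgebra in
theorem T19_eq : T L5.toWt (fun _ => True) 19 =
    2 + 6 * single (1 : ZMod 5) (1 : ℤ) + 3 * single (2 : ZMod 5) (1 : ℤ) +
      3 * single (3 : ZMod 5) (1 : ℤ) + 6 * single (4 : ZMod 5) (1 : ℤ) := by
  classical
  rw [T_def, Finset.filter_true, X19_eq]
  rw [Finset.sum_insert (by decide), Finset.sum_insert (by decide), Finset.sum_insert (by decide), Finset.sum_insert (by decide), Finset.sum_insert (by decide), Finset.sum_insert (by decide), Finset.sum_insert (by decide), Finset.sum_insert (by decide), Finset.sum_insert (by decide), Finset.sum_insert (by decide), Finset.sum_insert (by decide), Finset.sum_insert (by decide), Finset.sum_insert (by decide), Finset.sum_insert (by decide), Finset.sum_insert (by decide), Finset.sum_insert (by decide), Finset.sum_insert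 (by decide), Finset.sum_insert (by decide), Finset.sum_insert (by decide),
    Finset.sum_singleton]
  have e : ∀ x, L5.toWt.g x = single (κ5 x) 1 := fun _ => rfl
  simp only [e]
  have f0 : κ5 ⟨1, 4, 3, -7⟩ = 1 := by decide
  have f1 : κ5 ⟨6, 4, 3, -7⟩ = 4 := by decide
  have f2 : κ5 ⟨0, 2, 3, -6⟩ = 4 := by decide
  have f3 : κ5 ⟨2, 3, 6, -6⟩ = 2 := by decide
  have f4 : κ5 ⟨3, 6, 4, -6⟩ = 0 := by decide
  have f5 : κ5 ⟨4, 3, 6, -6⟩ = 3 := by decide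
  have f6 : κ5 ⟨6, 2, 3, -6⟩ = 1 := by decide
  have f7 : κ5 ⟨0, 0, 3, -5⟩ = 1 := by decide
  have f8 : κ5 ⟨5, 0, 3, -5⟩ = 4 := by decide
  have f9 : κ5 ⟨1, -2, 4, -2⟩ = 0 := by decide
  have f10 : κ5 ⟨-2, 3, 3, -1⟩ = 1 := by decide
  have f11 : κ5 ⟨3, 3, 3, -1⟩ = 4 := by decide
  have f12 : κ5 ⟨-3, 1, 3, 0⟩ = 4 := by decide
  have f13 : κ5 ⟨3, 1, 3, 0⟩ = 1 := by decide
  have f14 : κ5 ⟨-3, -1, 3, 1⟩ = 1 := by decide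
  have f15 : κ5 ⟨2, -1, 3, 1⟩ = 4 := by decide
  have f16 : κ5 ⟨-2, -2, -5, 2⟩ = 2 := by decide
  have f17 : κ5 ⟨0, -2, -5, 2⟩ = 3 := by decide
  have f18 : κ5 ⟨-5, -3, -5, 8⟩ = 2 := by decide
  have f19 : κ5 ⟨-3, -3, -5, 8⟩ = 3 := by decide
  rw [f0, f1, f2, f3, f4, f5, f6, f7, f8, f9, f10, f11, f12, f13, f14, f15, f16, f17, f18, f19,
    ← AddMonoidAlgebra.one_def]
  ring

theorem poly19 {A : Type*} [CommRing A] (g : A) (hg : g ^ 5 = 1) :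
    (2 + 6 * g + 3 * g ^ 2 + 3 * g ^ 3 + 6 * g ^ 4) ^ 5
      - 95 * (2 + 6 * g + 3 * g ^ 2 + 3 * g ^ 3 + 6 * g ^ 4) ^ 3
      + 1805 * (2 + 6 * g + 3 * g ^ 2 + 3 * g ^ 3 + 6 * g ^ 4) =
      ((496460 : ℤ) : A) + 5 * (98976 * (g + g ^ 4) + 98988 * (g ^ 2 + g ^ 3)) := by
  push_cast
  linear_combination (493578 * g ^ 0 + 490410 * g ^ 1 + 510345 * g ^ 2 + 522225 * g ^ 3 + 517320 * g ^ 4 + 530712 * g ^ 5 + 502605 * g ^ 6 + 440910 * g ^ 7 + 383940 * g ^ 8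
    + 304155 * g ^ 9 + 208899 * g ^ 10 + 141750 * g ^ 11 + 87480 * g ^ 12 + 38880 * g ^ 13 + 19440 * g ^ 14 + 7776 * g ^ 15) * hg

theorem B5g {A : Type*} [CommRing A] (b : A) (r : ℤ) (e0 : A) (c : ℤ)
    (h0 : b ^ 5 = (c : A) + 5 * e0) (w : ℕ) :
    ∃ (Y : ℤ) (e : A), Y ≡ c [ZMOD 5] ∧ Vs b (r : A) (5 ^ (w + 1)) = (Y : A) + 5 ^ (w + 1) * e := by
  have hfer : ∀ n : ℤ, n ^ 5 ≡ n [ZMOD 5] := by
    intro n
    have : Fact (Nat.Prime 5) := ⟨by norm_num⟩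
    have h := ZMod.pow_card (p := 5) (n : ZMod 5)
    have h2 : ((n ^ 5 : ℤ) : ZMod 5) = ((n : ℤ) : ZMod 5) := by
      push_cast
      exact h
    exact (ZMod.intCast_eq_intCast_iff (n ^ 5) n 5).1 h2
  induction w with
  | zero =>
    refine ⟨c, e0 - r * b ^ 3 + r ^ 2 * b, rfl, ?_⟩
    have := Vs_five b (r : A) 1
    rw [Vs_one] at this
    rw [zero_add, pow_one, show (5 : ℕ) = 5 * 1 by norm_num, this, h0]
    ring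
  | succ w ih =>
    obtain ⟨Y, e, hY, he⟩ := ih
    have h5 := Vs_five b (r : A) (5 ^ (w + 1))
    have e1 : 5 ^ (w + 1 + 1) = 5 * 5 ^ (w + 1) := by ring
    rw [e1, h5, he]
    obtain ⟨R, hR⟩ : ∃ R : ℤ, R = r ^ (5 ^ (w + 1)) := ⟨_, rfl⟩
    have hR' : (r : A) ^ (5 ^ (w + 1)) = (R : A) := by rw [hR]; push_cast; rfl
    rw [hR']
    refine ⟨Y ^ 5 - 5 * R * Y ^ 3 + 5 * R ^ 2 * Y,
      (Y ^ 4 - 3 * R * Y ^ 2 + R ^ 2) * e + 5 ^ (w + 1) * (2 * Y ^ 3 - 3 * R * Y) * e ^ 2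
      + (5 ^ (w + 1)) ^ 2 * (2 * Y ^ 2 - R) * e ^ 3 + (5 ^ (w + 1)) ^ 3 * Y * e ^ 4
      + 5 ^ w * (5 ^ (w + 1)) ^ 2 * 5 ^ (w + 1) * e ^ 5, ?_, ?_⟩
    · have h1 : Y ^ 5 ≡ Y [ZMOD 5] := hfer Y
      have h3 : Y ^ 5 - 5 * R * Y ^ 3 + 5 * R ^ 2 * Y ≡ Y ^ 5 [ZMOD 5] := by
        rw [Int.modEq_iff_dvd]
        exact ⟨R * Y ^ 3 - R ^ 2 * Y, by ring⟩
      exact h3.trans (h1.trans hY)
    · push_cast
      ring

theorem A5n {A : Type*} [CommRing A] (a : A) (w0 : A) (X0 : ℤ) (hX0 : X0 ≡ 0 [ZMOD 5])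
    (h0 : a ^ 5 - 95 * a ^ 3 + 1805 * a = (X0 : A) + 5 * w0) (v : ℕ) :
    ∃ (X : ℤ) (e : A), Vs a (19 : A) (5 ^ (v + 1)) =
      (X : A) + 5 ^ (v + 1) * (w0 + 5 * e) ∧ X ≡ 0 [ZMOD 5] := by
  induction v with
  | zero =>
    refine ⟨X0, 0, ?_, hX0⟩
    have := Vs_five a (19 : A) 1
    rw [Vs_one] at this
    rw [zero_add, pow_one, show (5 : ℕ) = 5 * 1 by norm_num, this]
    linear_combination h0
  | succ v ih =>
    obtain ⟨X, e, he, hX⟩ := ih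
    have h5 := Vs_five a (19 : A) (5 ^ (v + 1))
    have e1 : 5 ^ (v + 1 + 1) = 5 * 5 ^ (v + 1) := by ring
    rw [e1, h5, he]
    obtain ⟨R, hR⟩ : ∃ R : ℤ, R = 19 ^ (5 ^ (v + 1)) := ⟨_, rfl⟩
    have hR' : (19 : A) ^ (5 ^ (v + 1)) = (R : A) := by rw [hR]; push_cast; rfl
    have hR3 : R ≡ 4 [ZMOD 5] := by
      rw [hR]
      have h1 : ∀ n, (19 : ℤ) ^ (5 ^ n) ≡ 4 [ZMOD 5] := by
        intro n
        induction n with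
        | zero => decide
        | succ n ih =>
          rw [pow_succ, pow_mul]
          exact (ih.pow 5).trans (by decide)
      exact h1 _
    rw [hR']
    obtain ⟨h, hh⟩ : ∃ h : ℤ, X ^ 4 - 3 * R * X ^ 2 + R ^ 2 = 1 + 5 * h := by
      have h1 : X ^ 4 - 3 * R * X ^ 2 + R ^ 2 ≡ 0 ^ 4 - 3 * 4 * 0 ^ 2 + 4 ^ 2 [ZMOD 5] := by
        gcongr
      have h2 : (0 : ℤ) ^ 4 - 3 * 4 * 0 ^ 2 + 4 ^ 2 ≡ 1 [ZMOD 5] := by decide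
      obtain ⟨k, hk⟩ := (Int.modEq_iff_dvd.1 (h1.trans h2))
      exact ⟨-k, by linear_combination -hk⟩
    have hh' : (X : A) ^ 4 - 3 * R * X ^ 2 + R ^ 2 = 1 + 5 * h := by exact_mod_cast congrArg (Int.cast : ℤ → A) hh
    refine ⟨X ^ 5 - 5 * R * X ^ 3 + 5 * R ^ 2 * X,
      e + h * (w0 + 5 * e) + 5 ^ v * (2 * X ^ 3 - 3 * R * X) * (w0 + 5 * e) ^ 2
      + 5 ^ v * 5 ^ (v + 1) * (2 * X ^ 2 - R) * (w0 + 5 * e) ^ 3
      + 5 ^ v * (5 ^ (v + 1)) ^ 2 * X * (w0 + 5 * e) ^ 4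
      + 5 ^ v * 5 ^ v * (5 ^ (v + 1)) ^ 2 * (w0 + 5 * e) ^ 5, ?_, ?_⟩
    · push_cast
      linear_combination (5 ^ (v + 2) * (w0 + 5 * e)) * hh'
    · have h1 : X ^ 5 ≡ 0 ^ 5 [ZMOD 5] := hX.pow 5
      have h2 : (0 : ℤ) ^ 5 ≡ 0 [ZMOD 5] := by decide
      have h3 : X ^ 5 - 5 * R * X ^ 3 + 5 * R ^ 2 * X ≡ X ^ 5 [ZMOD 5] := by
        rw [Int.modEq_iff_dvd]
        exact ⟨R * X ^ 3 - R ^ 2 * X, by ring⟩
      exact h3.trans (h1.trans h2)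

open AddMonoidAlgebra in
theorem coef5_multi (v : ℕ) (S : Finset ℕ)
    (hS : ∀ s ∈ S, s.Prime ∧ s.Coprime 22 ∧ ¬ 5 ∣ s + 1) :
    ¬ (5 : ℤ) ^ (v + 2) ∣ cf 1 (∏ s ∈ insert 19 S, Vs (T L5.toWt (fun _ => True) s)
      ((s : ℤ) : AddMonoidAlgebra ℤ (ZMod 5)) (5 ^ (v + 1))) := by
  have h19 : 19 ∉ S := fun h => (hS 19 h).2.2 (by norm_num)
  have hg5 : (single (1 : ZMod 5) (1 : ℤ)) ^ 5 = (1 : AddMonoidAlgebra ℤ (ZMod 5)) := by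
    rw [pow_single, AddMonoidAlgebra.one_def]; congr 1
  have hg4 : (single (4 : ZMod 5) (1 : ℤ)) = (single (1 : ZMod 5) (1 : ℤ)) ^ 4 := by
    rw [pow_single]; congr 1
  have hg3 : (single (3 : ZMod 5) (1 : ℤ)) = (single (1 : ZMod 5) (1 : ℤ)) ^ 3 := by
    rw [pow_single]; congr 1
  have hg2 : (single (2 : ZMod 5) (1 : ℤ)) = (single (1 : ZMod 5) (1 : ℤ)) ^ 2 := by
    rw [pow_single]; congr 1
  obtain ⟨X, e, hX, hX0⟩ := A5n (2 + 6 * single (1 : ZMod 5) (1 : ℤ) +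
    3 * (single (1 : ZMod 5) (1 : ℤ)) ^ 2 + 3 * (single (1 : ZMod 5) (1 : ℤ)) ^ 3 +
    6 * (single (1 : ZMod 5) (1 : ℤ)) ^ 4) _ 496460 (by decide) (poly19 _ hg5) v
  obtain ⟨Y, f, hY, hf⟩ := prod_unit (p := 5) (by norm_num) v S
    (fun s => Vs (T L5.toWt (fun _ => True) s)
      ((s : ℤ) : AddMonoidAlgebra ℤ (ZMod 5)) (5 ^ (v + 1))) (by
      intro s hs
      obtain ⟨hq, hq22, hq5⟩ := hS s hs
      obtain ⟨e0, he0⟩ := T_pow (by norm_num) L5 s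
      obtain ⟨Y, f, hY, hf⟩ := B5g (T L5.toWt (fun _ => True) s) (s : ℤ) e0
        (((CycSyl.X s).card : ℕ) : ℤ) (by rw [he0]; norm_num) v
      refine ⟨Y, f, ?_, by rw [hf]; norm_num⟩
      rw [card_X hq hq22] at hY
      have h1 : Y % 5 = ((s + 1 : ℕ) : ℤ) % 5 := hY
      push_cast at h1 ⊢
      omega)
  obtain ⟨w0, hw0⟩ : ∃ w0 : AddMonoidAlgebra ℤ (ZMod 5), w0 =
      98976 * (single (1 : ZMod 5) (1 : ℤ) + single (1 : ZMod 5) (1 : ℤ) ^ 4) +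
      98988 * (single (1 : ZMod 5) (1 : ℤ) ^ 2 + single (1 : ZMod 5) (1 : ℤ) ^ 3) := ⟨_, rfl⟩
  rw [← hw0] at hX
  rw [Finset.prod_insert h19, T19_eq, hg4, hg3, hg2]
  obtain ⟨k, hk⟩ := coef_aux2 (p := 5) (1 : ZMod 5) (by decide) v X Y w0 e f
    (Vs (2 + 6 * single (1 : ZMod 5) (1 : ℤ) +
      3 * (single (1 : ZMod 5) (1 : ℤ)) ^ 2 + 3 * (single (1 : ZMod 5) (1 : ℤ)) ^ 3 +
      6 * (single (1 : ZMod 5) (1 : ℤ)) ^ 4)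
      (((19 : ℕ) : ℤ) : AddMonoidAlgebra ℤ (ZMod 5)) (5 ^ (v + 1))) _
    (Int.modEq_zero_iff_dvd.1 hX0)
    (by
      have e19 : ((((19 : ℕ) : ℤ)) : AddMonoidAlgebra ℤ (ZMod 5)) = 19 := by norm_num
      rw [e19, hX]; norm_num) hf
  rw [hk]
  have hw : cf (1 : ZMod 5) w0 = 98976 := by
    have h1 : w0 = ((98976 : ℤ) : AddMonoidAlgebra ℤ (ZMod 5)) * single (1 : ZMod 5) (1 : ℤ) +
        ((98976 : ℤ) : AddMonoidAlgebra ℤ (ZMod 5)) * single (4 : ZMod 5) (1 : ℤ) +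
        ((98988 : ℤ) : AddMonoidAlgebra ℤ (ZMod 5)) * single (2 : ZMod 5) (1 : ℤ) +
        ((98988 : ℤ) : AddMonoidAlgebra ℤ (ZMod 5)) * single (3 : ZMod 5) (1 : ℤ) := by
      rw [hw0, ← hg4, ← hg2, ← hg3]; push_cast; ring
    rw [h1]
    simp only [map_add, cf_int_mul, cf_single]
    have h2 : ¬ ((2 : ZMod 5) = 1) := by decide
    have h3 : ¬ ((3 : ZMod 5) = 1) := by decide
    have h4 : ¬ ((4 : ZMod 5) = 1) := by decide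
    simp [h2, h3, h4]
  rw [hw]
  apply coef_ndvd (p := 5) (by norm_num) v Y 98976 k
  intro h
  push_cast at h hY
  omega

end Pool.Agent.PowF
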