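import Pool.Agent.PowF.TotalM

/-!
Existence of a hit from a coefficient which is not divisible by a high power of `p`.
-/

set_option autoImplicit false

namespace Pool.Agent.PowF

open Pool.Agent.CycSyl Pool.Agent.CycSyl.Hz NumberField NumberTheorySymbols

/-- divisibility of the class number, or the field belongs to the family -/
theorem class_div_or {p : ℕ} (hp : p.Prime) (hp2 : p ≠ 2) (L : Lab p) (hT : Transfer p L) (v : ℕ)
    (H : Type) [CommGroup H] [Finite H] (hcyc : IsCyclic H) (hH : Nat.card H = p ^ (v + 1))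
    {N : ℕ} (hN22 : N.Coprime 22) {x : Hz ℤ} (hx : x ∈ X N)
    (hκ : L.κ x ≠ 0) {ρ g t1 : ℤ} (hρ22 : IsCoprime ρ 22) (hm : (N : ℤ) = ρ * g ^ (p ^ (v + 1)))
    (ht : tr x = ρ * t1) (hcop : IsCoprime (tr x) g) (hpF : ¬ (p : ℤ) ∣ tr x ^ 2 - 4 * N) :
    p ^ (v + 2) ∣ Nat.card (ClassGroup (𝓞 (Kf (tr x) N))) ∨ Kf (tr x) N ∈ fam p H := by
  have hxA := Adm_of_mem hN22 hx
  have hxm := (mem_X.1 hx).2
  have hlt := disc_lt L hxA hκ
  rw [hxm] at hlt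
  have := Kf_numberField hlt
  obtain ⟨Lb, h1, h2, h3, h4⟩ := hT (tr x) N hlt x hxA rfl hxm hκ hpF
  have hρ0 : ρ ≠ 0 := by
    rintro rfl
    have := hρ22.isUnit_of_dvd' (dvd_zero (22 : ℤ)) dvd_rfl
    rw [Int.isUnit_iff] at this; omega
  obtain ⟨C, hC⟩ := (qdata hlt).exists_order hp Lb v hρ0 hm ht hcop (h3 ρ hρ22).1 (h3 ρ hρ22).2
    h1 (by
      rw [h2]
      intro h5
      have h6 : (2 : ZMod p) * L.κ x = 0 := by rw [two_mul]; exact h5
      have : Fact p.Prime := ⟨hp⟩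
      rcases mul_eq_zero.1 h6 with h7 | h7
      · have h8 : ((2 : ℕ) : ZMod p) = 0 := by exact_mod_cast h7
        rw [ZMod.natCast_eq_zero_iff] at h8
        exact hp2 ((Nat.prime_dvd_prime_iff_eq hp Nat.prime_two).1 h8)
      · exact hκ h7) h4
  by_cases hnd : p ^ (v + 2) ∣ Nat.card (ClassGroup (𝓞 (Kf (tr x) N)))
  · exact Or.inl hnd
  · right
    refine ⟨this, Kf_finrank hlt, ⟨⟨th (tr x) N, th_mem⟩, th_im hlt⟩, ?_⟩
    exact sylow_cyclic hp C hC hnd H hcyc hH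

theorem exists_hit {p : ℕ} (hp : p.Prime) (hp2 : p ≠ 2) (L : Lab p) (hT : Transfer p L) (v : ℕ)
    (H : Type) [CommGroup H] [Finite H] (hcyc : IsCyclic H) (hH : Nat.card H = p ^ (v + 1))
    (U : Finset ℕ) (hU : ∀ s ∈ U, s.Prime ∧ s.Coprime 22)
    (hres : ∀ A ⊆ U, ∀ t : ℤ, ¬ (p : ℤ) ∣ t ^ 2 - 4 * (NA (p ^ (v + 1)) U A : ℤ))
    (c : ZMod p) (hc : c ≠ 0)
    (hcf : ¬ (p : ℤ) ^ (v + 2) ∣ cf c (∏ s ∈ U, Vs (T L.toWt (fun _ => True) s)
      ((s : ℤ) : AddMonoidAlgebra ℤ (ZMod p)) (p ^ (v + 1)))) :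
    ∃ (t : ℤ) (A : Finset ℕ), Hit p (p ^ (v + 1)) H U t A := by
  by_contra hno
  push Not at hno
  apply hcf
  have hodd : Odd p := hp.odd_of_ne_two hp2
  have h3p : 3 ≤ p := by
    have := hp.two_le
    omega
  obtain ⟨i, hi⟩ : ∃ i, p ^ (v + 1) = 2 * i + 3 := by
    obtain ⟨j, hj⟩ := hodd.pow (n := v + 1)
    have h1 : p ^ 1 ≤ p ^ (v + 1) := Nat.pow_le_pow_right (by omega) (by omega)
    rw [pow_one] at h1
    exact ⟨j - 1, by omega⟩
  have htot := total_multi L.toWt (fun _ => p ^ (v + 1)) U hU (fun s _ => ⟨i, hi⟩) 1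
    (Nat.coprime_one_left 22) (fun s hs h => (hU s hs).1.one_lt.ne' (Nat.dvd_one.1 h))
  rw [T_one L.toWt _ trivial, mul_one] at htot
  rw [← htot, map_sum]
  have hpv : (p : ℤ) ^ (v + 2) = ((p ^ (v + 2) : ℕ) : ℤ) := by push_cast; rfl
  rw [hpv]
  refine Finset.dvd_sum fun A hA => ?_
  have hAU : A ⊆ U := Finset.mem_powerset.1 hA
  have hNA : (∏ s ∈ A, s ^ (p ^ (v + 1))) * (∏ s ∈ U \ A, s) * 1 = NA (p ^ (v + 1)) U A := by
    rw [mul_one]; rfl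
  simp only [hNA]
  have hN22 : (NA (p ^ (v + 1)) U A).Coprime 22 := by
    unfold NA
    refine Nat.Coprime.mul_left ?_ ?_
    · exact Nat.Coprime.prod_left fun s hs => (hU s (hAU hs)).2.pow_left _
    · exact Nat.Coprime.prod_left fun s hs => (hU s (Finset.sdiff_subset hs)).2
  refine count_div L (p ^ (v + 2)) hN22
    (fun t => (∀ s ∈ A, ¬ (s : ℤ) ∣ t) ∧ ∀ s ∈ U \ A, (s : ℤ) ∣ t) c hc ?_
  rintro x hx ⟨hx1, hx2⟩ hκ
  have hκ0 : L.κ x ≠ 0 := by rw [hκ]; exact hc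
  have hprod : (∏ s ∈ U \ A, (s : ℤ)) ∣ tr x := by
    refine Finset.prod_dvd_of_coprime ?_ hx2
    intro s hs s' hs' hne
    have h1 := (hU s (Finset.sdiff_subset (Finset.mem_coe.1 hs))).1
    have h2 := (hU s' (Finset.sdiff_subset (Finset.mem_coe.1 hs'))).1
    exact Nat.isCoprime_iff_coprime.2 ((Nat.coprime_primes h1 h2).2 hne)
  obtain ⟨t1, ht1⟩ := hprod
  have g1 : IsCoprime (∏ s ∈ U \ A, (s : ℤ)) 22 :=
    IsCoprime.prod_left fun s hs => cop22 (hU s (Finset.sdiff_subset hs)).2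
  have g2 : ((NA (p ^ (v + 1)) U A : ℕ) : ℤ) =
      (∏ s ∈ U \ A, (s : ℤ)) * (∏ s ∈ A, (s : ℤ)) ^ (p ^ (v + 1)) := by
    unfold NA
    push_cast
    rw [Finset.prod_pow]
    ring
  have g3 : IsCoprime (tr x) (∏ s ∈ A, (s : ℤ)) := by
    refine IsCoprime.prod_right fun s hs => ?_
    have h1 : Prime (s : ℤ) := Nat.prime_iff_prime_int.1 (hU s (hAU hs)).1
    exact ((h1.coprime_iff_not_dvd).2 (hx1 s hs)).symm
  rcases class_div_or hp hp2 L hT v H hcyc hH hN22 hx hκ0 g1 g2 ht1 g3 (hres A hAU (tr x))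
    with h | h
  · exact h
  · exfalso
    refine hno (tr x) A ⟨hAU, ?_, hx1, hx2, hres A hAU (tr x), h⟩
    have := disc_lt L (Adm_of_mem hN22 hx) hκ0
    rw [(mem_X.1 hx).2] at this
    exact this

end Pool.Agent.PowF
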