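import Pool.Agent.PowF.ClassHitOf
import Pool.Agent.PowF.HitM
import Pool.Agent.PowF.Coef3
import Pool.Agent.PowF.Coef5

/-!
`ClassHit` for `p = 3` and `p = 5`.
-/

set_option autoImplicit false

namespace Pool.Agent.PowF

open Pool.Agent.CycSyl Pool.Agent.CycSyl.Hz NumberField NumberTheorySymbols

theorem NA_mod {p : ℕ} (hp : p.Prime) (k : ℕ) (U A : Finset ℕ) (hA : A ⊆ U) :
    ((NA (p ^ k) U A : ℕ) : ZMod p) = ∏ s ∈ U, (s : ZMod p) := by
  have := Fact.mk hp
  unfold NA
  rw [← Finset.prod_sdiff hA, mul_comm]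
  push_cast
  congr 1
  apply Finset.prod_congr rfl
  intro s _
  exact ZMod.pow_card_pow (s : ZMod p)

theorem not_dvd_of {p : ℕ} (hp : p.Prime) (k : ℕ) (U A : Finset ℕ) (hA : A ⊆ U)
    (h : ∀ x : ZMod p, x ^ 2 ≠ 4 * ∏ s ∈ U, (s : ZMod p)) (t : ℤ) :
    ¬ (p : ℤ) ∣ t ^ 2 - 4 * (NA (p ^ k) U A : ℤ) := by
  intro h1
  rw [← ZMod.intCast_zmod_eq_zero_iff_dvd] at h1
  apply h (t : ZMod p)
  rw [← NA_mod hp k U A hA]
  push_cast at h1
  linear_combination h1

theorem al_spec {p W r : ℕ} (h : Al p W r) (l : ℕ) (hl : l ∣ W) : r ≠ l := by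
  rintro rfl
  exact h.2.2.2 hl

theorem al_coprime {p W r : ℕ} (h : Al p W r) (h2 : 2 ∣ W) (h11 : 11 ∣ W) : r.Coprime 22 := by
  have e2 := al_spec h 2 h2
  have e11 := al_spec h 11 h11
  have c2 : r.Coprime 2 := (Nat.coprime_primes h.1 Nat.prime_two).mpr e2
  have c11 : r.Coprime 11 := (Nat.coprime_primes h.1 (by norm_num)).mpr e11
  exact Nat.Coprime.mul_right c2 c11

theorem prod_mod3 (S : Finset ℕ) (hS : ∀ s ∈ S, s % 3 = 1) :
    ∏ s ∈ S, (s : ZMod 3) = 1 := by
  apply Finset.prod_eq_one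
  intro s hs
  have h1 : ((s : ℕ) : ZMod 3) = ((1 : ℕ) : ZMod 3) := by
    rw [ZMod.natCast_eq_natCast_iff]
    exact hS s hs
  rw [h1]
  simp

/-- slots `17` and `S` (primes `1 mod 3`), so the norm is `2 mod 3` -/
theorem classHit3 (v : ℕ) (H : Type) [CommGroup H] [Finite H] (hcyc : IsCyclic H)
    (hH : Nat.card H = 3 ^ (v + 1)) : ClassHit 3 (v + 1) H := by
  refine classHit_of Nat.prime_three (by norm_num) (by omega) H {17} ?_ (2 * 3 * 11 * 17)
    (by norm_num) ?_ ?_
  · intro s hs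
    rw [Finset.mem_singleton] at hs
    rw [hs]
    norm_num
  · intro s hs
    rw [Finset.mem_singleton] at hs
    rw [hs]
    norm_num
  intro S hS
  have h17 : 17 ∉ S := fun h => al_spec (hS 17 h) 17 (by norm_num) rfl
  have hS3 : ∀ s ∈ S, s % 3 = 1 := by
    intro s hs
    have h1 := (hS s hs).2.1
    have h2 := (hS s hs).2.2.1
    omega
  have hScop : ∀ s ∈ S, s.Coprime 22 := fun s hs => al_coprime (hS s hs) (by norm_num) (by norm_num)
  have hU : ∀ s ∈ insert 17 S, s.Prime ∧ s.Coprime 22 := by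
    intro s hs
    rw [Finset.mem_insert] at hs
    rcases hs with rfl | hs
    · exact ⟨by norm_num, by norm_num⟩
    · exact ⟨(hS s hs).1, hScop s hs⟩
  have hprod : ∏ s ∈ insert 17 S, (s : ZMod 3) = 2 := by
    rw [Finset.prod_insert h17, prod_mod3 S hS3]
    decide
  obtain ⟨t, A, hit⟩ := exists_hit Nat.prime_three (by norm_num) L3 transfer3 v H hcyc hH
    (insert 17 S) hU (fun A hA t => not_dvd_of Nat.prime_three _ _ A hA (by
      rw [hprod]
      decide) t) 1 (by decide)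
    (coef3_multi v S fun s hs => ⟨(hS s hs).1, hScop s hs, hS3 s hs⟩)
  refine ⟨insert 17 S, t, A, Finset.subset_insert _ _, ?_, fun s hs => (hU s hs).1, hit⟩
  intro s hs
  rw [Finset.mem_sdiff, Finset.mem_insert] at hs
  rw [Finset.mem_singleton]
  exact hs.1.resolve_right hs.2

/-- slots `19`, `S` and possibly `7`, such that the norm is not a square modulo `5` -/
theorem classHit5 (v : ℕ) (H : Type) [CommGroup H] [Finite H] (hcyc : IsCyclic H)
    (hH : Nat.card H = 5 ^ (v + 1)) : ClassHit 5 (v + 1) H := by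
  refine classHit_of Nat.prime_five (by norm_num) (by omega) H {7, 19} ?_ (2 * 5 * 7 * 11 * 19)
    (by norm_num) ?_ ?_
  · intro s hs
    rw [Finset.mem_insert, Finset.mem_singleton] at hs
    rcases hs with rfl | rfl <;> norm_num
  · intro s hs
    rw [Finset.mem_insert, Finset.mem_singleton] at hs
    rcases hs with rfl | rfl <;> norm_num
  intro S hS
  have h19 : 19 ∉ S := fun h => al_spec (hS 19 h) 19 (by norm_num) rfl
  have h7 : 7 ∉ S := fun h => al_spec (hS 7 h) 7 (by norm_num) rfl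
  have hScop : ∀ s ∈ S, s.Coprime 22 := fun s hs => al_coprime (hS s hs) (by norm_num) (by norm_num)
  have hw0 : ∏ s ∈ S, (s : ZMod 5) ≠ 0 := by
    have : Fact (Nat.Prime 5) := ⟨Nat.prime_five⟩
    rw [Finset.prod_ne_zero_iff]
    intro s hs h
    rw [ZMod.natCast_eq_zero_iff] at h
    exact (hS s hs).2.1 h
  -- the general step
  have key : ∀ S' : Finset ℕ, S ⊆ S' → S' \ S ⊆ {7} →
      (∀ x : ZMod 5, x ^ 2 ≠ 4 * ∏ s ∈ insert 19 S', (s : ZMod 5)) →
      ∃ (U : Finset ℕ) (t : ℤ) (A : Finset ℕ),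
      S ⊆ U ∧ U \ S ⊆ {7, 19} ∧ (∀ s ∈ U, s.Prime) ∧ Hit 5 (5 ^ (v + 1)) H U t A := by
    intro S' hSS' hS'S hsq
    have hS' : ∀ s ∈ S', s.Prime ∧ s.Coprime 22 ∧ ¬ 5 ∣ s + 1 := by
      intro s hs
      by_cases hsS : s ∈ S
      · exact ⟨(hS s hsS).1, hScop s hsS, (hS s hsS).2.2.1⟩
      · have h1 := hS'S (Finset.mem_sdiff.mpr ⟨hs, hsS⟩)
        rw [Finset.mem_singleton] at h1
        rw [h1]
        exact ⟨by norm_num, by norm_num, by norm_num⟩
    have hU : ∀ s ∈ insert 19 S', s.Prime ∧ s.Coprime 22 := by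
      intro s hs
      rw [Finset.mem_insert] at hs
      rcases hs with rfl | hs
      · exact ⟨by norm_num, by norm_num⟩
      · exact ⟨(hS' s hs).1, (hS' s hs).2.1⟩
    obtain ⟨t, A, hit⟩ := exists_hit Nat.prime_five (by norm_num) L5 transfer5 v H hcyc hH
      (insert 19 S') hU (fun A hA t => not_dvd_of Nat.prime_five _ _ A hA hsq t) 1 (by decide)
      (coef5_multi v S' hS')
    refine ⟨insert 19 S', t, A, hSS'.trans (Finset.subset_insert _ _), ?_,
      fun s hs => (hU s hs).1, hit⟩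
    intro s hs
    rw [Finset.mem_sdiff, Finset.mem_insert] at hs
    rw [Finset.mem_insert, Finset.mem_singleton]
    rcases hs.1 with h1 | h1
    · exact Or.inr h1
    · have h2 := hS'S (Finset.mem_sdiff.mpr ⟨h1, hs.2⟩)
      rw [Finset.mem_singleton] at h2
      exact Or.inl h2
  by_cases hw : ∏ s ∈ S, (s : ZMod 5) = 2 ∨ ∏ s ∈ S, (s : ZMod 5) = 3
  · refine key S (Finset.Subset.refl _) (by simp) ?_
    rw [Finset.prod_insert h19]
    rcases hw with h | h <;> rw [h] <;> decide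
  · refine key (insert 7 S) (Finset.subset_insert _ _) ?_ ?_
    · intro s hs
      rw [Finset.mem_sdiff, Finset.mem_insert] at hs
      rw [Finset.mem_singleton]
      exact hs.1.resolve_right hs.2
    · have h19' : 19 ∉ insert 7 S := by
        rw [Finset.mem_insert]
        rintro (h | h)
        · omega
        · exact h19 h
      rw [Finset.prod_insert h19', Finset.prod_insert h7]
      generalize ∏ s ∈ S, (s : ZMod 5) = w at hw hw0
      revert w
      decide

end Pool.Agent.PowF
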