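import Pool.Agent.PowF.DefsA
import Pool.Agent.H6.HR.Mertens

/-!
Module A10: few primes kill a positive proportion of a set of `d` (Markov over the box).
-/

set_option autoImplicit false

namespace Pool.Agent.PowF

open Pool.Agent.CycSyl NumberField NumberTheorySymbols

section FLgen

variable {p : ℕ}

/-- divisibility of the value depends only on the residues -/
theorem dvd_F_update (Nf : NForm p) (q : ℕ) (x : Fin (Nf.n + 1) → ℤ) (a b : ℤ)
    (h : (q : ℤ) ∣ a - b) (hb : q ∣ Nf.F (Function.update x 0 a)) :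
    q ∣ Nf.F (Function.update x 0 b) := by
  obtain ⟨t, ht⟩ := h
  have e : Function.update x 0 a = Function.update x 0 b + (q : ℤ) • Pi.single 0 t := by
    funext i
    rcases eq_or_ne i 0 with rfl | hi
    · simp only [Function.update_self, Pi.add_apply, Pi.smul_apply, Pi.single_eq_same, smul_eq_mul]
      linarith
    · simp [Function.update_of_ne hi, Pi.single_eq_of_ne hi]
  have h1 := Nf.F_add (q : ℤ) (Function.update x 0 b) (Pi.single 0 t)
  rw [← e] at h1
  have h2 : (q : ℤ) ∣ (Nf.F (Function.update x 0 a) : ℤ) := by exact_mod_cast hb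
  have h3 : (q : ℤ) ∣ (Nf.F (Function.update x 0 b) : ℤ) := by
    have h4 := h1.dvd
    have h5 := dvd_add h4 h2
    rwa [sub_add_cancel] at h5
  exact_mod_cast h3

/-- the number of zeros modulo `q` in an interval -/
theorem root_box (Nf : NForm p) {q : ℕ} (hq : q.Prime) (B : ℕ) (x : Fin (Nf.n + 1) → ℤ) :
    ((Finset.Ico (0 : ℤ) B).filter (fun a => q ∣ Nf.F (Function.update x 0 a))).card ≤
      (B / q + 1) * (Nf.n + 1) := by
  have hq0 : (0 : ℤ) < q := by exact_mod_cast hq.pos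
  calc _ ≤ ((Finset.range (B / q + 1)) ×ˢ ((Finset.range q).filter
      (fun a : ℕ => q ∣ Nf.F (Function.update x 0 (a : ℤ))))).card := by
        refine Finset.card_le_card_of_injOn (fun a => ((a / q).toNat, (a % q).toNat)) ?_ ?_
        · intro a ha
          simp only [Finset.coe_filter, Finset.mem_Ico, Set.mem_ofPred_eq] at ha
          obtain ⟨⟨ha0, haB⟩, ha2⟩ := ha
          have hd0 : 0 ≤ a / (q : ℤ) := Int.ediv_nonneg ha0 hq0.le
          have hm0 : 0 ≤ a % (q : ℤ) := Int.emod_nonneg _ hq0.ne'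
          have hm1 : a % (q : ℤ) < q := Int.emod_lt_of_pos _ hq0
          simp only [Finset.coe_product, Set.mem_prod, Finset.mem_coe, Finset.mem_range,
            Finset.mem_filter]
          refine ⟨?_, ?_, ?_⟩
          · have h1 : a / (q : ℤ) ≤ (B : ℤ) / q := Int.ediv_le_ediv hq0 haB.le
            have h2 : ((B : ℤ) / q) = ((B / q : ℕ) : ℤ) := by push_cast; rfl
            omega
          · omega
          · rw [Int.toNat_of_nonneg hm0]
            refine dvd_F_update Nf q x a _ ?_ ha2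
            exact Int.dvd_self_sub_emod
        · intro a ha b hb hab
          simp only [Finset.coe_filter, Finset.mem_Ico, Set.mem_ofPred_eq] at ha hb
          simp only [Prod.mk.injEq] at hab
          have hd0 : 0 ≤ a / (q : ℤ) := Int.ediv_nonneg ha.1.1 hq0.le
          have hm0 : 0 ≤ a % (q : ℤ) := Int.emod_nonneg _ hq0.ne'
          have hd1 : 0 ≤ b / (q : ℤ) := Int.ediv_nonneg hb.1.1 hq0.le
          have hm1 : 0 ≤ b % (q : ℤ) := Int.emod_nonneg _ hq0.ne'
          have e1 : a / (q : ℤ) = b / (q : ℤ) := by omega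
          have e2 : a % (q : ℤ) = b % (q : ℤ) := by omega
          have e3 := Int.emod_add_mul_ediv a q
          have e4 := Int.emod_add_mul_ediv b q
          rw [e1, e2] at e3
          exact e3.symm.trans e4
    _ = (B / q + 1) * ((Finset.range q).filter
          (fun a : ℕ => q ∣ Nf.F (Function.update x 0 (a : ℤ)))).card := by
        rw [Finset.card_product, Finset.card_range]
    _ ≤ _ := Nat.mul_le_mul_left _ (Nf.root q hq x)

theorem card_box (n B : ℕ) : (box n B).card = B ^ (n + 1) := by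
  unfold box
  rw [Fintype.card_piFinset]
  simp

/-- the number of points of the box whose value is divisible by `q` -/
theorem box_dvd (Nf : NForm p) {q : ℕ} (hq : q.Prime) (B : ℕ) :
    ((box Nf.n B).filter (fun x => q ∣ Nf.F x)).card ≤
      (B / q + 1) * (Nf.n + 1) * B ^ Nf.n := by
  have h1 : (Fintype.piFinset (fun _ : Fin Nf.n => Finset.Ico (0 : ℤ) B)).card = B ^ Nf.n := by
    rw [Fintype.card_piFinset]
    simp
  rw [← h1]
  refine Finset.card_le_mul_card_image_of_maps_to (f := Fin.tail) ?_ _ ?_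
  · intro x hx
    rw [Finset.mem_filter, box, Fintype.mem_piFinset] at hx
    rw [Fintype.mem_piFinset]
    exact fun i => hx.1 i.succ
  · intro y hy
    refine le_trans ?_ (root_box Nf hq B (Fin.cons 0 y))
    refine Finset.card_le_card_of_injOn (fun x => x 0) ?_ ?_
    · intro x hx
      simp only [Finset.coe_filter, Set.mem_ofPred_eq, Finset.mem_filter, box,
        Fintype.mem_piFinset] at hx
      obtain ⟨⟨hx1, hx2⟩, hx3⟩ := hx
      simp only [Finset.coe_filter, Set.mem_ofPred_eq]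
      refine ⟨hx1 0, ?_⟩
      rw [Fin.update_cons_zero, ← hx3, Fin.cons_self_tail]
      exact hx2
    · intro x hx x' hx' hxx
      simp only [Finset.coe_filter, Set.mem_ofPred_eq] at hx hx'
      rw [← Fin.cons_self_tail x, ← Fin.cons_self_tail x', hx.2, hx'.2]
      exact congrArg (fun t => (Fin.cons t y : Fin (Nf.n + 1) → ℤ)) hxx

open Pool.Agent.H6.HR in
/-- the sum over the box of the number of small prime divisors of the value -/
theorem sum_omega (Nf : NForm p) (B : ℕ) :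
    ((∑ x ∈ box Nf.n B, ((P B).filter (fun q => q ∣ Nf.F x)).card : ℕ) : ℝ) ≤
      2 * (Nf.n + 1) * (B : ℝ) ^ (Nf.n + 1) * ∑ q ∈ P B, (1 : ℝ) / q := by
  have h1 : ∑ x ∈ box Nf.n B, ((P B).filter (fun q => q ∣ Nf.F x)).card =
      ∑ q ∈ P B, ((box Nf.n B).filter (fun x => q ∣ Nf.F x)).card := by
    simp only [Finset.card_filter]
    exact Finset.sum_comm
  rw [h1]
  push_cast
  rw [Finset.mul_sum]
  refine Finset.sum_le_sum fun q hq => ?_
  rw [mem_P] at hq
  have hq0 : (0 : ℝ) < q := by exact_mod_cast hq.1.pos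
  have h2 := box_dvd Nf hq.1 B
  have h3 : (((box Nf.n B).filter (fun x => q ∣ Nf.F x)).card : ℝ) ≤
      (((B / q : ℕ) : ℝ) + 1) * (Nf.n + 1) * (B : ℝ) ^ Nf.n := by exact_mod_cast h2
  refine h3.trans ?_
  have h4 : ((B / q : ℕ) : ℝ) ≤ (B : ℝ) / q := Nat.cast_div_le
  have h5 : (1 : ℝ) ≤ (B : ℝ) / q := by
    rw [le_div_iff₀ hq0, one_mul]
    exact_mod_cast hq.2
  have h6 : ((B / q : ℕ) : ℝ) + 1 ≤ 2 * ((B : ℝ) / q) := by linarith
  calc (((B / q : ℕ) : ℝ) + 1) * (Nf.n + 1) * (B : ℝ) ^ Nf.n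
      ≤ (2 * ((B : ℝ) / q)) * (Nf.n + 1) * (B : ℝ) ^ Nf.n := by gcongr
    _ = 2 * (Nf.n + 1) * (B : ℝ) ^ (Nf.n + 1) * (1 / q) := by rw [pow_succ]; ring

open Pool.Agent.H6.HR in
/-- Markov's inequality: few points of the box have a value with many small prime divisors -/
theorem bad_le (Nf : NForm p) (B : ℕ) (s : ℝ) :
    (((box Nf.n B).filter (fun x => s < (((P B).filter (fun q => q ∣ Nf.F x)).card : ℝ))).card : ℝ)
        * s ≤ 2 * (Nf.n + 1) * (B : ℝ) ^ (Nf.n + 1) * ∑ q ∈ P B, (1 : ℝ) / q := by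
  refine le_trans ?_ (sum_omega Nf B)
  rw [← nsmul_eq_mul]
  push_cast
  calc _ ≤ ∑ x ∈ (box Nf.n B).filter
        (fun x => s < (((P B).filter (fun q => q ∣ Nf.F x)).card : ℝ)),
          (((P B).filter (fun q => q ∣ Nf.F x)).card : ℝ) := by
        refine Finset.card_nsmul_le_sum _ _ _ fun x hx => ?_
        exact (Finset.mem_filter.mp hx).2.le
    _ ≤ _ := Finset.sum_le_sum_of_subset_of_nonneg (Finset.filter_subset _ _)
        fun _ _ _ => Nat.cast_nonneg _

/-- the primes of odd multiplicity -/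
noncomputable def oddPr (m : ℕ) : Finset ℕ := m.primeFactors.filter (fun q => Odd (padicValNat q m))

theorem jac_prod_right (a : ℤ) (s : Finset ℕ) (f : ℕ → ℕ) (hf : ∀ i ∈ s, f i ≠ 0) :
    J(a | ∏ i ∈ s, f i) = ∏ i ∈ s, J(a | f i) := by
  classical
  induction s using Finset.induction_on with
  | empty => simp
  | insert i s his ih =>
    rw [Finset.prod_insert his, Finset.prod_insert his, jacobiSym.mul_right' a (hf i (by simp))
      (Finset.prod_ne_zero_iff.mpr fun j hj => hf j (by simp [hj])),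
      ih fun j hj => hf j (by simp [hj])]

theorem exists_neg_fl {a : ℤ} {m : ℕ} (h : J(a | m) = -1) : ∃ q ∈ oddPr m, J(a | q) = -1 := by
  have hm : m ≠ 0 := by
    rintro rfl
    rw [jacobiSym.zero_right] at h
    exact absurd h (by norm_num)
  by_contra hcon
  push Not at hcon
  have h1 : J(a | m) = ∏ q ∈ m.primeFactors, J(a | q) ^ (padicValNat q m) := by
    have h3 := Nat.prod_factorization_pow_eq_self hm
    rw [Finsupp.prod, Nat.support_factorization] at h3
    conv_lhs => rw [← h3]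
    rw [jac_prod_right]
    · refine Finset.prod_congr rfl fun q hq => ?_
      rw [jacobiSym.pow_right, Nat.factorization_def _ (Nat.prime_of_mem_primeFactors hq)]
    · intro q hq
      exact pow_ne_zero _ (Nat.prime_of_mem_primeFactors hq).ne_zero
  have h2 : 0 ≤ J(a | m) := by
    rw [h1]
    refine Finset.prod_nonneg fun q hq => ?_
    rcases Nat.even_or_odd (padicValNat q m) with he | ho
    · exact he.pow_nonneg _
    · have h3 := hcon q (Finset.mem_filter.mpr ⟨hq, ho⟩)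
      have h4 : 0 ≤ J(a | q) := by
        rcases jacobiSym.trichotomy a q with h5 | h5 | h5
        · rw [h5]
        · rw [h5]; norm_num
        · exact absurd h5 h3
      exact pow_nonneg h4 _
  rw [h] at h2
  norm_num at h2

open Pool.Agent.H6.HR in
/-- the choice of a good point -/
theorem select (Nf : NForm p) (W : ℕ) (D : Finset ℕ) (hD : D.Nonempty) (B : ℕ) (hB : 1 ≤ B)
    (s M : ℝ) (hM : 0 < M)
    (hmany : ∀ d ∈ D, (B : ℝ) ^ (Nf.n + 1) ≤ M * (((box Nf.n B).filter (fun x =>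
      (Nf.F x).Coprime (2 * p * W) ∧ J(-(d : ℤ) | Nf.F x) = -1)).card : ℝ))
    (hbad : M * (((box Nf.n B).filter
      (fun x => s < (((P B).filter (fun q => q ∣ Nf.F x)).card : ℝ))).card : ℝ) ≤
        1 / 2 * (B : ℝ) ^ (Nf.n + 1)) :
    ∃ x ∈ box Nf.n B, (((P B).filter (fun q => q ∣ Nf.F x)).card : ℝ) ≤ s ∧
      (D.card : ℝ) ≤ 2 * M * ((D.filter (fun d : ℕ =>
        (Nf.F x).Coprime (2 * p * W) ∧ J(-(d : ℤ) | Nf.F x) = -1)).card : ℝ) := by
  classical
  set om : (Fin (Nf.n + 1) → ℤ) → ℝ := fun x => (((P B).filter (fun q => q ∣ Nf.F x)).card : ℝ)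
    with hom
  set good := (box Nf.n B).filter (fun x => om x ≤ s) with hgood
  by_contra hcon
  push Not at hcon
  have h1 : ∀ d ∈ D, (B : ℝ) ^ (Nf.n + 1) ≤ 2 * M * ((good.filter (fun x =>
      (Nf.F x).Coprime (2 * p * W) ∧ J(-(d : ℤ) | Nf.F x) = -1)).card : ℝ) := by
    intro d hd
    have h2 : ((box Nf.n B).filter (fun x =>
        (Nf.F x).Coprime (2 * p * W) ∧ J(-(d : ℤ) | Nf.F x) = -1)).card ≤
        (good.filter (fun x =>
        (Nf.F x).Coprime (2 * p * W) ∧ J(-(d : ℤ) | Nf.F x) = -1)).card +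
        ((box Nf.n B).filter (fun x => s < om x)).card := by
      refine (Finset.card_le_card ?_).trans (Finset.card_union_le _ _)
      intro x hx
      rw [Finset.mem_filter] at hx
      simp only [Finset.mem_union, Finset.mem_filter, hgood]
      rcases le_or_gt (om x) s with h3 | h3
      · exact Or.inl ⟨⟨hx.1, h3⟩, hx.2⟩
      · exact Or.inr ⟨hx.1, h3⟩
    have h3 : (((box Nf.n B).filter (fun x =>
        (Nf.F x).Coprime (2 * p * W) ∧ J(-(d : ℤ) | Nf.F x) = -1)).card : ℝ) ≤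
        ((good.filter (fun x =>
        (Nf.F x).Coprime (2 * p * W) ∧ J(-(d : ℤ) | Nf.F x) = -1)).card : ℝ) +
        (((box Nf.n B).filter (fun x => s < om x)).card : ℝ) := by exact_mod_cast h2
    have h4 := hmany d hd
    have h5 := mul_le_mul_of_nonneg_left h3 hM.le
    have h6 : M * (((box Nf.n B).filter (fun x => s < om x)).card : ℝ) ≤
      1 / 2 * (B : ℝ) ^ (Nf.n + 1) := hbad
    nlinarith
  have h2 : (D.card : ℝ) * (B : ℝ) ^ (Nf.n + 1) ≤ 2 * M * ∑ x ∈ good, ((D.filter (fun d : ℕ =>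
        (Nf.F x).Coprime (2 * p * W) ∧ J(-(d : ℤ) | Nf.F x) = -1)).card : ℝ) := by
    have h3 : ∑ x ∈ good, ((D.filter (fun d : ℕ =>
        (Nf.F x).Coprime (2 * p * W) ∧ J(-(d : ℤ) | Nf.F x) = -1)).card : ℝ) =
        ∑ d ∈ D, ((good.filter (fun x =>
        (Nf.F x).Coprime (2 * p * W) ∧ J(-(d : ℤ) | Nf.F x) = -1)).card : ℝ) := by
      simp only [Finset.card_filter]
      push_cast
      exact Finset.sum_comm
    rw [h3, Finset.mul_sum, ← nsmul_eq_mul]
    exact Finset.card_nsmul_le_sum _ _ _ h1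
  have hBpos : (0 : ℝ) < (B : ℝ) ^ (Nf.n + 1) := by
    have : (0 : ℝ) < B := by exact_mod_cast (by omega : 0 < B)
    positivity
  have hDpos : (0 : ℝ) < D.card := by exact_mod_cast hD.card_pos
  rcases good.eq_empty_or_nonempty with he | hne
  · rw [he, Finset.sum_empty, mul_zero] at h2
    have := mul_pos hDpos hBpos
    linarith
  · have h3 : 2 * M * ∑ x ∈ good, ((D.filter (fun d : ℕ =>
        (Nf.F x).Coprime (2 * p * W) ∧ J(-(d : ℤ) | Nf.F x) = -1)).card : ℝ) <
        ∑ x ∈ good, (D.card : ℝ) := by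
      rw [Finset.mul_sum]
      refine Finset.sum_lt_sum_of_nonempty hne fun x hx => ?_
      rw [hgood, Finset.mem_filter] at hx
      exact hcon x hx.1 hx.2
    rw [Finset.sum_const, nsmul_eq_mul] at h3
    have h4 : (good.card : ℝ) ≤ (B : ℝ) ^ (Nf.n + 1) := by
      have : good.card ≤ B ^ (Nf.n + 1) := by
        rw [← card_box]
        exact Finset.card_le_card (Finset.filter_subset _ _)
      exact_mod_cast this
    have h5 := mul_le_mul_of_nonneg_right h4 hDpos.le
    linarith [mul_comm (D.card : ℝ) ((B : ℝ) ^ (Nf.n + 1))]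

theorem oddPr_dvd (m : ℕ) : (∏ q ∈ oddPr m, q) ∣ m :=
  (Finset.prod_dvd_prod_of_subset _ _ _ (Finset.filter_subset _ _)).trans
    (Nat.prod_primeFactors_dvd m)

theorem sum_log_oddPr {m : ℕ} (hm : m ≠ 0) : ∑ q ∈ oddPr m, Real.log q ≤ Real.log m := by
  have hne : ∀ q ∈ oddPr m, (q : ℝ) ≠ 0 := by
    intro q hq
    have := (Nat.prime_of_mem_primeFactors (Finset.mem_filter.mp hq).1).ne_zero
    exact_mod_cast this
  rw [← Real.log_prod hne]
  refine Real.log_le_log ?_ ?_
  · refine Finset.prod_pos fun q hq => lt_of_le_of_ne (Nat.cast_nonneg _) (hne q hq).symm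
  · have h1 := Nat.le_of_dvd (Nat.pos_of_ne_zero hm) (oddPr_dvd m)
    have h2 : ((∏ q ∈ oddPr m, q : ℕ) : ℝ) ≤ m := Nat.cast_le.mpr h1
    rwa [Nat.cast_prod] at h2

theorem al_oddPr (Nf : NForm p) (hp : p.Prime) {W : ℕ} {x : Fin (Nf.n + 1) → ℤ}
    (hx : (Nf.F x).Coprime (2 * p * W)) (h0 : Nf.F x ≠ 0) {q : ℕ} (hq : q ∈ oddPr (Nf.F x)) :
    Al p W q := by
  rw [oddPr, Finset.mem_filter, Nat.mem_primeFactors] at hq
  obtain ⟨⟨hq1, hq2, -⟩, hq3⟩ := hq
  have key : ∀ r : ℕ, r ∣ Nf.F x → r ∣ 2 * p * W → r = 1 := fun r h1 h2 =>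
    Nat.dvd_one.mp (hx ▸ Nat.dvd_gcd h1 h2)
  refine ⟨hq1, ?_, ?_, ?_⟩
  · intro h
    exact hp.one_lt.ne' (key p (h.trans hq2) (Dvd.dvd.mul_right (Dvd.intro_left _ rfl) _))
  · intro h
    have := Nf.parity x q hq1 h h0
    exact (Nat.not_even_iff_odd.mpr hq3) this
  · intro h
    exact hq1.one_lt.ne' (key q hq2 (h.mul_left _))

open Pool.Agent.H6.HR in
theorem card_oddPr_le {m B : ℕ} (hm : m ≠ 0) (hB : 2 ≤ B) (k : ℕ) (hk : m ≤ B ^ k) :
    (oddPr m).card ≤ ((P B).filter (fun q => q ∣ m)).card + k := by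
  classical
  have h1 : oddPr m ⊆ (P B).filter (fun q => q ∣ m) ∪ m.primeFactors.filter (fun q => B < q) := by
    intro q hq
    have hq1 := Nat.mem_primeFactors.mp (Finset.mem_filter.mp hq).1
    rw [Finset.mem_union, Finset.mem_filter, Finset.mem_filter, mem_P]
    rcases le_or_gt q B with h | h
    · exact Or.inl ⟨⟨hq1.1, h⟩, hq1.2.1⟩
    · exact Or.inr ⟨(Finset.mem_filter.mp hq).1, h⟩
  refine (Finset.card_le_card h1).trans ((Finset.card_union_le _ _).trans ?_)
  refine Nat.add_le_add_left ?_ _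
  have h2 : B ^ (m.primeFactors.filter (fun q => B < q)).card ≤ m := by
    calc _ ≤ ∏ q ∈ m.primeFactors.filter (fun q => B < q), q := by
          rw [← Finset.prod_const]
          exact Finset.prod_le_prod' fun q hq => (Finset.mem_filter.mp hq).2.le
      _ ≤ m := Nat.le_of_dvd (Nat.pos_of_ne_zero hm)
          ((Finset.prod_dvd_prod_of_subset _ _ _ (Finset.filter_subset _ _)).trans
            (Nat.prod_primeFactors_dvd m))
  exact (Nat.pow_le_pow_iff_right (by omega)).mp (h2.trans hk)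

open Filter in
theorem ev_logpow (K r : ℝ) : ∀ᶠ L : ℝ in atTop, K * (Real.log L) ^ r ≤ √L := by
  have h := (isLittleO_log_rpow_rpow_atTop r (by norm_num : (0 : ℝ) < 1 / 2)).def
    (c := 1 / (|K| + 1)) (by positivity)
  filter_upwards [h, eventually_gt_atTop 1] with L hL hL1
  have h0 : 0 ≤ (Real.log L) ^ r := Real.rpow_nonneg (Real.log_nonneg hL1.le) _
  have h1 : 0 ≤ L ^ (1 / 2 : ℝ) := Real.rpow_nonneg (by linarith) _
  rw [Real.norm_of_nonneg h0, Real.norm_of_nonneg h1] at hL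
  rw [Real.sqrt_eq_rpow]
  have hK : (0 : ℝ) < |K| + 1 := by positivity
  have h2 : (|K| + 1) * (Real.log L) ^ r ≤ L ^ (1 / 2 : ℝ) := by
    calc (|K| + 1) * (Real.log L) ^ r ≤ (|K| + 1) * (1 / (|K| + 1) * L ^ (1 / 2 : ℝ)) := by gcongr
      _ = L ^ (1 / 2 : ℝ) := by field_simp
  refine le_trans ?_ h2
  exact mul_le_mul_of_nonneg_right ((le_abs_self K).trans (by linarith)) h0

open Pool.Agent.H6.HR Filter in
theorem fl_of_many {p : ℕ} (hp : p.Prime) (_hp2 : p ≠ 2) (Nf : NForm p) (h : Many Nf) : FL p := by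
  intro W hW
  obtain ⟨C₁, L₁, hC₁, hm⟩ := h W hW
  obtain ⟨C₂, hC₂, hM⟩ := sum_P_le
  obtain ⟨c, hc, hbd⟩ := Nf.bound
  have ev : ∀ᶠ L : ℝ in atTop, L₁ ≤ L ∧ 1 ≤ L ∧ 2 ≤ Real.log L ∧
      (4 * (Nf.n + 1) * (2 + C₂)) * (Real.log L) ^ (C₁ + 1) ≤ √L ∧ (Nf.n + 2 : ℝ) ≤ √L ∧
      9 * p * W ≤ Real.exp L ∧ c ≤ Real.exp L := by
    refine (eventually_ge_atTop L₁).and ((eventually_ge_atTop 1).and
      ((Real.tendsto_log_atTop.eventually_ge_atTop 2).and ((ev_logpow _ _).and
      ((Real.tendsto_sqrt_atTop.eventually_ge_atTop _).and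
      ((Real.tendsto_exp_atTop.eventually_ge_atTop _).and
      (Real.tendsto_exp_atTop.eventually_ge_atTop _))))))
  obtain ⟨L₀, hL₀⟩ := eventually_atTop.mp ev
  refine ⟨C₁ + 1 + |Real.log c| + 2 * (Nf.n + 1), L₀, by positivity, ?_⟩
  intro L hL D hD hD2
  obtain ⟨h1, h2, h3, h4, h5, h6, h7⟩ := hL₀ L hL
  set C : ℝ := C₁ + 1 + |Real.log c| + 2 * (Nf.n + 1) with hC
  have hpW : (1 : ℝ) ≤ p * W := by
    have : 1 ≤ p * W := Nat.mul_pos hp.pos hW
    exact_mod_cast this
  have hE1 : 1 ≤ Real.exp L := Real.one_le_exp (by linarith)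
  obtain ⟨B, hB⟩ : ∃ B, B = ⌈8 * p * W * Real.exp L⌉₊ := ⟨_, rfl⟩
  have hB1 : 8 * p * W * Real.exp L ≤ B := by rw [hB]; exact Nat.le_ceil _
  have hB2 : (B : ℝ) ≤ Real.exp (2 * L) := by
    have h8 : (B : ℝ) < 8 * p * W * Real.exp L + 1 := by
      rw [hB]; exact Nat.ceil_lt_add_one (by positivity)
    have h9 : 1 ≤ p * W * Real.exp L := one_le_mul_of_one_le_of_one_le hpW hE1
    have h10 : 9 * p * W * Real.exp L ≤ Real.exp L * Real.exp L :=
      mul_le_mul_of_nonneg_right h6 (Real.exp_pos _).le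
    rw [two_mul, Real.exp_add]
    nlinarith
  have hBe : Real.exp L ≤ B := by
    refine le_trans ?_ hB1
    have : Real.exp L ≤ (p * W) * Real.exp L := le_mul_of_one_le_left (Real.exp_pos _).le hpW
    nlinarith [Real.exp_pos L]
  have hB3 : 8 ≤ (B : ℝ) := by
    have h9 : 1 ≤ p * W * Real.exp L := one_le_mul_of_one_le_of_one_le hpW hE1
    nlinarith
  have hB4 : 8 ≤ B := by exact_mod_cast hB3
  have hlogB : Real.log B ≤ 2 * L := by
    have := Real.log_le_log (by linarith) hB2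
    rwa [Real.log_exp] at this
  have hlogB0 : 0 < Real.log B := Real.log_pos (by linarith)
  have hll : Real.log (Real.log B) ≤ 1 + Real.log L := by
    have h8 := Real.log_le_log hlogB0 hlogB
    rw [Real.log_mul (by norm_num) (by linarith)] at h8
    have := Real.log_two_lt_d9
    linarith
  have hsum := hM B (by omega)
  have hsum2 : ∑ q ∈ P B, (1 : ℝ) / q ≤ (2 + C₂) * Real.log L := by nlinarith
  have hsL : 0 < √L := Real.sqrt_pos.mpr (by linarith)
  have hlL0 : 0 < Real.log L := by linarith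
  have hM0 : 0 < (Real.log L) ^ C₁ := Real.rpow_pos_of_pos hlL0 _
  have hBpos : (0 : ℝ) < (B : ℝ) ^ (Nf.n + 1) := by positivity
  have hbad := bad_le Nf B (√L)
  obtain ⟨x, hx1, hx2, hx3⟩ := select Nf W D hD B (by omega) (√L) ((Real.log L) ^ C₁) hM0
    (fun d hd => by
      obtain ⟨g1, g2, g3, g4⟩ := hD2 d hd
      exact hm L h1 d g1 g2 g3 g4 B hB1)
    (by
      set b : ℝ := (((box Nf.n B).filter
        (fun x => √L < (((P B).filter (fun q => q ∣ Nf.F x)).card : ℝ))).card : ℝ) with hb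
      refine le_of_mul_le_mul_right ?_ hsL
      have h8 : b * √L ≤ 2 * (Nf.n + 1) * (B : ℝ) ^ (Nf.n + 1) * ((2 + C₂) * Real.log L) :=
        hbad.trans (mul_le_mul_of_nonneg_left hsum2 (by positivity))
      have h9 := mul_le_mul_of_nonneg_left h8 hM0.le
      have h10 := mul_le_mul_of_nonneg_right h4 hBpos.le
      have h11 : (Real.log L) ^ (C₁ + 1) = (Real.log L) ^ C₁ * Real.log L := by
        rw [Real.rpow_add hlL0, Real.rpow_one]
      rw [h11] at h10
      nlinarith)
  -- the chosen point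
  have hDpos : (0 : ℝ) < D.card := by exact_mod_cast hD.card_pos
  have hA : (D.filter (fun d : ℕ =>
        (Nf.F x).Coprime (2 * p * W) ∧ J(-(d : ℤ) | Nf.F x) = -1)).Nonempty := by
    by_contra he
    rw [Finset.not_nonempty_iff_eq_empty] at he
    rw [he, Finset.card_empty, Nat.cast_zero, mul_zero] at hx3
    linarith
  obtain ⟨d₀, hd₀⟩ := hA
  obtain ⟨-, hcop, hJ⟩ := Finset.mem_filter.mp hd₀
  have hF0 : Nf.F x ≠ 0 := by
    intro h0
    rw [h0, jacobiSym.zero_right] at hJ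
    exact absurd hJ (by norm_num)
  have hF1 : (Nf.F x : ℝ) ≤ c * (B : ℝ) ^ (Nf.n + 1) := by
    refine hbd B x fun i => ?_
    have h8 := Fintype.mem_piFinset.mp hx1 i
    rw [Finset.mem_Ico] at h8
    rw [abs_of_nonneg (by exact_mod_cast h8.1)]
    exact_mod_cast h8.2.le
  have hF2 : Nf.F x ≤ B ^ (Nf.n + 2) := by
    have : (Nf.F x : ℝ) ≤ (B : ℝ) ^ (Nf.n + 2) := by
      refine hF1.trans ?_
      rw [pow_succ _ (Nf.n + 1), mul_comm]
      exact mul_le_mul_of_nonneg_left (h7.trans hBe) hBpos.le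
    exact_mod_cast this
  have hlogC : Real.log L ≤ (Real.log L) ^ C := by
    calc Real.log L = (Real.log L) ^ (1 : ℝ) := (Real.rpow_one _).symm
      _ ≤ (Real.log L) ^ C := Real.rpow_le_rpow_of_exponent_le (by linarith) (by
          rw [hC]
          have := abs_nonneg (Real.log c)
          have : (0 : ℝ) ≤ Nf.n := Nat.cast_nonneg _
          linarith)
  refine ⟨oddPr (Nf.F x), fun q hq => al_oddPr Nf hp hcop hF0 hq, ?_, ?_, ?_⟩
  · have h8 := card_oddPr_le hF0 (by omega : 2 ≤ B) (Nf.n + 2) hF2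
    have h9 : ((oddPr (Nf.F x)).card : ℝ) ≤
        (((P B).filter (fun q => q ∣ Nf.F x)).card : ℝ) + (Nf.n + 2) := by exact_mod_cast h8
    have h10 : ((oddPr (Nf.F x)).card : ℝ) ≤ √L * 2 := by linarith
    exact h10.trans (mul_le_mul_of_nonneg_left (by linarith) hsL.le)
  · refine (sum_log_oddPr hF0).trans ?_
    have h8 := Real.log_le_log (by exact_mod_cast Nat.pos_of_ne_zero hF0) hF1
    rw [Real.log_mul hc.ne' hBpos.ne', Real.log_pow] at h8
    refine h8.trans ?_
    have h9 := le_abs_self (Real.log c)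
    have h10 : ((Nf.n + 1 : ℕ) : ℝ) * Real.log B ≤ (Nf.n + 1 : ℕ) * (2 * L) :=
      mul_le_mul_of_nonneg_left hlogB (Nat.cast_nonneg _)
    push_cast at h10 ⊢
    rw [hC]
    have h11 := abs_nonneg (Real.log c)
    nlinarith
  · refine hx3.trans ?_
    have h8 : ((D.filter (fun d : ℕ =>
        (Nf.F x).Coprime (2 * p * W) ∧ J(-(d : ℤ) | Nf.F x) = -1)).card : ℝ) ≤
        ((D.filter (fun d : ℕ => ∃ q ∈ oddPr (Nf.F x), J(-(d : ℤ) | q) = -1)).card : ℝ) := by
      exact_mod_cast Finset.card_le_card fun d hd => by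
        rw [Finset.mem_filter] at hd ⊢
        exact ⟨hd.1, exists_neg_fl hd.2.2⟩
    have h9 : 2 * (Real.log L) ^ C₁ ≤ (Real.log L) ^ C := by
      calc 2 * (Real.log L) ^ C₁ ≤ Real.log L * (Real.log L) ^ C₁ :=
            mul_le_mul_of_nonneg_right h3 hM0.le
        _ = (Real.log L) ^ (C₁ + 1) := by rw [Real.rpow_add hlL0, Real.rpow_one, mul_comm]
        _ ≤ (Real.log L) ^ C := Real.rpow_le_rpow_of_exponent_le (by linarith) (by
            rw [hC]
            have := abs_nonneg (Real.log c)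
            have : (0 : ℝ) ≤ Nf.n := Nat.cast_nonneg _
            linarith)
    exact mul_le_mul h9 h8 (Nat.cast_nonneg _) (Real.rpow_nonneg hlL0.le _)

end FLgen

end Pool.Agent.PowF
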