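import Pool.Agent.PowF.JacSum

/-!
Module A5: the large sieve bound for the number of exceptional `d`.
-/

set_option autoImplicit false

namespace Pool.Agent.PowF

open NumberTheorySymbols

theorem jac_prod (a : ℤ) {ι : Type*} (s : Finset ι) (f : ι → ℕ) (hf : ∀ i ∈ s, f i ≠ 0) :
    J(a | ∏ i ∈ s, f i) = ∏ i ∈ s, J(a | f i) := by
  classical
  induction s using Finset.induction_on with
  | empty => simp
  | insert i s hi ih =>
    rw [Finset.prod_insert hi, Finset.prod_insert hi]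
    have h1 : f i ≠ 0 := hf i (Finset.mem_insert_self _ _)
    have h2 : ∏ j ∈ s, f j ≠ 0 :=
      Finset.prod_ne_zero_iff.mpr fun j hj => hf j (Finset.mem_insert_of_mem hj)
    have : NeZero (f i) := ⟨h1⟩
    have : NeZero (∏ j ∈ s, f j) := ⟨h2⟩
    rw [jacobiSym.mul_right, ih fun j hj => hf j (Finset.mem_insert_of_mem hj)]

/-- the sum of the symbols over `P` is large for exceptional `d` -/
theorem exc_S_ge (P : Finset ℕ) (d : ℕ) (hP : ∀ q ∈ P, q.Prime ∧ q ≠ 2)
    (hdiv : 4 * (P.filter (fun q => q ∣ d)).card ≤ P.card)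
    (hexc : 8 * (P.filter (fun q : ℕ => J(-(d : ℤ) | q) = -1)).card < P.card) :
    (P.card : ℤ) ≤ 2 * ∑ q ∈ P, J(-(d : ℤ) | q) := by
  have key : ∀ q ∈ P, (1 : ℤ) - (if q ∣ d then 1 else 0)
      - 2 * (if J(-(d : ℤ) | q) = -1 then 1 else 0) ≤ J(-(d : ℤ) | q) := by
    intro q hq
    have : NeZero q := ⟨(hP q hq).1.ne_zero⟩
    have h3 := jacobiSym.trichotomy (-(d : ℤ)) q
    by_cases hqd : q ∣ d
    · have h0 : J(-(d : ℤ) | q) = 0 := by
        rw [jacobiSym.eq_zero_iff_not_coprime]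
        intro hg
        have h1 : (q : ℤ) ∣ -(d : ℤ) := by
          rw [dvd_neg]; exact_mod_cast hqd
        have h2 : (-(d : ℤ)).gcd q = q := by
          apply Nat.dvd_antisymm
          · exact_mod_cast Int.gcd_dvd_right (-(d : ℤ)) q
          · exact Int.dvd_gcd h1 (dvd_refl _)
        rw [h2] at hg
        exact (hP q hq).1.one_lt.ne' hg
      simp [hqd, h0]
    · have hne : J(-(d : ℤ) | q) ≠ 0 := by
        apply jacobiSym.ne_zero
        rw [Int.neg_gcd]
        have h4 : (q : ℕ).Coprime d := ((hP q hq).1.coprime_iff_not_dvd).2 hqd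
        exact Int.isCoprime_iff_gcd_eq_one.mp (Nat.isCoprime_iff_coprime.mpr h4.symm)
      rcases h3 with h | h | h
      · exact absurd h hne
      · simp [hqd, h]
      · simp [hqd, h]
  have hsum := Finset.sum_le_sum key
  rw [Finset.sum_sub_distrib, Finset.sum_sub_distrib, ← Finset.mul_sum, Finset.sum_boole,
    Finset.sum_boole] at hsum
  simp only [Finset.sum_const, nsmul_eq_mul, mul_one] at hsum
  have h1 : (4 : ℤ) * ((P.filter (fun q => q ∣ d)).card : ℤ) ≤ P.card := by exact_mod_cast hdiv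
  have h2 : (8 : ℤ) * ((P.filter (fun q : ℕ => J(-(d : ℤ) | q) = -1)).card : ℤ) < P.card := by
    exact_mod_cast hexc
  linarith

/-- the product of two different squarefree numbers is not a square -/
theorem not_isSquare_mul {a b : ℕ} (ha : Squarefree a) (hb : Squarefree b) (hab : a ≠ b) :
    ¬ IsSquare (a * b) := by
  rintro ⟨c, hc⟩
  apply hab
  have ha0 : a ≠ 0 := ha.ne_zero
  have hb0 : b ≠ 0 := hb.ne_zero
  apply Nat.eq_of_factorization_eq ha0 hb0
  intro q
  have hc0 : c ≠ 0 := by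
    rintro rfl
    simp at hc
    tauto
  have h := congrArg (fun n => n.factorization q) hc
  simp only [Nat.factorization_mul ha0 hb0, Nat.factorization_mul hc0 hc0, Finsupp.add_apply] at h
  have h1 := (Nat.squarefree_iff_factorization_le_one ha0).mp ha q
  have h2 := (Nat.squarefree_iff_factorization_le_one hb0).mp hb q
  omega

/-- the mean square of the character sums over `E` -/
theorem exc_mean_sq (E : Finset ℕ) (Z N : ℕ) (hE : ∀ d ∈ E, 0 < d ∧ Squarefree d ∧ d ≤ Z) :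
    ∑ n ∈ (Finset.range (N + 1)).filter Odd, (∑ d ∈ E, J(-(d : ℤ) | n)) ^ 2 ≤
      (E.card : ℤ) * N + (E.card : ℤ) ^ 2 * (4 * Z ^ 2) := by
  have h1 : ∑ n ∈ (Finset.range (N + 1)).filter Odd, (∑ d ∈ E, J(-(d : ℤ) | n)) ^ 2 =
      ∑ d ∈ E, ∑ e ∈ E, ∑ n ∈ (Finset.range (N + 1)).filter Odd, J(((d * e : ℕ) : ℤ) | n) := by
    have : ∀ n : ℕ, (∑ d ∈ E, J(-(d : ℤ) | n)) ^ 2 =
        ∑ d ∈ E, ∑ e ∈ E, J(((d * e : ℕ) : ℤ) | n) := by
      intro n
      rw [sq, Finset.sum_mul_sum]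
      refine Finset.sum_congr rfl fun d _ => Finset.sum_congr rfl fun e _ => ?_
      rw [← jacobiSym.mul_left]
      push_cast
      ring_nf
    simp_rw [this]
    rw [Finset.sum_comm]
    refine Finset.sum_congr rfl fun d _ => ?_
    rw [Finset.sum_comm]
  rw [h1]
  have hZ : ∀ d ∈ E, ∀ e ∈ E, ∑ n ∈ (Finset.range (N + 1)).filter Odd, J(((d * e : ℕ) : ℤ) | n) ≤
      (if e = d then (N : ℤ) else 0) + 4 * Z ^ 2 := by
    intro d hd e he
    by_cases hde : e = d
    · subst hde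
      rw [if_pos rfl]
      have h2 : ∑ n ∈ (Finset.range (N + 1)).filter Odd, J(((e * e : ℕ) : ℤ) | n) ≤
          ∑ n ∈ (Finset.range (N + 1)).filter Odd, (1 : ℤ) := by
        refine Finset.sum_le_sum fun n _ => ?_
        rcases jacobiSym.trichotomy (((e * e : ℕ) : ℤ)) n with h | h | h <;> rw [h] <;> norm_num
      have h3 : ∑ n ∈ (Finset.range (N + 1)).filter Odd, (1 : ℤ) ≤ N := by
        simp only [Finset.sum_const, nsmul_eq_mul, mul_one]
        have hs : (Finset.range (N + 1)).filter Odd ⊆ Finset.Icc 1 N := by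
          intro n hn
          rw [Finset.mem_filter, Finset.mem_range] at hn
          rw [Finset.mem_Icc]
          exact ⟨hn.2.pos, by omega⟩
        have h := Finset.card_le_card hs
        rw [Nat.card_Icc, Nat.add_sub_cancel] at h
        exact_mod_cast h
      have h4 : (0 : ℤ) ≤ 4 * Z ^ 2 := by positivity
      linarith
    · rw [if_neg hde, zero_add]
      have hns : ¬ IsSquare (d * e) :=
        not_isSquare_mul (hE d hd).2.1 (hE e he).2.1 (fun h => hde h.symm)
      have h5 := jac_sum (D := d * e) (Nat.mul_pos (hE d hd).1 (hE e he).1) hns (N + 1)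
      have h6 := le_of_abs_le h5
      refine h6.trans ?_
      have h7 : d * e ≤ Z * Z := Nat.mul_le_mul (hE d hd).2.2 (hE e he).2.2
      have h8 : ((d * e : ℕ) : ℤ) ≤ ((Z * Z : ℕ) : ℤ) := by exact_mod_cast h7
      have h9 : ((Z * Z : ℕ) : ℤ) = (Z : ℤ) ^ 2 := by push_cast; ring
      rw [h9] at h8
      linarith
  have h10 := Finset.sum_le_sum fun d hd => Finset.sum_le_sum (hZ d hd)
  refine h10.trans (le_of_eq ?_)
  have h11 : ∀ d ∈ E, ∑ e ∈ E, ((if e = d then (N : ℤ) else 0) + 4 * (Z : ℤ) ^ 2) =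
      (N : ℤ) + (E.card : ℤ) * (4 * (Z : ℤ) ^ 2) := by
    intro d hd
    rw [Finset.sum_add_distrib, Finset.sum_ite_eq' E d, if_pos hd, Finset.sum_const, nsmul_eq_mul]
  rw [Finset.sum_congr rfl h11, Finset.sum_const, nsmul_eq_mul]
  ring

/-- the number of `k`-tuples of primes with given product -/
theorem exc_fibre (P : Finset ℕ) (hP : ∀ q ∈ P, q.Prime) (k n : ℕ) :
    ((Fintype.piFinset (fun _ : Fin k => P)).filter (fun f => ∏ i, f i = n)).card ≤ k ^ k := by
  classical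
  rcases Finset.eq_empty_or_nonempty
    ((Fintype.piFinset (fun _ : Fin k => P)).filter (fun f => ∏ i, f i = n)) with h0 | ⟨g, hg⟩
  · rw [h0]; simp
  rw [Finset.mem_filter, Fintype.mem_piFinset] at hg
  have hn0 : n ≠ 0 := by
    rw [← hg.2]
    exact Finset.prod_ne_zero_iff.mpr fun i _ => (hP _ (hg.1 i)).ne_zero
  have hsub : (Fintype.piFinset (fun _ : Fin k => P)).filter (fun f => ∏ i, f i = n) ⊆
      Fintype.piFinset (fun _ : Fin k => Finset.univ.image g) := by
    intro f hf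
    rw [Finset.mem_filter, Fintype.mem_piFinset] at hf
    rw [Fintype.mem_piFinset]
    intro i
    have h1 : f i ∣ ∏ j, g j := by
      rw [hg.2, ← hf.2]
      exact Finset.dvd_prod_of_mem f (Finset.mem_univ i)
    obtain ⟨j, _, hj⟩ := (Prime.dvd_finsetProd_iff (hP _ (hf.1 i)).prime g).mp h1
    rw [Finset.mem_image]
    exact ⟨j, Finset.mem_univ _, ((Nat.prime_dvd_prime_iff_eq (hP _ (hf.1 i)) (hP _ (hg.1 j))).mp
      hj).symm⟩
  refine (Finset.card_le_card hsub).trans ?_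
  rw [Fintype.card_piFinset, Finset.prod_const, Finset.card_univ, Fintype.card_fin]
  refine Nat.pow_le_pow_left ?_ k
  refine Finset.card_image_le.trans ?_
  rw [Finset.card_univ, Fintype.card_fin]

/-- the large sieve bound for the number of exceptional `d` -/
theorem exc_bound (P E : Finset ℕ) (y Z k : ℕ) (hk : 1 ≤ k)
    (hP : ∀ q ∈ P, q.Prime ∧ q ≠ 2 ∧ q ≤ y) (hE : ∀ d ∈ E, 0 < d ∧ Squarefree d ∧ d ≤ Z)
    (hy : 4 * Z ^ 3 ≤ y ^ k)
    (hdiv : ∀ d ∈ E, 4 * (P.filter (fun q => q ∣ d)).card ≤ P.card)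
    (hexc : ∀ d ∈ E, 8 * (P.filter (fun q : ℕ => J(-(d : ℤ) | q) = -1)).card < P.card) :
    E.card * P.card ^ k ≤ 2 * (4 * k * y) ^ k := by
  classical
  rcases Finset.eq_empty_or_nonempty E with hE0 | ⟨d₀, hd₀⟩
  · rw [hE0]; simp
  have hZ1 : 1 ≤ Z := le_trans (hE d₀ hd₀).1 (hE d₀ hd₀).2.2
  have hPpos : 0 < P.card := lt_of_le_of_lt (Nat.zero_le _) (hexc d₀ hd₀)
  have hEpos : 0 < E.card := Finset.card_pos.mpr ⟨d₀, hd₀⟩
  have hEZ : E.card ≤ Z := by
    have : E ⊆ Finset.Icc 1 Z := fun d hd => Finset.mem_Icc.mpr ⟨(hE d hd).1, (hE d hd).2.2⟩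
    have h := Finset.card_le_card this
    rwa [Nat.card_Icc, Nat.add_sub_cancel] at h
  set F := Fintype.piFinset (fun _ : Fin k => P) with hF
  have hFcard : F.card = P.card ^ k := by
    rw [hF, Fintype.card_piFinset, Finset.prod_const, Finset.card_univ, Fintype.card_fin]
  set T : ℕ → ℤ := fun n => ∑ d ∈ E, J(-(d : ℤ) | n) with hT
  -- lower bound
  have hlow : (E.card : ℤ) * (P.card : ℤ) ^ k ≤ 2 ^ k * ∑ f ∈ F, T (∏ i, f i) := by
    have h1 : ∀ d ∈ E, (P.card : ℤ) ^ k ≤ 2 ^ k * ∑ f ∈ F, J(-(d : ℤ) | ∏ i, f i) := by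
      intro d hd
      have h2 := exc_S_ge P d (fun q hq => ⟨(hP q hq).1, (hP q hq).2.1⟩) (hdiv d hd) (hexc d hd)
      have h3 : (P.card : ℤ) ^ k ≤ (2 * ∑ q ∈ P, J(-(d : ℤ) | q)) ^ k :=
        pow_le_pow_left₀ (by positivity) h2 k
      refine h3.trans (le_of_eq ?_)
      rw [mul_pow]
      congr 1
      have h4 : (∑ q ∈ P, J(-(d : ℤ) | q)) ^ k = ∏ _i : Fin k, ∑ q ∈ P, J(-(d : ℤ) | q) := by
        rw [Finset.prod_const, Finset.card_univ, Fintype.card_fin]
      rw [h4, Finset.prod_univ_sum]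
      refine Finset.sum_congr rfl fun f hf => ?_
      rw [jac_prod]
      intro i _
      rw [Fintype.mem_piFinset] at hf
      exact (hP _ (hf i)).1.ne_zero
    have h5 := Finset.sum_le_sum h1
    rw [Finset.sum_const, nsmul_eq_mul, ← Finset.mul_sum, Finset.sum_comm] at h5
    exact h5
  -- upper bound
  have hup : (∑ f ∈ F, T (∏ i, f i)) ^ 2 ≤
      (P.card : ℤ) ^ k * (k ^ k * (E.card * (2 * y ^ k))) := by
    have h1 : (∑ f ∈ F, T (∏ i, f i)) ^ 2 ≤ F.card * ∑ f ∈ F, T (∏ i, f i) ^ 2 :=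
      sq_sum_le_card_mul_sum_sq
    refine h1.trans ?_
    rw [hFcard]
    push_cast
    refine mul_le_mul_of_nonneg_left ?_ (by positivity)
    have hmaps : ∀ f ∈ F, ∏ i, f i ∈ (Finset.range (y ^ k + 1)).filter Odd := by
      intro f hf
      rw [hF, Fintype.mem_piFinset] at hf
      rw [Finset.mem_filter, Finset.mem_range]
      constructor
      · refine Nat.lt_succ_of_le ?_
        calc ∏ i, f i ≤ ∏ _i : Fin k, y := Finset.prod_le_prod' fun i _ => (hP _ (hf i)).2.2
          _ = y ^ k := by rw [Finset.prod_const, Finset.card_univ, Fintype.card_fin]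
      · refine Finset.prod_induction f Odd (fun a b ha hb => ha.mul hb) odd_one ?_
        intro i _
        exact ((hP _ (hf i)).1.eq_two_or_odd').resolve_left (hP _ (hf i)).2.1
    have h2 : ∑ f ∈ F, T (∏ i, f i) ^ 2 ≤
        k ^ k * ∑ n ∈ (Finset.range (y ^ k + 1)).filter Odd, T n ^ 2 := by
      rw [← Finset.sum_fiberwise_of_maps_to hmaps, Finset.mul_sum]
      refine Finset.sum_le_sum fun n _ => ?_
      have h3 : ∑ f ∈ F.filter (fun f => ∏ i, f i = n), T (∏ i, f i) ^ 2 =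
          (F.filter (fun f => ∏ i, f i = n)).card * T n ^ 2 := by
        rw [← nsmul_eq_mul, ← Finset.sum_const]
        refine Finset.sum_congr rfl fun f hf => ?_
        rw [(Finset.mem_filter.mp hf).2]
      rw [h3]
      refine mul_le_mul_of_nonneg_right ?_ (sq_nonneg _)
      have := exc_fibre P (fun q hq => (hP q hq).1) k n
      exact_mod_cast this
    refine h2.trans ?_
    refine mul_le_mul_of_nonneg_left ?_ (by positivity)
    refine (exc_mean_sq E Z (y ^ k) hE).trans ?_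
    have h6 : (4 : ℤ) * Z ^ 3 ≤ y ^ k := by exact_mod_cast hy
    have h7 : (E.card : ℤ) ≤ Z := by exact_mod_cast hEZ
    have h8 : (0 : ℤ) ≤ E.card := by positivity
    have h10 : (E.card : ℤ) * (4 * Z ^ 2) ≤ y ^ k := by
      refine le_trans ?_ h6
      have : (E.card : ℤ) * (4 * Z ^ 2) ≤ Z * (4 * Z ^ 2) :=
        mul_le_mul_of_nonneg_right h7 (by positivity)
      linarith [this, (by ring : (Z : ℤ) * (4 * Z ^ 2) = 4 * Z ^ 3)]
    push_cast
    nlinarith [mul_le_mul_of_nonneg_left h10 h8]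
  -- conclusion
  have hE' : (0 : ℤ) < E.card := by exact_mod_cast hEpos
  have hP' : (0 : ℤ) < (P.card : ℤ) ^ k := by
    have : (0 : ℤ) < (P.card : ℤ) := by exact_mod_cast hPpos
    positivity
  have hA : (0 : ℤ) < (E.card : ℤ) * (P.card : ℤ) ^ k := mul_pos hE' hP'
  have h12 : ((E.card : ℤ) * (P.card : ℤ) ^ k) ^ 2 ≤
      (2 ^ k * ∑ f ∈ F, T (∏ i, f i)) ^ 2 := pow_le_pow_left₀ hA.le hlow 2
  rw [mul_pow ((2 : ℤ) ^ k)] at h12
  have h13 : ((E.card : ℤ) * (P.card : ℤ) ^ k) ^ 2 ≤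
      ((E.card : ℤ) * (P.card : ℤ) ^ k) * (2 * (4 * k * y) ^ k) := by
    refine h12.trans ?_
    calc ((2 : ℤ) ^ k) ^ 2 * (∑ f ∈ F, T (∏ i, f i)) ^ 2 ≤
        ((2 : ℤ) ^ k) ^ 2 * ((P.card : ℤ) ^ k * (k ^ k * (E.card * (2 * y ^ k)))) :=
          mul_le_mul_of_nonneg_left hup (by positivity)
      _ = ((E.card : ℤ) * (P.card : ℤ) ^ k) * (2 * (4 * k * y) ^ k) := by
          have : ((4 : ℤ)) ^ k = (2 ^ k) ^ 2 := by
            rw [← pow_mul, mul_comm k 2, pow_mul]; norm_num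
          rw [mul_pow, mul_pow, this]
          ring
  rw [sq] at h13
  have h14 := le_of_mul_le_mul_left h13 hA
  exact_mod_cast h14

end Pool.Agent.PowF
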