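import Mathlib

/-!
The greedy selection of primes.
-/

set_option autoImplicit false

namespace Pool.Agent.PowF

/-- the greedy selection with sets: if every nonempty subset of `D` has a proportion `≥ 1/M` of
elements killed by some good set, then few good sets kill `D` -/
theorem greedy_sets {D : Finset ℕ} (good : Finset ℕ → Prop) (kill : ℕ → ℕ → Prop)
    [∀ q d, Decidable (kill q d)] (M : ℝ) (hM : 1 ≤ M)
    (h : ∀ D' ⊆ D, D'.Nonempty → ∃ Q, good Q ∧
      (D'.card : ℝ) ≤ M * (D'.filter (fun d => ∃ q ∈ Q, kill q d)).card) :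
    ∃ S : Finset (Finset ℕ), (∀ Q ∈ S, good Q) ∧ (∀ d ∈ D, ∃ Q ∈ S, ∃ q ∈ Q, kill q d) ∧
      (S.card : ℝ) ≤ 1 + M * Real.log D.card := by
  classical
  induction' hn : D.card using Nat.strong_induction_on with n ih generalizing D
  rcases D.eq_empty_or_nonempty with hD | hD
  · subst hD
    refine ⟨∅, by simp, by simp, ?_⟩
    have : n = 0 := by simpa using hn.symm
    subst this
    simp
  · obtain ⟨Q, hQ, hc⟩ := h D (Finset.Subset.refl D) hD
    set A := D.filter (fun d => ∃ q ∈ Q, kill q d) with hA
    set D' := D.filter (fun d => ¬ ∃ q ∈ Q, kill q d) with hD'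
    have hcard : A.card + D'.card = D.card := Finset.card_filter_add_card_filter_not _
    have hDpos : 0 < D.card := Finset.card_pos.mpr hD
    have hApos : 0 < A.card := by
      rcases Nat.eq_zero_or_pos A.card with h0 | h0
      · rw [h0] at hc
        simp only [Nat.cast_zero, mul_zero] at hc
        have : (0 : ℝ) < D.card := by exact_mod_cast hDpos
        linarith
      · exact h0
    have hlt : D'.card < n := by omega
    have hsub : D' ⊆ D := Finset.filter_subset _ _
    obtain ⟨S', hS1, hS2, hS3⟩ := ih D'.card hlt (D := D')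
      (fun D'' h1 h2 => h D'' (h1.trans hsub) h2) rfl
    have hlogn : 0 ≤ Real.log (n : ℝ) := Real.log_natCast_nonneg n
    rcases D'.eq_empty_or_nonempty with hE | hE
    · refine ⟨{Q}, by simpa using hQ, ?_, ?_⟩
      · intro d hd
        refine ⟨Q, by simp, ?_⟩
        by_contra hcon
        have : d ∈ D' := Finset.mem_filter.mpr ⟨hd, hcon⟩
        rw [hE] at this
        simp at this
      · rw [Finset.card_singleton]
        push_cast
        nlinarith
    · refine ⟨insert Q S', ?_, ?_, ?_⟩
      · intro Q' hQ'
        rcases Finset.mem_insert.mp hQ' with rfl | h'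
        · exact hQ
        · exact hS1 _ h'
      · intro d hd
        by_cases hk : ∃ q ∈ Q, kill q d
        · exact ⟨Q, Finset.mem_insert_self _ _, hk⟩
        · obtain ⟨Q', hQ', hq⟩ := hS2 d (Finset.mem_filter.mpr ⟨hd, hk⟩)
          exact ⟨Q', Finset.mem_insert_of_mem hQ', hq⟩
      · have h1 : ((insert Q S').card : ℝ) ≤ S'.card + 1 := by
          exact_mod_cast Finset.card_insert_le Q S'
        have hD'pos : (0 : ℝ) < D'.card := by exact_mod_cast Finset.card_pos.mpr hE
        have hnr : (A.card : ℝ) + D'.card = n := by rw [← hn]; exact_mod_cast hcard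
        have hMpos : 0 < M := by linarith
        have hc' : (n : ℝ) ≤ M * A.card := by rw [← hn]; exact hc
        have hnpos : (0 : ℝ) < n := by rw [← hn]; exact_mod_cast hDpos
        have hle : (D'.card : ℝ) ≤ n * (1 - 1 / M) := by
          have : (n : ℝ) / M ≤ A.card := by
            rw [div_le_iff₀ hMpos]; linarith
          have h3 : (n : ℝ) * (1 - 1 / M) = n - n / M := by ring
          rw [h3]; linarith
        have hpos : 0 < 1 - 1 / M := by
          by_contra hcon
          push Not at hcon
          have : (n : ℝ) * (1 - 1 / M) ≤ 0 := mul_nonpos_of_nonneg_of_nonpos hnpos.le hcon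
          linarith
        have hlog : Real.log D'.card ≤ Real.log n + Real.log (1 - 1 / M) := by
          rw [← Real.log_mul hnpos.ne' hpos.ne']
          exact Real.log_le_log hD'pos hle
        have hlog2 : Real.log (1 - 1 / M) ≤ - (1 / M) := by
          have := Real.log_le_sub_one_of_pos hpos
          linarith
        have hfin : M * Real.log D'.card ≤ M * Real.log n - 1 := by
          have h4 : M * Real.log D'.card ≤ M * (Real.log n + -(1 / M)) :=
            mul_le_mul_of_nonneg_left (by linarith) hMpos.le
          have h5 : M * (Real.log n + -(1 / M)) = M * Real.log n - 1 := by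
            field_simp
            ring
          linarith
        linarith

/-- the greedy selection -/
theorem greedy {P D : Finset ℕ} (hP : P.Nonempty) (kill : ℕ → ℕ → Prop)
    [∀ q d, Decidable (kill q d)]
    (h : ∀ d ∈ D, P.card ≤ 8 * (P.filter (fun q => kill q d)).card) :
    ∃ Q ⊆ P, (∀ d ∈ D, ∃ q ∈ Q, kill q d) ∧ (Q.card : ℝ) ≤ 1 + 8 * Real.log D.card := by
  classical
  obtain ⟨S, hS1, hS2, hS3⟩ := greedy_sets (D := D) (fun Q => ∃ q ∈ P, Q = {q}) kill 8
    (by norm_num) (by
      intro D' hD' hne
      by_contra hcon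
      push Not at hcon
      have hlt : ∀ q ∈ P, 8 * (D'.filter (fun d => kill q d)).card < D'.card := by
        intro q hq
        have h1 := hcon {q} ⟨q, hq, rfl⟩
        have h2 : D'.filter (fun d => ∃ q' ∈ ({q} : Finset ℕ), kill q' d) =
            D'.filter (fun d => kill q d) := by
          apply Finset.filter_congr
          intro d _
          simp
        rw [h2] at h1
        exact_mod_cast h1
      have hsum : ∑ q ∈ P, (D'.filter (fun d => kill q d)).card =
          ∑ d ∈ D', (P.filter (fun q => kill q d)).card := by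
        simp only [Finset.card_filter]
        rw [Finset.sum_comm]
      have h1 : ∑ q ∈ P, 8 * (D'.filter (fun d => kill q d)).card < ∑ q ∈ P, D'.card :=
        Finset.sum_lt_sum_of_nonempty hP hlt
      have h2 : ∑ d ∈ D', P.card ≤ ∑ d ∈ D', 8 * (P.filter (fun q => kill q d)).card :=
        Finset.sum_le_sum (fun d hd => h d (hD' hd))
      rw [← Finset.mul_sum] at h1 h2
      rw [hsum] at h1
      simp only [Finset.sum_const, smul_eq_mul] at h1 h2
      rw [Nat.mul_comm D'.card] at h2
      omega)
  refine ⟨S.biUnion id, ?_, ?_, ?_⟩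
  · intro q hq
    obtain ⟨Q, hQ, hqQ⟩ := Finset.mem_biUnion.mp hq
    obtain ⟨q', hq', rfl⟩ := hS1 Q hQ
    simp only [id, Finset.mem_singleton] at hqQ
    rw [hqQ]; exact hq'
  · intro d hd
    obtain ⟨Q, hQ, q, hq, hk⟩ := hS2 d hd
    exact ⟨q, Finset.mem_biUnion.mpr ⟨Q, hQ, hq⟩, hk⟩
  · have : (S.biUnion id).card ≤ S.card * 1 := by
      apply Finset.card_biUnion_le_card_mul
      intro Q hQ
      obtain ⟨q', hq', rfl⟩ := hS1 Q hQ
      simp
    have h2 : ((S.biUnion id).card : ℝ) ≤ S.card := by
      exact_mod_cast (by simpa using this)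
    linarith

end Pool.Agent.PowF
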