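import Mathlib
import Pool.Agent.MertensAP.Main

/-!
A lower bound of Chebyshev type for primes `≡ 1` modulo `p`.
-/

set_option autoImplicit false

namespace Pool.Agent.PowF

/-- a lower bound of Chebyshev type for primes `≡ 1` modulo `p` -/
theorem pi_ap {p : ℕ} (hp : p.Prime) {W : ℕ} (hW : 0 < W) : ∃ c : ℝ, 0 < c ∧ ∃ y₀ : ℕ,
    ∀ y : ℕ, y₀ ≤ y → c * y / Real.log y ≤
      (((Finset.range (y + 1)).filter (fun q => q.Prime ∧ q % p = 1 ∧ ¬ q ∣ W)).card : ℝ) := by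
  classical
  obtain ⟨C, hC, hM⟩ := Pool.Agent.MertensAP.mertens_ap_mod p hp.one_le
  have hM1 := hM 1 (Nat.coprime_one_left p)
  have hp1 : 0 < p - 1 := Nat.sub_pos_of_lt hp.one_lt
  have htot : (p.totient : ℝ) = ((p - 1 : ℕ) : ℝ) := by rw [Nat.totient_prime hp]
  have hpr : (0 : ℝ) < ((p - 1 : ℕ) : ℝ) := by exact_mod_cast hp1
  set T : ℝ := Real.exp (((p - 1 : ℕ) : ℝ) * (2 * C + 1)) with hT
  have hTpos : 0 < T := Real.exp_pos _
  refine ⟨1 / T, by positivity, ⌈T * (W + 1)⌉₊ + 2, fun y hy => ?_⟩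
  have hy2 : 2 ≤ y := by omega
  have hyT : T * (W + 1) ≤ y := by
    have h1 : T * (W + 1) ≤ (⌈T * (W + 1)⌉₊ : ℝ) := Nat.le_ceil _
    have h2 : ((⌈T * ((W : ℝ) + 1)⌉₊ : ℕ) : ℝ) ≤ (y : ℝ) := Nat.cast_le.mpr (by omega)
    linarith
  have hyr : (2 : ℝ) ≤ y := by exact_mod_cast hy2
  have hypos : (0 : ℝ) < y := by linarith
  have hx2 : (W : ℝ) + 1 ≤ y / T := by
    rw [le_div_iff₀ hTpos]; linarith
  have hWr : (0 : ℝ) < W := by exact_mod_cast hW
  have hx2' : (1 : ℝ) ≤ y / T := by linarith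
  have ha := hM1 (y : ℝ) (by linarith)
  have hb := hM1 ((y : ℝ) / T) hx2'
  rw [Nat.floor_natCast] at ha
  set A1 := (Finset.Icc 1 y).filter (fun q : ℕ => q.Prime ∧ q ≡ 1 [MOD p]) with hA1
  set A2 := (Finset.Icc 1 ⌊(y : ℝ) / T⌋₊).filter (fun q : ℕ => q.Prime ∧ q ≡ 1 [MOD p]) with hA2
  have hT1 : 1 ≤ T := by
    rw [hT]
    apply Real.one_le_exp
    positivity
  have hfl : ⌊(y : ℝ) / T⌋₊ ≤ y := by
    have : ⌊(y : ℝ) / T⌋₊ ≤ ⌊(y : ℝ)⌋₊ := by
      apply Nat.floor_le_floor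
      exact div_le_self hypos.le hT1
    simpa using this
  have hsub : A2 ⊆ A1 := by
    intro q hq
    rw [hA2, Finset.mem_filter, Finset.mem_Icc] at hq
    rw [hA1, Finset.mem_filter, Finset.mem_Icc]
    exact ⟨⟨hq.1.1, hq.1.2.trans hfl⟩, hq.2⟩
  have hsplit := Finset.sum_sdiff (f := fun q : ℕ => Real.log q / q) hsub
  have hlogy : 0 < Real.log y := Real.log_pos (by linarith)
  have hlogdiv : Real.log ((y : ℝ) / T) = Real.log y - ((p - 1 : ℕ) : ℝ) * (2 * C + 1) := by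
    rw [Real.log_div hypos.ne' hTpos.ne', hT, Real.log_exp]
  rw [htot] at ha hb
  rw [hlogdiv] at hb
  have hb' : (Real.log y - ((p - 1 : ℕ) : ℝ) * (2 * C + 1)) / ((p - 1 : ℕ) : ℝ) =
      Real.log y / ((p - 1 : ℕ) : ℝ) - (2 * C + 1) := by
    field_simp
  rw [hb'] at hb
  rw [abs_le] at ha hb
  have hdiff : 1 ≤ ∑ q ∈ A1 \ A2, Real.log q / q := by
    linarith [ha.1, ha.2, hb.1, hb.2]
  set S := (Finset.range (y + 1)).filter (fun q => q.Prime ∧ q % p = 1 ∧ ¬ q ∣ W) with hS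
  have hmem : ∀ q ∈ A1 \ A2, q ∈ S ∧ (y : ℝ) / T < q ∧ q ≤ y := by
    intro q hq
    rw [Finset.mem_sdiff] at hq
    obtain ⟨h1, h2⟩ := hq
    rw [hA1, Finset.mem_filter, Finset.mem_Icc] at h1
    have hgt : (y : ℝ) / T < q := by
      by_contra hcon
      push Not at hcon
      apply h2
      rw [hA2, Finset.mem_filter, Finset.mem_Icc]
      exact ⟨⟨h1.1.1, Nat.le_floor hcon⟩, h1.2⟩
    refine ⟨?_, hgt, h1.1.2⟩
    rw [hS, Finset.mem_filter, Finset.mem_range]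
    refine ⟨by omega, h1.2.1, ?_, ?_⟩
    · have h3 : q % p = 1 % p := h1.2.2
      rw [h3]
      exact Nat.mod_eq_of_lt hp.one_lt
    · intro hdvd
      have hle : q ≤ W := Nat.le_of_dvd hW hdvd
      have hler : (q : ℝ) ≤ W := by exact_mod_cast hle
      linarith
  have hbound : ∑ q ∈ A1 \ A2, Real.log q / q ≤ ∑ q ∈ A1 \ A2, Real.log y / (y / T) := by
    apply Finset.sum_le_sum
    intro q hq
    obtain ⟨_, h2, h3⟩ := hmem q hq
    have hqpos : (0 : ℝ) < q := by linarith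
    have h3r : (q : ℝ) ≤ y := by exact_mod_cast h3
    apply div_le_div₀ hlogy.le (Real.log_le_log hqpos h3r) (by linarith) h2.le
  rw [Finset.sum_const, nsmul_eq_mul] at hbound
  have hcardle : ((A1 \ A2).card : ℝ) ≤ S.card := by
    exact_mod_cast Finset.card_le_card (fun q hq => (hmem q hq).1)
  have hfac : 0 < Real.log y / (y / T) := by positivity
  have hfin : 1 ≤ (S.card : ℝ) * (Real.log y / (y / T)) := by
    calc (1 : ℝ) ≤ _ := hdiff
      _ ≤ _ := hbound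
      _ ≤ _ := mul_le_mul_of_nonneg_right hcardle hfac.le
  rw [div_le_iff₀ hlogy]
  have h9 : (S.card : ℝ) * (Real.log y / (y / T)) = (S.card : ℝ) * Real.log y * T / y := by
    field_simp
  rw [h9, le_div_iff₀ hypos] at hfin
  rw [div_mul_eq_mul_div, div_le_iff₀ hTpos]
  linarith

end Pool.Agent.PowF
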