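import Pool.Agent.PowF.DefsA
import Pool.Agent.PowF.Exc
import Pool.Agent.PowF.PiAP
import Pool.Agent.PowF.Greedy

/-!
Module A13: the kill lemma.
-/

set_option autoImplicit false

namespace Pool.Agent.PowF

open NumberTheorySymbols Filter

/-- the primes `q ≡ 1` modulo `p` up to `y` which do not divide `W` -/
def PP (p W y : ℕ) : Finset ℕ :=
  (Finset.range (y + 1)).filter (fun q => q.Prime ∧ q % p = 1 ∧ ¬ q ∣ W)

theorem mem_PP {p W y q : ℕ} : q ∈ PP p W y ↔ q ≤ y ∧ q.Prime ∧ q % p = 1 ∧ ¬ q ∣ W := by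
  rw [PP, Finset.mem_filter, Finset.mem_range, Nat.lt_succ_iff]

theorem al_of_mem_PP {p W y q : ℕ} (hp : p.Prime) (hp2 : p ≠ 2) (h : q ∈ PP p W y) :
    Al p W q := by
  obtain ⟨h1, h2, h3, h4⟩ := mem_PP.mp h
  have hp3 : 2 < p := lt_of_le_of_ne hp.two_le (Ne.symm hp2)
  refine ⟨h2, ?_, ?_, h4⟩
  · intro h5
    rw [Nat.mod_eq_zero_of_dvd h5] at h3
    omega
  · intro h5
    have h6 : (q + 1) % p = 0 := Nat.mod_eq_zero_of_dvd h5
    rw [Nat.add_mod, h3, Nat.mod_eq_of_lt (by omega : 1 < p), Nat.mod_eq_of_lt (by omega)] at h6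
    omega

theorem ne_two_of_mem_PP {p W y q : ℕ} (hp : p.Prime) (hp2 : p ≠ 2) (h : q ∈ PP p W y) :
    q ≠ 2 := by
  obtain ⟨h1, h2, h3, h4⟩ := mem_PP.mp h
  have hp3 : 2 < p := lt_of_le_of_ne hp.two_le (Ne.symm hp2)
  rintro rfl
  rw [Nat.mod_eq_of_lt hp3] at h3
  omega

/-- one level: few primes up to `y` kill everything except a small exceptional set -/
theorem level_step {p W y k Z N : ℕ} (hp : p.Prime) (hp2 : p ≠ 2) (hk : 1 ≤ k)
    (hZy : 4 * Z ^ 3 ≤ y ^ k) (hm0 : 0 < (PP p W y).card) (hm : 4 * k * y ≤ N * (PP p W y).card)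
    (hdiv : ∀ d, 0 < d → d ≤ Z → 4 * ((PP p W y).filter (fun q => q ∣ d)).card ≤
      (PP p W y).card)
    (E : Finset ℕ) (hE : ∀ d ∈ E, 0 < d ∧ Squarefree d ∧ d ≤ Z) :
    ∃ Q E' : Finset ℕ, Q ⊆ PP p W y ∧ E' ⊆ E ∧
      (∀ d ∈ E, d ∉ E' → ∃ q ∈ Q, J(-(d : ℤ) | q) = -1) ∧
      (Q.card : ℝ) ≤ 1 + 8 * Real.log E.card ∧ E'.card ≤ 2 * N ^ k := by
  classical
  set P := PP p W y with hPdef
  have hP : P.Nonempty := Finset.card_pos.mp hm0
  set E' := E.filter (fun d : ℕ => 8 * (P.filter (fun q : ℕ => J(-(d : ℤ) | q) = -1)).card < P.card)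
    with hE'
  obtain ⟨Q, hQP, hQ, hQc⟩ := greedy (P := P) (D := E \ E') hP
    (fun q d => J(-(d : ℤ) | q) = -1) (by
      intro d hd
      rw [Finset.mem_sdiff] at hd
      by_contra hcon
      exact hd.2 (Finset.mem_filter.mpr ⟨hd.1, not_le.mp hcon⟩))
  refine ⟨Q, E', hQP, Finset.filter_subset _ _, ?_, ?_, ?_⟩
  · intro d hd hd'
    exact hQ d (Finset.mem_sdiff.mpr ⟨hd, hd'⟩)
  · refine hQc.trans ?_
    have h1 : Real.log ((E \ E').card : ℝ) ≤ Real.log (E.card : ℝ) := by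
      rcases Nat.eq_zero_or_pos (E \ E').card with h0 | h0
      · rw [h0]
        simp only [Nat.cast_zero, Real.log_zero]
        exact Real.log_natCast_nonneg _
      · refine Real.log_le_log (by exact_mod_cast h0) ?_
        exact_mod_cast Finset.card_le_card Finset.sdiff_subset
    linarith
  · have h2 := exc_bound P E' y Z k hk
      (fun q hq => ⟨(mem_PP.mp hq).2.1, ne_two_of_mem_PP hp hp2 hq, (mem_PP.mp hq).1⟩)
      (fun d hd => hE d (Finset.mem_filter.mp hd).1) hZy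
      (fun d hd => hdiv d (hE d (Finset.mem_filter.mp hd).1).1
        (hE d (Finset.mem_filter.mp hd).1).2.2)
      (fun d hd => (Finset.mem_filter.mp hd).2)
    have h3 : 2 * (4 * k * y) ^ k ≤ (2 * N ^ k) * P.card ^ k := by
      calc 2 * (4 * k * y) ^ k ≤ 2 * (N * P.card) ^ k :=
            Nat.mul_le_mul_left _ (Nat.pow_le_pow_left hm k)
        _ = (2 * N ^ k) * P.card ^ k := by rw [mul_pow]; ring
    exact Nat.le_of_mul_le_mul_right (h2.trans h3) (by positivity)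

theorem sum_log_le {p W y : ℕ} {Q : Finset ℕ} (hQ : Q ⊆ PP p W y) :
    ∑ q ∈ Q, Real.log q ≤ Q.card * Real.log y := by
  rw [← nsmul_eq_mul, ← Finset.sum_const]
  refine Finset.sum_le_sum fun q hq => ?_
  obtain ⟨h1, h2, _⟩ := mem_PP.mp (hQ hq)
  exact Real.log_le_log (by exact_mod_cast h2.pos) (by exact_mod_cast h1)

/-- all levels -/
theorem levels {p W Z N : ℕ} (hp : p.Prime) (hp2 : p ≠ 2) (hN : 1 ≤ N) (y k : ℕ → ℕ) (J : ℕ)
    (hk : ∀ j ≤ J, 1 ≤ k j) (hy1 : ∀ j ≤ J, 1 ≤ y j)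
    (hZy : ∀ j ≤ J, 4 * Z ^ 3 ≤ y j ^ k j) (hm0 : ∀ j ≤ J, 0 < (PP p W (y j)).card)
    (hm : ∀ j ≤ J, 4 * k j * y j ≤ N * (PP p W (y j)).card)
    (hdiv : ∀ j ≤ J, ∀ d, 0 < d → d ≤ Z → 4 * ((PP p W (y j)).filter (fun q => q ∣ d)).card ≤
      (PP p W (y j)).card)
    (D : Finset ℕ) (hD : ∀ d ∈ D, 0 < d ∧ Squarefree d ∧ d ≤ Z) :
    ∃ Q E : Finset ℕ, (∀ q ∈ Q, Al p W q) ∧ E ⊆ D ∧
      (∀ d ∈ D, d ∉ E → ∃ q ∈ Q, J(-(d : ℤ) | q) = -1) ∧
      (Q.card : ℝ) ≤ 1 + 8 * Real.log D.card +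
        ∑ i ∈ Finset.range J, (7 + 8 * (k i * Real.log N)) ∧
      E.card ≤ 2 * N ^ k J ∧
      ∑ q ∈ Q, Real.log q ≤ (1 + 8 * Real.log D.card) * Real.log (y 0) +
        ∑ i ∈ Finset.range J, (7 + 8 * (k i * Real.log N)) * Real.log (y (i + 1)) := by
  classical
  induction J with
  | zero =>
    obtain ⟨Q, E, h1, h2, h3, h4, h5⟩ := level_step hp hp2 (hk 0 le_rfl) (hZy 0 le_rfl)
      (hm0 0 le_rfl) (hm 0 le_rfl) (hdiv 0 le_rfl) D hD
    refine ⟨Q, E, fun q hq => al_of_mem_PP hp hp2 (h1 hq), h2, h3, ?_, h5, ?_⟩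
    · simpa using h4
    · simp only [Finset.range_zero, Finset.sum_empty, add_zero]
      refine (sum_log_le h1).trans ?_
      exact mul_le_mul_of_nonneg_right h4 (Real.log_natCast_nonneg _)
  | succ J ih =>
    obtain ⟨Q, E, h1, h2, h3, h4, h5, h6⟩ := ih (fun j hj => hk j (by omega))
      (fun j hj => hy1 j (by omega)) (fun j hj => hZy j (by omega)) (fun j hj => hm0 j (by omega))
      (fun j hj => hm j (by omega)) (fun j hj => hdiv j (by omega))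
    obtain ⟨Q', E', g1, g2, g3, g4, g5⟩ := level_step hp hp2 (hk (J + 1) le_rfl)
      (hZy (J + 1) le_rfl) (hm0 (J + 1) le_rfl) (hm (J + 1) le_rfl) (hdiv (J + 1) le_rfl) E
      (fun d hd => hD d (h2 hd))
    have hlogN : 0 ≤ Real.log N := Real.log_natCast_nonneg _
    have g4' : (Q'.card : ℝ) ≤ 7 + 8 * (k J * Real.log N) := by
      refine g4.trans ?_
      have hE : Real.log (E.card : ℝ) ≤ Real.log 2 + k J * Real.log N := by
        rcases Nat.eq_zero_or_pos E.card with h0 | h0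
        · rw [h0]
          simp only [Nat.cast_zero, Real.log_zero]
          have := Real.log_nonneg (show (1 : ℝ) ≤ 2 by norm_num)
          positivity
        · have h7 : (E.card : ℝ) ≤ 2 * (N : ℝ) ^ k J := by exact_mod_cast h5
          have hN0 : (0 : ℝ) < N := by exact_mod_cast hN
          have h8 := Real.log_le_log (by exact_mod_cast h0) h7
          rw [Real.log_mul (by norm_num) (by positivity), Real.log_pow] at h8
          exact h8
      have h2' := Real.log_two_lt_d9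
      linarith
    refine ⟨Q ∪ Q', E', ?_, g2.trans h2, ?_, ?_, g5, ?_⟩
    · intro q hq
      rcases Finset.mem_union.mp hq with h | h
      · exact h1 q h
      · exact al_of_mem_PP hp hp2 (g1 h)
    · intro d hd hd'
      by_cases hdE : d ∈ E
      · obtain ⟨q, hq, hJ⟩ := g3 d hdE hd'
        exact ⟨q, Finset.mem_union_right _ hq, hJ⟩
      · obtain ⟨q, hq, hJ⟩ := h3 d hd hdE
        exact ⟨q, Finset.mem_union_left _ hq, hJ⟩
    · rw [Finset.sum_range_succ]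
      have h7 : ((Q ∪ Q').card : ℝ) ≤ Q.card + Q'.card := by
        exact_mod_cast Finset.card_union_le Q Q'
      linarith
    · rw [Finset.sum_range_succ]
      have h7 : ∑ q ∈ Q ∪ Q', Real.log q ≤ ∑ q ∈ Q, Real.log q + ∑ q ∈ Q', Real.log q := by
        rw [← Finset.sum_union_inter]
        have : 0 ≤ ∑ q ∈ Q ∩ Q', Real.log (q : ℝ) :=
          Finset.sum_nonneg fun q _ => Real.log_natCast_nonneg q
        linarith
      have h8 := sum_log_le g1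
      have h9 : (Q'.card : ℝ) * Real.log (y (J + 1)) ≤
          (7 + 8 * (k J * Real.log N)) * Real.log (y (J + 1)) :=
        mul_le_mul_of_nonneg_right g4' (Real.log_natCast_nonneg _)
      linarith

theorem exists_J {L : ℝ} (hL : 0 ≤ L) :
    ∃ J : ℕ, 3 * L + 2 ≤ (2 : ℝ) ^ J ∧ (2 : ℝ) ^ J ≤ 6 * L + 4 := by
  obtain ⟨n, h1, h2⟩ := exists_nat_pow_near (show (1 : ℝ) ≤ 3 * L + 2 by linarith)
    (show (1 : ℝ) < 2 by norm_num)
  exact ⟨n + 1, h2.le, by rw [pow_succ]; linarith⟩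

/-- the number of primes of a set dividing a small number -/
theorem card_dvd_le {P : Finset ℕ} (hP : ∀ q ∈ P, q.Prime) {d : ℕ} (hd : 0 < d) {L : ℝ}
    (hdL : (d : ℝ) ≤ Real.exp L) : ((P.filter (fun q => q ∣ d)).card : ℝ) ≤ 2 * L := by
  have h1 : ∏ q ∈ P.filter (fun q => q ∣ d), q ∣ d :=
    Finset.prod_primes_dvd d (fun q hq => (hP q (Finset.mem_filter.mp hq).1).prime)
      (fun q hq => (Finset.mem_filter.mp hq).2)
  have h2 : 2 ^ (P.filter (fun q => q ∣ d)).card ≤ ∏ q ∈ P.filter (fun q => q ∣ d), q := by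
    rw [← Finset.prod_const]
    exact Finset.prod_le_prod' fun q hq => (hP q (Finset.mem_filter.mp hq).1).two_le
  have h3 : 2 ^ (P.filter (fun q => q ∣ d)).card ≤ d := h2.trans (Nat.le_of_dvd hd h1)
  have h4 : (2 : ℝ) ^ (P.filter (fun q => q ∣ d)).card ≤ Real.exp L := by
    refine le_trans ?_ hdL
    exact_mod_cast h3
  have h5 := Real.log_le_log (by positivity) h4
  rw [Real.log_pow, Real.log_exp] at h5
  have h6 := Real.log_two_gt_d9
  have h7 : (0 : ℝ) ≤ (P.filter (fun q => q ∣ d)).card := Nat.cast_nonneg _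
  nlinarith

/-- the numerical facts about one level -/
theorem level_num {p W : ℕ} {c L ℓ lN : ℝ} {y₀ N J : ℕ} (hc : 0 < c) (hℓ : 10 ≤ ℓ)
    (hL : 10 ≤ L)
    (hpi : ∀ y : ℕ, y₀ ≤ y → c * y / Real.log y ≤ ((PP p W y).card : ℝ))
    (hlN : lN = Real.log N) (hN1 : L ^ 2 ≤ N) (hlN2 : lN ≤ 3 * ℓ)
    (hy₀ : (y₀ : ℝ) ≤ L) (hJ : (2 : ℝ) ^ J ≤ 6 * L + 4)
    (hbig : 4 * (3 * L + 2 + 240000 * L * ℓ) ≤ c * L ^ 2)
    (j : ℕ) (hj : j ≤ J) :
    1 ≤ ⌈(3 * L + 2) / (10000 * 2 ^ j * lN)⌉₊ ∧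
    1 ≤ N ^ (10000 * 2 ^ j) ∧
    4 * ⌊Real.exp L⌋₊ ^ 3 ≤ (N ^ (10000 * 2 ^ j)) ^ ⌈(3 * L + 2) / (10000 * 2 ^ j * lN)⌉₊ ∧
    0 < (PP p W (N ^ (10000 * 2 ^ j))).card ∧
    4 * ⌈(3 * L + 2) / (10000 * 2 ^ j * lN)⌉₊ * N ^ (10000 * 2 ^ j) ≤
      N * (PP p W (N ^ (10000 * 2 ^ j))).card ∧
    (∀ d, 0 < d → d ≤ ⌊Real.exp L⌋₊ →
      4 * ((PP p W (N ^ (10000 * 2 ^ j))).filter (fun q => q ∣ d)).card ≤
      (PP p W (N ^ (10000 * 2 ^ j))).card) := by
  have hNr : (100 : ℝ) ≤ N := by nlinarith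
  have hN0 : 1 ≤ N := by
    have : (1 : ℝ) ≤ N := by linarith
    exact_mod_cast this
  have hlN1 : 1 ≤ lN := by
    rw [hlN]
    have h1 : Real.exp 1 ≤ N := by
      have := Real.exp_one_lt_d9
      linarith
    have := Real.log_le_log (Real.exp_pos 1) h1
    rwa [Real.log_exp] at this
  have h2j : (1 : ℝ) ≤ 2 ^ j := one_le_pow₀ (by norm_num)
  have h2J : (2 : ℝ) ^ j ≤ 2 ^ J := pow_le_pow_right₀ (by norm_num) hj
  set a : ℕ := 10000 * 2 ^ j with ha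
  have haR : (a : ℝ) = 10000 * 2 ^ j := by rw [ha]; push_cast; ring
  have hly : Real.log ((N ^ a : ℕ) : ℝ) = 10000 * 2 ^ j * lN := by
    push_cast
    rw [Real.log_pow, haR, hlN]
  set ly : ℝ := 10000 * 2 ^ j * lN with hlydef
  have hly0 : 0 < ly := by positivity
  have hlyU : ly ≤ 240000 * L * ℓ := by
    have h1 : (2 : ℝ) ^ j ≤ 8 * L := by linarith
    calc ly = 10000 * 2 ^ j * lN := rfl
      _ ≤ 10000 * (8 * L) * (3 * ℓ) := by gcongr
      _ = 240000 * L * ℓ := by ring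
  set k : ℕ := ⌈(3 * L + 2) / ly⌉₊ with hk
  have hk1 : 1 ≤ k := Nat.one_le_ceil_iff.mpr (by positivity)
  have hkl : (3 * L + 2) / ly ≤ k := Nat.le_ceil _
  have hku : (k : ℝ) ≤ (3 * L + 2) / ly + 1 := (Nat.ceil_lt_add_one (by positivity)).le
  have hkly : 3 * L + 2 ≤ k * ly := by
    rwa [div_le_iff₀ hly0] at hkl
  have hkly2 : k * ly ≤ 3 * L + 2 + ly := by
    have := mul_le_mul_of_nonneg_right hku hly0.le
    rwa [add_mul, div_mul_cancel₀ _ hly0.ne', one_mul] at this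
  have hyN2 : N ^ 2 ≤ N ^ a := by
    refine Nat.pow_le_pow_right hN0 ?_
    have : 1 ≤ 2 ^ j := Nat.one_le_two_pow
    omega
  have hyN2R : (N : ℝ) ^ 2 ≤ ((N ^ a : ℕ) : ℝ) := by exact_mod_cast hyN2
  have hypos : (0 : ℝ) < ((N ^ a : ℕ) : ℝ) := by
    have : (0 : ℝ) < (N : ℝ) ^ 2 := by positivity
    linarith
  have hyy₀ : y₀ ≤ N ^ a := by
    have h1 : (y₀ : ℝ) ≤ ((N ^ a : ℕ) : ℝ) := by nlinarith
    exact_mod_cast h1
  have hm := hpi (N ^ a) hyy₀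
  rw [hly] at hm
  set m : ℕ := (PP p W (N ^ a)).card with hmdef
  have hm1 : c * ((N ^ a : ℕ) : ℝ) ≤ m * ly := by
    rwa [div_le_iff₀ hly0] at hm
  have hmpos : (0 : ℝ) < m := lt_of_lt_of_le (by positivity) hm
  refine ⟨hk1, Nat.one_le_pow _ _ hN0, ?_, by exact_mod_cast hmpos, ?_, ?_⟩
  · have h1 : (⌊Real.exp L⌋₊ : ℝ) ≤ Real.exp L := Nat.floor_le (Real.exp_pos L).le
    have h2 : (4 : ℝ) * (⌊Real.exp L⌋₊ : ℝ) ^ 3 ≤ (((N ^ a : ℕ) : ℝ)) ^ k := by
      calc (4 : ℝ) * (⌊Real.exp L⌋₊ : ℝ) ^ 3 ≤ Real.exp 2 * (Real.exp L) ^ 3 := by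
            have h3 : (4 : ℝ) ≤ Real.exp 2 := by
              have h4 := Real.exp_one_gt_d9
              have h5 : Real.exp 2 = Real.exp 1 * Real.exp 1 := by
                rw [← Real.exp_add]; norm_num
              nlinarith
            gcongr
        _ = Real.exp (3 * L + 2) := by
            rw [← Real.exp_nat_mul, ← Real.exp_add]
            congr 1
            push_cast
            ring
        _ ≤ Real.exp (k * ly) := Real.exp_le_exp.mpr hkly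
        _ = (((N ^ a : ℕ) : ℝ)) ^ k := by
            rw [← hly, Real.exp_nat_mul, Real.exp_log hypos]
    exact_mod_cast h2
  · have h1 : (4 : ℝ) * k * ((N ^ a : ℕ) : ℝ) ≤ N * m := by
      have h2 : c * (4 * k * ((N ^ a : ℕ) : ℝ)) ≤ c * (N * m) := by
        calc c * (4 * k * ((N ^ a : ℕ) : ℝ)) = 4 * k * (c * ((N ^ a : ℕ) : ℝ)) := by ring
          _ ≤ 4 * k * (m * ly) := by gcongr
          _ = m * (4 * (k * ly)) := by ring
          _ ≤ m * (4 * (3 * L + 2 + 240000 * L * ℓ)) := by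
              have : k * ly ≤ 3 * L + 2 + 240000 * L * ℓ := by linarith
              gcongr
          _ ≤ m * (c * L ^ 2) := by gcongr
          _ ≤ m * (c * N) := by gcongr
          _ = c * (N * m) := by ring
      exact le_of_mul_le_mul_left h2 hc
    exact_mod_cast h1
  · intro d hd hdZ
    have h1 : (d : ℝ) ≤ Real.exp L := by
      have h2 : (d : ℝ) ≤ (⌊Real.exp L⌋₊ : ℝ) := by exact_mod_cast hdZ
      exact h2.trans (Nat.floor_le (Real.exp_pos L).le)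
    have h3 := card_dvd_le (P := PP p W (N ^ a)) (fun q hq => (mem_PP.mp hq).2.1) hd h1
    -- the lower bound for `m`
    set Y : ℝ := ((N ^ a : ℕ) : ℝ) with hY
    have h4 : ly ≤ 2 * √Y := by
      rw [← hly]
      have h5 := Real.log_le_sub_one_of_pos (Real.sqrt_pos.mpr hypos)
      rw [Real.log_sqrt hypos.le] at h5
      linarith
    have h6 : (N : ℝ) ≤ √Y := by
      rw [Real.le_sqrt (by positivity) hypos.le]
      exact hyN2R
    have h7 : √Y * √Y = Y := Real.mul_self_sqrt hypos.le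
    have h8 : c * √Y ≤ 2 * m := by
      have h9 : c * (√Y * √Y) ≤ m * (2 * √Y) := by
        rw [h7]
        exact hm1.trans (by gcongr)
      have h10 : 0 < √Y := Real.sqrt_pos.mpr hypos
      have h11 : (c * √Y) * √Y ≤ (2 * m) * √Y := by linarith
      exact le_of_mul_le_mul_right h11 h10
    have h12 : c * L ^ 2 ≤ 2 * m := by
      refine le_trans ?_ h8
      have : L ^ 2 ≤ √Y := hN1.trans h6
      gcongr
    have h13 : (4 : ℝ) * ((PP p W (N ^ a)).filter (fun q => q ∣ d)).card ≤ m := by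
      have : 16 * L ≤ c * L ^ 2 := by nlinarith
      linarith
    exact_mod_cast h13

/-- the numerical sums over the levels -/
theorem level_sums {L ℓ lN : ℝ} {J : ℕ} (hℓ : 10 ≤ ℓ) (hL : 10 ≤ L) (hlog : ℓ = Real.log L)
    (hlN1 : 1 ≤ lN) (hlN2 : lN ≤ 3 * ℓ) (hJ : (2 : ℝ) ^ J ≤ 6 * L + 4) :
    (J : ℝ) ≤ 3 * ℓ ∧
    ∑ i ∈ Finset.range J, (7 + 8 * ((⌈(3 * L + 2) / (10000 * 2 ^ i * lN)⌉₊ : ℝ) * lN)) ≤
      21 * ℓ + 72 * ℓ ^ 2 + (48 * L + 32) / 10000 ∧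
    ∑ i ∈ Finset.range J, (7 + 8 * ((⌈(3 * L + 2) / (10000 * 2 ^ i * lN)⌉₊ : ℝ) * lN)) *
      (10000 * 2 ^ (i + 1) * lN) ≤ 3 * ℓ * (10000000 * L * ℓ ^ 2) := by
  have hlN0 : 0 < lN := by linarith
  have hJl : (J : ℝ) ≤ 3 * ℓ := by
    have h1 : (2 : ℝ) ^ J ≤ 2 ^ 4 * L := by linarith
    have h2 := Real.log_le_log (by positivity) h1
    rw [Real.log_pow, Real.log_mul (by positivity) (by positivity), Real.log_pow, ← hlog] at h2
    have h3 := Real.log_two_gt_d9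
    have h4 := Real.log_two_lt_d9
    push_cast at h2
    nlinarith
  have hkl : ∀ i : ℕ, (⌈(3 * L + 2) / (10000 * 2 ^ i * lN)⌉₊ : ℝ) * lN ≤
      (3 * L + 2) / 10000 * (1 / 2) ^ i + lN := by
    intro i
    have h1 : (⌈(3 * L + 2) / (10000 * 2 ^ i * lN)⌉₊ : ℝ) ≤
        (3 * L + 2) / (10000 * 2 ^ i * lN) + 1 := (Nat.ceil_lt_add_one (by positivity)).le
    have h2 := mul_le_mul_of_nonneg_right h1 hlN0.le
    refine h2.trans (le_of_eq ?_)
    rw [add_mul, one_mul]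
    congr 1
    rw [one_div, inv_pow]
    field_simp
  refine ⟨hJl, ?_, ?_⟩
  · have h1 : ∑ i ∈ Finset.range J,
        (7 + 8 * ((⌈(3 * L + 2) / (10000 * 2 ^ i * lN)⌉₊ : ℝ) * lN)) ≤
        ∑ i ∈ Finset.range J, ((7 + 8 * lN) + 8 * (3 * L + 2) / 10000 * (1 / 2) ^ i) := by
      refine Finset.sum_le_sum fun i _ => ?_
      have := hkl i
      nlinarith
    refine h1.trans ?_
    rw [Finset.sum_add_distrib, ← Finset.mul_sum, Finset.sum_const, Finset.card_range,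
      nsmul_eq_mul]
    have h2 : ∑ i ∈ Finset.range J, ((1 : ℝ) / 2) ^ i ≤ 2 := by
      exact sum_geometric_two_le J
    have h3 : (J : ℝ) * (7 + 8 * lN) ≤ 3 * ℓ * (7 + 8 * (3 * ℓ)) := by
      have : 7 + 8 * lN ≤ 7 + 8 * (3 * ℓ) := by linarith
      gcongr
    have h4 : 8 * (3 * L + 2) / 10000 * ∑ i ∈ Finset.range J, ((1 : ℝ) / 2) ^ i ≤
        8 * (3 * L + 2) / 10000 * 2 := by gcongr
    nlinarith
  · have h1 : ∑ i ∈ Finset.range J,
        (7 + 8 * ((⌈(3 * L + 2) / (10000 * 2 ^ i * lN)⌉₊ : ℝ) * lN)) *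
        (10000 * 2 ^ (i + 1) * lN) ≤ ∑ i ∈ Finset.range J, (10000000 * L * ℓ ^ 2) := by
      refine Finset.sum_le_sum fun i hi => ?_
      rw [Finset.mem_range] at hi
      have h2 : (2 : ℝ) ^ (i + 1) ≤ 8 * L := by
        have : (2 : ℝ) ^ (i + 1) ≤ 2 ^ J := pow_le_pow_right₀ (by norm_num) hi
        linarith
      have h3 : (10000 * 2 ^ (i + 1) * lN : ℝ) ≤ 240000 * L * ℓ := by
        calc (10000 * 2 ^ (i + 1) * lN : ℝ) ≤ 10000 * (8 * L) * (3 * ℓ) := by gcongr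
          _ = 240000 * L * ℓ := by ring
      have h4 : (10000 * 2 ^ (i + 1) * lN : ℝ) = 20000 * 2 ^ i * lN := by rw [pow_succ]; ring
      have h5 : (0 : ℝ) < 10000 * 2 ^ (i + 1) * lN := by positivity
      have h6 := mul_le_mul_of_nonneg_right (hkl i) h5.le
      have h7 : ((3 * L + 2) / 10000 * (1 / 2) ^ i + lN) * (10000 * 2 ^ (i + 1) * lN) =
          2 * (3 * L + 2) * lN + lN * (10000 * 2 ^ (i + 1) * lN) := by
        rw [add_mul]
        congr 1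
        rw [h4, one_div, inv_pow]
        field_simp
        ring
      rw [h7] at h6
      have h8 : lN * (10000 * 2 ^ (i + 1) * lN) ≤ 3 * ℓ * (240000 * L * ℓ) := by gcongr
      have h9 : 2 * (3 * L + 2) * lN ≤ 2 * (3 * L + 2) * (3 * ℓ) := by gcongr
      have h10 : (1 : ℝ) ≤ ℓ := by linarith
      have h11 : L * ℓ ≤ L * ℓ ^ 2 := by
        rw [sq]
        have : L * ℓ * 1 ≤ L * ℓ * ℓ := by gcongr
        linarith
      have h12 : ℓ ≤ L * ℓ := by nlinarith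
      calc (7 + 8 * ((⌈(3 * L + 2) / (10000 * 2 ^ i * lN)⌉₊ : ℝ) * lN)) *
          (10000 * 2 ^ (i + 1) * lN) = 7 * (10000 * 2 ^ (i + 1) * lN) +
            8 * ((⌈(3 * L + 2) / (10000 * 2 ^ i * lN)⌉₊ : ℝ) * lN * (10000 * 2 ^ (i + 1) * lN)) := by
            ring
        _ ≤ 7 * (240000 * L * ℓ) + 8 * (2 * (3 * L + 2) * (3 * ℓ) + 3 * ℓ * (240000 * L * ℓ)) := by
            linarith
        _ ≤ 10000000 * L * ℓ ^ 2 := by nlinarith
    refine h1.trans ?_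
    rw [Finset.sum_const, Finset.card_range, nsmul_eq_mul]
    gcongr

theorem sum_log_biUnion_le (S : Finset (Finset ℕ)) :
    ∑ q ∈ S.biUnion id, Real.log (q : ℝ) ≤ ∑ Q ∈ S, ∑ q ∈ Q, Real.log (q : ℝ) := by
  classical
  induction S using Finset.induction_on with
  | empty => simp
  | insert Q S hnot ih =>
    rw [Finset.biUnion_insert, Finset.sum_insert hnot]
    have h7 : ∑ q ∈ id Q ∪ S.biUnion id, Real.log (q : ℝ) ≤
        ∑ q ∈ Q, Real.log (q : ℝ) + ∑ q ∈ S.biUnion id, Real.log (q : ℝ) := by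
      rw [id, ← Finset.sum_union_inter]
      have : 0 ≤ ∑ q ∈ Q ∩ S.biUnion id, Real.log (q : ℝ) :=
        Finset.sum_nonneg fun q _ => Real.log_natCast_nonneg q
      linarith
    linarith

theorem num_aux {ℓ L : ℝ} (h8 : ℓ ^ 2 ≤ 1 / 100000 * L) (h9 : ℓ ≤ ℓ ^ 2) (h11 : 100 ≤ ℓ ^ 2) :
    1 + (21 * ℓ + 72 * ℓ ^ 2 + (48 * L + 32) / 10000) + L / 1000 ≤ L / 100 := by
  linarith

theorem num_aux2 {ℓ L Q D X : ℝ} (h10 : Q ≤ 1 + 8 * D +
      (21 * ℓ + 72 * ℓ ^ 2 + (48 * L + 32) / 10000)) (h7 : X ≤ L / 1000)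
    (h12 : 1 + (21 * ℓ + 72 * ℓ ^ 2 + (48 * L + 32) / 10000) + L / 1000 ≤ L / 100) :
    Q + X ≤ 8 * D + L / 100 := by
  linarith

theorem num_aux3 {c L ℓ : ℝ} (h1 : L * ℓ ≤ L * (c / 2000000 * L))
    (h2 : L * 20 ≤ L * (c / 2 * L)) (hL1 : 10 ≤ L) (hc : 0 < c) :
    4 * (3 * L + 2 + 240000 * L * ℓ) ≤ c * L ^ 2 := by
  have h3 : 4 * (3 * L + 2 + 240000 * L * ℓ) = 12 * L + 8 + 960000 * (L * ℓ) := by ring
  have h4 : L * (c / 2000000 * L) = 1 / 2000000 * (c * L ^ 2) := by ring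
  have h5 : L * (c / 2 * L) = 1 / 2 * (c * L ^ 2) := by ring
  rw [h3]
  rw [h4] at h1
  rw [h5] at h2
  have h6 : 0 < c * L ^ 2 := by positivity
  linarith

theorem kill_lemma {p : ℕ} (hp : p.Prime) (hp2 : p ≠ 2) (hFL : FL p) : KL p := by
  classical
  intro W hW
  obtain ⟨c, hc, y₀, hpi⟩ := pi_ap hp hW
  obtain ⟨C, L₁, hC, hfl⟩ := hFL W hW
  -- the asymptotic inequalities
  have hlog : Tendsto Real.log atTop atTop := Real.tendsto_log_atTop
  have e1 : ∀ᶠ L : ℝ in atTop, 10 ≤ Real.log L := hlog.eventually_ge_atTop 10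
  have e2 : ∀ᶠ L : ℝ in atTop, 10 ≤ L := eventually_ge_atTop 10
  have e3 : ∀ᶠ L : ℝ in atTop, (y₀ : ℝ) ≤ L := eventually_ge_atTop _
  have e4 : ∀ᶠ L : ℝ in atTop, L₁ ≤ L := eventually_ge_atTop _
  have e5 : ∀ᶠ L : ℝ in atTop, Real.log L ≤ c / 2000000 * L := by
    have h := Real.isLittleO_log_id_atTop.def (show (0 : ℝ) < c / 2000000 by positivity)
    filter_upwards [h, e1, e2] with L h1 h2 h3
    simp only [id, Real.norm_eq_abs] at h1
    rwa [abs_of_nonneg (by linarith), abs_of_nonneg (by linarith)] at h1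
  have e6 : ∀ᶠ L : ℝ in atTop, 20 ≤ c / 2 * L := by
    filter_upwards [eventually_ge_atTop (40 / c)] with L hL
    rw [div_le_iff₀ hc] at hL
    linarith
  have e7 : ∀ᶠ L : ℝ in atTop, (Real.log L) ^ (2 : ℝ) ≤ 1 / 100000 * L := by
    have h := (isLittleO_log_rpow_rpow_atTop (2 : ℝ) (show (0 : ℝ) < 1 by norm_num)).def
      (show (0 : ℝ) < 1 / 100000 by norm_num)
    filter_upwards [h, e1, e2] with L h1 h2 h3
    rw [Real.norm_eq_abs, Real.norm_eq_abs, Real.rpow_one, abs_of_nonneg (by positivity),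
      abs_of_nonneg (by linarith)] at h1
    exact h1
  have e8 : ∀ᶠ L : ℝ in atTop, (Real.log L) ^ (2 * C + 1) ≤ 1 / 4000 * √L := by
    have h := (isLittleO_log_rpow_rpow_atTop (2 * C + 1) (show (0 : ℝ) < 1 / 2 by norm_num)).def
      (show (0 : ℝ) < 1 / 4000 by norm_num)
    filter_upwards [h, e1, e2] with L h1 h2 h3
    rw [Real.norm_eq_abs, Real.norm_eq_abs, abs_of_nonneg (by positivity),
      abs_of_nonneg (by positivity), ← Real.sqrt_eq_rpow] at h1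
    exact h1
  have e9 : ∀ᶠ L : ℝ in atTop, 10 ^ 9 ≤ Real.log L := hlog.eventually_ge_atTop _
  have e10 : ∀ᶠ L : ℝ in atTop, 8 * C ≤ Real.log L := hlog.eventually_ge_atTop _
  obtain ⟨L₀, hL₀⟩ := eventually_atTop.mp
    (((((((((e1.and e2).and e3).and e4).and e5).and e6).and e7).and e8).and e9).and e10)
  refine ⟨C + 5, L₀, by positivity, ?_⟩
  intro L hL D hD
  obtain ⟨⟨⟨⟨⟨⟨⟨⟨⟨f1, f2⟩, f3⟩, f4⟩, f5⟩, f6⟩, f7⟩, f8⟩, f9⟩, f10⟩ := hL₀ L hL
  set ℓ := Real.log L with hℓ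
  have hL0 : 0 < L := by linarith
  have hℓ0 : 0 < ℓ := by linarith
  have hℓ1 : 1 ≤ ℓ := by linarith
  set N : ℕ := ⌈L ^ 2⌉₊ with hN
  have hN1 : L ^ 2 ≤ N := Nat.le_ceil _
  have hN2 : (N : ℝ) ≤ 2 * L ^ 2 := by
    have : (N : ℝ) ≤ L ^ 2 + 1 := (Nat.ceil_lt_add_one (by positivity)).le
    nlinarith
  have hNpos : (0 : ℝ) < N := by nlinarith
  have hN1' : 1 ≤ N := by exact_mod_cast hNpos
  set lN := Real.log N with hlN
  have hl4 : Real.log 4 ≤ 2 := by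
    have h1 : Real.log 4 = 2 * Real.log 2 := by
      rw [show (4 : ℝ) = 2 ^ 2 by norm_num, Real.log_pow]; norm_num
    have := Real.log_two_lt_d9
    linarith
  have hl2N : Real.log 2 + lN ≤ 3 * ℓ := by
    have h1 : (2 * N : ℝ) ≤ 4 * L ^ 2 := by linarith
    have h2 := Real.log_le_log (by positivity) h1
    rw [Real.log_mul (by norm_num) hNpos.ne', Real.log_mul (by norm_num) (by positivity),
      Real.log_pow] at h2
    push_cast at h2
    linarith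
  have hlN2 : lN ≤ 3 * ℓ := by
    have := Real.log_nonneg (show (1 : ℝ) ≤ 2 by norm_num)
    linarith
  have hlN1 : 1 ≤ lN := by
    have h1 : Real.exp 1 ≤ N := by
      have := Real.exp_one_lt_d9
      nlinarith
    have := Real.log_le_log (Real.exp_pos 1) h1
    rwa [Real.log_exp] at this
  obtain ⟨J, hJ1, hJ2⟩ := exists_J hL0.le
  have hbig : 4 * (3 * L + 2 + 240000 * L * ℓ) ≤ c * L ^ 2 := by
    have h1 : L * ℓ ≤ L * (c / 2000000 * L) := by gcongr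
    have h2 : L * 20 ≤ L * (c / 2 * L) := by gcongr
    exact num_aux3 h1 h2 f2 hc
  have hnum := level_num (p := p) (W := W) (J := J) (y₀ := y₀) hc f1 f2 hpi hlN hN1 hlN2 f3 hJ2
    hbig
  have hsums := level_sums f1 f2 hℓ hlN1 hlN2 hJ2
  obtain ⟨hJℓ, hs1, hs2⟩ := hsums
  set y : ℕ → ℕ := fun j => N ^ (10000 * 2 ^ j) with hy
  set k : ℕ → ℕ := fun j => ⌈(3 * L + 2) / (10000 * 2 ^ j * lN)⌉₊ with hk
  have hDZ : ∀ d ∈ D, 0 < d ∧ Squarefree d ∧ d ≤ ⌊Real.exp L⌋₊ := by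
    intro d hd
    obtain ⟨h1, h2, _, h3⟩ := hD d hd
    exact ⟨h1, h2, Nat.le_floor h3⟩
  obtain ⟨Q, E, h1, h2, h3, h4, h5, h6⟩ := levels (p := p) (W := W) (N := N) hp hp2 hN1' y k J
    (fun j hj => (hnum j hj).1) (fun j hj => (hnum j hj).2.1) (fun j hj => (hnum j hj).2.2.1)
    (fun j hj => (hnum j hj).2.2.2.1) (fun j hj => (hnum j hj).2.2.2.2.1)
    (fun j hj => (hnum j hj).2.2.2.2.2) D hDZ
  -- the last exceptional set is small
  have hkJ : k J = 1 := by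
    have h7 : k J ≤ 1 := by
      rw [hk]
      simp only
      rw [Nat.ceil_le]
      have h8 : (3 * L + 2) ≤ 10000 * 2 ^ J * lN := by
        calc 3 * L + 2 ≤ 2 ^ J := hJ1
          _ ≤ 10000 * 2 ^ J * 1 := by
            have : (0 : ℝ) < 2 ^ J := by positivity
            linarith
          _ ≤ 10000 * 2 ^ J * lN := by gcongr
      rw [div_le_iff₀ (by positivity)]
      push_cast
      linarith
    have h8 := (hnum J le_rfl).1
    exact le_antisymm h7 h8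
  rw [hkJ, pow_one] at h5
  have hM1 : 1 ≤ ℓ ^ C := Real.one_le_rpow hℓ1 hC.le
  obtain ⟨S, hS1, hS2, hS3⟩ := greedy_sets (D := E)
    (fun Q => (∀ q ∈ Q, Al p W q) ∧ (Q.card : ℝ) ≤ √L * ℓ ^ C ∧ ∑ q ∈ Q, Real.log q ≤ C * L)
    (fun q d => J(-(d : ℤ) | q) = -1) (ℓ ^ C) hM1 (by
      intro D' hD' hne
      obtain ⟨Q', g1, g2, g3, g4⟩ := hfl L f4 D' hne (fun d hd => hD d (h2 (hD' hd)))
      exact ⟨Q', ⟨g1, g2, g3⟩, g4⟩)
  have hScard : (S.card : ℝ) ≤ 4 * ℓ ^ (C + 1) := by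
    refine hS3.trans ?_
    have h7 : Real.log (E.card : ℝ) ≤ 3 * ℓ := by
      rcases Nat.eq_zero_or_pos E.card with h0 | h0
      · rw [h0]
        simp only [Nat.cast_zero, Real.log_zero]
        positivity
      · refine le_trans ?_ hl2N
        rw [← Real.log_mul (by norm_num) hNpos.ne']
        exact Real.log_le_log (by exact_mod_cast h0) (by exact_mod_cast h5)
    have h8 : ℓ ^ (C + 1) = ℓ ^ C * ℓ := by rw [Real.rpow_add hℓ0, Real.rpow_one]
    have h9 : ℓ ^ C * Real.log (E.card : ℝ) ≤ ℓ ^ C * (3 * ℓ) := by gcongr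
    have h10 : 1 ≤ ℓ ^ C * ℓ := by nlinarith
    rw [h8]
    linarith
  have hU1 : (((Q ∪ S.biUnion id).card : ℕ) : ℝ) ≤ Q.card + 4 * ℓ ^ (C + 1) * (√L * ℓ ^ C) := by
    have h7 : (S.biUnion id).card ≤ ∑ Q' ∈ S, Q'.card := Finset.card_biUnion_le
    have h8 : ((∑ Q' ∈ S, Q'.card : ℕ) : ℝ) ≤ S.card * (√L * ℓ ^ C) := by
      push_cast
      rw [← nsmul_eq_mul, ← Finset.sum_const]
      exact Finset.sum_le_sum fun Q' hQ' => (hS1 Q' hQ').2.1
    have h9 : ((S.biUnion id).card : ℝ) ≤ ((∑ Q' ∈ S, Q'.card : ℕ) : ℝ) := by exact_mod_cast h7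
    have h10 : (((Q ∪ S.biUnion id).card : ℕ) : ℝ) ≤ Q.card + (S.biUnion id).card := by
      exact_mod_cast Finset.card_union_le _ _
    have h11 : (S.card : ℝ) * (√L * ℓ ^ C) ≤ 4 * ℓ ^ (C + 1) * (√L * ℓ ^ C) := by gcongr
    linarith
  have hU2 : ∑ q ∈ Q ∪ S.biUnion id, Real.log (q : ℝ) ≤
      ∑ q ∈ Q, Real.log (q : ℝ) + 4 * ℓ ^ (C + 1) * (C * L) := by
    have h7 : ∑ q ∈ Q ∪ S.biUnion id, Real.log (q : ℝ) ≤
        ∑ q ∈ Q, Real.log (q : ℝ) + ∑ q ∈ S.biUnion id, Real.log (q : ℝ) := by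
      rw [← Finset.sum_union_inter]
      have : 0 ≤ ∑ q ∈ Q ∩ S.biUnion id, Real.log (q : ℝ) :=
        Finset.sum_nonneg fun q _ => Real.log_natCast_nonneg q
      linarith
    have h8 : ∑ Q' ∈ S, ∑ q ∈ Q', Real.log (q : ℝ) ≤ S.card * (C * L) := by
      rw [← nsmul_eq_mul, ← Finset.sum_const]
      exact Finset.sum_le_sum fun Q' hQ' => (hS1 Q' hQ').2.2
    have h9 : (S.card : ℝ) * (C * L) ≤ 4 * ℓ ^ (C + 1) * (C * L) := by gcongr
    have h10 := sum_log_biUnion_le S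
    linarith
  refine ⟨Q ∪ S.biUnion id, ?_, ?_, ?_, ?_⟩
  · intro q hq
    rcases Finset.mem_union.mp hq with h | h
    · exact h1 q h
    · obtain ⟨Q', hQ', hq'⟩ := Finset.mem_biUnion.mp h
      exact (hS1 Q' hQ').1 q hq'
  · intro d hd
    by_cases hdE : d ∈ E
    · obtain ⟨Q', hQ', q, hq, hJ'⟩ := hS2 d hdE
      exact ⟨q, Finset.mem_union_right _ (Finset.mem_biUnion.mpr ⟨Q', hQ', hq⟩), hJ'⟩
    · obtain ⟨q, hq, hJ'⟩ := h3 d hd hdE
      exact ⟨q, Finset.mem_union_left _ hq, hJ'⟩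
  · refine hU1.trans ?_
    have h7 : 4 * ℓ ^ (C + 1) * (√L * ℓ ^ C) ≤ L / 1000 := by
      have h8 : ℓ ^ (C + 1) * ℓ ^ C = ℓ ^ (2 * C + 1) := by
        rw [← Real.rpow_add hℓ0]; congr 1; ring
      calc 4 * ℓ ^ (C + 1) * (√L * ℓ ^ C) = 4 * √L * (ℓ ^ (C + 1) * ℓ ^ C) := by ring
        _ = 4 * √L * ℓ ^ (2 * C + 1) := by rw [h8]
        _ ≤ 4 * √L * (1 / 4000 * √L) := by gcongr
        _ = (√L * √L) / 1000 := by ring
        _ = L / 1000 := by rw [Real.mul_self_sqrt hL0.le]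
    have h8 : ℓ ^ 2 ≤ 1 / 100000 * L := by
      rw [← Real.rpow_two]; exact f7
    have h9 : ℓ ≤ ℓ ^ 2 := by nlinarith
    have h10 : (Q.card : ℝ) ≤ 1 + 8 * Real.log D.card +
        (21 * ℓ + 72 * ℓ ^ 2 + (48 * L + 32) / 10000) := h4.trans (by
          have := hs1
          linarith)
    have h11 : 100 ≤ ℓ ^ 2 := by nlinarith
    exact num_aux2 h10 h7 (num_aux h8 h9 h11)
  · refine hU2.trans ?_
    have hDL : Real.log (D.card : ℝ) ≤ L := by
      rcases Nat.eq_zero_or_pos D.card with h0 | h0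
      · rw [h0]
        simp only [Nat.cast_zero, Real.log_zero]
        exact hL0.le
      · have h7 : D ⊆ Finset.Icc 1 ⌊Real.exp L⌋₊ := fun d hd =>
          Finset.mem_Icc.mpr ⟨(hDZ d hd).1, (hDZ d hd).2.2⟩
        have h8 := Finset.card_le_card h7
        rw [Nat.card_Icc, Nat.add_sub_cancel] at h8
        have h9 : (D.card : ℝ) ≤ Real.exp L := by
          have h10 : (D.card : ℝ) ≤ (⌊Real.exp L⌋₊ : ℝ) := by exact_mod_cast h8
          exact h10.trans (Nat.floor_le (Real.exp_pos L).le)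
        have h10 := Real.log_le_log (by exact_mod_cast h0) h9
        rwa [Real.log_exp] at h10
    have hlogy : ∀ j, Real.log (y j : ℝ) = 10000 * 2 ^ j * lN := by
      intro j
      rw [hy]
      push_cast
      rw [Real.log_pow]
      push_cast
      ring
    have h7 : ∑ q ∈ Q, Real.log (q : ℝ) ≤
        9 * L * (30000 * ℓ) + 3 * ℓ * (10000000 * L * ℓ ^ 2) := by
      refine h6.trans ?_
      have h8 : (1 + 8 * Real.log (D.card : ℝ)) * Real.log (y 0 : ℝ) ≤ 9 * L * (30000 * ℓ) := by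
        rw [hlogy]
        have h9 : 1 + 8 * Real.log (D.card : ℝ) ≤ 9 * L := by linarith
        have h10 : (10000 * 2 ^ 0 * lN : ℝ) ≤ 30000 * ℓ := by linarith
        have h11 : 0 ≤ (10000 * 2 ^ 0 * lN : ℝ) := by positivity
        gcongr
      have h9 : ∑ i ∈ Finset.range J, (7 + 8 * (k i * lN)) * Real.log (y (i + 1) : ℝ) ≤
          3 * ℓ * (10000000 * L * ℓ ^ 2) := by
        refine le_trans (le_of_eq ?_) hs2
        refine Finset.sum_congr rfl fun i _ => ?_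
        rw [hlogy]
      linarith
    have h12 : ℓ ^ (C + 5) = ℓ ^ (C + 1) * ℓ ^ 4 := by
      rw [← Real.rpow_natCast ℓ 4, ← Real.rpow_add hℓ0]
      congr 1
      push_cast
      ring
    have h13 : 1 ≤ ℓ ^ (C + 1) := Real.one_le_rpow hℓ1 (by positivity)
    have h14 : 4 * ℓ ^ (C + 1) * (C * L) ≤ 1 / 2 * (L * (ℓ ^ (C + 1) * ℓ ^ 4)) := by
      have h15 : 8 * C ≤ ℓ ^ 4 := by
        have : ℓ ≤ ℓ ^ 4 := by
          calc ℓ = ℓ ^ 1 := (pow_one ℓ).symm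
            _ ≤ ℓ ^ 4 := pow_le_pow_right₀ hℓ1 (by norm_num)
        linarith
      calc 4 * ℓ ^ (C + 1) * (C * L) = 1 / 2 * (L * (ℓ ^ (C + 1) * (8 * C))) := by ring
        _ ≤ 1 / 2 * (L * (ℓ ^ (C + 1) * ℓ ^ 4)) := by gcongr
    have h16 : 9 * L * (30000 * ℓ) + 3 * ℓ * (10000000 * L * ℓ ^ 2) ≤
        1 / 2 * (L * (ℓ ^ (C + 1) * ℓ ^ 4)) := by
      have h17 : 9 * L * (30000 * ℓ) + 3 * ℓ * (10000000 * L * ℓ ^ 2) ≤
          L * (1 * (40000000 * ℓ ^ 3)) := by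
        have h18 : ℓ ≤ ℓ ^ 3 := by
          calc ℓ = ℓ ^ 1 := (pow_one ℓ).symm
            _ ≤ ℓ ^ 3 := pow_le_pow_right₀ hℓ1 (by norm_num)
        have h19 : L * ℓ ≤ L * ℓ ^ 3 := by gcongr
        nlinarith
      refine h17.trans ?_
      have h20 : 40000000 * ℓ ^ 3 ≤ 1 / 2 * ℓ ^ 4 := by
        have h21 : (0 : ℝ) ≤ ℓ ^ 3 := by positivity
        have h22 : ℓ ^ 4 = ℓ ^ 3 * ℓ := by ring
        rw [h22]
        nlinarith
      calc L * (1 * (40000000 * ℓ ^ 3)) ≤ L * (ℓ ^ (C + 1) * (1 / 2 * ℓ ^ 4)) := by gcongr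
        _ = 1 / 2 * (L * (ℓ ^ (C + 1) * ℓ ^ 4)) := by ring
    rw [h12]
    linarith

end Pool.Agent.PowF
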