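import Pool.Agent.PowF.Half

set_option autoImplicit false

namespace Pool.Agent.PowF

open Pool.Agent.CycSyl NumberField NumberTheorySymbols

theorem many_box_card (n B : ℕ) : (box n B).card = B ^ (n + 1) := by
  unfold box
  rw [Fintype.card_piFinset]
  simp

theorem many_mem_box {n B : ℕ} {x : Fin (n + 1) → ℤ} : x ∈ box n B ↔ ∀ i, 0 ≤ x i ∧ x i < B := by
  unfold box
  simp [Fintype.mem_piFinset]

/-- translates of the small box inside the large box -/
theorem many_translate_count (n M T B : ℕ) (hM : 0 < M) (hMT : M * T ≤ B)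
    (P : (Fin (n + 1) → ℤ) → Prop) [DecidablePred P]
    (hP : ∀ x t : Fin (n + 1) → ℤ, P x → P (x + (M : ℤ) • t)) :
    T ^ (n + 1) * ((box n M).filter P).card ≤ ((box n B).filter P).card := by
  rw [← many_box_card n T, ← Finset.card_product]
  apply Finset.card_le_card_of_injOn (fun z => z.2 + (M : ℤ) • z.1)
  · rintro ⟨t, x⟩ hz
    simp only [Finset.coe_product, Set.mem_prod, Finset.mem_coe, Finset.mem_filter, many_mem_box] at hz
    simp only [Finset.coe_filter, Set.mem_ofPred_eq, many_mem_box]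
    refine ⟨fun i => ?_, hP x t hz.2.2⟩
    have h1 := hz.1 i
    have h2 := hz.2.1 i
    simp only [Pi.add_apply, Pi.smul_apply, smul_eq_mul]
    have hM' : (0 : ℤ) < M := by exact_mod_cast hM
    constructor
    · have := mul_nonneg hM'.le h1.1
      linarith
    · have h3 : (M : ℤ) * t i ≤ M * (T - 1) := mul_le_mul_of_nonneg_left (by linarith) hM'.le
      have h4 : (M : ℤ) * T ≤ B := by exact_mod_cast hMT
      nlinarith
  · rintro ⟨t, x⟩ hz ⟨t', x'⟩ hz' h
    simp only [Finset.coe_product, Set.mem_prod, Finset.mem_coe, Finset.mem_filter, many_mem_box] at hz hz'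
    have hM' : (0 : ℤ) < M := by exact_mod_cast hM
    have key : ∀ i, x i = x' i ∧ t i = t' i := by
      intro i
      have h0 := congrFun h i
      simp only [Pi.add_apply, Pi.smul_apply, smul_eq_mul] at h0
      have h2 := hz.2.1 i
      have h2' := hz'.2.1 i
      have e1 : x i = (x i + M * t i) % M := by
        rw [Int.add_mul_emod_self_left, Int.emod_eq_of_lt h2.1 h2.2]
      have e2 : x' i = (x' i + M * t' i) % M := by
        rw [Int.add_mul_emod_self_left, Int.emod_eq_of_lt h2'.1 h2'.2]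
      have e3 : x i = x' i := by rw [e1, e2, h0]
      refine ⟨e3, ?_⟩
      rw [e3] at h0
      have := add_left_cancel h0
      exact mul_left_cancel₀ hM'.ne' this
    ext i
    · exact (key i).2
    · exact (key i).1

/-- the property of being a nonresidue is many_periodic -/
theorem many_periodic {p : ℕ} (Nf : NForm p) {d M : ℕ} (hdM : 4 * d ∣ M)
    (x t : Fin (Nf.n + 1) → ℤ)
    (h : (Nf.F x).Coprime M ∧ J(-(d : ℤ) | Nf.F x) = -1) :
    (Nf.F (x + (M : ℤ) • t)).Coprime M ∧ J(-(d : ℤ) | Nf.F (x + (M : ℤ) • t)) = -1 := by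
  have h1 := Nf.F_add (M : ℤ) x t
  have h2 : Nf.F (x + (M : ℤ) • t) ≡ Nf.F x [MOD M] := (Int.natCast_modEq_iff).mp h1
  have h3 : (Nf.F (x + (M : ℤ) • t)).Coprime M := by
    have := h2.gcd_eq
    unfold Nat.Coprime at *
    rw [this]
    exact h.1
  refine ⟨h3, ?_⟩
  have odd_of : ∀ a : ℕ, a.Coprime M → Odd a := by
    intro a ha
    rw [← Nat.not_even_iff_odd]
    intro he
    have h4 : 2 ∣ M := (Dvd.intro (2 * d) (by ring)).trans hdM
    have := Nat.dvd_gcd he.two_dvd h4
    rw [ha] at this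
    omega
  have h5 : Nf.F (x + (M : ℤ) • t) % (4 * d) = Nf.F x % (4 * d) := (h2.of_dvd hdM)
  rw [jacobiSym.mod_right _ (odd_of _ h3)]
  have h6 := h.2
  rw [jacobiSym.mod_right _ (odd_of _ h.1)] at h6
  simp only [Int.natAbs_neg, Int.natAbs_natCast] at h6 ⊢
  rw [h5]
  exact h6

theorem many_two_pow_omega_le {M : ℕ} (hM : 0 < M) : 2 ^ M.primeFactors.card ≤ M := by
  have h1 : 2 ^ M.primeFactors.card ≤ ∏ q ∈ M.primeFactors, q :=
    Finset.pow_card_le_prod _ _ _ fun q hq => (Nat.prime_of_mem_primeFactors hq).two_le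
  exact h1.trans (Nat.le_of_dvd hM (Nat.prod_primeFactors_dvd M))

theorem many_of_nform {p : ℕ} (hp : p.Prime) (Nf : NForm p) : Many Nf := by
  intro W hW
  obtain ⟨c, hc, hu⟩ := unit_count Nf
  set k : ℕ := Nf.n + 1 with hk
  set A : ℝ := 2 * 4 ^ k / c with hA
  have hA0 : 0 < A := by positivity
  refine ⟨k + |Real.log A| + 1, max (max (Real.exp (Real.exp 1)) 4) (Real.log (4 * p * W)),
    by positivity, ?_⟩
  intro L hL d hd hsq hpd hdL B hB
  have hL1 : Real.exp (Real.exp 1) ≤ L := (le_max_left _ _).trans ((le_max_left _ _).trans hL)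
  have hL2 : 4 ≤ L := (le_max_right _ _).trans ((le_max_left _ _).trans hL)
  have hL3 : Real.log (4 * p * W) ≤ L := (le_max_right _ _).trans hL
  have hp0 : 0 < p := hp.pos
  have hLpos : 0 < L := by linarith
  have hlogL : Real.exp 1 ≤ Real.log L := by
    rw [Real.le_log_iff_exp_le hLpos]
    exact hL1
  have hlogL1 : 1 ≤ Real.log L := by
    have := Real.add_one_le_exp (1 : ℝ)
    linarith
  set M : ℕ := 4 * d * p * W with hMdef
  have hM : 0 < M := by positivity
  have hMr : (M : ℝ) ≤ 4 * p * W * Real.exp L := by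
    rw [hMdef]
    push_cast
    have : (0 : ℝ) ≤ 4 * p * W := by positivity
    calc (4 : ℝ) * d * p * W = 4 * p * W * d := by ring
      _ ≤ _ := mul_le_mul_of_nonneg_left hdL this
  have hMB : 2 * (M : ℝ) ≤ B := by linarith
  set w : ℕ := ⌈3 * L⌉₊ with hw
  have hw3 : 3 * L ≤ w := Nat.le_ceil _
  have hw4 : (w : ℝ) < 3 * L + 1 := Nat.ceil_lt_add_one (by linarith)
  have hw2 : 2 ≤ w := by
    have : (2 : ℝ) ≤ w := by linarith
    exact_mod_cast this
  have hom : (M.primeFactors.card : ℝ) ≤ 3 * L := by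
    have h1 : (2 : ℝ) ^ M.primeFactors.card ≤ M := by exact_mod_cast many_two_pow_omega_le hM
    have h2 : Real.log ((2 : ℝ) ^ M.primeFactors.card) ≤ Real.log (4 * p * W * Real.exp L) :=
      Real.log_le_log (by positivity) (h1.trans hMr)
    rw [Real.log_pow, Real.log_mul (by positivity) (by positivity), Real.log_exp] at h2
    have h3 : (0.6931471803 : ℝ) < Real.log 2 := Real.log_two_gt_d9
    have h4 : (0 : ℝ) ≤ M.primeFactors.card := by positivity
    nlinarith
  have hfil : (M.primeFactors.filter (fun l => w < l)).card ≤ w := by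
    have h1 : (M.primeFactors.filter (fun l => w < l)).card ≤ M.primeFactors.card :=
      Finset.card_filter_le _ _
    have h2 : (M.primeFactors.card : ℝ) ≤ w := by linarith
    have h3 : M.primeFactors.card ≤ w := by exact_mod_cast h2
    omega
  have hdM : 4 * d ∣ M := ⟨p * W, by rw [hMdef]; ring⟩
  have hu1 := hu w M hw2 hM hfil
  have hh := half_count Nf hd hsq hpd hM hdM
  set U : ℕ := ((box Nf.n M).filter (fun x => (Nf.F x).Coprime M)).card with hU
  set V : ℕ := ((box Nf.n M).filter (fun x => (Nf.F x).Coprime M ∧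
    J(-(d : ℤ) | Nf.F x) = -1)).card with hV
  set T : ℕ := B / M with hT
  have htr := many_translate_count Nf.n M T B hM (by rw [hT]; exact Nat.mul_div_le B M)
    (fun x => (Nf.F x).Coprime M ∧ J(-(d : ℤ) | Nf.F x) = -1)
    (fun x t h => many_periodic Nf hdM x t h)
  have hsub : ((box Nf.n B).filter (fun x => (Nf.F x).Coprime M ∧
      J(-(d : ℤ) | Nf.F x) = -1)).card ≤ ((box Nf.n B).filter (fun x =>
      (Nf.F x).Coprime (2 * p * W) ∧ J(-(d : ℤ) | Nf.F x) = -1)).card := by
    apply Finset.card_le_card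
    intro x hx
    rw [Finset.mem_filter] at hx ⊢
    refine ⟨hx.1, hx.2.1.coprime_dvd_right ⟨2 * d, by rw [hMdef]; ring⟩, hx.2.2⟩
  set N : ℕ := ((box Nf.n B).filter (fun x =>
      (Nf.F x).Coprime (2 * p * W) ∧ J(-(d : ℤ) | Nf.F x) = -1)).card with hN
  have hTV : T ^ k * V ≤ N := htr.trans hsub
  have hTVr : (T : ℝ) ^ k * V ≤ N := by exact_mod_cast hTV
  have hUV : 2 * (V : ℝ) = U := by exact_mod_cast hh
  -- the real inequality
  have hBT : (B : ℝ) ≤ 2 * (M * T) := by
    have h1 : B < M * (T + 1) := by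
      rw [hT]
      exact Nat.lt_mul_div_succ B hM
    have h2 : (B : ℝ) < M * (T + 1) := by exact_mod_cast h1
    have h3 : (B : ℝ) - M < M * T := by linarith
    linarith
  have hlogw : 0 < Real.log w := Real.log_pos (by
    have : (2 : ℝ) ≤ w := by exact_mod_cast hw2
    linarith)
  have hlogw2 : Real.log w ≤ 2 * Real.log L := by
    have h1 : (w : ℝ) ≤ L ^ 2 := by nlinarith
    have h2 : Real.log w ≤ Real.log (L ^ 2) := Real.log_le_log (by positivity) h1
    rw [Real.log_pow] at h2
    exact_mod_cast h2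
  have hMU : (M : ℝ) ^ k ≤ (Real.log w) ^ k / c * U := by
    have h1 : c * (M : ℝ) ^ k / (Real.log w) ^ k ≤ U := hu1
    rw [div_le_iff₀ (by positivity)] at h1
    rw [div_mul_eq_mul_div, le_div_iff₀ hc]
    linarith
  have hmain : (B : ℝ) ^ k ≤ A * (Real.log L) ^ k * N := by
    calc (B : ℝ) ^ k ≤ (2 * (M * T)) ^ k := pow_le_pow_left₀ (by positivity) hBT k
      _ = 2 ^ k * (T : ℝ) ^ k * (M : ℝ) ^ k := by rw [mul_pow, mul_pow]; ring
      _ ≤ 2 ^ k * (T : ℝ) ^ k * ((Real.log w) ^ k / c * U) :=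
          mul_le_mul_of_nonneg_left hMU (by positivity)
      _ = 2 ^ k * 2 / c * (Real.log w) ^ k * ((T : ℝ) ^ k * V) := by rw [← hUV]; ring
      _ ≤ 2 ^ k * 2 / c * (2 * Real.log L) ^ k * N := by
          apply mul_le_mul _ hTVr (by positivity) (by positivity)
          apply mul_le_mul_of_nonneg_left _ (by positivity)
          exact pow_le_pow_left₀ hlogw.le hlogw2 k
      _ = A * (Real.log L) ^ k * N := by
          rw [hA, mul_pow]
          have : (4 : ℝ) ^ k = 2 ^ k * 2 ^ k := by rw [← mul_pow]; norm_num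
          rw [this]
          ring
  refine hmain.trans ?_
  apply mul_le_mul_of_nonneg_right _ (by positivity)
  have hl0 : 0 < Real.log L := by linarith
  have e1 : (Real.log L) ^ ((k : ℝ) + |Real.log A| + 1) =
      (Real.log L) ^ k * (Real.log L) ^ (|Real.log A| + 1) := by
    rw [add_assoc, Real.rpow_add hl0, Real.rpow_natCast]
  rw [e1, mul_comm]
  apply mul_le_mul_of_nonneg_left _ (by positivity)
  calc A = Real.exp (Real.log A) := (Real.exp_log hA0).symm
    _ ≤ Real.exp (|Real.log A| + 1) := Real.exp_le_exp.mpr (by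
        have := le_abs_self (Real.log A)
        linarith)
    _ = (Real.exp 1) ^ (|Real.log A| + 1) := by rw [← Real.exp_mul]; ring_nf
    _ ≤ (Real.log L) ^ (|Real.log A| + 1) :=
        Real.rpow_le_rpow (Real.exp_pos _).le hlogL (by positivity)

end Pool.Agent.PowF
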