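import Pool.Agent.PowF.DefsA

/-!
The cyclotomic norm form, for every odd prime `p`.
-/

set_option autoImplicit false
set_option linter.unusedSectionVars false

namespace Pool.Agent.PowF

namespace NFp

open NumberField Module NumberTheorySymbols

section Generic

variable {K : Type} [Field K] [NumberField K] {n : ℕ} (b : Basis (Fin (n + 1)) ℤ (𝓞 K))

/-- the algebraic integer with given coordinates -/
noncomputable def E (x : Fin (n + 1) → ℤ) : 𝓞 K := b.equivFun.symm x

theorem E_apply (x : Fin (n + 1) → ℤ) : E b x = ∑ i, x i • b i := by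
  simp [E, Basis.equivFun_symm_apply]

/-- the norm form -/
noncomputable def Fn (x : Fin (n + 1) → ℤ) : ℕ := (Algebra.norm ℤ (E b x)).natAbs

/-- multiplication in coordinates -/
noncomputable def ml (x y : Fin (n + 1) → ℤ) : Fin (n + 1) → ℤ := b.equivFun (E b x * E b y)

theorem E_ml (x y : Fin (n + 1) → ℤ) : E b (ml b x y) = E b x * E b y :=
  LinearEquiv.symm_apply_apply _ _

theorem E_add (x y : Fin (n + 1) → ℤ) : E b (x + y) = E b x + E b y :=
  map_add b.equivFun.symm x y

theorem E_smul (M : ℤ) (x : Fin (n + 1) → ℤ) : E b (M • x) = M • E b x :=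
  map_smul b.equivFun.symm M x

theorem E_inj {x y : Fin (n + 1) → ℤ} (h : E b x = E b y) : x = y := by
  exact b.equivFun.symm.injective h

theorem E_surj (a : 𝓞 K) : ∃ x, E b x = a :=
  ⟨b.equivFun a, LinearEquiv.symm_apply_apply _ _⟩

theorem Fn_ml (x y : Fin (n + 1) → ℤ) : Fn b (ml b x y) = Fn b x * Fn b y := by
  unfold Fn
  rw [E_ml, map_mul, Int.natAbs_mul]

theorem ml_add (M : ℤ) (x y z : Fin (n + 1) → ℤ) :
    ∃ w, ml b (x + M • z) y = ml b x y + M • w := by
  refine ⟨ml b z y, E_inj b ?_⟩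
  rw [E_ml, E_add, E_add, E_smul, E_smul, E_ml, E_ml, add_mul, smul_mul_assoc]

theorem ml_adj (y : Fin (n + 1) → ℤ) : ∃ y', ∀ x, ml b (ml b x y) y' = (Fn b y : ℤ) • x := by
  have h := Ideal.absNorm_mem (Ideal.span {E b y})
  rw [Ideal.absNorm_span_singleton, Ideal.mem_span_singleton] at h
  obtain ⟨c, hc⟩ := h
  obtain ⟨y', hy'⟩ := E_surj b c
  refine ⟨y', fun x => E_inj b ?_⟩
  rw [E_ml, E_ml, hy', mul_assoc, ← hc, E_smul]
  unfold Fn
  rw [zsmul_eq_mul, mul_comm]
  simp

/-- the matrix of the norm form -/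
noncomputable def Mx (x : Fin (n + 1) → ℤ) : Matrix (Fin (n + 1)) (Fin (n + 1)) ℤ :=
  ∑ k, x k • Algebra.leftMulMatrix b (b k)

theorem Mx_eq (x : Fin (n + 1) → ℤ) : Algebra.leftMulMatrix b (E b x) = Mx b x := by
  rw [E_apply, map_sum]
  unfold Mx
  simp only [map_smul]

theorem norm_E (x : Fin (n + 1) → ℤ) : Algebra.norm ℤ (E b x) = (Mx b x).det := by
  rw [Algebra.norm_eq_matrix_det b, Mx_eq]

end Generic

open InfinitePlace in
/-- norms from a totally complex field are nonnegative -/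
theorem norm_nonneg_tc {K : Type} [Field K] [NumberField K] [IsTotallyComplex K] (x : K) :
    0 ≤ Algebra.norm ℚ x := by
  classical
  have h1 : ((Algebra.norm ℚ x : ℚ) : ℂ) = ∏ w : InfinitePlace K, (((w x) ^ 2 : ℝ) : ℂ) := by
    have h0 := Algebra.norm_eq_prod_embeddings ℚ ℂ x
    rw [eq_ratCast] at h0
    rw [h0, ← Fintype.prod_equiv (RingHom.equivRatAlgHom K ℂ) (fun f => f x)
      (fun φ => φ x) fun _ => by simp [RingHom.equivRatAlgHom_apply]]
    rw [← Finset.prod_fiberwise Finset.univ mk (fun φ : K →+* ℂ => φ x)]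
    refine Finset.prod_congr rfl fun w _ => ?_
    have hf : (Finset.univ.filter (fun φ : K →+* ℂ => mk φ = w)) =
        {embedding w, ComplexEmbedding.conjugate (embedding w)} := by
      ext φ
      simp only [Finset.mem_filter, Finset.mem_univ, true_and, Finset.mem_insert,
        Finset.mem_singleton]
      rw [← mk_embedding w, mk_eq_iff, mk_embedding]
      constructor
      · rintro (h | h)
        · exact Or.inl h
        · right
          rw [← h]
          ext z
          simp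
      · rintro (h | h)
        · exact Or.inl h
        · right
          rw [h]
          ext z
          simp
    have hne : embedding w ≠ ComplexEmbedding.conjugate (embedding w) := by
      have hw : IsComplex w := IsTotallyComplex.isComplex w
      intro h
      have := (isReal_iff (w := w)).2 (ComplexEmbedding.isReal_iff.2 h.symm)
      exact (not_isReal_iff_isComplex.2 hw) this
    rw [hf, Finset.prod_pair hne]
    rw [ComplexEmbedding.conjugate_coe_eq, Complex.mul_conj, Complex.normSq_eq_norm_sq,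
      norm_embedding_eq]
  have h2 : ((Algebra.norm ℚ x : ℚ) : ℝ) = ∏ w : InfinitePlace K, ((w x) ^ 2 : ℝ) := by
    have : (((Algebra.norm ℚ x : ℚ) : ℝ) : ℂ) =
        ((∏ w : InfinitePlace K, ((w x) ^ 2 : ℝ) : ℝ) : ℂ) := by
      rw [Complex.ofReal_prod, ← h1]
      simp
    exact_mod_cast this
  have h3 : (0 : ℝ) ≤ ((Algebra.norm ℚ x : ℚ) : ℝ) := by
    rw [h2]
    exact Finset.prod_nonneg fun w _ => sq_nonneg _
  exact_mod_cast h3

theorem normZ_nonneg {K : Type} [Field K] [NumberField K] [IsTotallyComplex K] (x : 𝓞 K) :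
    0 ≤ Algebra.norm ℤ x := by
  have h := norm_nonneg_tc (x : K)
  rw [← Algebra.coe_norm_int] at h
  exact_mod_cast h

section Generic2

variable {K : Type} [Field K] [NumberField K] {n : ℕ} (b : Basis (Fin (n + 1)) ℤ (𝓞 K))

theorem Mx_add (x y : Fin (n + 1) → ℤ) : Mx b (x + y) = Mx b x + Mx b y := by
  unfold Mx
  simp only [Pi.add_apply, add_smul, Finset.sum_add_distrib]

theorem Mx_smul (M : ℤ) (x : Fin (n + 1) → ℤ) : Mx b (M • x) = M • Mx b x := by
  unfold Mx
  simp only [Pi.smul_apply, smul_assoc, Finset.smul_sum]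

theorem det_congr {m : ℕ} (M : ℤ) (A B : Matrix (Fin m) (Fin m) ℤ) :
    (A + M • B).det ≡ A.det [ZMOD M] := by
  rw [Int.modEq_comm, Int.modEq_iff_dvd, ← Ideal.mem_span_singleton, ← Ideal.Quotient.eq,
    RingHom.map_det, RingHom.map_det]
  congr 1
  ext i j
  have : (Ideal.Quotient.mk (Ideal.span {M})) (M * B i j) = 0 := by
    rw [Ideal.Quotient.eq_zero_iff_mem, Ideal.mem_span_singleton]
    exact dvd_mul_right _ _
  simp only [RingHom.mapMatrix_apply, Matrix.map_apply, Matrix.add_apply, Matrix.smul_apply,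
    smul_eq_mul, map_add, this, add_zero]

theorem Fn_cast [IsTotallyComplex K] (x : Fin (n + 1) → ℤ) :
    (Fn b x : ℤ) = (Mx b x).det := by
  unfold Fn
  rw [Int.natAbs_of_nonneg (normZ_nonneg _), norm_E]

theorem Fn_add [IsTotallyComplex K] (M : ℤ) (x y : Fin (n + 1) → ℤ) :
    (Fn b (x + M • y) : ℤ) ≡ Fn b x [ZMOD M] := by
  rw [Fn_cast, Fn_cast, Mx_add, Mx_smul]
  exact det_congr _ _ _

theorem Fn_bound : ∃ c : ℝ, 0 < c ∧ ∀ (B : ℝ) (x : Fin (n + 1) → ℤ),
    (∀ i, |(x i : ℝ)| ≤ B) → (Fn b x : ℝ) ≤ c * B ^ (n + 1) := by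
  obtain ⟨C, hC⟩ : ∃ C : ℝ, ∀ i j, ∑ k, |((Algebra.leftMulMatrix b (b k) i j : ℤ) : ℝ)| ≤ C := by
    refine ⟨∑ i, ∑ j, ∑ k, |((Algebra.leftMulMatrix b (b k) i j : ℤ) : ℝ)|, fun i j => ?_⟩
    refine (Finset.single_le_sum (f := fun j => ∑ k,
      |((Algebra.leftMulMatrix b (b k) i j : ℤ) : ℝ)|)
      (fun j _ => Finset.sum_nonneg fun k _ => abs_nonneg _) (Finset.mem_univ j)).trans ?_
    exact Finset.single_le_sum (f := fun i => ∑ j, ∑ k,
      |((Algebra.leftMulMatrix b (b k) i j : ℤ) : ℝ)|)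
      (fun i _ => Finset.sum_nonneg fun j _ => Finset.sum_nonneg fun k _ => abs_nonneg _)
      (Finset.mem_univ i)
  have hC0 : 0 ≤ C := (Finset.sum_nonneg fun k _ => abs_nonneg _).trans (hC 0 0)
  refine ⟨(n + 1).factorial * C ^ (n + 1) + 1, by positivity, fun B x hx => ?_⟩
  have hB : 0 ≤ B := (abs_nonneg _).trans (hx 0)
  have h1 : (Fn b x : ℝ) = |((((Mx b x).map (Int.cast : ℤ → ℝ)).det : ℝ))| := by
    unfold Fn
    rw [norm_E, Nat.cast_natAbs, Int.cast_abs]
    congr 1
    exact RingHom.map_det (Int.castRingHom ℝ) (Mx b x)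
  have h2 := Matrix.det_le (A := (Mx b x).map (Int.cast : ℤ → ℝ)) (abv := AbsoluteValue.abs)
    (x := B * C) (fun i j => by
      have e : ((Mx b x).map (Int.cast : ℤ → ℝ)) i j =
          ∑ k, (x k : ℝ) * ((Algebra.leftMulMatrix b (b k) i j : ℤ) : ℝ) := by
        simp only [Mx, Matrix.map_apply, Matrix.sum_apply, Matrix.smul_apply, smul_eq_mul,
          Int.cast_sum, Int.cast_mul]
      rw [e]
      simp only [AbsoluteValue.abs_apply]
      refine (Finset.abs_sum_le_sum_abs _ _).trans ?_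
      calc ∑ k, |(x k : ℝ) * ((Algebra.leftMulMatrix b (b k) i j : ℤ) : ℝ)|
          ≤ ∑ k, B * |((Algebra.leftMulMatrix b (b k) i j : ℤ) : ℝ)| := by
            refine Finset.sum_le_sum fun k _ => ?_
            rw [abs_mul]
            exact mul_le_mul_of_nonneg_right (hx k) (abs_nonneg _)
        _ = B * ∑ k, |((Algebra.leftMulMatrix b (b k) i j : ℤ) : ℝ)| := by
            rw [Finset.mul_sum]
        _ ≤ B * C := mul_le_mul_of_nonneg_left (hC i j) hB)
  rw [Fintype.card_fin, AbsoluteValue.abs_apply] at h2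
  rw [h1]
  refine h2.trans ?_
  rw [nsmul_eq_mul, mul_pow]
  have : 0 ≤ B ^ (n + 1) := by positivity
  nlinarith

theorem Fn_one (h0 : b 0 = 1) : Fn b (Pi.single 0 1) = 1 := by
  unfold Fn
  have : E b (Pi.single 0 1) = 1 := by
    rw [E_apply, Finset.sum_eq_single 0]
    · simp [h0]
    · intro i _ hi
      simp [Pi.single_eq_of_ne hi]
    · simp
  rw [this, map_one]
  rfl

theorem Fn_root [IsTotallyComplex K] (h0 : b 0 = 1) (q : ℕ) (hq : q.Prime)
    (x : Fin (n + 1) → ℤ) :
    ((Finset.range q).filter (fun a : ℕ => q ∣ Fn b (Function.update x 0 (a : ℤ)))).card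
      ≤ n + 1 := by
  classical
  have : Fact q.Prime := ⟨hq⟩
  set A : Matrix (Fin (n + 1)) (Fin (n + 1)) ℤ := Mx b (Function.update x 0 0) with hA
  set P : Polynomial (ZMod q) := ((-A).charpoly).map (Int.castRingHom (ZMod q)) with hP
  have hmon : P.Monic := (Matrix.charpoly_monic (-A)).map _
  have hdeg : P.natDegree = n + 1 := by
    rw [hP, (Matrix.charpoly_monic (-A)).natDegree_map, Matrix.charpoly_natDegree_eq_dim,
      Fintype.card_fin]
  have hval : ∀ a : ℕ, (Fn b (Function.update x 0 (a : ℤ)) : ℤ) =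
      ((-A).charpoly).eval (a : ℤ) := by
    intro a
    rw [Fn_cast, Matrix.eval_charpoly]
    congr 1
    have e : Function.update x 0 (a : ℤ) = (a : ℤ) • Pi.single 0 1 + Function.update x 0 0 := by
      ext i
      by_cases hi : i = 0
      · subst hi; simp
      · simp [hi, Pi.single_eq_of_ne hi]
    rw [e, Mx_add, Mx_smul, ← hA]
    have e1 : Mx b (Pi.single 0 1) = 1 := by
      unfold Mx
      rw [Finset.sum_eq_single 0]
      · simp [h0]
      · intro i _ hi
        simp [Pi.single_eq_of_ne hi]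
      · simp
    rw [e1, sub_neg_eq_add]
    congr 1
    ext i j
    rw [Matrix.smul_apply, Matrix.one_apply, Matrix.scalar_apply, Matrix.diagonal_apply]
    split_ifs <;> simp
  calc ((Finset.range q).filter (fun a : ℕ => q ∣ Fn b (Function.update x 0 (a : ℤ)))).card
      ≤ P.roots.toFinset.card := by
        refine Finset.card_le_card_of_injOn (fun a : ℕ => (a : ZMod q)) ?_ ?_
        · intro a ha
          simp only [Finset.coe_filter, Finset.mem_range, Set.mem_ofPred_eq] at ha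
          simp only [Finset.mem_coe, Multiset.mem_toFinset]
          rw [Polynomial.mem_roots hmon.ne_zero, Polynomial.IsRoot.def, hP]
          have h1 : ((Fn b (Function.update x 0 (a : ℤ)) : ℤ) : ZMod q) = 0 := by
            rw [ZMod.intCast_zmod_eq_zero_iff_dvd]
            exact_mod_cast ha.2
          rw [hval] at h1
          have h2 := Polynomial.eval_map (Int.castRingHom (ZMod q)) ((a : ℤ) : ZMod q)
            (p := (-A).charpoly)
          rw [show ((a : ℕ) : ZMod q) = (Int.castRingHom (ZMod q)) (a : ℤ) by simp,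
            Polynomial.eval_map_apply]
          simpa using h1
        · intro a ha c hc hac
          simp only [Finset.coe_filter, Finset.mem_range, Set.mem_ofPred_eq] at ha hc
          have := (ZMod.natCast_eq_natCast_iff' a c q).1 hac
          rwa [Nat.mod_eq_of_lt ha.1, Nat.mod_eq_of_lt hc.1] at this
    _ ≤ Multiset.card P.roots := Multiset.toFinset_card_le _
    _ ≤ P.natDegree := P.card_roots'
    _ = n + 1 := hdeg

end Generic2

section Parity

variable {p : ℕ} (hp : p.Prime) (hp2 : p ≠ 2) {K : Type} [Field K] [NumberField K]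
  [IsCyclotomicExtension {p} ℚ K]

include hp hp2 in
theorem parity_prime {q : ℕ} (hq : q.Prime) (hqp : p ∣ q + 1) (P : Ideal (𝓞 K))
    [hPp : P.IsPrime] (hP0 : P ≠ ⊥) : Even (padicValNat q (Ideal.absNorm P)) := by
  classical
  have : Fact p.Prime := ⟨hp⟩
  have : Fact q.Prime := ⟨hq⟩
  have hmax : P.IsMaximal := hPp.isMaximal hP0
  let _ : Field (𝓞 K ⧸ P) := Ideal.Quotient.field P
  have : Finite (𝓞 K ⧸ P) := Ideal.finiteQuotientOfFreeOfNeBot P hP0
  let _ : Fintype (𝓞 K ⧸ P) := Fintype.ofFinite _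
  have hcard : Ideal.absNorm P = Fintype.card (𝓞 K ⧸ P) := by
    rw [Ideal.absNorm_apply, Submodule.cardQuot_apply, Nat.card_eq_fintype_card]
  obtain ⟨l, hchar, m, hl, hlm⟩ := FiniteField.card' (𝓞 K ⧸ P)
  have : Fact l.Prime := ⟨hl⟩
  rw [hcard, hlm]
  by_cases hlq : l = q
  · subst hlq
    rw [padicValNat.prime_pow]
    -- the image of zeta has order p
    have hζ := IsCyclotomicExtension.zeta_spec p ℚ K
    set z : 𝓞 K ⧸ P := Ideal.Quotient.mk P hζ.toInteger with hz
    have hz1 : z ^ p = 1 := by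
      rw [hz, ← map_pow, hζ.toInteger_isPrimitiveRoot.pow_eq_one, map_one]
    have hlp : l ≠ p := by
      rintro rfl
      have h1 : l ∣ 1 := (Nat.dvd_add_right (dvd_refl l)).1 hqp
      exact hl.one_lt.ne' (Nat.dvd_one.1 h1)
    have hz2 : z ≠ 1 := by
      intro h
      have h1 : hζ.toInteger - 1 ∈ P := by
        rw [← Ideal.Quotient.eq_zero_iff_mem, map_sub, map_one, ← hz, h, sub_self]
      have h2 : (p : 𝓞 K) ∈ P := by
        have h3 := Ideal.absNorm_mem (Ideal.span {hζ.toInteger - 1})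
        rw [Ideal.absNorm_span_singleton, hζ.norm_toInteger_sub_one_of_prime_ne_two' hp2] at h3
        have h4 : Ideal.span {hζ.toInteger - 1} ≤ P := by
          rw [Ideal.span_le, Set.singleton_subset_iff]
          exact h1
        simpa using h4 h3
      have h5 : (p : 𝓞 K ⧸ P) = 0 := by
        have := Ideal.Quotient.eq_zero_iff_mem.2 h2
        simpa using this
      rw [CharP.cast_eq_zero_iff (𝓞 K ⧸ P) l] at h5
      exact hlp ((Nat.prime_dvd_prime_iff_eq hl hp).1 h5)
    have hord : orderOf z = p := orderOf_eq_prime hz1 hz2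
    have hz0 : z ≠ 0 := by
      rintro h
      rw [h, zero_pow hp.ne_zero] at hz1
      exact zero_ne_one hz1
    have hdvd : p ∣ l ^ (m : ℕ) - 1 := by
      have h1 : orderOf (Units.mk0 z hz0) = p := by
        rw [← orderOf_units, Units.val_mk0, hord]
      have h2 := orderOf_dvd_card (x := Units.mk0 z hz0)
      rwa [h1, Fintype.card_units, hlm] at h2
    have hdvd' : (p : ℤ) ∣ (l : ℤ) ^ (m : ℕ) - 1 := by
      have h1 : 1 ≤ l ^ (m : ℕ) := Nat.one_le_pow _ _ hl.pos
      have h2 : ((l ^ (m : ℕ) - 1 : ℕ) : ℤ) = (l : ℤ) ^ (m : ℕ) - 1 := by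
        push_cast [Nat.cast_sub h1]
        ring
      rw [← h2]
      exact_mod_cast hdvd
    by_contra hodd
    rw [Nat.not_even_iff_odd] at hodd
    have h3 : (p : ℤ) ∣ (l : ℤ) ^ (m : ℕ) - (-1) ^ (m : ℕ) := by
      refine dvd_trans ?_ (sub_dvd_pow_sub_pow (l : ℤ) (-1) m)
      rw [sub_neg_eq_add]
      exact_mod_cast hqp
    rw [hodd.neg_one_pow] at h3
    have h4 : (p : ℤ) ∣ 2 := by
      have := dvd_sub h3 hdvd'
      ring_nf at this
      exact this
    have h5 : p ∣ 2 := by exact_mod_cast h4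
    exact hp2 ((Nat.prime_dvd_prime_iff_eq hp Nat.prime_two).1 h5)
  · rw [padicValNat.pow, padicValNat_primes (Ne.symm hlq)]
    simp

include hp hp2 in
theorem parity_ideal {q : ℕ} (hq : q.Prime) (hqp : p ∣ q + 1) (I : Ideal (𝓞 K))
    (hI0 : I ≠ ⊥) : Even (padicValNat q (Ideal.absNorm I)) := by
  have : Fact q.Prime := ⟨hq⟩
  revert hI0
  refine UniqueFactorizationMonoid.induction_on_prime
    (P := fun I : Ideal (𝓞 K) => I ≠ ⊥ → Even (padicValNat q (Ideal.absNorm I))) I ?_ ?_ ?_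
  · intro h
    exact absurd rfl h
  · intro J hJ _
    have : Ideal.absNorm J = 1 := by
      rw [Ideal.isUnit_iff.1 hJ]
      exact Ideal.absNorm_top
    rw [this]
    simp
  · intro J P hJ hP ih hPJ
    have hP' : P.IsPrime := Ideal.isPrime_of_prime hP
    have hP0 : P ≠ ⊥ := hP.ne_zero
    have hJ0 : J ≠ ⊥ := hJ
    rw [map_mul, padicValNat.mul]
    · exact (parity_prime hp hp2 hq hqp P hP0).add (ih hJ0)
    · rwa [Ne, Ideal.absNorm_eq_zero_iff]
    · rwa [Ne, Ideal.absNorm_eq_zero_iff]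

include hp hp2 in
theorem Fn_parity {n : ℕ} (b : Basis (Fin (n + 1)) ℤ (𝓞 K)) (x : Fin (n + 1) → ℤ) (q : ℕ)
    (hq : q.Prime) (hqp : p ∣ q + 1) (h0 : Fn b x ≠ 0) : Even (padicValNat q (Fn b x)) := by
  have h := parity_ideal hp hp2 hq hqp (Ideal.span {E b x}) (by
    intro h
    apply h0
    unfold Fn
    rw [← Ideal.absNorm_span_singleton, h]
    exact Ideal.absNorm_bot)
  rwa [Ideal.absNorm_span_singleton] at h

end Parity

section Flip

variable {K : Type} [Field K] [NumberField K] {n : ℕ} (b : Basis (Fin (n + 1)) ℤ (𝓞 K))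

/-- the norm form modulo `l` as a polynomial -/
noncomputable def G (l : ℕ) : MvPolynomial (Fin (n + 1)) (ZMod l) :=
  Matrix.det (Matrix.of fun i j => ∑ k, MvPolynomial.C
    ((Algebra.leftMulMatrix b (b k) i j : ℤ) : ZMod l) * MvPolynomial.X k)

theorem G_deg (l : ℕ) : (G b l).totalDegree ≤ n + 1 := by
  unfold G
  rw [Matrix.det_apply]
  refine (MvPolynomial.totalDegree_finsetSum_le (d := n + 1) fun σ _ => ?_)
  have h1 : ((Equiv.Perm.sign σ) • ∏ i, (Matrix.of fun i j => ∑ k, MvPolynomial.C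
    ((Algebra.leftMulMatrix b (b k) i j : ℤ) : ZMod l) * MvPolynomial.X k)
    (σ i) i : MvPolynomial (Fin (n + 1)) (ZMod l)).totalDegree ≤
    (∏ i, (Matrix.of fun i j => ∑ k, MvPolynomial.C
    ((Algebra.leftMulMatrix b (b k) i j : ℤ) : ZMod l) * MvPolynomial.X k)
    (σ i) i : MvPolynomial (Fin (n + 1)) (ZMod l)).totalDegree := by
    rcases Int.units_eq_one_or (Equiv.Perm.sign σ) with h | h
    · rw [h]; simp
    · rw [h]
      simp [MvPolynomial.totalDegree_neg]
  refine h1.trans ((MvPolynomial.totalDegree_finsetProd _ _).trans ?_)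
  calc _ ≤ ∑ i : Fin (n + 1), 1 := by
        refine Finset.sum_le_sum fun i _ => ?_
        rw [Matrix.of_apply]
        refine MvPolynomial.totalDegree_finsetSum_le fun k _ => ?_
        refine (MvPolynomial.totalDegree_mul _ _).trans ?_
        rw [MvPolynomial.totalDegree_C, zero_add]
        rcases subsingleton_or_nontrivial (ZMod l) with h | h
        · rw [Subsingleton.elim (MvPolynomial.X k) (0 : MvPolynomial (Fin (n + 1)) (ZMod l))]
          simp
        · rw [MvPolynomial.totalDegree_X]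
    _ = n + 1 := by simp

theorem G_eval [IsTotallyComplex K] (l : ℕ) (x : Fin (n + 1) → ℤ) :
    MvPolynomial.eval (fun i => (x i : ZMod l)) (G b l) = (Fn b x : ZMod l) := by
  have h1 : ((Fn b x : ℤ) : ZMod l) = (Fn b x : ZMod l) := by simp
  rw [← h1, Fn_cast]
  unfold G
  have h2 := RingHom.map_det (Int.castRingHom (ZMod l)) (Mx b x)
  rw [eq_intCast] at h2
  rw [h2, RingHom.map_det]
  congr 1
  ext i j
  simp only [RingHom.mapMatrix_apply, Matrix.map_apply, Matrix.of_apply, map_sum, map_mul,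
    MvPolynomial.eval_C, MvPolynomial.eval_X, Mx, Matrix.sum_apply, Matrix.smul_apply,
    smul_eq_mul, eq_intCast]
  exact Finset.sum_congr rfl fun k _ => mul_comm _ _


variable {p : ℕ} (hp : p.Prime) {z : 𝓞 K} (hz : z ^ p = 1) (hb : ∀ i, b i = z ^ (i : ℕ))

include hp hz hb in
/-- every residue class modulo `l` is fixed by a power of the Frobenius map -/
theorem frob_fix {l : ℕ} (hl : l.Prime) (hlp : l ≠ p) (a : 𝓞 K ⧸ Ideal.span {(l : 𝓞 K)}) :
    a ^ (l ^ (p - 1)) = a := by
  have : Fact l.Prime := ⟨hl⟩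
  have hl0 : (l : 𝓞 K ⧸ Ideal.span {(l : 𝓞 K)}) = 0 := by
    have : (Ideal.Quotient.mk (Ideal.span {(l : 𝓞 K)})) (l : 𝓞 K) = 0 := by
      rw [Ideal.Quotient.eq_zero_iff_mem]
      exact Ideal.mem_span_singleton_self _
    rwa [map_natCast] at this
  rcases subsingleton_or_nontrivial (𝓞 K ⧸ Ideal.span {(l : 𝓞 K)}) with hA | hA
  · exact Subsingleton.elim _ _
  have hchar : CharP (𝓞 K ⧸ Ideal.span {(l : 𝓞 K)}) l := by
    have h1 : ringChar (𝓞 K ⧸ Ideal.span {(l : 𝓞 K)}) ∣ l := (ringChar.spec _ l).1 hl0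
    rcases (Nat.dvd_prime hl).1 h1 with h2 | h2
    · exact absurd h2 (CharP.ringChar_ne_one)
    · exact ringChar.of_eq h2
  obtain ⟨a, rfl⟩ := Ideal.Quotient.mk_surjective a
  obtain ⟨x, rfl⟩ := E_surj b a
  have hfr : ∀ c : 𝓞 K ⧸ Ideal.span {(l : 𝓞 K)}, c ^ (l ^ (p - 1)) =
    iterateFrobenius (𝓞 K ⧸ Ideal.span {(l : 𝓞 K)}) l (p - 1) c := fun c => rfl
  rw [E_apply, map_sum, hfr, map_sum]
  refine Finset.sum_congr rfl fun i _ => ?_
  rw [zsmul_eq_mul, map_mul, map_intCast, map_mul, map_intCast]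
  congr 1
  rw [← hfr, hb, map_pow, ← pow_mul, mul_comm, pow_mul, ← map_pow]
  congr 2
  have h1 : l ^ (p - 1) ≡ 1 [MOD p] := by
    have := Nat.ModEq.pow_totient ((Nat.coprime_primes hl hp).2 hlp)
    rwa [Nat.totient_prime hp] at this
  have h2 : l ^ (p - 1) = 1 + p * (l ^ (p - 1) / p) := by
    have h3 := Nat.div_add_mod (l ^ (p - 1)) p
    have h4 : l ^ (p - 1) % p = 1 := by
      rw [h1]
      exact Nat.mod_eq_of_lt hp.one_lt
    omega
  rw [h2, pow_add, pow_one, pow_mul, hz, one_pow, mul_one]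

include hp hz hb in
theorem card_units {l : ℕ} (hl : l.Prime) (hlp : l ≠ p) [Finite (𝓞 K ⧸ Ideal.span {(l : 𝓞 K)})] :
    ¬ l ∣ Nat.card (𝓞 K ⧸ Ideal.span {(l : 𝓞 K)})ˣ := by
  have : Fact l.Prime := ⟨hl⟩
  intro h
  obtain ⟨u, hu⟩ := exists_prime_orderOf_dvd_card' l h
  have h1 : u ^ l = 1 := orderOf_dvd_iff_pow_eq_one.1 (dvd_of_eq hu)
  have h2 : u ^ (l ^ (p - 1)) = u := by
    apply Units.ext
    rw [Units.val_pow_eq_pow_val]
    exact frob_fix b hp hz hb hl hlp _
  have hp1 : p - 1 = (p - 2) + 1 := by have := hp.two_le; omega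
  rw [hp1, pow_succ', pow_mul, h1, one_pow] at h2
  rw [← h2, orderOf_one] at hu
  exact hl.one_lt.ne hu

/-- residue classes as tuples -/
noncomputable def psi (l : ℕ) (y : Fin (n + 1) → ZMod l) : 𝓞 K ⧸ Ideal.span {(l : 𝓞 K)} :=
  Ideal.Quotient.mk _ (E b fun i => ((y i).val : ℤ))

theorem mk_eq_iff' {l : ℕ} (x y : Fin (n + 1) → ℤ) :
    Ideal.Quotient.mk (Ideal.span {(l : 𝓞 K)}) (E b x) = Ideal.Quotient.mk _ (E b y) ↔
      ∀ i, (x i : ZMod l) = (y i : ZMod l) := by
  rw [Ideal.Quotient.eq, Ideal.mem_span_singleton]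
  constructor
  · rintro ⟨c, hc⟩ i
    obtain ⟨w, rfl⟩ := E_surj b c
    have h1 : x = y + (l : ℤ) • w := by
      apply E_inj b
      rw [E_add, E_smul, zsmul_eq_mul]
      push_cast
      rw [← hc]
      ring
    rw [h1]
    simp
  · intro h
    have h1 : ∀ i, ∃ w : ℤ, x i - y i = l * w := by
      intro i
      have := (ZMod.intCast_eq_intCast_iff_dvd_sub _ _ _).1 (h i).symm
      exact this
    choose w hw using h1
    refine ⟨E b w, ?_⟩
    have h2 : x = y + (l : ℤ) • w := by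
      ext i
      have := hw i
      simp only [Pi.add_apply, Pi.smul_apply, smul_eq_mul]
      linarith
    rw [h2, E_add, E_smul, zsmul_eq_mul]
    push_cast
    ring

theorem psi_bij {l : ℕ} [NeZero l] : Function.Bijective (psi b l) := by
  constructor
  · intro y y' h
    unfold psi at h
    rw [mk_eq_iff'] at h
    ext i
    have := h i
    simpa using this
  · intro a
    obtain ⟨a, rfl⟩ := Ideal.Quotient.mk_surjective a
    obtain ⟨x, rfl⟩ := E_surj b a
    refine ⟨fun i => (x i : ZMod l), ?_⟩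
    unfold psi
    rw [mk_eq_iff']
    intro i
    simp

theorem isUnit_iff_Fn [IsTotallyComplex K] (h0 : b 0 = 1) {l : ℕ} (hl : l.Prime)
    (x : Fin (n + 1) → ℤ) :
    IsUnit (Ideal.Quotient.mk (Ideal.span {(l : 𝓞 K)}) (E b x)) ↔ (Fn b x : ZMod l) ≠ 0 := by
  have : Fact l.Prime := ⟨hl⟩
  constructor
  · intro h
    obtain ⟨c, hc⟩ := h.exists_right_inv
    obtain ⟨c, rfl⟩ := Ideal.Quotient.mk_surjective c
    obtain ⟨y, rfl⟩ := E_surj b c
    rw [← map_mul, ← E_ml] at hc
    intro hF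
    have h1 : E b (Pi.single 0 1) = 1 := by
      rw [E_apply, Finset.sum_eq_single 0]
      · simp [h0]
      · intro i _ hi
        simp [hi]
      · simp
    rw [← map_one (Ideal.Quotient.mk (Ideal.span {(l : 𝓞 K)})), ← h1, mk_eq_iff'] at hc
    have h2 : (Fn b (ml b x y) : ZMod l) = (Fn b (Pi.single 0 1) : ZMod l) := by
      rw [← G_eval, ← G_eval]
      exact congrArg (fun v => MvPolynomial.eval v (G b l)) (funext hc)
    rw [Fn_ml, Fn_one b h0, Nat.cast_mul, hF, zero_mul, Nat.cast_one] at h2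
    exact zero_ne_one h2
  · intro h
    obtain ⟨y', hy'⟩ := ml_adj b x
    have h1 := hy' (Pi.single 0 1)
    have h1' : E b (Pi.single 0 1) = 1 := by
      rw [E_apply, Finset.sum_eq_single 0]
      · simp [h0]
      · intro i _ hi
        simp [hi]
      · simp
    have h2 : E b x * E b y' = (Fn b x : 𝓞 K) := by
      have h3 := congrArg (E b) h1
      rw [E_ml, E_ml, E_smul, h1', one_mul, zsmul_eq_mul, mul_one] at h3
      rw [h3]
      simp
    -- an inverse of the norm modulo `l`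
    obtain ⟨c, hc⟩ : ∃ c : ℤ, (l : ℤ) ∣ 1 - (Fn b x : ℤ) * c := by
      refine ⟨(((Fn b x : ZMod l)⁻¹).val : ℤ), ?_⟩
      rw [← ZMod.intCast_zmod_eq_zero_iff_dvd]
      push_cast
      rw [ZMod.natCast_zmod_val, mul_inv_cancel₀ h, sub_self]
    obtain ⟨w, hw⟩ := hc
    refine IsUnit.of_mul_eq_one (Ideal.Quotient.mk _ (E b y' * c)) ?_
    rw [← map_mul, ← mul_assoc, h2, ← map_one (Ideal.Quotient.mk (Ideal.span {(l : 𝓞 K)})),
      Ideal.Quotient.eq, Ideal.mem_span_singleton]
    refine ⟨-(w : 𝓞 K), ?_⟩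
    have h4 : ((1 - (Fn b x : ℤ) * c : ℤ) : 𝓞 K) = ((l * w : ℤ) : 𝓞 K) := by rw [hw]
    push_cast at h4
    linear_combination -h4

include hp hz hb in
theorem exists_nonres [IsTotallyComplex K] {l : ℕ} (hl : l.Prime) (hl2 : l ≠ 2) (hlp : l ≠ p) :
    ∃ x, (Fn b x : ZMod l) ≠ 0 ∧ (Fn b x : ZMod l) ^ (l / 2) ≠ 1 := by
  classical
  have : Fact l.Prime := ⟨hl⟩
  have h0 : b 0 = 1 := by rw [hb]; simp
  by_contra hcon
  push Not at hcon
  have hfin : Finite (𝓞 K ⧸ Ideal.span {(l : 𝓞 K)}) :=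
    Finite.of_surjective (psi b l) (psi_bij b).2
  have hval : ∀ y : Fin (n + 1) → ZMod l,
      MvPolynomial.eval y (G b l) = (Fn b (fun i => ((y i).val : ℤ)) : ZMod l) := by
    intro y
    rw [← G_eval]
    refine congrArg (fun v => MvPolynomial.eval v (G b l)) (funext fun i => ?_)
    simp
  have hunit : ∀ y : Fin (n + 1) → ZMod l, IsUnit (psi b l y) ↔
      MvPolynomial.eval y (G b l) ≠ 0 := by
    intro y
    rw [hval]
    exact isUnit_iff_Fn b h0 hl _
  have hcard : (Finset.univ.filter (fun y : Fin (n + 1) → ZMod l =>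
      MvPolynomial.eval y (G b l) ≠ 0)).card = Nat.card (𝓞 K ⧸ Ideal.span {(l : 𝓞 K)})ˣ := by
    rw [← Fintype.card_subtype, ← Nat.card_eq_fintype_card]
    refine Nat.card_congr (Equiv.ofBijective
      (fun y : {y // MvPolynomial.eval y (G b l) ≠ 0} => ((hunit y.1).2 y.2).unit) ⟨?_, ?_⟩)
    · intro y y' h
      have h1 := congrArg Units.val h
      simp only [IsUnit.unit_spec] at h1
      exact Subtype.ext ((psi_bij b).1 h1)
    · intro u
      obtain ⟨y, hy⟩ := (psi_bij b (l := l)).2 (u : 𝓞 K ⧸ Ideal.span {(l : 𝓞 K)})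
      refine ⟨⟨y, (hunit y).1 (hy ▸ u.isUnit)⟩, ?_⟩
      apply Units.ext
      simp only [IsUnit.unit_spec]
      exact hy
  have hsum := MvPolynomial.sum_eval_eq_zero ((G b l) ^ (l / 2)) (by
    rw [ZMod.card, Fintype.card_fin]
    refine (MvPolynomial.totalDegree_pow _ _).trans_lt ?_
    have h1 := G_deg b l
    have h2 : l / 2 < l - 1 := by
      have := hl.two_le
      omega
    calc l / 2 * (G b l).totalDegree ≤ l / 2 * (n + 1) := Nat.mul_le_mul_left _ h1
      _ < (l - 1) * (n + 1) := Nat.mul_lt_mul_of_pos_right h2 (Nat.succ_pos n))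
  have hsum2 : ∑ y, MvPolynomial.eval y (G b l ^ (l / 2)) =
      ((Finset.univ.filter (fun y : Fin (n + 1) → ZMod l =>
        MvPolynomial.eval y (G b l) ≠ 0)).card : ZMod l) := by
    rw [Finset.card_filter]
    push_cast
    refine Finset.sum_congr rfl fun y _ => ?_
    rw [map_pow]
    split_ifs with hy
    · rw [hval] at hy ⊢
      rw [hcon _ hy]
    · rw [not_not] at hy
      rw [hy, zero_pow]
      have := hl.two_le
      omega
  rw [hsum, hcard] at hsum2
  exact card_units b hp hz hb hl hlp ((ZMod.natCast_eq_zero_iff _ _).1 hsum2.symm)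

end Flip

section Flip2

variable {K : Type} [Field K] [NumberField K] {n : ℕ} (b : Basis (Fin (n + 1)) ℤ (𝓞 K))

/-- interpolation between `x₀` and the unit element -/
theorem interp [IsTotallyComplex K] (h0 : b 0 = 1) {l N : ℕ} (hcop : Nat.Coprime N l)
    (x₀ : Fin (n + 1) → ℤ) : ∃ y : Fin (n + 1) → ℤ, (Fn b y : ℤ) ≡ 1 [ZMOD N] ∧
      (Fn b y : ℤ) ≡ Fn b x₀ [ZMOD l] := by
  obtain ⟨c, e, hce⟩ : ∃ c e : ℤ, N * c + l * e = 1 := by
    have := (Int.isCoprime_iff_gcd_eq_one.2 (show Int.gcd (N : ℤ) l = 1 by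
      rw [Int.gcd_natCast_natCast]; exact hcop))
    obtain ⟨c, e, h⟩ := this
    exact ⟨c, e, by linarith⟩
  refine ⟨Pi.single 0 1 + (N : ℤ) • (c • (x₀ - Pi.single 0 1)), ?_, ?_⟩
  · have h1 := Fn_add b (N : ℤ) (Pi.single 0 1) (c • (x₀ - Pi.single 0 1))
    rw [Fn_one b h0] at h1
    exact_mod_cast h1
  · have h1 := Fn_add b (l : ℤ) x₀ (-(e • (x₀ - Pi.single 0 1)))
    have e1 : x₀ + (l : ℤ) • (-(e • (x₀ - Pi.single 0 1))) =
        Pi.single 0 1 + (N : ℤ) • (c • (x₀ - Pi.single 0 1)) := by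
      ext i
      simp only [Pi.add_apply, Pi.smul_apply, Pi.neg_apply, Pi.sub_apply, smul_eq_mul]
      linear_combination (-(x₀ i - (Pi.single 0 1 : Fin (n + 1) → ℤ) i)) * hce
    rwa [e1] at h1

variable {p : ℕ} (hp : p.Prime) (hp2 : p ≠ 2) {z : 𝓞 K} (hz : z ^ p = 1)
  (hb : ∀ i, b i = z ^ (i : ℕ))

include hp hz hb in
theorem flip_odd [IsTotallyComplex K] (d M : ℕ) (hd : 0 < d) (hsq : Squarefree d)
    (hpd : ¬ p ∣ d) (hM : 0 < M) {l : ℕ} (hl : l.Prime) (hl2 : l ≠ 2) (hld : l ∣ d) :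
    ∃ y, (Fn b y).Coprime M ∧ J(-(d : ℤ) | Fn b y) = -1 := by
  have : Fact l.Prime := ⟨hl⟩
  have h0 : b 0 = 1 := by rw [hb]; simp
  have hlp : l ≠ p := by
    rintro rfl
    exact hpd hld
  obtain ⟨d₁, rfl⟩ := hld
  have hd1 : ¬ l ∣ d₁ := by
    intro h
    have := hsq l (Nat.mul_dvd_mul_left l h)
    exact hl.one_lt.ne' (Nat.isUnit_iff.1 this)
  have hd1pos : 0 < d₁ := by
    rcases Nat.eq_zero_or_pos d₁ with h | h
    · simp [h] at hd
    · exact h
  obtain ⟨x₀, hx0, hx1⟩ := exists_nonres b hp hz hb hl hl2 hlp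
  set M' := ordCompl[l] M with hM'
  have hM'l : Nat.Coprime M' l := (Nat.coprime_ordCompl hl hM.ne').symm
  have hcop : Nat.Coprime (4 * d₁ * M') l := by
    refine Nat.Coprime.mul_left (Nat.Coprime.mul_left ?_ ?_) hM'l
    · have : Nat.Coprime 2 l := (Nat.coprime_primes Nat.prime_two hl).2 (Ne.symm hl2)
      exact Nat.Coprime.pow_left 2 this
    · exact ((Nat.Prime.coprime_iff_not_dvd hl).2 hd1).symm
  obtain ⟨y, hy1, hy2⟩ := interp b h0 hcop x₀
  set N := Fn b y with hN
  have hN1 : (N : ℤ) ≡ 1 [ZMOD (4 * d₁ : ℕ)] := hy1.of_dvd (by exact_mod_cast dvd_mul_right _ _)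
  have hN1' : N ≡ 1 [MOD 4 * d₁] := by exact_mod_cast hN1
  have hN4 : N ≡ 1 [MOD 4] := hN1'.of_dvd (dvd_mul_right _ _)
  have hN2 : (N : ZMod l) = (Fn b x₀ : ZMod l) := by
    have := (ZMod.intCast_eq_intCast_iff (N : ℤ) (Fn b x₀ : ℤ) l).2 hy2
    simpa using this
  have hodd : Odd N := by
    rw [Nat.odd_iff]
    have : N ≡ 1 [MOD 2] := hN4.of_dvd (by norm_num)
    exact this
  refine ⟨y, ?_, ?_⟩
  · rw [← hN, Nat.coprime_iff_gcd_eq_one]
    by_contra hne
    obtain ⟨r, hr, hrd⟩ := Nat.exists_prime_and_dvd hne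
    have hrN : r ∣ N := hrd.trans (Nat.gcd_dvd_left _ _)
    have hrM : r ∣ M := hrd.trans (Nat.gcd_dvd_right _ _)
    by_cases hrl : r = l
    · subst hrl
      apply hx0
      rw [← hN2, ZMod.natCast_eq_zero_iff]
      exact hrN
    · have hrM' : r ∣ M' := by
        have h1 : r ∣ l ^ (M.factorization l) * M' := by
          rw [hM', Nat.ordProj_mul_ordCompl_eq_self]
          exact hrM
        rcases hr.dvd_mul.1 h1 with h2 | h2
        · exact absurd ((Nat.prime_dvd_prime_iff_eq hr hl).1 (hr.dvd_of_dvd_pow h2)) hrl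
        · exact h2
      have h1 : (N : ℤ) ≡ 1 [ZMOD r] :=
        hy1.of_dvd (by exact_mod_cast hrM'.trans (dvd_mul_left _ _))
      have h2 : (r : ℤ) ∣ 1 := by
        have h3 : (r : ℤ) ∣ (N : ℤ) := by exact_mod_cast hrN
        have h4 := h1.dvd
        have := dvd_add h4 h3
        simpa using this
      have h3 : r ∣ 1 := by exact_mod_cast h2
      exact hr.one_lt.ne' (Nat.dvd_one.1 h3)
  · rw [← hN]
    have e1 : (-((l * d₁ : ℕ) : ℤ)) = (l : ℤ) * (-(d₁ : ℤ)) := by push_cast; ring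
    rw [e1, jacobiSym.mul_left]
    have h1 : J(-(d₁ : ℤ) | N) = 1 := by
      rw [jacobiSym.mod_right _ hodd]
      have h2 : N % (4 * (-(d₁ : ℤ)).natAbs) = 1 := by
        rw [Int.natAbs_neg, Int.natAbs_natCast]
        rw [hN1']
        exact Nat.mod_eq_of_lt (by omega)
      rw [h2, jacobiSym.one_right]
    have h2 : J((l : ℤ) | N) = J(N | l) := by
      exact (jacobiSym.quadratic_reciprocity_one_mod_four hN4 (hl.odd_of_ne_two hl2)).symm
    rw [h1, h2, mul_one, ← jacobiSym.legendreSym.to_jacobiSym]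
    rcases legendreSym.eq_one_or_neg_one l (a := (N : ℤ)) (by
      push_cast
      rw [hN2]
      exact hx0) with h3 | h3
    · exfalso
      apply hx1
      have h4 := legendreSym.eq_pow l (N : ℤ)
      rw [h3] at h4
      push_cast at h4
      rw [← hN2, ← h4]
    · exact h3


theorem flip_two [IsTotallyComplex K] (h0 : b 0 = 1) {x₀ : Fin (n + 1) → ℤ}
    (hx₀ : Fn b x₀ % 8 = 7) (d M : ℕ) (hd : d = 1 ∨ d = 2) (hM : 0 < M) :
    ∃ y, (Fn b y).Coprime M ∧ J(-(d : ℤ) | Fn b y) = -1 := by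
  set M' := ordCompl[2] M with hM'
  have hM'l : Nat.Coprime M' 8 := by
    have : Nat.Coprime 2 M' := Nat.coprime_ordCompl Nat.prime_two hM.ne'
    have h8 : Nat.Coprime M' (2 ^ 3) := (Nat.Coprime.pow_left 3 this).symm
    simpa using h8
  obtain ⟨y, hy1, hy2⟩ := interp b h0 hM'l x₀
  set N := Fn b y with hN
  have hN8 : N % 8 = 7 := by
    have : N ≡ Fn b x₀ [MOD 8] := by exact_mod_cast hy2
    rw [this]
    exact hx₀
  have hodd : Odd N := by
    rw [Nat.odd_iff]
    omega
  refine ⟨y, ?_, ?_⟩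
  · rw [← hN, Nat.coprime_iff_gcd_eq_one]
    by_contra hne
    obtain ⟨r, hr, hrd⟩ := Nat.exists_prime_and_dvd hne
    have hrN : r ∣ N := hrd.trans (Nat.gcd_dvd_left _ _)
    have hrM : r ∣ M := hrd.trans (Nat.gcd_dvd_right _ _)
    by_cases hrl : r = 2
    · subst hrl
      rw [Nat.odd_iff] at hodd
      omega
    · have hrM' : r ∣ M' := by
        have h1 : r ∣ 2 ^ (M.factorization 2) * M' := by
          rw [hM', Nat.ordProj_mul_ordCompl_eq_self]
          exact hrM
        rcases hr.dvd_mul.1 h1 with h2 | h2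
        · exact absurd ((Nat.prime_dvd_prime_iff_eq hr Nat.prime_two).1 (hr.dvd_of_dvd_pow h2)) hrl
        · exact h2
      have h1 : (N : ℤ) ≡ 1 [ZMOD r] := hy1.of_dvd (by exact_mod_cast hrM')
      have h2 : (r : ℤ) ∣ 1 := by
        have h3 : (r : ℤ) ∣ (N : ℤ) := by exact_mod_cast hrN
        have h4 := h1.dvd
        have := dvd_add h4 h3
        simpa using this
      have h3 : r ∣ 1 := by exact_mod_cast h2
      exact hr.one_lt.ne' (Nat.dvd_one.1 h3)
  · rw [← hN, jacobiSym.mod_right _ hodd]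
    rcases hd with rfl | rfl
    · have : N % (4 * (-((1 : ℕ) : ℤ)).natAbs) = 3 := by
        have : (-((1 : ℕ) : ℤ)).natAbs = 1 := by simp
        rw [this]
        omega
      rw [this]
      norm_num
    · have : N % (4 * (-((2 : ℕ) : ℤ)).natAbs) = 7 := by
        have : (-((2 : ℕ) : ℤ)).natAbs = 2 := by simp
        rw [this]
        omega
      rw [this]
      norm_num

end Flip2


section Final

variable {p : ℕ} (hp : p.Prime) {K : Type} [Field K] [NumberField K]
  [IsCyclotomicExtension {p} ℚ K]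

include hp in
theorem norm_two_sub [NeZero p] {ζ : K} (hζ : IsPrimitiveRoot ζ p) :
    Algebra.norm ℤ (2 - hζ.toInteger) = 2 ^ p - 1 := by
  have : Fact p.Prime := ⟨hp⟩
  set pb := hζ.integralPowerBasis with hpb
  have hgen : pb.gen = hζ.toInteger := IsPrimitiveRoot.integralPowerBasis_gen hζ
  rw [Algebra.norm_eq_matrix_det pb.basis, ← hgen]
  have h1 : Algebra.leftMulMatrix pb.basis (2 - pb.gen) =
      Matrix.scalar _ 2 - Algebra.leftMulMatrix pb.basis pb.gen := by
    rw [map_sub]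
    congr 1
    have : (2 : 𝓞 K) = algebraMap ℤ (𝓞 K) 2 := by simp
    rw [this, AlgHom.commutes]
    rfl
  rw [h1, ← Matrix.eval_charpoly, charpoly_leftMulMatrix, hgen]
  have h2 : minpoly ℤ hζ.toInteger = Polynomial.cyclotomic p ℤ := by
    have h3 := Polynomial.cyclotomic_eq_minpoly hζ hp.pos
    rw [h3, ← RingOfIntegers.minpoly_coe hζ.toInteger]
    rfl
  rw [h2, Polynomial.cyclotomic_prime, Polynomial.eval_finsetSum]
  simp only [Polynomial.eval_pow, Polynomial.eval_X]
  have := Finset.sum_range_succ (fun i => (2 : ℤ) ^ i) p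
  have h4 := geom_sum_mul (2 : ℤ) p
  linarith

theorem nform_of {p : ℕ} (hp : p.Prime) (hp2 : p ≠ 2) (K : Type) [Field K] [NumberField K]
    [IsCyclotomicExtension {p} ℚ K] : Nonempty (NForm p) := by
  have hNZ : NeZero p := ⟨hp.ne_zero⟩
  have hF : Fact p.Prime := ⟨hp⟩
  have hp3 : 3 ≤ p := by
    have := hp.two_le
    omega
  have hζ : IsPrimitiveRoot (IsCyclotomicExtension.zeta p ℚ K) p :=
    IsCyclotomicExtension.zeta_spec p ℚ K
  have htc : IsTotallyComplex K := IsCyclotomicExtension.Rat.isTotallyComplex (n := p) K hp3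
  let pb := hζ.integralPowerBasis
  have hdim : pb.dim = (p - 2) + 1 := by
    have h1 : pb.dim = p.totient := IsPrimitiveRoot.integralPowerBasis_dim hζ
    rw [h1, Nat.totient_prime hp]
    omega
  let b : Module.Basis (Fin ((p - 2) + 1)) ℤ (𝓞 K) := pb.basis.reindex (finCongr hdim)
  have hgen : pb.gen = hζ.toInteger := IsPrimitiveRoot.integralPowerBasis_gen hζ
  have hb : ∀ i, b i = hζ.toInteger ^ (i : ℕ) := by
    intro i
    simp only [b, Module.Basis.reindex_apply, PowerBasis.coe_basis, hgen]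
    rfl
  have hz : hζ.toInteger ^ p = 1 := hζ.toInteger_isPrimitiveRoot.pow_eq_one
  have h0 : b 0 = 1 := by rw [hb]; simp
  refine ⟨{ n := p - 2, F := Fn b, mul := ml b, F_mul := Fn_ml b, F_add := Fn_add b,
            mul_add := ml_add b, adj := ml_adj b, one := Fn_one b h0, root := Fn_root b h0,
            bound := Fn_bound b, parity := fun x q hq hqp h => Fn_parity hp hp2 b x q hq hqp h,
            flip := ?_ }⟩
  intro d M hd hsq hpd hM
  by_cases hl : ∃ l : ℕ, l.Prime ∧ l ≠ 2 ∧ l ∣ d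
  · obtain ⟨l, hl, hl2, hld⟩ := hl
    exact flip_odd b hp hz hb d M hd hsq hpd hM hl hl2 hld
  · have hd2 : d = 1 ∨ d = 2 := by
      by_cases hd1 : d = 1
      · exact Or.inl hd1
      · right
        obtain ⟨r, hr, hrd⟩ := Nat.exists_prime_and_dvd hd1
        have hr2 : r = 2 := by
          by_contra h
          exact hl ⟨r, hr, h, hrd⟩
        subst hr2
        obtain ⟨e, rfl⟩ := hrd
        by_cases he : e = 1
        · rw [he]
        · exfalso
          obtain ⟨r, hr, hre⟩ := Nat.exists_prime_and_dvd he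
          have hr2 : r = 2 := by
            by_contra h
            exact hl ⟨r, hr, h, hre.trans (dvd_mul_left _ _)⟩
          subst hr2
          have := hsq 2 (Nat.mul_dvd_mul_left 2 hre)
          exact absurd (Nat.isUnit_iff.1 this) (by norm_num)
    obtain ⟨x₀, hx₀⟩ := E_surj b (2 - hζ.toInteger)
    refine flip_two b h0 (x₀ := x₀) ?_ d M hd2 hM
    unfold Fn
    rw [hx₀, norm_two_sub hp]
    have h8 : (8 : ℤ) ∣ 2 ^ p := by
      have : (8 : ℤ) = 2 ^ 3 := by norm_num
      rw [this]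
      exact pow_dvd_pow 2 hp3
    have hpos : (0 : ℤ) ≤ 2 ^ p - 1 := by
      have : (1 : ℤ) ≤ 2 ^ p := one_le_pow₀ (by norm_num)
      linarith
    have : ((2 ^ p - 1 : ℤ).natAbs : ℤ) = 2 ^ p - 1 := Int.natAbs_of_nonneg hpos
    omega

end Final

end NFp

/-- the norm form of the `p`-th cyclotomic field -/
theorem nform_prime {p : ℕ} (hp : p.Prime) (hp2 : p ≠ 2) : Nonempty (NForm p) := by
  have hNZ : NeZero p := ⟨hp.ne_zero⟩
  have h : @IsCyclotomicExtension {p} ℚ (CyclotomicField p ℚ) _ _ DivisionRing.toRatAlgebra := by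
    have h1 := CyclotomicField.isCyclotomicExtension p ℚ
    have h2 : (DivisionRing.toRatAlgebra : Algebra ℚ (CyclotomicField p ℚ)) =
      CyclotomicField.algebra p ℚ := Subsingleton.elim _ _
    rw [h2]
    exact h1
  exact NFp.nform_of hp hp2 (CyclotomicField p ℚ)

end Pool.Agent.PowF
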