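import Pool.Agent.PowF.FinalA
import Pool.Agent.PowF.Kill
import Pool.Agent.PowF.FLgen
import Pool.Agent.PowF.Many
import Pool.Agent.PowF.NFp
import Pool.Agent.PowF.ClassHit35

/-!
Assembly of part (A).
-/

set_option autoImplicit false

namespace Pool.Agent.PowF

open Pool.Agent.CycSyl NumberField NumberTheorySymbols

/-- the kill lemma for every odd prime -/
theorem kl_prime {p : ℕ} (hp : p.Prime) (hp2 : p ≠ 2) : KL p := by
  obtain ⟨Nf⟩ := nform_prime hp hp2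
  exact kill_lemma hp hp2 (fl_of_many hp hp2 Nf (many_of_nform hp Nf))

/-- the class condition for `p = 3` and `p = 5` -/
theorem classHit35 {p : ℕ} (hp : p = 3 ∨ p = 5) (v : ℕ) (H : Type) [CommGroup H] [Finite H]
    (hcyc : IsCyclic H) (hH : Nat.card H = p ^ (v + 1)) : ClassHit p (v + 1) H := by
  rcases hp with rfl | rfl
  · exact classHit3 v H hcyc hH
  · exact classHit5 v H hcyc hH

theorem main_A {p : ℕ} (hp : p = 3 ∨ p = 5) (v : ℕ) (hv : 1 ≤ v) (H : Type) [CommGroup H]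
    [Finite H] (hcyc : IsCyclic H) (hH : Nat.card H = p ^ v) :
    ∃ C X₀ : ℝ, 0 < C ∧ ∀ X : ℝ, X₀ ≤ X → X ^ (1 / (Real.log (Real.log X)) ^ C) ≤
      (({K ∈ fam p H | (aD K : ℝ) ≤ X} : Set (IntermediateField ℚ ℂ)).ncard : ℝ) := by
  obtain ⟨u, rfl⟩ : ∃ u, v = u + 1 := ⟨v - 1, by omega⟩
  have hp' : p.Prime ∧ p ≠ 2 := by
    rcases hp with rfl | rfl <;> norm_num
  exact final_A hp'.1 hp'.2 H hH (classHit35 hp u H hcyc hH) (kl_prime hp'.1 hp'.2)

end Pool.Agent.PowF
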