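import Pool.Agent.PowF.Lattice

/-!
The number of squarefree norms of ideals in a class of an imaginary quadratic field.
-/

set_option autoImplicit false

namespace Pool.Agent.PowF

open NumberField Module

/-- a set of points of an interval of length `π` which are far apart is small -/
theorem packing (T : Finset ℕ) (t : ℕ → ℝ) (δ : ℝ) (hδ : 0 < δ)
    (h0 : ∀ n ∈ T, 0 ≤ t n) (h1 : ∀ n ∈ T, t n < Real.pi)
    (hd : ∀ n ∈ T, ∀ m ∈ T, n ≠ m → δ ≤ |t n - t m|) : (T.card : ℝ) ≤ 1 + Real.pi / δ := by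
  classical
  have hcard : T.card ≤ (Finset.range (⌊Real.pi / δ⌋₊ + 1)).card := by
    apply Finset.card_le_card_of_injOn (fun n => ⌊t n / δ⌋₊)
    · intro n hn
      rw [Finset.mem_coe] at hn
      rw [Finset.mem_coe, Finset.mem_range, Nat.lt_succ_iff]
      apply Nat.floor_le_floor
      gcongr
      exact (h1 n hn).le
    · intro n hn m hm hnm
      rw [Finset.mem_coe] at hn hm
      by_contra hne
      have h2 := hd n hn m hm hne
      simp only at hnm
      have h3 : |t n / δ - t m / δ| < 1 := by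
        have e1 := Nat.floor_le (div_nonneg (h0 n hn) hδ.le)
        have e2 := Nat.lt_floor_add_one (t n / δ)
        have e3 := Nat.floor_le (div_nonneg (h0 m hm) hδ.le)
        have e4 := Nat.lt_floor_add_one (t m / δ)
        rw [hnm] at e1 e2
        rw [abs_lt]
        constructor <;> linarith
      rw [← sub_div, abs_div, abs_of_pos hδ, div_lt_one hδ] at h3
      linarith
  rw [Finset.card_range] at hcard
  have h2 : ((⌊Real.pi / δ⌋₊ : ℕ) : ℝ) ≤ Real.pi / δ :=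
    Nat.floor_le (div_nonneg Real.pi_pos.le hδ.le)
  have h3 : (T.card : ℝ) ≤ (⌊Real.pi / δ⌋₊ : ℝ) + 1 := by exact_mod_cast hcard
  linarith

/-- a sign makes the argument lie in `[0, π)` -/
theorem exists_sign (z : ℂ) (hz : z ≠ 0) : ∃ w : ℂ, (w = z ∨ w = -z) ∧ 0 ≤ w.arg ∧
    w.arg < Real.pi := by
  have key : ∀ w : ℂ, 0 < w.im → 0 ≤ w.arg ∧ w.arg < Real.pi := by
    intro w hw
    refine ⟨Complex.arg_nonneg_iff.mpr hw.le, lt_of_le_of_ne (Complex.arg_le_pi w) ?_⟩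
    intro h
    rw [Complex.arg_eq_pi_iff] at h
    linarith [h.2]
  have key2 : ∀ w : ℂ, w.im = 0 → 0 < w.re → 0 ≤ w.arg ∧ w.arg < Real.pi := by
    intro w hw hw2
    refine ⟨Complex.arg_nonneg_iff.mpr hw.ge, lt_of_le_of_ne (Complex.arg_le_pi w) ?_⟩
    intro h
    rw [Complex.arg_eq_pi_iff] at h
    linarith [h.1]
  rcases lt_trichotomy z.im 0 with h | h | h
  · exact ⟨-z, Or.inr rfl, key _ (by rw [Complex.neg_im]; linarith)⟩
  · rcases lt_trichotomy z.re 0 with h' | h' | h'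
    · exact ⟨-z, Or.inr rfl, key2 _ (by rw [Complex.neg_im]; linarith)
        (by rw [Complex.neg_re]; linarith)⟩
    · exact absurd (Complex.ext h' h) hz
    · exact ⟨z, Or.inl rfl, key2 _ h h'⟩
  · exact ⟨z, Or.inl rfl, key _ h⟩

theorem im_mul_conj_eq (w w' : ℂ) :
    (w * (starRingEnd ℂ) w').im = ‖w‖ * ‖w'‖ * Real.sin (w.arg - w'.arg) := by
  rw [Real.sin_sub]
  have h1 := Complex.norm_mul_cos_arg w
  have h2 := Complex.norm_mul_sin_arg w
  have h3 := Complex.norm_mul_cos_arg w'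
  have h4 := Complex.norm_mul_sin_arg w'
  rw [Complex.mul_im, Complex.conj_im, Complex.conj_re, ← h1, ← h2, ← h3, ← h4]
  ring

theorem norm_arg_dist (w w' : ℂ) :
    |(w * (starRingEnd ℂ) w').im| ≤ ‖w‖ * ‖w'‖ * |w.arg - w'.arg| := by
  rw [im_mul_conj_eq, abs_mul, abs_of_nonneg (by positivity : (0 : ℝ) ≤ ‖w‖ * ‖w'‖)]
  exact mul_le_mul_of_nonneg_left Real.abs_sin_le_abs (by positivity)

/-- squarefree numbers whose ratio is a square of a rational number are equal -/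
theorem sqfree_eq {n m : ℕ} (hn : Squarefree n) (hm : Squarefree m) {a c : ℕ} (ha : a ≠ 0)
    (h : a ^ 2 * n = c ^ 2 * m) : n = m := by
  have hn0 : n ≠ 0 := hn.ne_zero
  have hm0 : m ≠ 0 := hm.ne_zero
  have hc : c ≠ 0 := by
    rintro rfl
    simp at h
    rcases h with h | h
    · exact ha h
    · exact hn0 h
  apply Nat.eq_of_factorization_eq hn0 hm0
  intro p
  have h1 : (a ^ 2 * n).factorization p = (c ^ 2 * m).factorization p := by rw [h]
  rw [Nat.factorization_mul (pow_ne_zero 2 ha) hn0, Nat.factorization_mul (pow_ne_zero 2 hc) hm0,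
    Nat.factorization_pow, Nat.factorization_pow] at h1
  simp only [Finsupp.add_apply, Finsupp.smul_apply, smul_eq_mul] at h1
  have h2 := (Nat.squarefree_iff_factorization_le_one hn0).mp hn p
  have h3 := (Nat.squarefree_iff_factorization_le_one hm0).mp hm p
  omega

/-- the number of squarefree norms of ideals in a given class -/
theorem class_count (K : IntermediateField ℚ ℂ) [NumberField K] (h2 : Module.finrank ℚ K = 2)
    (him : ∃ x : K, (x : ℂ).im ≠ 0) (c : ClassGroup (𝓞 K)) (G : ℕ) (T : Finset ℕ)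
    (hT : ∀ n ∈ T, Squarefree n ∧ n ≤ G ∧ ∃ I : nonZeroDivisors (Ideal (𝓞 K)),
      Ideal.absNorm (I : Ideal (𝓞 K)) = n ∧ ClassGroup.mk0 I = c) :
    (T.card : ℝ) ≤ 1 + 7 * G / √(aD K : ℝ) := by
  rcases T.eq_empty_or_nonempty with rfl | ⟨n₀, hn₀⟩
  · simp
    positivity
  obtain ⟨hsq₀, hG₀, I₀, hI₀, hc₀⟩ := hT n₀ hn₀
  have hn₀0 : n₀ ≠ 0 := hsq₀.ne_zero
  have hD : (0 : ℝ) < √(aD K : ℝ) := Real.sqrt_pos.mpr (by exact_mod_cast aD_pos K)
  -- the complementary ideal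
  have hmem : ((n₀ : ℕ) : 𝓞 K) ∈ (I₀ : Ideal (𝓞 K)) := by
    rw [← hI₀]
    exact Ideal.absNorm_mem _
  obtain ⟨I', hI'⟩ : (I₀ : Ideal (𝓞 K)) ∣ Ideal.span {((n₀ : ℕ) : 𝓞 K)} := by
    rw [Ideal.dvd_iff_le, Ideal.span_singleton_le_iff_mem]
    exact hmem
  have hn₀K : ((n₀ : ℕ) : 𝓞 K) ≠ 0 := by exact_mod_cast hn₀0
  have hI'0 : I' ≠ ⊥ := by
    rintro rfl
    rw [← Ideal.zero_eq_bot, mul_zero] at hI'
    exact hn₀K (Ideal.span_singleton_eq_bot.mp hI')
  have hI'd : I' ∈ nonZeroDivisors (Ideal (𝓞 K)) := mem_nonZeroDivisors_iff_ne_zero.mpr hI'0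
  have hN' : Ideal.absNorm I' = n₀ := by
    have h3 := absNorm_span K h2 him ((n₀ : ℕ) : 𝓞 K)
    rw [hI', map_mul, hI₀] at h3
    have h3' : (((((n₀ : ℕ) : 𝓞 K) : K)) : ℂ) = (n₀ : ℂ) := by simp
    rw [h3'] at h3
    have h4 : (n₀ : ℝ) * (Ideal.absNorm I' : ℝ) = n₀ * n₀ := by
      rw [← Nat.cast_mul, h3]
      simp
      ring
    have h5 : (Ideal.absNorm I' : ℝ) = n₀ := by
      have : (n₀ : ℝ) ≠ 0 := by exact_mod_cast hn₀0
      exact mul_left_cancel₀ this h4
    exact_mod_cast h5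
  have hclass : ClassGroup.mk0 I₀ * ClassGroup.mk0 ⟨I', hI'd⟩ = 1 := by
    rw [← map_mul, ClassGroup.mk0_eq_one_iff]
    show ((I₀ : Ideal (𝓞 K)) * I').IsPrincipal
    rw [← hI']
    exact ⟨⟨_, rfl⟩⟩
  -- the generators
  have hgen : ∀ n ∈ T, ∃ g : 𝓞 K, g ∈ I' ∧ ‖((g : K) : ℂ)‖ ^ 2 = n * n₀ := by
    intro n hn
    obtain ⟨hsq, hG, I, hI, hc⟩ := hT n hn
    have h3 : ClassGroup.mk0 (I * ⟨I', hI'd⟩) = 1 := by
      rw [map_mul, hc, ← hc₀, hclass]
    rw [ClassGroup.mk0_eq_one_iff] at h3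
    obtain ⟨⟨g, hg⟩⟩ := h3
    have hg' : (I : Ideal (𝓞 K)) * I' = Ideal.span {g} := hg
    refine ⟨g, ?_, ?_⟩
    · have h4 : (I : Ideal (𝓞 K)) * I' ≤ I' := Ideal.mul_le_right
      apply h4
      rw [hg']
      exact Ideal.mem_span_singleton_self g
    · rw [← absNorm_span K h2 him g, ← hg', map_mul, hI, hN', Nat.cast_mul]
  choose! g hgI hgN using hgen
  have hg0 : ∀ n ∈ T, ((g n : K) : ℂ) ≠ 0 := by
    intro n hn h
    have h3 := hgN n hn
    rw [h, norm_zero] at h3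
    have h4 : (n : ℝ) * n₀ ≠ 0 := by
      have := (hT n hn).1.ne_zero
      positivity
    apply h4
    rw [← h3]
    norm_num
  have hsign : ∀ n ∈ T, ∃ w : ℂ, (w = ((g n : K) : ℂ) ∨ w = -((g n : K) : ℂ)) ∧ 0 ≤ w.arg ∧
      w.arg < Real.pi := fun n hn => exists_sign _ (hg0 n hn)
  choose! w hw hw0 hw1 using hsign
  have hwn : ∀ n ∈ T, ‖w n‖ = ‖((g n : K) : ℂ)‖ := by
    intro n hn
    rcases hw n hn with h | h
    · rw [h]
    · rw [h, norm_neg]
  by_cases hG0 : G = 0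
  · rw [hG0] at hG₀
    omega
  have hGpos : (0 : ℝ) < G := by positivity
  have hpack := packing T (fun n => (w n).arg) (√(aD K : ℝ) / (2 * G)) (by positivity) hw0 hw1 ?_
  · refine hpack.trans ?_
    have h3 : Real.pi / (√(aD K : ℝ) / (2 * G)) = 2 * Real.pi * G / √(aD K : ℝ) := by
      field_simp
    rw [h3]
    have h4 : 2 * Real.pi ≤ 7 := by linarith [Real.pi_lt_d2]
    gcongr
  · intro n hn m hm hnm
    have him' : (((g n : K) : ℂ) * (starRingEnd ℂ) ((g m : K) : ℂ)).im ≠ 0 := by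
      intro h
      obtain ⟨a, c', ha, hac⟩ := exists_int_rel K h2 him (g n) (g m) (by
        intro h5
        apply hg0 m hm
        rw [h5]
        simp) h
      apply hnm
      have h5 : (a : ℂ) * ((g n : K) : ℂ) = (c' : ℂ) * ((g m : K) : ℂ) := by
        have := congrArg (fun z : 𝓞 K => ((z : K) : ℂ)) hac
        simpa using this
      have h6 : (a : ℝ) ^ 2 * (n * n₀) = (c' : ℝ) ^ 2 * (m * n₀) := by
        rw [← hgN n hn, ← hgN m hm]
        have := congrArg (fun z : ℂ => ‖z‖ ^ 2) h5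
        simp only [norm_mul, mul_pow] at this
        simpa using this
      have h7 : (a.natAbs : ℕ) ^ 2 * n = c'.natAbs ^ 2 * m := by
        have h8 : (n₀ : ℝ) ≠ 0 := by exact_mod_cast hn₀0
        have h9 : (a : ℝ) ^ 2 * n = (c' : ℝ) ^ 2 * m := by
          apply mul_right_cancel₀ h8
          linarith
        have h10 : (a : ℤ) ^ 2 * n = (c' : ℤ) ^ 2 * m := by exact_mod_cast h9
        zify
        rw [sq_abs, sq_abs]
        exact h10
      exact sqfree_eq (hT n hn).1 (hT m hm).1 (Int.natAbs_ne_zero.mpr ha) h7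
    have h3 := det_ge K h2 him I' (g n) (g m) (hgI n hn) (hgI m hm) him'
    rw [hN'] at h3
    have h4 : |(((g n : K) : ℂ) * (starRingEnd ℂ) ((g m : K) : ℂ)).im| =
        |(w n * (starRingEnd ℂ) (w m)).im| := by
      rcases hw n hn with h | h <;> rcases hw m hm with h' | h' <;>
        simp only [h, h', map_neg, mul_neg, neg_mul, neg_neg, Complex.neg_im, abs_neg]
    have h5 := norm_arg_dist (w n) (w m)
    rw [h4] at h3
    have h6 : ‖w n‖ * ‖w m‖ ≤ n₀ * G := by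
      rw [hwn n hn, hwn m hm]
      have e1 : (‖((g n : K) : ℂ)‖ * ‖((g m : K) : ℂ)‖) ^ 2 ≤ (n₀ * G) ^ 2 := by
        rw [mul_pow, hgN n hn, hgN m hm]
        have e2 : (n : ℝ) ≤ G := by exact_mod_cast (hT n hn).2.1
        have e3 : (m : ℝ) ≤ G := by exact_mod_cast (hT m hm).2.1
        have e4 : (n : ℝ) * m ≤ G * G := by gcongr
        calc (n : ℝ) * n₀ * (m * n₀) = n₀ ^ 2 * (n * m) := by ring
          _ ≤ n₀ ^ 2 * (G * G) := by gcongr
          _ = (n₀ * G) ^ 2 := by ring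
      exact (abs_le_of_sq_le_sq' e1 (by positivity)).2
    have h7 : (n₀ : ℝ) * √(aD K : ℝ) ≤ 2 * (n₀ * G * |(w n).arg - (w m).arg|) := by
      refine h3.trans ?_
      have : ‖w n‖ * ‖w m‖ * |(w n).arg - (w m).arg| ≤ n₀ * G * |(w n).arg - (w m).arg| := by
        gcongr
      linarith
    rw [div_le_iff₀ (by positivity)]
    have h8 : (0 : ℝ) < n₀ := by positivity
    have h9 : (n₀ : ℝ) * √(aD K : ℝ) ≤ n₀ * (|(w n).arg - (w m).arg| * (2 * G)) := by
      linarith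
    exact le_of_mul_le_mul_left h9 h8

end Pool.Agent.PowF
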