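import Pool.Agent.PowF.DefsB

/-!
The prime ideals above the slots.
-/

set_option autoImplicit false

namespace Pool.Agent.PowF

open Pool.Agent.CycSyl NumberField

namespace HitI

section gen

variable {O : Type*} [CommRing O]

/-- the ideal generated by `s` and `θ` -/
def qi (θ : O) (s : ℕ) : Ideal O := Ideal.span {(s : O), θ}

theorem s_mem (θ : O) (s : ℕ) : (s : O) ∈ qi θ s := Ideal.subset_span (by simp)

theorem th_mem (θ : O) (s : ℕ) : θ ∈ qi θ s := Ideal.subset_span (by simp)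

theorem qi_mul {θ θ' : O} {t m : ℤ} (h1 : θ + θ' = (t : O)) (h2 : θ * θ' = (m : O)) {s : ℕ}
    (hst : IsCoprime (s : ℤ) t) (hm : (s : ℤ) ∣ m) :
    qi θ s * qi θ' s = Ideal.span {(s : O)} := by
  apply le_antisymm
  · rw [qi, qi, Ideal.span_pair_mul_span_pair, Ideal.span_le]
    obtain ⟨m', hm'⟩ := hm
    intro x hx
    simp only [Set.mem_insert_iff, Set.mem_singleton_iff] at hx
    rw [SetLike.mem_coe, Ideal.mem_span_singleton]
    rcases hx with rfl | rfl | rfl | rfl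
    · exact Dvd.intro _ rfl
    · exact Dvd.intro _ rfl
    · exact Dvd.intro_left _ rfl
    · rw [h2, hm']
      push_cast
      exact Dvd.intro _ rfl
  · rw [Ideal.span_le]
    intro x hx
    rw [Set.mem_singleton_iff] at hx
    subst hx
    obtain ⟨u, v, huv⟩ := hst
    have h3 : ((s : ℕ) : O) = (u : O) * ((s : O) * (s : O)) +
        (v : O) * ((s : O) * θ' + θ * (s : O)) := by
      have h4 : (u : O) * (s : O) + (v : O) * (t : O) = 1 := by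
        have := congrArg (Int.cast : ℤ → O) huv
        push_cast at this
        exact this
      linear_combination (-(s : O)) * h4 + (-(v : O) * (s : O)) * h1
    rw [SetLike.mem_coe, h3]
    have ha : (s : O) * (s : O) ∈ qi θ s * qi θ' s := Ideal.mul_mem_mul (s_mem _ _) (s_mem _ _)
    have hb : (s : O) * θ' ∈ qi θ s * qi θ' s := Ideal.mul_mem_mul (s_mem _ _) (th_mem _ _)
    have hc : θ * (s : O) ∈ qi θ s * qi θ' s := Ideal.mul_mem_mul (th_mem _ _) (s_mem _ _)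
    exact Ideal.add_mem _ (Ideal.mul_mem_left _ _ ha)
      (Ideal.mul_mem_left _ _ (Ideal.add_mem _ hb hc))

theorem qi_sq {θ θ' : O} {t m m' : ℤ} (h1 : θ + θ' = (t : O)) (h2 : θ * θ' = (m : O)) {s : ℕ}
    (hst : (s : ℤ) ∣ t) (hm : m = s * m') (hm2 : IsCoprime (s : ℤ) m') :
    qi θ s * qi θ s = Ideal.span {(s : O)} := by
  obtain ⟨t', rfl⟩ := hst
  subst hm
  have h3 : θ * θ = (s : O) * ((t' : O) * θ - (m' : O)) := by
    push_cast at h1 h2
    linear_combination θ * h1 - h2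
  apply le_antisymm
  · rw [qi, Ideal.span_pair_mul_span_pair, Ideal.span_le]
    intro x hx
    simp only [Set.mem_insert_iff, Set.mem_singleton_iff] at hx
    rw [SetLike.mem_coe, Ideal.mem_span_singleton]
    rcases hx with rfl | rfl | rfl | rfl
    · exact Dvd.intro _ rfl
    · exact Dvd.intro _ rfl
    · exact Dvd.intro_left _ rfl
    · rw [h3]
      exact Dvd.intro _ rfl
  · rw [Ideal.span_le]
    intro x hx
    rw [Set.mem_singleton_iff] at hx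
    subst hx
    obtain ⟨u, v, huv⟩ := hm2
    have h5 : ((s : ℕ) : O) = (u : O) * ((s : O) * (s : O)) +
        (v : O) * ((t' : O) * ((s : O) * θ) - θ * θ) := by
      have h4 : (u : O) * (s : O) + (v : O) * (m' : O) = 1 := by
        have := congrArg (Int.cast : ℤ → O) huv
        push_cast at this
        exact this
      linear_combination (-(s : O)) * h4 + (v : O) * h3
    rw [SetLike.mem_coe, h5]
    have ha : (s : O) * (s : O) ∈ qi θ s * qi θ s := Ideal.mul_mem_mul (s_mem _ _) (s_mem _ _)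
    have hb : (s : O) * θ ∈ qi θ s * qi θ s := Ideal.mul_mem_mul (s_mem _ _) (th_mem _ _)
    have hc : θ * θ ∈ qi θ s * qi θ s := Ideal.mul_mem_mul (th_mem _ _) (th_mem _ _)
    exact Ideal.add_mem _ (Ideal.mul_mem_left _ _ ha)
      (Ideal.mul_mem_left _ _ (Ideal.sub_mem _ (Ideal.mul_mem_left _ _ hb) hc))

theorem qi_ne_top {θ θ' : O} {m : ℤ} (h2 : θ * θ' = (m : O)) {s : ℕ} (hm : (s : ℤ) ∣ m)
    (hnd : ¬ (s : O) ∣ θ') : qi θ s ≠ ⊤ := by
  intro h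
  apply hnd
  have h1 : (1 : O) ∈ qi θ s := by rw [h]; trivial
  obtain ⟨a, b, hab⟩ := Ideal.mem_span_pair.1 h1
  obtain ⟨m', hm'⟩ := hm
  refine ⟨a * θ' + b * (m' : O), ?_⟩
  rw [hm'] at h2
  push_cast at h2
  linear_combination (-θ') * hab + b * h2

end gen

section nf

variable {K : Type*} [Field K] [NumberField K]

/-- the product of the ideals with exponents -/
noncomputable def JJ (θ : 𝓞 K) (P : ℕ) (U A : Finset ℕ) : Ideal (𝓞 K) :=
  (∏ s ∈ A, qi θ s ^ P) * ∏ s ∈ U \ A, qi θ s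

omit [NumberField K] in
theorem qi_coprime (θ : 𝓞 K) {r s : ℕ} (hr : r.Prime) (hs : s.Prime) (hrs : r ≠ s) :
    IsCoprime (qi θ r) (qi θ s) := by
  rw [Ideal.isCoprime_iff_add, Ideal.one_eq_top, Ideal.eq_top_iff_one]
  have h1 : IsCoprime (r : ℤ) (s : ℤ) := by
    rw [Nat.isCoprime_iff_coprime]
    exact (Nat.coprime_primes hr hs).2 hrs
  obtain ⟨u, v, huv⟩ := h1
  have h2 := congrArg (Int.cast : ℤ → 𝓞 K) huv
  push_cast at h2
  rw [← h2]
  exact Submodule.add_mem_sup (Ideal.mul_mem_left _ _ (s_mem _ _))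
    (Ideal.mul_mem_left _ _ (s_mem _ _))

theorem NA_dvd {P : ℕ} {U A : Finset ℕ} {s : ℕ} (hs : s ∈ A) : s ^ P ∣ NA P U A := by
  unfold NA
  exact Dvd.dvd.mul_right (Finset.dvd_prod_of_mem (fun s => s ^ P) hs) _

theorem NA_split {P : ℕ} {U A : Finset ℕ} (hA : A ⊆ U) (hU : ∀ s ∈ U, s.Prime) {s : ℕ}
    (hs : s ∈ U \ A) : ∃ m' : ℕ, NA P U A = s * m' ∧ s.Coprime m' := by
  refine ⟨(∏ r ∈ A, r ^ P) * ∏ r ∈ (U \ A).erase s, r, ?_, ?_⟩
  · unfold NA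
    rw [← Finset.mul_prod_erase (U \ A) (fun r => r) hs]
    ring
  · have hsp : s.Prime := hU s (Finset.mem_sdiff.1 hs).1
    apply Nat.Coprime.mul_right
    · apply Nat.Coprime.prod_right
      intro r hr
      apply Nat.Coprime.pow_right
      refine (Nat.coprime_primes hsp (hU r (hA hr))).2 ?_
      rintro rfl
      exact (Finset.mem_sdiff.1 hs).2 hr
    · apply Nat.Coprime.prod_right
      intro r hr
      rw [Finset.mem_erase] at hr
      exact (Nat.coprime_primes hsp (hU r (Finset.mem_sdiff.1 hr.2).1)).2 (Ne.symm hr.1)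

variable {t : ℤ} {P : ℕ} {U A : Finset ℕ} {θ θ' : 𝓞 K}

theorem int_coprime {s : ℕ} (hs : s.Prime) (h : ¬ (s : ℤ) ∣ t) : IsCoprime (s : ℤ) t :=
  (Nat.prime_iff_prime_int.1 hs).coprime_iff_not_dvd.2 h

theorem norm_A (hK : Module.finrank ℤ (𝓞 K) = 2) (hP : 2 ≤ P) (hA : A ⊆ U)
    (hU : ∀ s ∈ U, s.Prime) (h1 : θ + θ' = ((t : ℤ) : 𝓞 K))
    (h2 : θ * θ' = (((NA P U A : ℕ) : ℤ) : 𝓞 K)) {s : ℕ} (hs : s ∈ A)
    (hnd : ¬ (s : ℤ) ∣ t) (hd : ¬ (s : 𝓞 K) ∣ θ) (hd' : ¬ (s : 𝓞 K) ∣ θ') :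
    Ideal.absNorm (qi θ s) = s := by
  have hsp := hU s (hA hs)
  have hdm : (s : ℤ) ∣ ((NA P U A : ℕ) : ℤ) := by
    have : s ∣ NA P U A := (dvd_pow_self s (by omega)).trans (NA_dvd hs)
    exact_mod_cast this
  have h3 := qi_mul h1 h2 (int_coprime hsp hnd) hdm
  have h4 := congrArg Ideal.absNorm h3
  rw [map_mul, Ideal.absNorm_span_natCast, hK] at h4
  have h5 : Ideal.absNorm (qi θ s) ≠ 1 := by
    rw [Ne, Ideal.absNorm_eq_one_iff]
    exact qi_ne_top h2 hdm hd'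
  have h6 : Ideal.absNorm (qi θ' s) ≠ 1 := by
    rw [Ne, Ideal.absNorm_eq_one_iff]
    exact qi_ne_top (by rw [mul_comm]; exact h2) hdm hd
  exact ((Nat.Prime.mul_eq_prime_sq_iff hsp h5 h6).1 h4).1

theorem norm_B (hK : Module.finrank ℤ (𝓞 K) = 2) (hA : A ⊆ U)
    (hU : ∀ s ∈ U, s.Prime) (h1 : θ + θ' = ((t : ℤ) : 𝓞 K))
    (h2 : θ * θ' = (((NA P U A : ℕ) : ℤ) : 𝓞 K)) {s : ℕ} (hs : s ∈ U \ A)
    (hdv : (s : ℤ) ∣ t) :
    qi θ s * qi θ s = Ideal.span {(s : 𝓞 K)} ∧ Ideal.absNorm (qi θ s) = s := by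
  obtain ⟨m', hm', hc⟩ := NA_split (P := P) hA hU hs
  have h3 : qi θ s * qi θ s = Ideal.span {(s : 𝓞 K)} :=
    qi_sq h1 h2 hdv (m' := (m' : ℤ)) (by rw [hm']; push_cast; ring)
      (Nat.isCoprime_iff_coprime.2 hc)
  refine ⟨h3, ?_⟩
  have h4 := congrArg Ideal.absNorm h3
  rw [map_mul, Ideal.absNorm_span_natCast, hK, pow_two] at h4
  exact Nat.mul_self_inj.1 h4

theorem JJ_dvd (hP : 2 ≤ P) (hA : A ⊆ U)
    (hU : ∀ s ∈ U, s.Prime) (h1 : θ + θ' = ((t : ℤ) : 𝓞 K))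
    (h2 : θ * θ' = (((NA P U A : ℕ) : ℤ) : 𝓞 K)) (hnd : ∀ s ∈ A, ¬ (s : ℤ) ∣ t) :
    JJ θ P U A ∣ Ideal.span {θ} := by
  unfold JJ
  have hq : ∀ s, qi θ s ∣ Ideal.span {θ} := by
    intro s
    rw [Ideal.dvd_span_singleton]
    exact th_mem θ s
  apply IsCoprime.mul_dvd
  · apply IsCoprime.prod_left
    intro r hr
    apply IsCoprime.prod_right
    intro s hs
    apply IsCoprime.pow_left
    rw [Finset.mem_sdiff] at hs
    refine qi_coprime θ (hU r (hA hr)) (hU s hs.1) ?_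
    rintro rfl
    exact hs.2 hr
  · apply Finset.prod_dvd_of_coprime
    · intro r hr s hs hrs
      exact (qi_coprime θ (hU r (hA hr)) (hU s (hA hs)) hrs).pow
    · intro s hs
      have hsp := hU s (hA hs)
      have h4 : qi θ s ^ P ∣ Ideal.span {θ} * Ideal.span {θ'} := by
        rw [Ideal.span_singleton_mul_span_singleton, h2, Ideal.dvd_span_singleton]
        have h6 : (s : 𝓞 K) ^ P ∈ qi θ s ^ P := by
          apply Ideal.pow_mem_pow
          exact s_mem θ s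
        obtain ⟨c, hc⟩ := NA_dvd (P := P) (U := U) hs
        have h8 : (((NA P U A : ℕ) : ℤ) : 𝓞 K) = (s : 𝓞 K) ^ P * (c : 𝓞 K) := by
          rw [hc, Int.cast_natCast, Nat.cast_mul, Nat.cast_pow]
        rw [h8]
        exact Ideal.mul_mem_right _ _ h6
      refine IsCoprime.dvd_of_dvd_mul_right ?_ h4
      apply IsCoprime.pow_left
      rw [Ideal.isCoprime_iff_add, Ideal.one_eq_top, Ideal.eq_top_iff_one]
      obtain ⟨u, v, huv⟩ := int_coprime hsp (hnd s hs)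
      have h7 : (1 : 𝓞 K) = ((u : 𝓞 K) * (s : 𝓞 K) + (v : 𝓞 K) * θ) + (v : 𝓞 K) * θ' := by
        have := congrArg (Int.cast : ℤ → 𝓞 K) huv
        push_cast at this
        linear_combination -this - (v : 𝓞 K) * h1
      rw [h7]
      exact Submodule.add_mem_sup (Ideal.add_mem _ (Ideal.mul_mem_left _ _ (s_mem _ _))
        (Ideal.mul_mem_left _ _ (th_mem _ _)))
        (Ideal.mul_mem_left _ _ (Ideal.mem_span_singleton_self _))
  · apply Finset.prod_dvd_of_coprime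
    · intro r hr s hs hrs
      rw [Finset.mem_coe, Finset.mem_sdiff] at hr hs
      exact qi_coprime θ (hU r hr.1) (hU s hs.1) hrs
    · intro s _
      exact hq s

theorem JJ_norm (hK : Module.finrank ℤ (𝓞 K) = 2) (hP : 2 ≤ P) (hA : A ⊆ U)
    (hU : ∀ s ∈ U, s.Prime) (h1 : θ + θ' = ((t : ℤ) : 𝓞 K))
    (h2 : θ * θ' = (((NA P U A : ℕ) : ℤ) : 𝓞 K)) (hnd : ∀ s ∈ A, ¬ (s : ℤ) ∣ t)
    (hdv : ∀ s ∈ U \ A, (s : ℤ) ∣ t) (hd : ∀ s ∈ A, ¬ (s : 𝓞 K) ∣ θ)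
    (hd' : ∀ s ∈ A, ¬ (s : 𝓞 K) ∣ θ') :
    Ideal.absNorm (JJ θ P U A) = NA P U A := by
  unfold JJ NA
  rw [map_mul, map_prod, map_prod]
  congr 1
  · apply Finset.prod_congr rfl
    intro s hs
    rw [map_pow, norm_A hK hP hA hU h1 h2 hs (hnd s hs) (hd s hs) (hd' s hs)]
  · apply Finset.prod_congr rfl
    intro s hs
    exact (norm_B hK hA hU h1 h2 hs (hdv s hs)).2

theorem JJ_eq (hK : Module.finrank ℤ (𝓞 K) = 2) (hP : 2 ≤ P) (hA : A ⊆ U)
    (hU : ∀ s ∈ U, s.Prime) (h1 : θ + θ' = ((t : ℤ) : 𝓞 K))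
    (h2 : θ * θ' = (((NA P U A : ℕ) : ℤ) : 𝓞 K)) (hnd : ∀ s ∈ A, ¬ (s : ℤ) ∣ t)
    (hdv : ∀ s ∈ U \ A, (s : ℤ) ∣ t) (hd : ∀ s ∈ A, ¬ (s : 𝓞 K) ∣ θ)
    (hd' : ∀ s ∈ A, ¬ (s : 𝓞 K) ∣ θ') :
    JJ θ P U A = Ideal.span {θ} := by
  have h1' : θ' + θ = ((t : ℤ) : 𝓞 K) := by rw [add_comm]; exact h1
  have h2' : θ' * θ = (((NA P U A : ℕ) : ℤ) : 𝓞 K) := by rw [mul_comm]; exact h2
  obtain ⟨C, hC⟩ := JJ_dvd hP hA hU h1 h2 hnd
  obtain ⟨C', hC'⟩ := JJ_dvd hP hA hU h1' h2' hnd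
  have hn := JJ_norm hK hP hA hU h1 h2 hnd hdv hd hd'
  have hn' := JJ_norm hK hP hA hU h1' h2' hnd hdv hd' hd
  have hpos : 0 < NA P U A := by
    unfold NA
    apply Nat.mul_pos
    · exact Finset.prod_pos fun s hs => pow_pos (hU s (hA hs)).pos _
    · exact Finset.prod_pos fun s hs => (hU s (Finset.mem_sdiff.1 hs).1).pos
  have h3 : Ideal.absNorm (Ideal.span {θ}) * Ideal.absNorm (Ideal.span {θ'}) =
      NA P U A ^ 2 := by
    rw [← map_mul, Ideal.span_singleton_mul_span_singleton, h2]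
    have : (((NA P U A : ℕ) : ℤ) : 𝓞 K) = ((NA P U A : ℕ) : 𝓞 K) := by push_cast; rfl
    rw [this, Ideal.absNorm_span_natCast, hK]
  rw [hC, hC', map_mul, map_mul, hn, hn'] at h3
  have h4 : Ideal.absNorm C * Ideal.absNorm C' = 1 := by
    have h5 : NA P U A ^ 2 * (Ideal.absNorm C * Ideal.absNorm C') = NA P U A ^ 2 * 1 := by
      calc NA P U A ^ 2 * (Ideal.absNorm C * Ideal.absNorm C') =
          NA P U A * Ideal.absNorm C * (NA P U A * Ideal.absNorm C') := by ring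
        _ = NA P U A ^ 2 * 1 := by rw [h3, mul_one]
    exact Nat.eq_of_mul_eq_mul_left (pow_pos hpos 2) h5
  have h5 : Ideal.absNorm C = 1 := Nat.eq_one_of_mul_eq_one_right h4
  rw [Ideal.absNorm_eq_one_iff] at h5
  rw [hC, h5, Ideal.mul_top]

end nf

end HitI

theorem hit_ideals {P : ℕ} (hP : 2 ≤ P) (U A : Finset ℕ) (hA : A ⊆ U) (hU : ∀ s ∈ U, s.Prime)
    (t : ℤ) (hlt : t ^ 2 < 4 * (NA P U A : ℤ)) (hnd : ∀ s ∈ A, ¬ (s : ℤ) ∣ t)
    (hdv : ∀ s ∈ U \ A, (s : ℤ) ∣ t) [NumberField (Kf t (NA P U A))] :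
    ∃ 𝔮 : ℕ → nonZeroDivisors (Ideal (𝓞 (Kf t (NA P U A)))),
      (∀ s ∈ U, Ideal.absNorm (𝔮 s : Ideal (𝓞 (Kf t (NA P U A)))) = s) ∧
      (∀ s ∈ U \ A, ClassGroup.mk0 (𝔮 s) ^ 2 = 1) ∧
      (∏ s ∈ A, ClassGroup.mk0 (𝔮 s) ^ P) * ∏ s ∈ U \ A, ClassGroup.mk0 (𝔮 s) = 1 := by
  have hK : Module.finrank ℤ (𝓞 (Kf t (NA P U A))) = 2 := by
    rw [RingOfIntegers.rank]
    exact Kf_finrank hlt
  set D := qdata hlt with hD
  set θ := D.θ with hθ
  have hσ := D.hσ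
  set θ' := D.σ θ with hθ'
  have h1 : θ + θ' = ((t : ℤ) : 𝓞 (Kf t (NA P U A))) := by
    rw [hσ]; ring
  have h2 : θ * θ' = (((NA P U A : ℕ) : ℤ) : 𝓞 (Kf t (NA P U A))) := by
    rw [hσ]
    linear_combination -D.hθ
  have hint : ∀ (s : ℕ) (w : 𝓞 (Kf t (NA P U A))),
      (s : 𝓞 (Kf t (NA P U A))) * (w + D.σ w) = (t : 𝓞 (Kf t (NA P U A))) → (s : ℤ) ∣ t := by
    intro s w h
    obtain ⟨n, hn⟩ := D.trInt w
    rw [hn] at h
    refine ⟨n, ?_⟩
    apply D.int_inj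
    push_cast
    exact h.symm
  have hd : ∀ s ∈ A, ¬ (s : 𝓞 (Kf t (NA P U A))) ∣ θ := by
    rintro s hs ⟨w, hw⟩
    apply hnd s hs
    apply hint s w
    rw [← h1, hθ', hw, map_mul, map_natCast]
    ring
  have hd' : ∀ s ∈ A, ¬ (s : 𝓞 (Kf t (NA P U A))) ∣ θ' := by
    rintro s hs ⟨w, hw⟩
    apply hnd s hs
    apply hint s w
    have h3 : D.σ θ' = θ := by
      rw [hσ, map_sub, map_intCast, ← hθ', hσ]
      ring
    rw [← h1]
    conv_rhs => rw [← h3, hw, map_mul, map_natCast]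
    ring
  have hθ0 : θ ≠ 0 := by
    intro h
    have := D.indep 0 1 (by push_cast; rw [← hθ, h]; ring)
    omega
  have hne : ∀ s, HitI.qi θ s ∈ nonZeroDivisors (Ideal (𝓞 (Kf t (NA P U A)))) := by
    intro s
    apply mem_nonZeroDivisors_of_ne_zero
    intro h
    apply hθ0
    have := HitI.th_mem θ s
    rw [h] at this
    simpa using this
  refine ⟨fun s => ⟨HitI.qi θ s, hne s⟩, ?_, ?_, ?_⟩
  · intro s hs
    by_cases hsA : s ∈ A
    · exact HitI.norm_A hK hP hA hU h1 h2 hsA (hnd s hsA) (hd s hsA) (hd' s hsA)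
    · have hs' : s ∈ U \ A := Finset.mem_sdiff.2 ⟨hs, hsA⟩
      exact (HitI.norm_B hK hA hU h1 h2 hs' (hdv s hs')).2
  · intro s hs
    rw [← map_pow]
    have h3 := (HitI.norm_B hK hA hU h1 h2 hs (hdv s hs)).1
    have h4 : (⟨HitI.qi θ s, hne s⟩ : nonZeroDivisors (Ideal (𝓞 (Kf t (NA P U A))))) ^ 2 =
        ⟨HitI.qi θ s ^ 2, pow_mem (hne s) 2⟩ := rfl
    rw [h4, ClassGroup.mk0_eq_one_iff]
    have h5 : HitI.qi θ s ^ 2 = Ideal.span {(s : 𝓞 (Kf t (NA P U A)))} := by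
      rw [pow_two]; exact h3
    rw [h5]
    exact ⟨⟨_, rfl⟩⟩
  · have h3 := HitI.JJ_eq hK hP hA hU h1 h2 hnd hdv hd hd'
    have h4 : (∏ s ∈ A, ClassGroup.mk0 (⟨HitI.qi θ s, hne s⟩ :
        nonZeroDivisors (Ideal (𝓞 (Kf t (NA P U A))))) ^ P) *
        ∏ s ∈ U \ A, ClassGroup.mk0 (⟨HitI.qi θ s, hne s⟩ :
        nonZeroDivisors (Ideal (𝓞 (Kf t (NA P U A))))) =
        ClassGroup.mk0 ((∏ s ∈ A, (⟨HitI.qi θ s, hne s⟩ :
        nonZeroDivisors (Ideal (𝓞 (Kf t (NA P U A))))) ^ P) *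
        ∏ s ∈ U \ A, (⟨HitI.qi θ s, hne s⟩ :
        nonZeroDivisors (Ideal (𝓞 (Kf t (NA P U A)))))) := by
      rw [map_mul, map_prod, map_prod]
      simp only [map_pow]
    rw [h4]
    have h5 : ((∏ s ∈ A, (⟨HitI.qi θ s, hne s⟩ :
        nonZeroDivisors (Ideal (𝓞 (Kf t (NA P U A))))) ^ P) *
        ∏ s ∈ U \ A, (⟨HitI.qi θ s, hne s⟩ :
        nonZeroDivisors (Ideal (𝓞 (Kf t (NA P U A)))))) =
        ⟨Ideal.span {θ}, by
          apply mem_nonZeroDivisors_of_ne_zero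
          intro h
          apply hθ0
          rw [Ideal.zero_eq_bot, Ideal.span_singleton_eq_bot] at h
          exact h⟩ := by
      apply Subtype.ext
      refine Eq.trans ?_ h3
      unfold HitI.JJ
      push_cast
      rfl
    rw [h5, ClassGroup.mk0_eq_one_iff]
    exact ⟨⟨_, rfl⟩⟩

end Pool.Agent.PowF
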