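import Pool.Agent.PowF.Inert
import Pool.Agent.PowF.ClassCount

/-!
The main inequality of part (A).
-/

set_option autoImplicit false

namespace Pool.Agent.PowF

open Pool.Agent.CycSyl NumberField NumberTheorySymbols

/-- the number of roots of unity of order dividing `p ^ v` in the class group -/
theorem root_card {p v : ℕ} (H : Type) [CommGroup H] [Finite H] (hH : Nat.card H = p ^ v)
    (K : IntermediateField ℚ ℂ) [NumberField K] (hK : K ∈ fam p H) (k : ℕ) :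
    {g : ClassGroup (𝓞 K) | g ^ (p ^ k) = 1}.ncard ≤ p ^ v := by
  obtain ⟨_, -, -, ⟨e⟩⟩ := hK
  have h1 : {g : ClassGroup (𝓞 K) | g ^ (p ^ k) = 1} ⊆
      (↑(Subgroup.closure {g : ClassGroup (𝓞 K) | ∃ n : ℕ, g ^ (p ^ n) = 1}) :
        Set (ClassGroup (𝓞 K))) := by
    intro g hg
    exact Subgroup.subset_closure ⟨k, hg⟩
  refine (Set.ncard_le_ncard h1 (Set.toFinite _)).trans ?_
  rw [← hH]
  exact (Nat.card_congr e.toEquiv).le

/-- the number of solutions of `x ^ N = κ` in a finite commutative group -/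
theorem pow_fiber {A : Type*} [CommGroup A] [Finite A] (N B : ℕ)
    (h : {g : A | g ^ N = 1}.ncard ≤ B) (κ : A) : {g : A | g ^ N = κ}.ncard ≤ B := by
  rcases Set.eq_empty_or_nonempty {g : A | g ^ N = κ} with h0 | ⟨g₀, hg₀⟩
  · rw [h0, Set.ncard_empty]
    exact Nat.zero_le _
  · refine le_trans ?_ h
    apply Set.ncard_le_ncard_of_injOn (fun g => g * g₀⁻¹)
    · intro g hg
      have h1 : g ^ N = κ := hg
      have h2 : g₀ ^ N = κ := hg₀
      show (g * g₀⁻¹) ^ N = 1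
      rw [mul_pow, inv_pow, h1, h2, mul_inv_cancel]
    · intro g _ g' _ h1
      exact mul_right_cancel h1

/-- the number of classes which are products of classes of prime ideals of given norms -/
theorem prod_classes (K : IntermediateField ℚ ℂ) [NumberField K]
    (h2 : Module.finrank ℚ K = 2) (Q : Finset ℕ) (hQ : ∀ q ∈ Q, q.Prime) :
    {c : ClassGroup (𝓞 K) | ∃ 𝔮 : ℕ → nonZeroDivisors (Ideal (𝓞 K)),
      (∀ q ∈ Q, Ideal.absNorm (𝔮 q : Ideal (𝓞 K)) = q) ∧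
      c = ∏ q ∈ Q, ClassGroup.mk0 (𝔮 q)}.ncard ≤ 2 ^ Q.card := by
  classical
  induction Q using Finset.induction_on with
  | empty =>
    refine (Set.ncard_le_ncard (t := {1}) ?_ (Set.toFinite _)).trans ?_
    · rintro c ⟨𝔮, -, h⟩
      rw [Finset.prod_empty] at h
      exact h
    · simp
  | insert q Q hq ih =>
    have ih' := ih (fun x hx => hQ x (Finset.mem_insert_of_mem hx))
    set A := {c : ClassGroup (𝓞 K) | ∃ 𝔮 : ℕ → nonZeroDivisors (Ideal (𝓞 K)),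
      (∀ q ∈ Q, Ideal.absNorm (𝔮 q : Ideal (𝓞 K)) = q) ∧
      c = ∏ q ∈ Q, ClassGroup.mk0 (𝔮 q)} with hA
    set B := {c : ClassGroup (𝓞 K) | ∃ I : nonZeroDivisors (Ideal (𝓞 K)),
      Ideal.absNorm (I : Ideal (𝓞 K)) = q ∧ c = ClassGroup.mk0 I} with hB
    have hBc : B.ncard ≤ 2 := by
      obtain ⟨hc, hfin⟩ := norm_prime_card K h2 (hQ q (Finset.mem_insert_self _ _))
      refine le_trans ?_ hc
      have hsub : B ⊆ (fun I : Ideal (𝓞 K) => if h : I ∈ nonZeroDivisors (Ideal (𝓞 K)) then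
          ClassGroup.mk0 ⟨I, h⟩ else 1) '' {I : Ideal (𝓞 K) | Ideal.absNorm I = q} := by
        rintro c ⟨I, hI, rfl⟩
        refine ⟨(I : Ideal (𝓞 K)), hI, ?_⟩
        simp only
        rw [dif_pos I.2]
      exact (Set.ncard_le_ncard hsub (Set.toFinite _)).trans (Set.ncard_image_le hfin)
    have hsub : {c : ClassGroup (𝓞 K) | ∃ 𝔮 : ℕ → nonZeroDivisors (Ideal (𝓞 K)),
        (∀ q' ∈ insert q Q, Ideal.absNorm (𝔮 q' : Ideal (𝓞 K)) = q') ∧
        c = ∏ q' ∈ insert q Q, ClassGroup.mk0 (𝔮 q')} ⊆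
        (fun x : ClassGroup (𝓞 K) × ClassGroup (𝓞 K) => x.1 * x.2) '' (B ×ˢ A) := by
      rintro c ⟨𝔮, h3, rfl⟩
      rw [Finset.prod_insert hq]
      refine ⟨(ClassGroup.mk0 (𝔮 q), ∏ q' ∈ Q, ClassGroup.mk0 (𝔮 q')), ⟨?_, ?_⟩, rfl⟩
      · exact ⟨𝔮 q, h3 q (Finset.mem_insert_self _ _), rfl⟩
      · exact ⟨𝔮, fun x hx => h3 x (Finset.mem_insert_of_mem hx), rfl⟩
    refine (Set.ncard_le_ncard hsub (Set.toFinite _)).trans ?_
    refine (Set.ncard_image_le (Set.toFinite _)).trans ?_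
    rw [Set.ncard_prod, Finset.card_insert_of_notMem hq, pow_succ, mul_comm (2 ^ Q.card)]
    exact Nat.mul_le_mul hBc ih'

/-- the primes of `T` which give the field `K` -/
theorem fibre_bound {p v k : ℕ} (H : Type) [CommGroup H] [Finite H] (hH : Nat.card H = p ^ v)
    (K : IntermediateField ℚ ℂ) [NumberField K] (hK : K ∈ fam p H) (C : Finset (ClassGroup (𝓞 K)))
    (Q T : Finset ℕ) (R : ℕ) (hQ : ∀ q ∈ Q, q.Prime) (hT : ∀ r ∈ T, r.Prime ∧ r ∉ Q ∧ r ≤ R)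
    (h : ∀ r ∈ T, ∃ 𝔮 : ℕ → nonZeroDivisors (Ideal (𝓞 K)),
      (∀ s ∈ insert r Q, Ideal.absNorm (𝔮 s : Ideal (𝓞 K)) = s) ∧
      (∏ s ∈ insert r Q, ClassGroup.mk0 (𝔮 s)) ^ (p ^ k) ∈ C) :
    (T.card : ℝ) ≤ C.card * p ^ v * 2 ^ Q.card * (1 + 7 * R / √(aD K : ℝ)) := by
  classical
  obtain ⟨_, h2, him, -⟩ := id hK
  -- the possible classes
  set A := {c : ClassGroup (𝓞 K) | ∃ 𝔮 : ℕ → nonZeroDivisors (Ideal (𝓞 K)),
      (∀ q ∈ Q, Ideal.absNorm (𝔮 q : Ideal (𝓞 K)) = q) ∧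
      c = ∏ q ∈ Q, ClassGroup.mk0 (𝔮 q)} with hA
  have hAc : A.ncard ≤ 2 ^ Q.card := prod_classes K h2 Q hQ
  set R' : Set (ClassGroup (𝓞 K)) := {g | g ^ (p ^ k) ∈ C} with hR'
  have hRc : R'.ncard ≤ C.card * p ^ v := by
    have hsub : R' = ⋃ κ ∈ C, {g : ClassGroup (𝓞 K) | g ^ (p ^ k) = κ} := by
      ext g
      simp [hR']
    rw [hsub]
    refine (Finset.set_ncard_biUnion_le C _).trans ?_
    refine (Finset.sum_le_card_nsmul C _ (p ^ v) fun κ _ =>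
      pow_fiber _ _ (root_card H hH K hK k) κ).trans ?_
    rw [smul_eq_mul]
  set Cl : Set (ClassGroup (𝓞 K)) :=
    (fun x : ClassGroup (𝓞 K) × ClassGroup (𝓞 K) => x.1 * x.2⁻¹) '' (R' ×ˢ A) with hCl
  have hClc : Cl.ncard ≤ C.card * p ^ v * 2 ^ Q.card := by
    refine (Set.ncard_image_le (Set.toFinite _)).trans ?_
    rw [Set.ncard_prod]
    exact Nat.mul_le_mul hRc hAc
  -- every prime of `T` has an ideal in a possible class
  have hcl : ∀ r ∈ T, ∃ c ∈ Cl, ∃ I : nonZeroDivisors (Ideal (𝓞 K)),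
      Ideal.absNorm (I : Ideal (𝓞 K)) = r ∧ ClassGroup.mk0 I = c := by
    intro r hr
    obtain ⟨𝔮, h3, h4⟩ := h r hr
    rw [Finset.prod_insert (hT r hr).2.1] at h4
    refine ⟨ClassGroup.mk0 (𝔮 r), ?_, 𝔮 r, h3 r (Finset.mem_insert_self _ _), rfl⟩
    refine ⟨(ClassGroup.mk0 (𝔮 r) * ∏ s ∈ Q, ClassGroup.mk0 (𝔮 s),
      ∏ s ∈ Q, ClassGroup.mk0 (𝔮 s)), ⟨h4, ?_⟩, ?_⟩
    · exact ⟨𝔮, fun x hx => h3 x (Finset.mem_insert_of_mem hx), rfl⟩
    · simp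
  choose! cl hclm hclI using hcl
  set F := Cl.toFinite.toFinset with hF
  have hFc : F.card = Cl.ncard := (Set.ncard_eq_toFinset_card Cl _).symm
  have hcard : T.card ≤ ∑ c ∈ F, (T.filter (fun r => cl r = c)).card := by
    rw [← Finset.card_eq_sum_card_fiberwise (f := cl) (s := T) (t := F)]
    intro r hr
    rw [Finset.mem_coe] at hr
    rw [Finset.mem_coe, hF, Set.Finite.mem_toFinset]
    exact hclm r hr
  have hbound : ∀ c ∈ F, ((T.filter (fun r => cl r = c)).card : ℝ) ≤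
      1 + 7 * R / √(aD K : ℝ) := by
    intro c _
    apply class_count K h2 him c R
    intro n hn
    rw [Finset.mem_filter] at hn
    obtain ⟨I, hI, hc⟩ := hclI n hn.1
    exact ⟨(hT n hn.1).1.prime.squarefree, (hT n hn.1).2.2, I, hI, by rw [hc, hn.2]⟩
  have h5 : (0 : ℝ) ≤ 1 + 7 * R / √(aD K : ℝ) := by positivity
  calc (T.card : ℝ) ≤ ∑ c ∈ F, ((T.filter (fun r => cl r = c)).card : ℝ) := by
        exact_mod_cast hcard
    _ ≤ ∑ c ∈ F, (1 + 7 * R / √(aD K : ℝ)) := Finset.sum_le_sum hbound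
    _ = (Cl.ncard : ℝ) * (1 + 7 * R / √(aD K : ℝ)) := by
        rw [Finset.sum_const, nsmul_eq_mul, hFc]
    _ ≤ (C.card * p ^ v * 2 ^ Q.card) * (1 + 7 * R / √(aD K : ℝ)) := by
        apply mul_le_mul_of_nonneg_right _ h5
        exact_mod_cast hClc

/-- the main inequality -/
theorem main_ineq {p v k : ℕ} (hp : p.Prime) (H : Type) [CommGroup H] [Finite H]
    (hH : Nat.card H = p ^ v) (hit : ClassHit p k H) :
    ∃ (W : ℕ) (c₁ : ℝ), 0 < W ∧ 0 < c₁ ∧ ∀ (Q T : Finset ℕ) (R : ℕ),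
      (∀ q ∈ Q, Al p W q) → (∀ r ∈ T, Al p W r ∧ r ∉ Q ∧ r ≤ R) →
      ∃ F : Finset (IntermediateField ℚ ℂ),
        (∀ K ∈ F, K ∈ fam p H ∧ aD K ≤ (W * (∏ q ∈ Q, q) * R) ^ (p ^ k) ∧
          (∃ d, Sqd K d ∧ ¬ p ∣ d ∧ d ≤ aD K) ∧
          ∀ d, Sqd K d → ∀ q ∈ Q, J(-(d : ℤ) | q) ≠ -1) ∧
        (T.card : ℝ) ≤ c₁ * 2 ^ Q.card * ∑ K ∈ F, (1 + 7 * R / √(aD K : ℝ)) := by
  classical
  obtain ⟨W, c₀, hW, CC, hCC, hmain⟩ := hit
  refine ⟨W, (c₀ + 1) * p ^ v, hW, ?_, ?_⟩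
  · have := hp.pos
    positivity
  intro Q T R hQ hT
  have hins : ∀ r ∈ T, ∀ s ∈ insert r Q, Al p W s := by
    intro r hr s hs
    rw [Finset.mem_insert] at hs
    rcases hs with rfl | hs
    · exact (hT _ hr).1
    · exact hQ s hs
  have hall : ∀ r ∈ T, ∃ K : IntermediateField ℚ ℂ, ∃ _ : NumberField K, K ∈ fam p H ∧
      aD K ≤ (W * ∏ s ∈ insert r Q, s) ^ (p ^ k) ∧ (∃ d : ℕ, Sqd K d ∧ ¬ p ∣ d) ∧
      ∃ 𝔮 : ℕ → nonZeroDivisors (Ideal (𝓞 K)),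
        (∀ s ∈ insert r Q, Ideal.absNorm (𝔮 s : Ideal (𝓞 K)) = s) ∧
        (∏ s ∈ insert r Q, ClassGroup.mk0 (𝔮 s)) ^ (p ^ k) ∈ CC K :=
    fun r hr => hmain (insert r Q) (hins r hr)
  choose! Kf nf hfam haD hd hq using hall
  refine ⟨T.image Kf, ?_, ?_⟩
  · intro K hK
    rw [Finset.mem_image] at hK
    obtain ⟨r, hr, rfl⟩ := hK
    have := nf r hr
    obtain ⟨_, h2, him, -⟩ := id (hfam r hr)
    refine ⟨hfam r hr, ?_, ?_, ?_⟩
    · refine (haD r hr).trans ?_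
      apply Nat.pow_le_pow_left
      rw [Finset.prod_insert (hT r hr).2.1, mul_assoc, mul_comm r]
      gcongr
      exact (hT r hr).2.2
    · obtain ⟨d, hd1, hd2⟩ := hd r hr
      exact ⟨d, hd1, hd2, sqd_le_aD _ h2 hd1⟩
    · intro d hd1 q hqQ
      obtain ⟨𝔮, h3, -⟩ := hq r hr
      exact not_inert' _ hd1 (hQ q hqQ).1 _ (h3 q (Finset.mem_insert_of_mem hqQ))
  · have hcard : T.card = ∑ K ∈ T.image Kf, (T.filter (fun r => Kf r = K)).card :=
      Finset.card_eq_sum_card_image Kf T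
    have hbound : ∀ K ∈ T.image Kf, ((T.filter (fun r => Kf r = K)).card : ℝ) ≤
        (c₀ + 1) * p ^ v * 2 ^ Q.card * (1 + 7 * R / √(aD K : ℝ)) := by
      intro K hK
      rw [Finset.mem_image] at hK
      obtain ⟨r₀, hr₀, rfl⟩ := hK
      have := nf r₀ hr₀
      have h5 := fibre_bound (k := k) H hH (Kf r₀) (hfam r₀ hr₀) (CC (Kf r₀)) Q
        (T.filter (fun r => Kf r = Kf r₀)) R (fun q hq' => (hQ q hq').1) ?_ ?_
      · refine h5.trans ?_
        have h6 : ((CC (Kf r₀)).card : ℝ) ≤ c₀ + 1 := by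
          have : ((CC (Kf r₀)).card : ℝ) ≤ c₀ := by exact_mod_cast hCC (Kf r₀)
          linarith
        have h7 : (0 : ℝ) ≤ 1 + 7 * R / √(aD (Kf r₀) : ℝ) := by positivity
        gcongr
      · intro r hr
        rw [Finset.mem_filter] at hr
        exact ⟨(hT r hr.1).1.1, (hT r hr.1).2⟩
      · intro r hr
        rw [Finset.mem_filter] at hr
        obtain ⟨hr1, hr2⟩ := hr
        have h8 := hq r hr1
        revert h8
        have h9 : ∀ (K : IntermediateField ℚ ℂ) (inst : NumberField K) (inst' : NumberField (Kf r₀)),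
            K = Kf r₀ → (∃ 𝔮 : ℕ → nonZeroDivisors (Ideal (𝓞 K)),
              (∀ s ∈ insert r Q, Ideal.absNorm (𝔮 s : Ideal (𝓞 K)) = s) ∧
              (∏ s ∈ insert r Q, ClassGroup.mk0 (𝔮 s)) ^ (p ^ k) ∈ @CC K inst) →
            ∃ 𝔮 : ℕ → nonZeroDivisors (Ideal (𝓞 (Kf r₀))),
              (∀ s ∈ insert r Q, Ideal.absNorm (𝔮 s : Ideal (𝓞 (Kf r₀))) = s) ∧
              (∏ s ∈ insert r Q, ClassGroup.mk0 (𝔮 s)) ^ (p ^ k) ∈ @CC (Kf r₀) inst' := by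
          rintro K inst inst' rfl h
          exact h
        exact h9 _ _ _ hr2
    calc (T.card : ℝ) = ∑ K ∈ T.image Kf, ((T.filter (fun r => Kf r = K)).card : ℝ) := by
          rw [hcard]
          push_cast
          rfl
      _ ≤ ∑ K ∈ T.image Kf, (c₀ + 1) * p ^ v * 2 ^ Q.card * (1 + 7 * R / √(aD K : ℝ)) :=
          Finset.sum_le_sum hbound
      _ = (c₀ + 1) * p ^ v * 2 ^ Q.card * ∑ K ∈ T.image Kf, (1 + 7 * R / √(aD K : ℝ)) := by
          rw [Finset.mul_sum]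

end Pool.Agent.PowF
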