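import Pool.Agent.PowF.DefsB
import Pool.Agent.PowF.MainIneq
import Pool.Agent.PowF.HitIdeals

/-!
From hits to `ClassHit`.
-/

set_option autoImplicit false

namespace Pool.Agent.PowF

open Pool.Agent.CycSyl Pool.Agent.CycSyl.Hz NumberField NumberTheorySymbols

/-- the squarefree part of the discriminant -/
theorem exists_sqd {p : ℕ} {t : ℤ} {N : ℕ} (h : t ^ 2 < 4 * (N : ℤ))
    (hp : ¬ (p : ℤ) ∣ t ^ 2 - 4 * (N : ℤ)) : ∃ d : ℕ, Sqd (Kf t N) d ∧ ¬ p ∣ d := by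
  obtain ⟨n, hn⟩ : ∃ n : ℕ, (n : ℤ) = 4 * (N : ℤ) - t ^ 2 :=
    ⟨(4 * (N : ℤ) - t ^ 2).toNat, Int.toNat_of_nonneg (by linarith)⟩
  obtain ⟨d, f, hfd, hsq⟩ := Nat.sq_mul_squarefree n
  have hn0 : 0 < n := by
    have : (0 : ℤ) < n := by rw [hn]; linarith
    exact_mod_cast this
  have hf0 : f ≠ 0 := by
    rintro rfl
    rw [← hfd] at hn0
    simp at hn0
  have hd0 : 0 < d := Nat.pos_of_ne_zero hsq.ne_zero
  have hfd' : (f : ℤ) ^ 2 * d = 4 * (N : ℤ) - t ^ 2 := by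
    rw [← hn, ← hfd]
    push_cast
    ring
  refine ⟨d, ⟨hd0, hsq, (2 * th t N - (t : ℂ)) / (f : ℂ), ?_, ?_⟩, ?_⟩
  · have h1 : (2 : ℂ) ∈ Kf t N := by simp
    have h2 : (t : ℂ) ∈ Kf t N := by simp
    have h3 : (f : ℂ) ∈ Kf t N := by simp
    exact div_mem (sub_mem (mul_mem h1 th_mem) h2) h3
  · have h1 := th_rel h
    have hfC : (f : ℂ) ≠ 0 := by exact_mod_cast hf0
    have h4 : (f : ℂ) ^ 2 * d = 4 * (N : ℂ) - (t : ℂ) ^ 2 := by exact_mod_cast hfd'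
    rw [div_mul_div_comm, div_eq_iff (mul_ne_zero hfC hfC)]
    push_cast at h1 ⊢
    linear_combination 4 * h1 + h4
  · intro h5
    apply hp
    have h6 : (p : ℤ) ∣ 4 * (N : ℤ) - t ^ 2 := by
      rw [← hfd']
      exact Dvd.dvd.mul_left (Int.natCast_dvd_natCast.mpr h5) _
    have h7 : t ^ 2 - 4 * (N : ℤ) = -(4 * (N : ℤ) - t ^ 2) := by ring
    rw [h7]
    exact (dvd_neg).mpr h6

/-- the classes of products of prime ideals over a subset of `S₀` -/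
def PC (S₀ : Finset ℕ) (K : IntermediateField ℚ ℂ) [NumberField K] : Set (ClassGroup (𝓞 K)) :=
  {c | ∃ V ⊆ S₀, ∃ 𝔮 : ℕ → nonZeroDivisors (Ideal (𝓞 K)),
    (∀ q ∈ V, Ideal.absNorm (𝔮 q : Ideal (𝓞 K)) = q) ∧ c = ∏ q ∈ V, ClassGroup.mk0 (𝔮 q)}

theorem PC_card (S₀ : Finset ℕ) (hS₀ : ∀ s ∈ S₀, s.Prime) (K : IntermediateField ℚ ℂ)
    [NumberField K] (h2 : Module.finrank ℚ K = 2) : (PC S₀ K).ncard ≤ 4 ^ S₀.card := by
  classical
  have hsub : PC S₀ K = ⋃ V ∈ S₀.powerset, {c : ClassGroup (𝓞 K) |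
      ∃ 𝔮 : ℕ → nonZeroDivisors (Ideal (𝓞 K)),
      (∀ q ∈ V, Ideal.absNorm (𝔮 q : Ideal (𝓞 K)) = q) ∧
      c = ∏ q ∈ V, ClassGroup.mk0 (𝔮 q)} := by
    ext c
    simp only [PC, Set.mem_iUnion, Finset.mem_powerset, Set.mem_ofPred_eq, exists_prop]
  rw [hsub]
  refine (Finset.set_ncard_biUnion_le _ _).trans ?_
  have h3 : ∀ V ∈ S₀.powerset, {c : ClassGroup (𝓞 K) |
      ∃ 𝔮 : ℕ → nonZeroDivisors (Ideal (𝓞 K)),
      (∀ q ∈ V, Ideal.absNorm (𝔮 q : Ideal (𝓞 K)) = q) ∧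
      c = ∏ q ∈ V, ClassGroup.mk0 (𝔮 q)}.ncard ≤ 2 ^ S₀.card := by
    intro V hV
    rw [Finset.mem_powerset] at hV
    refine (prod_classes K h2 V (fun q hq => hS₀ q (hV hq))).trans ?_
    exact Nat.pow_le_pow_right (by norm_num) (Finset.card_le_card hV)
  refine (Finset.sum_le_card_nsmul _ _ _ h3).trans ?_
  rw [Finset.card_powerset, smul_eq_mul, ← mul_pow]
  norm_num

open Classical in
/-- the possible classes -/
noncomputable def CCs (P : ℕ) (S₀ : Finset ℕ) (K : IntermediateField ℚ ℂ) [NumberField K] :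
    Finset (ClassGroup (𝓞 K)) :=
  if Module.finrank ℚ K = 2 then ((PC S₀ K).toFinite.toFinset).image (fun c => (c ^ P)⁻¹) else ∅

theorem CCs_card (P : ℕ) (S₀ : Finset ℕ) (hS₀ : ∀ s ∈ S₀, s.Prime) (K : IntermediateField ℚ ℂ)
    [NumberField K] : (CCs P S₀ K).card ≤ 4 ^ S₀.card := by
  classical
  unfold CCs
  split_ifs with h2
  · refine Finset.card_image_le.trans ?_
    rw [← Set.ncard_eq_toFinset_card (PC S₀ K) _]
    exact PC_card S₀ hS₀ K h2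
  · rw [Finset.card_empty]
    exact Nat.zero_le _

theorem odd_pow_eq {G : Type*} [Group G] (x : G) {P : ℕ} (hP : Odd P) (h : x ^ 2 = 1) :
    x ^ P = x := by
  obtain ⟨j, hj⟩ := hP
  rw [hj, pow_succ, pow_mul, h, one_pow, one_mul]

theorem NA_le {P : ℕ} (hP : 1 ≤ P) (U A : Finset ℕ) (hA : A ⊆ U) (hU : ∀ s ∈ U, s.Prime) :
    NA P U A ≤ (∏ s ∈ U, s) ^ P := by
  unfold NA
  rw [← Finset.prod_pow, ← Finset.prod_sdiff hA, mul_comm]
  apply Nat.mul_le_mul _ le_rfl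
  apply Finset.prod_le_prod'
  intro s hs
  rw [Finset.mem_sdiff] at hs
  exact Nat.le_self_pow (by omega) s

theorem classHit_of {p k : ℕ} (hp : p.Prime) (hp2 : p ≠ 2) (hk : 1 ≤ k) (H : Type)
    [CommGroup H] (S₀ : Finset ℕ) (hS₀ : ∀ s ∈ S₀, s.Prime) (W : ℕ) (hW : 0 < W)
    (hW' : ∀ s ∈ S₀, s ∣ W)
    (h : ∀ S : Finset ℕ, (∀ r ∈ S, Al p W r) → ∃ (U : Finset ℕ) (t : ℤ) (A : Finset ℕ),
      S ⊆ U ∧ U \ S ⊆ S₀ ∧ (∀ s ∈ U, s.Prime) ∧ Hit p (p ^ k) H U t A) :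
    ClassHit p k H := by
  classical
  have hprod0 : 0 < ∏ s ∈ S₀, s := Finset.prod_pos (fun s hs => (hS₀ s hs).pos)
  refine ⟨W * (4 * ∏ s ∈ S₀, s), 4 ^ S₀.card, by positivity, fun K _ => CCs (p ^ k) S₀ K,
    fun K _ => CCs_card (p ^ k) S₀ hS₀ K, ?_⟩
  intro S hS
  obtain ⟨U, t, A, hSU, hUS, hU, hit⟩ := h S (fun r hr => by
    obtain ⟨h1, h2, h3, h4⟩ := hS r hr
    exact ⟨h1, h2, h3, fun h5 => h4 (h5.mul_right _)⟩)
  have hpodd : p % 2 = 1 := hp.mod_two_eq_one_iff_ne_two.mpr hp2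
  have hP3 : 3 ≤ p ^ k := by
    have h3 : 3 ≤ p := by
      have := hp.two_le
      omega
    calc 3 ≤ p := h3
      _ = p ^ 1 := (pow_one p).symm
      _ ≤ p ^ k := Nat.pow_le_pow_right hp.pos hk
  have hPodd : Odd (p ^ k) := Odd.pow (Nat.odd_iff.mpr hpodd)
  set P := p ^ k with hPdef
  have hnf : NumberField (Kf t (NA P U A)) := Kf_numberField hit.lt
  have hfin : Module.finrank ℚ (Kf t (NA P U A)) = 2 := Kf_finrank hit.lt
  refine ⟨Kf t (NA P U A), hnf, hit.fam, ?_, exists_sqd hit.lt hit.pd, ?_⟩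
  · -- the discriminant
    have h1 := Pool.Agent.H56.Exact.abs_discr_le hit.lt
    have h2 : aD (Kf t (NA P U A)) ≤ 4 * NA P U A := by
      rw [aD_eq]
      have h3 : ((discr (Kf t (NA P U A))).natAbs : ℤ) ≤ 4 * (NA P U A : ℤ) := by
        rw [Int.natCast_natAbs]
        have := sq_nonneg t
        linarith
      exact_mod_cast h3
    refine h2.trans ?_
    have h4 := NA_le (P := P) (by omega) U A hit.sub hU
    have h5 : ∏ s ∈ U, s ≤ (∏ s ∈ S₀, s) * ∏ r ∈ S, r := by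
      rw [← Finset.prod_sdiff hSU]
      apply Nat.mul_le_mul _ le_rfl
      exact Finset.prod_le_prod_of_subset_of_one_le' hUS (fun s hs _ => (hS₀ s hs).one_le)
    calc 4 * NA P U A ≤ 4 ^ P * (∏ s ∈ U, s) ^ P := by
          apply Nat.mul_le_mul _ h4
          exact Nat.le_self_pow (by omega) 4
      _ = (4 * ∏ s ∈ U, s) ^ P := by rw [mul_pow]
      _ ≤ (W * (4 * ∏ s ∈ S₀, s) * ∏ r ∈ S, r) ^ P := by
          apply Nat.pow_le_pow_left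
          calc 4 * ∏ s ∈ U, s ≤ 4 * ((∏ s ∈ S₀, s) * ∏ r ∈ S, r) := Nat.mul_le_mul_left _ h5
            _ = 1 * (4 * (∏ s ∈ S₀, s) * ∏ r ∈ S, r) := by ring
            _ ≤ W * (4 * (∏ s ∈ S₀, s) * ∏ r ∈ S, r) := Nat.mul_le_mul_right _ hW
            _ = W * (4 * ∏ s ∈ S₀, s) * ∏ r ∈ S, r := by ring
  · -- the ideals
    obtain ⟨𝔮, h1, h2, h3⟩ := hit_ideals (P := P) (by omega) U A hit.sub hU t hit.lt hit.nd hit.dv
    refine ⟨𝔮, fun r hr => h1 r (hSU hr), ?_⟩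
    have h4 : ∏ s ∈ U, ClassGroup.mk0 (𝔮 s) ^ P = 1 := by
      rw [← Finset.prod_sdiff hit.sub, mul_comm, ← h3]
      congr 1
      apply Finset.prod_congr rfl
      intro s hs
      exact odd_pow_eq _ hPodd (h2 s hs)
    rw [← Finset.prod_sdiff hSU, Finset.prod_pow, Finset.prod_pow] at h4
    have h5 : (∏ r ∈ S, ClassGroup.mk0 (𝔮 r)) ^ P = ((∏ r ∈ U \ S, ClassGroup.mk0 (𝔮 r)) ^ P)⁻¹ :=
      eq_inv_of_mul_eq_one_right h4
    show (∏ r ∈ S, ClassGroup.mk0 (𝔮 r)) ^ P ∈ CCs P S₀ _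
    unfold CCs
    rw [if_pos hfin, Finset.mem_image]
    refine ⟨∏ r ∈ U \ S, ClassGroup.mk0 (𝔮 r), ?_, h5.symm⟩
    rw [Set.Finite.mem_toFinset]
    exact ⟨U \ S, hUS, 𝔮, fun q hq => h1 q (Finset.mem_sdiff.mp hq).1, rfl⟩

end Pool.Agent.PowF
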