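import Pool.Agent.CycSyl.Final

/-!
Definitions for the lower bounds for the number of imaginary quadratic fields whose class group
has a prescribed cyclic `p`-primary part.
-/

set_option autoImplicit false

namespace Pool.Agent.PowF

open Pool.Agent.CycSyl NumberField NumberTheorySymbols

/-- allowed primes for the odd prime `p`: primes not congruent to `0` or `-1` modulo `p` which do
not divide `W` -/
def Al (p W r : ℕ) : Prop := r.Prime ∧ ¬ p ∣ r ∧ ¬ p ∣ r + 1 ∧ ¬ r ∣ W

/-- `K` contains a square root of `-d`, and `d` is squarefree and positive -/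
def Sqd (K : IntermediateField ℚ ℂ) (d : ℕ) : Prop :=
  0 < d ∧ Squarefree d ∧ ∃ z ∈ K, z * z = -((d : ℤ) : ℂ)

open Classical in
/-- the absolute discriminant of a subfield of the complex numbers (`0` if it is not a number
field) -/
noncomputable def aD (K : IntermediateField ℚ ℂ) : ℕ :=
  if h : NumberField K then (@NumberField.discr K _ h).natAbs else 0

theorem aD_eq (K : IntermediateField ℚ ℂ) [h : NumberField K] : aD K = (discr K).natAbs := by
  unfold aD
  rw [dif_pos h]

/-- the interface between the algebraic and the analytic part: for every finite set `S` of allowed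
primes there is a field `K` of the family, of small discriminant, in which every `r ∈ S` has a
prime ideal `𝔮 r` of norm `r`, such that the `p ^ k`-th power of the class of the product of
these prime ideals lies in a set of classes of bounded size which depends only on `K` -/
def ClassHit (p k : ℕ) (H : Type) [CommGroup H] : Prop :=
  ∃ W c₀ : ℕ, 0 < W ∧
  ∃ CC : ∀ (K : IntermediateField ℚ ℂ) [NumberField K], Finset (ClassGroup (𝓞 K)),
    (∀ (K : IntermediateField ℚ ℂ) [NumberField K], (CC K).card ≤ c₀) ∧
    ∀ S : Finset ℕ, (∀ r ∈ S, Al p W r) →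
      ∃ (K : IntermediateField ℚ ℂ) (_ : NumberField K), K ∈ fam p H ∧
        aD K ≤ (W * ∏ r ∈ S, r) ^ (p ^ k) ∧
        (∃ d : ℕ, Sqd K d ∧ ¬ p ∣ d) ∧
        ∃ 𝔮 : ℕ → nonZeroDivisors (Ideal (𝓞 K)),
          (∀ r ∈ S, Ideal.absNorm (𝔮 r : Ideal (𝓞 K)) = r) ∧
          (∏ r ∈ S, ClassGroup.mk0 (𝔮 r)) ^ (p ^ k) ∈ CC K

end Pool.Agent.PowF
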