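import Pool.Agent.PowF.Defs

/-!
Definitions for part (A): norm forms, the kill lemma.
-/

set_option autoImplicit false

namespace Pool.Agent.PowF

open Pool.Agent.CycSyl NumberField NumberTheorySymbols

/-! ### norm forms -/

/-- a norm form: a multiplicative polynomial form on `ℤ ^ (n+1)` for which every prime
`q ≡ -1` modulo `p` divides each value to an even power -/
structure NForm (p : ℕ) where
  n : ℕ
  F : (Fin (n + 1) → ℤ) → ℕ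
  mul : (Fin (n + 1) → ℤ) → (Fin (n + 1) → ℤ) → (Fin (n + 1) → ℤ)
  F_mul : ∀ x y, F (mul x y) = F x * F y
  F_add : ∀ (M : ℤ) x y, (F (x + M • y) : ℤ) ≡ F x [ZMOD M]
  mul_add : ∀ (M : ℤ) x y z, ∃ w, mul (x + M • z) y = mul x y + M • w
  adj : ∀ y, ∃ y', ∀ x, mul (mul x y) y' = (F y : ℤ) • x
  one : F (Pi.single 0 1) = 1
  root : ∀ q : ℕ, q.Prime → ∀ x,
    ((Finset.range q).filter (fun a : ℕ => q ∣ F (Function.update x 0 (a : ℤ)))).card ≤ n + 1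
  bound : ∃ c : ℝ, 0 < c ∧ ∀ (B : ℝ) (x : Fin (n + 1) → ℤ), (∀ i, |(x i : ℝ)| ≤ B) →
    (F x : ℝ) ≤ c * B ^ (n + 1)
  parity : ∀ (x : Fin (n + 1) → ℤ) (q : ℕ), q.Prime → p ∣ q + 1 → F x ≠ 0 →
    Even (padicValNat q (F x))
  flip : ∀ d M : ℕ, 0 < d → Squarefree d → ¬ p ∣ d → 0 < M → ∃ y, (F y).Coprime M ∧
    J(-(d : ℤ) | F y) = -1

/-- the box `[0, B) ^ (n+1)` -/
noncomputable def box (n B : ℕ) : Finset (Fin (n + 1) → ℤ) :=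
  Fintype.piFinset (fun _ => Finset.Ico (0 : ℤ) B)

/-- many values of the norm form are nonresidues for `-d` -/
def Many {p : ℕ} (Nf : NForm p) : Prop := ∀ W : ℕ, 0 < W → ∃ C L₀ : ℝ, 0 < C ∧ ∀ L : ℝ, L₀ ≤ L →
  ∀ d : ℕ, 0 < d → Squarefree d → ¬ p ∣ d → (d : ℝ) ≤ Real.exp L →
  ∀ B : ℕ, 8 * p * W * Real.exp L ≤ B →
    (B : ℝ) ^ (Nf.n + 1) ≤ (Real.log L) ^ C * (((box Nf.n B).filter (fun x =>
      (Nf.F x).Coprime (2 * p * W) ∧ J(-(d : ℤ) | Nf.F x) = -1)).card : ℝ)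

/-- few primes kill a positive proportion of a set of `d` -/
def FL (p : ℕ) : Prop := ∀ W : ℕ, 0 < W → ∃ C L₀ : ℝ, 0 < C ∧ ∀ L : ℝ, L₀ ≤ L →
  ∀ D : Finset ℕ, D.Nonempty → (∀ d ∈ D, 0 < d ∧ Squarefree d ∧ ¬ p ∣ d ∧ (d : ℝ) ≤ Real.exp L) →
    ∃ Q : Finset ℕ, (∀ q ∈ Q, Al p W q) ∧ (Q.card : ℝ) ≤ √L * (Real.log L) ^ C ∧
      ∑ q ∈ Q, Real.log q ≤ C * L ∧
      (D.card : ℝ) ≤ (Real.log L) ^ C *
        ((D.filter (fun d : ℕ => ∃ q ∈ Q, J(-(d : ℤ) | q) = -1)).card : ℝ)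

/-- the kill lemma: a set of `d ≤ exp L` is killed by few primes of small total size -/
def KL (p : ℕ) : Prop := ∀ W : ℕ, 0 < W → ∃ C L₀ : ℝ, 0 < C ∧ ∀ L : ℝ, L₀ ≤ L →
  ∀ D : Finset ℕ, (∀ d ∈ D, 0 < d ∧ Squarefree d ∧ ¬ p ∣ d ∧ (d : ℝ) ≤ Real.exp L) →
    ∃ Q : Finset ℕ, (∀ q ∈ Q, Al p W q) ∧ (∀ d ∈ D, ∃ q ∈ Q, J(-(d : ℤ) | q) = -1) ∧
      (Q.card : ℝ) ≤ 8 * Real.log D.card + L / 100 ∧
      ∑ q ∈ Q, Real.log q ≤ L * (Real.log L) ^ C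

end Pool.Agent.PowF
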