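import Pool.Agent.PowF.Defs
import Pool.Agent.H56.Exact.Disc

/-!
Definitions for the algebraic part: several slots.
-/

set_option autoImplicit false

namespace Pool.Agent.PowF

open Pool.Agent.CycSyl Pool.Agent.CycSyl.Hz NumberField NumberTheorySymbols

/-- the condition on the trace: prime to the slots in `A`, divisible by the other slots -/
def PA (U A : Finset ℕ) (x : Hz ℤ) : Prop :=
  (∀ s ∈ A, ¬ (s : ℤ) ∣ tr x) ∧ ∀ s ∈ U \ A, (s : ℤ) ∣ tr x

/-- the norm: exponent `P` for the slots in `A`, exponent `1` for the other slots -/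
def NA (P : ℕ) (U A : Finset ℕ) : ℕ := (∏ s ∈ A, s ^ P) * ∏ s ∈ U \ A, s

/-- a hit: a field of the family generated by an integer of trace `t` and norm `NA P U A` -/
structure Hit (p P : ℕ) (H : Type) [CommGroup H] (U : Finset ℕ) (t : ℤ) (A : Finset ℕ) :
    Prop where
  sub : A ⊆ U
  lt : t ^ 2 < 4 * (NA P U A : ℤ)
  nd : ∀ s ∈ A, ¬ (s : ℤ) ∣ t
  dv : ∀ s ∈ U \ A, (s : ℤ) ∣ t
  pd : ¬ (p : ℤ) ∣ t ^ 2 - 4 * (NA P U A : ℤ)
  fam : Kf t (NA P U A) ∈ fam p H

end Pool.Agent.PowF
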