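import Pool.Agent.PowF.DefsA
import Pool.Agent.PowF.MainIneq
import Pool.Agent.PowF.PiAP

/-!
The final step of part (A).
-/

set_option autoImplicit false

namespace Pool.Agent.PowF

open Pool.Agent.CycSyl NumberField NumberTheorySymbols

theorem fam_finite (p : ℕ) (H : Type) [CommGroup H] (X : ℝ) :
    {K ∈ fam p H | (aD K : ℝ) ≤ X}.Finite := by
  have h := NumberField.finite_of_discr_bdd ℂ ⌊X⌋₊
  refine (h.image Subtype.val).subset ?_
  rintro K ⟨hK, hX⟩
  obtain ⟨hn, -⟩ := id hK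
  have hfd : FiniteDimensional ℚ K := hn.to_finiteDimensional
  refine ⟨⟨K, hfd⟩, ?_, rfl⟩
  have h1 : aD K ≤ ⌊X⌋₊ := Nat.le_floor hX
  rw [aD_eq] at h1
  have h2 : |discr K| ≤ (⌊X⌋₊ : ℤ) := by
    rw [Int.abs_eq_natAbs]
    exact_mod_cast h1
  exact h2

/-- the asymptotic facts -/
theorem final_A_asymp (c c₁ CK L₀ P W : ℝ) (y₀ : ℕ) (hc : 0 < c) (hP : 0 < P) :
    ∀ᶠ X : ℝ in Filter.atTop,
      1 ≤ X ∧ 100 ≤ Real.log (Real.log X) ∧ 0 < Real.log X ∧
      L₀ ≤ Real.log X / (Real.log (Real.log X)) ^ (CK + 2) ∧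
      1 ≤ Real.log X / (Real.log (Real.log X)) ^ (CK + 2) ∧
      4 * (|Real.log (16 * c₁ / c)| + Real.log (Real.log X)) <
        Real.log X / (Real.log (Real.log X)) ^ (CK + 2) ∧
      4 * P ≤ (Real.log (Real.log X)) ^ 2 ∧
      4 * P * Real.log W ≤ Real.log X ∧
      18 * (Real.log X) ^ 2 ≤ c * Real.exp (Real.log X / (8 * P)) ∧
      2 ≤ Real.exp (Real.log X / (8 * P)) ∧
      (y₀ : ℝ) ≤ Real.exp (Real.log X / (8 * P)) := by
  have t1 : Filter.Tendsto Real.log Filter.atTop Filter.atTop := Real.tendsto_log_atTop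
  have t2 : Filter.Tendsto (fun X : ℝ => Real.log (Real.log X)) Filter.atTop Filter.atTop :=
    t1.comp t1
  have t3 : Filter.Tendsto (fun X : ℝ => Real.log X / (8 * P)) Filter.atTop Filter.atTop :=
    t1.atTop_div_const (by positivity)
  have t4 : Filter.Tendsto (fun X : ℝ => Real.exp (Real.log X / (8 * P)))
      Filter.atTop Filter.atTop := Real.tendsto_exp_atTop.comp t3
  have t5 : Filter.Tendsto (fun X : ℝ => Real.exp (Real.log (Real.log X)) /
      (Real.log (Real.log X)) ^ (CK + 3)) Filter.atTop Filter.atTop :=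
    (tendsto_exp_div_rpow_atTop (CK + 3)).comp t2
  have t6 : Filter.Tendsto (fun X : ℝ => Real.exp (Real.log X / (8 * P)) /
      (Real.log X / (8 * P)) ^ (2 : ℝ)) Filter.atTop Filter.atTop :=
    (tendsto_exp_div_rpow_atTop 2).comp t3
  filter_upwards [Filter.eventually_ge_atTop 1, t2.eventually_ge_atTop 100,
    t1.eventually_ge_atTop 1,
    t5.eventually_ge_atTop (|L₀| + 1 + 5 * (|Real.log (16 * c₁ / c)| + 1)),
    t2.eventually_ge_atTop (4 * P), t1.eventually_ge_atTop (4 * P * Real.log W),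
    t6.eventually_ge_atTop (18 * (8 * P) ^ 2 / c), t4.eventually_ge_atTop 2,
    t4.eventually_ge_atTop (y₀ : ℝ)] with X h1 h2 h3 h4 h5 h6 h7 h8 h9
  set y := Real.log X with hy
  set l := Real.log y with hl
  have hy0 : 0 < y := by linarith
  have hl0 : 0 < l := by linarith
  have hexp : Real.exp l = y := Real.exp_log hy0
  have key : |L₀| + 1 + 5 * (|Real.log (16 * c₁ / c)| + 1) ≤ y / l ^ (CK + 3) := by
    rw [hexp] at h4
    exact h4
  have hsplit : y / l ^ (CK + 2) = l * (y / l ^ (CK + 3)) := by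
    have e : l ^ (CK + 3) = l ^ (CK + 2) * l := by
      rw [show CK + 3 = (CK + 2) + 1 by ring, Real.rpow_add hl0, Real.rpow_one]
    rw [e]
    field_simp
  have ha : 0 ≤ |Real.log (16 * c₁ / c)| := abs_nonneg _
  have hb : 0 ≤ |L₀| := abs_nonneg _
  have hlow : l * (|L₀| + 1 + 5 * (|Real.log (16 * c₁ / c)| + 1)) ≤ y / l ^ (CK + 2) := by
    rw [hsplit]
    exact mul_le_mul_of_nonneg_left key hl0.le
  have hl1 : 1 ≤ l := by linarith
  refine ⟨h1, h2, hy0, ?_, ?_, ?_, ?_, h6, ?_, h8, h9⟩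
  · have := le_abs_self L₀
    nlinarith
  · nlinarith
  · nlinarith
  · nlinarith
  · rw [le_div_iff₀ (by positivity)] at h7
    have e : (y / (8 * P)) ^ (2 : ℝ) = y ^ 2 / (8 * P) ^ 2 := by
      rw [show (2 : ℝ) = ((2 : ℕ) : ℝ) by norm_num, Real.rpow_natCast, div_pow]
    rw [e] at h7
    have e2 : 18 * (8 * P) ^ 2 / c * (y ^ 2 / (8 * P) ^ 2) = 18 * y ^ 2 / c := by
      field_simp
    rw [e2, div_le_iff₀ hc] at h7
    linarith

theorem final_A {p v k : ℕ} (hp : p.Prime) (hp2 : p ≠ 2) (H : Type) [CommGroup H] [Finite H]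
    (hH : Nat.card H = p ^ v) (hit : ClassHit p k H) (kl : KL p) :
    ∃ C X₀ : ℝ, 0 < C ∧ ∀ X : ℝ, X₀ ≤ X → X ^ (1 / (Real.log (Real.log X)) ^ C) ≤
      (({K ∈ fam p H | (aD K : ℝ) ≤ X} : Set (IntermediateField ℚ ℂ)).ncard : ℝ) := by
  classical
  obtain ⟨W, c₁, hW, hc₁, hmain⟩ := main_ineq hp H hH hit
  obtain ⟨CK, L₀, hCK, hkl⟩ := kl W hW
  obtain ⟨c, hc, y₀, hpi⟩ := pi_ap hp hW
  have hP0 : 0 < p ^ k := pow_pos hp.pos k
  set P : ℝ := ((p ^ k : ℕ) : ℝ) with hP
  have hPpos : 0 < P := by rw [hP]; exact_mod_cast hP0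
  have hP1 : 1 ≤ P := by rw [hP]; exact_mod_cast hP0
  obtain ⟨X₀, hX₀⟩ := Filter.eventually_atTop.mp (final_A_asymp c c₁ CK L₀ P W y₀ hc hPpos)
  refine ⟨CK + 3, X₀, by linarith, ?_⟩
  intro X hX
  obtain ⟨hX1, hl100, hy0, hL0, hL1, hbig, hP2, hPW, h18, he2, hey⟩ := hX₀ X hX
  set y := Real.log X with hy
  set l := Real.log y with hl
  set L := y / l ^ (CK + 2) with hLdef
  have hl0 : 0 < l := by linarith
  have hXpos : 0 < X := by linarith
  set A := Real.log (16 * c₁ / c) with hA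
  set E := X ^ (1 / l ^ (CK + 3)) with hE
  have hlogE : Real.log E = L / l := by
    rw [hE, Real.log_rpow hXpos, hLdef, ← hy]
    have e : l ^ (CK + 3) = l ^ (CK + 2) * l := by
      rw [show CK + 3 = (CK + 2) + 1 by ring, Real.rpow_add hl0, Real.rpow_one]
    rw [e]
    field_simp
  have hEpos : 0 < E := Real.rpow_pos_of_pos hXpos _
  have hlogE2 : Real.log E ≤ L / 100 := by
    rw [hlogE]
    exact div_le_div_of_nonneg_left (by linarith) (by norm_num) hl100
  have hlogE0 : 0 ≤ Real.log E := by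
    rw [hlogE]
    exact div_nonneg (by linarith) hl0.le
  have hLy : L ≤ y := by
    rw [hLdef]
    apply div_le_self hy0.le
    exact Real.one_le_rpow (by linarith) (by linarith)
  by_contra hcon
  rw [not_le] at hcon
  set 𝓕 : Set (IntermediateField ℚ ℂ) := {K ∈ fam p H | (aD K : ℝ) ≤ X} with h𝓕
  have h𝓕fin : 𝓕.Finite := fam_finite p H X
  -- the small fields
  set 𝓢 : Finset (IntermediateField ℚ ℂ) := h𝓕fin.toFinset.filter
    (fun K => (∃ d, Sqd K d ∧ ¬ p ∣ d ∧ d ≤ aD K) ∧ (aD K : ℝ) ≤ Real.exp L) with h𝓢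
  have hScard : 𝓢.card ≤ 𝓕.ncard := by
    rw [Set.ncard_eq_toFinset_card 𝓕 h𝓕fin]
    exact Finset.card_filter_le _ _
  have hchoice : ∀ K ∈ 𝓢, ∃ d, Sqd K d ∧ ¬ p ∣ d ∧ d ≤ aD K := by
    intro K hK
    rw [h𝓢, Finset.mem_filter] at hK
    exact hK.2.1
  choose! dK hdK1 hdK2 hdK3 using hchoice
  set D := 𝓢.image dK with hD
  have hDcard : D.card ≤ 𝓕.ncard := Finset.card_image_le.trans hScard
  have hlogD : Real.log D.card ≤ Real.log E := by
    rcases Nat.eq_zero_or_pos D.card with h0 | h0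
    · rw [h0]
      simpa using hlogE0
    · apply Real.log_le_log (by exact_mod_cast h0)
      have : (D.card : ℝ) ≤ (𝓕.ncard : ℝ) := by exact_mod_cast hDcard
      linarith
  obtain ⟨Q, hQal, hQkill, hQcard, hQsum⟩ := hkl L hL0 D (by
    intro d hd
    rw [hD, Finset.mem_image] at hd
    obtain ⟨K, hK, rfl⟩ := hd
    refine ⟨(hdK1 K hK).1, (hdK1 K hK).2.1, hdK2 K hK, ?_⟩
    have h1 : (dK K : ℝ) ≤ aD K := by exact_mod_cast hdK3 K hK
    have h2 : (aD K : ℝ) ≤ Real.exp L := by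
      rw [h𝓢, Finset.mem_filter] at hK
      exact hK.2.2
    linarith)
  have hQc : (Q.card : ℝ) ≤ 0.09 * L := by
    have : 8 * Real.log D.card ≤ 8 * (L / 100) := by linarith
    linarith
  -- the range of primes
  set R : ℕ := ⌊Real.exp (y / (4 * P))⌋₊ with hR
  have hRle : (R : ℝ) ≤ Real.exp (y / (4 * P)) := Nat.floor_le (Real.exp_pos _).le
  have hRge : Real.exp (y / (8 * P)) ≤ R := by
    have h1 : Real.exp (y / (4 * P)) < R + 1 := Nat.lt_floor_add_one _
    have h2 : Real.exp (y / (4 * P)) = Real.exp (y / (8 * P)) * Real.exp (y / (8 * P)) := by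
      rw [← Real.exp_add]
      congr 1
      field_simp
      norm_num
    rw [h2] at h1
    nlinarith
  have hRy0 : y₀ ≤ R := by
    have : (y₀ : ℝ) ≤ R := hey.trans hRge
    exact_mod_cast this
  have hRpos : (0 : ℝ) < R := lt_of_lt_of_le (by positivity) hRge
  have hR2 : (2 : ℝ) ≤ R := he2.trans hRge
  have hlogR : Real.log R ≤ y := by
    have h1 : Real.log R ≤ Real.log (Real.exp (y / (4 * P))) := Real.log_le_log hRpos hRle
    rw [Real.log_exp] at h1
    refine h1.trans (div_le_self hy0.le (by linarith))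
  have hlogR0 : 0 < Real.log R := Real.log_pos (by linarith)
  set T := (((Finset.range (R + 1)).filter (fun q => q.Prime ∧ q % p = 1 ∧ ¬ q ∣ W))) \ Q with hT
  have hTcard : c * R / y - 9 * y ≤ (T.card : ℝ) := by
    have h1 : c * R / Real.log R ≤ _ := hpi R hRy0
    have h2 : c * R / y ≤ c * R / Real.log R :=
      div_le_div_of_nonneg_left (by positivity) hlogR0 hlogR
    have h3 : ((((Finset.range (R + 1)).filter
        (fun q => q.Prime ∧ q % p = 1 ∧ ¬ q ∣ W))).card : ℝ) ≤ T.card + Q.card := by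
      have := Finset.le_card_sdiff Q (((Finset.range (R + 1)).filter
        (fun q => q.Prime ∧ q % p = 1 ∧ ¬ q ∣ W)))
      have h5 : (((Finset.range (R + 1)).filter
        (fun q => q.Prime ∧ q % p = 1 ∧ ¬ q ∣ W))).card ≤ T.card + Q.card := by
        rw [hT]
        omega
      exact_mod_cast h5
    have h4 : (Q.card : ℝ) ≤ 9 * y := by
      have : 0.09 * L ≤ 9 * y := by nlinarith
      linarith
    linarith
  have hT2 : c * R / (2 * y) ≤ (T.card : ℝ) := by
    have h1 : 9 * y ≤ c * R / (2 * y) := by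
      rw [le_div_iff₀ (by positivity)]
      have : c * Real.exp (y / (8 * P)) ≤ c * R := mul_le_mul_of_nonneg_left hRge hc.le
      nlinarith
    have h2 : c * R / y = 2 * (c * R / (2 * y)) := by
      field_simp
    linarith
  obtain ⟨F, hF, hFT⟩ := hmain Q T R hQal (by
    intro r hr
    rw [hT, Finset.mem_sdiff, Finset.mem_filter, Finset.mem_range] at hr
    obtain ⟨⟨hr1, hr2, hr3, hr4⟩, hr5⟩ := hr
    have hp3 : 2 < p := lt_of_le_of_ne hp.two_le (Ne.symm hp2)
    refine ⟨⟨hr2, ?_, ?_, hr4⟩, hr5, by omega⟩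
    · intro h
      rw [Nat.dvd_iff_mod_eq_zero] at h
      omega
    · intro h
      rw [Nat.dvd_iff_mod_eq_zero, Nat.add_mod, hr3, Nat.mod_eq_of_lt (show 1 < p by omega),
        Nat.mod_eq_of_lt (show 1 + 1 < p by omega)] at h
      omega)
  -- all the fields of `F` lie in the family
  have hprod : ((∏ q ∈ Q, q : ℕ) : ℝ) ≤ Real.exp (y / l ^ 2) := by
    have h0 : ∀ q ∈ Q, (0 : ℝ) < (q : ℝ) := fun q hq => by exact_mod_cast (hQal q hq).1.pos
    have h1 : ((∏ q ∈ Q, q : ℕ) : ℝ) = Real.exp (∑ q ∈ Q, Real.log q) := by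
      push_cast
      rw [Real.exp_sum]
      exact Finset.prod_congr rfl fun q hq => (Real.exp_log (h0 q hq)).symm
    rw [h1]
    apply Real.exp_le_exp.mpr
    refine hQsum.trans ?_
    have h2 : Real.log L ≤ l := Real.log_le_log (by linarith) hLy
    have h3 : 0 ≤ Real.log L := Real.log_nonneg hL1
    have h4 : (Real.log L) ^ CK ≤ l ^ CK := Real.rpow_le_rpow h3 h2 hCK.le
    calc L * (Real.log L) ^ CK ≤ L * l ^ CK := mul_le_mul_of_nonneg_left h4 (by linarith)
      _ = y / l ^ 2 := by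
        rw [hLdef, Real.rpow_add hl0, show (2 : ℝ) = ((2 : ℕ) : ℝ) by norm_num, Real.rpow_natCast]
        have : l ^ CK ≠ 0 := (Real.rpow_pos_of_pos hl0 _).ne'
        field_simp
  have hFX : ∀ K ∈ F, (aD K : ℝ) ≤ X := by
    intro K hK
    have h1 : (aD K : ℝ) ≤ ((W : ℝ) * ((∏ q ∈ Q, q : ℕ) : ℝ) * R) ^ (p ^ k) := by
      exact_mod_cast (hF K hK).2.1
    refine h1.trans ?_
    have hW0 : (0 : ℝ) < W := by exact_mod_cast hW
    have h2 : (W : ℝ) * ((∏ q ∈ Q, q : ℕ) : ℝ) * R ≤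
        Real.exp (Real.log W) * Real.exp (y / l ^ 2) * Real.exp (y / (4 * P)) := by
      rw [Real.exp_log hW0]
      exact mul_le_mul (mul_le_mul_of_nonneg_left hprod hW0.le) hRle hRpos.le (by positivity)
    calc ((W : ℝ) * ((∏ q ∈ Q, q : ℕ) : ℝ) * R) ^ (p ^ k)
        ≤ (Real.exp (Real.log W) * Real.exp (y / l ^ 2) * Real.exp (y / (4 * P))) ^ (p ^ k) :=
          pow_le_pow_left₀ (by positivity) h2 _
      _ = Real.exp (P * (Real.log W + y / l ^ 2 + y / (4 * P))) := by
          rw [← Real.exp_add, ← Real.exp_add, ← Real.exp_nat_mul, hP]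
      _ ≤ Real.exp y := by
          apply Real.exp_le_exp.mpr
          have h3 : P * (y / l ^ 2) ≤ y / 4 := by
            rw [mul_div_assoc', div_le_div_iff₀ (by positivity) (by norm_num)]
            nlinarith
          have h4 : P * (y / (4 * P)) = y / 4 := by field_simp
          have h5 : P * Real.log W ≤ y / 4 := by linarith
          have h6 : P * (Real.log W + y / l ^ 2 + y / (4 * P)) =
            P * Real.log W + P * (y / l ^ 2) + P * (y / (4 * P)) := by ring
          rw [h6]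
          linarith
      _ = X := Real.exp_log hXpos
  have hFsub : (F : Set (IntermediateField ℚ ℂ)) ⊆ 𝓕 := fun K hK => ⟨(hF K hK).1, hFX K hK⟩
  have hFcard : (F.card : ℝ) ≤ E := by
    have h1 : (F : Set (IntermediateField ℚ ℂ)).ncard ≤ 𝓕.ncard := Set.ncard_le_ncard hFsub h𝓕fin
    rw [Set.ncard_coe_finset] at h1
    have h2 : (F.card : ℝ) ≤ (𝓕.ncard : ℝ) := by exact_mod_cast h1
    linarith
  -- all the fields of `F` have large discriminant
  have hFbig : ∀ K ∈ F, Real.exp L ≤ (aD K : ℝ) := by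
    intro K hK
    by_contra hlt
    rw [not_le] at hlt
    have hKS : K ∈ 𝓢 := by
      rw [h𝓢, Finset.mem_filter, Set.Finite.mem_toFinset]
      exact ⟨hFsub hK, (hF K hK).2.2.1, hlt.le⟩
    obtain ⟨q, hq, hJ⟩ := hQkill (dK K) (Finset.mem_image_of_mem dK hKS)
    exact (hF K hK).2.2.2 (dK K) (hdK1 K hKS) q hq hJ
  have hsum : ∑ K ∈ F, (1 + 7 * R / √(aD K : ℝ)) ≤ E * (8 * R * Real.exp (-(L / 2))) := by
    have hRL : 1 ≤ R * Real.exp (-(L / 2)) := by
      have h1 : Real.exp (L / 2) ≤ R := by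
        refine le_trans (Real.exp_le_exp.mpr ?_) hRge
        have h2 : L * (8 * P) ≤ y * 2 := by
          have h3 : L * l ^ 2 ≤ y := by
            rw [hLdef, Real.rpow_add hl0, show (2 : ℝ) = ((2 : ℕ) : ℝ) by norm_num,
              Real.rpow_natCast]
            have h4 : 1 ≤ l ^ CK := Real.one_le_rpow (by linarith) hCK.le
            rw [div_mul_eq_mul_div, div_le_iff₀ (by positivity)]
            have h5 : 0 < y * l ^ 2 := by positivity
            nlinarith
          nlinarith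
        rw [div_le_div_iff₀ (by norm_num) (by positivity)]
        exact h2
      rw [Real.exp_neg, ← div_eq_mul_inv, le_div_iff₀ (Real.exp_pos _), one_mul]
      exact h1
    have hterm : ∀ K ∈ F, (1 + 7 * R / √(aD K : ℝ)) ≤ 8 * R * Real.exp (-(L / 2)) := by
      intro K hK
      have h1 : Real.exp (L / 2) ≤ √(aD K : ℝ) := by
        rw [show Real.exp (L / 2) = √(Real.exp L) by rw [Real.exp_half]]
        exact Real.sqrt_le_sqrt (hFbig K hK)
      have h2 : 7 * R / √(aD K : ℝ) ≤ 7 * R * Real.exp (-(L / 2)) := by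
        rw [Real.exp_neg, ← div_eq_mul_inv]
        exact div_le_div_of_nonneg_left (by positivity) (Real.exp_pos _) h1
      linarith
    calc ∑ K ∈ F, (1 + 7 * R / √(aD K : ℝ)) ≤ ∑ K ∈ F, (8 * R * Real.exp (-(L / 2))) :=
          Finset.sum_le_sum hterm
      _ = F.card * (8 * R * Real.exp (-(L / 2))) := by rw [Finset.sum_const, nsmul_eq_mul]
      _ ≤ E * (8 * R * Real.exp (-(L / 2))) :=
          mul_le_mul_of_nonneg_right hFcard (by positivity)
  -- the final contradiction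
  have hfin : c * R / (2 * y) ≤ c₁ * 2 ^ Q.card * (E * (8 * R * Real.exp (-(L / 2)))) :=
    hT2.trans (hFT.trans (mul_le_mul_of_nonneg_left hsum (by positivity)))
  have h2Q : (2 : ℝ) ^ Q.card ≤ Real.exp (0.07 * L) := by
    rw [show (2 : ℝ) ^ Q.card = Real.exp (Real.log 2 * Q.card) by
      rw [mul_comm, Real.exp_nat_mul, Real.exp_log (by norm_num)]]
    apply Real.exp_le_exp.mpr
    have h1 : Real.log 2 < 0.6931471808 := Real.log_two_lt_d9
    have h2 : (0 : ℝ) ≤ Q.card := by positivity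
    nlinarith
  have hy1 : Real.exp l = y := Real.exp_log hy0
  have hE1 : E ≤ Real.exp (L / 100) := by
    rw [← Real.exp_log hEpos]
    exact Real.exp_le_exp.mpr hlogE2
  have hApos : 0 < 16 * c₁ / c := by positivity
  have h5 : Real.exp (L / 2) ≤ (16 * c₁ / c) * y * (2 ^ Q.card * E) := by
    rw [Real.exp_neg] at hfin
    have hexp : 0 < Real.exp (L / 2) := Real.exp_pos _
    rw [div_le_iff₀ (by positivity)] at hfin
    have e1 : c₁ * 2 ^ Q.card * (E * (8 * R * (Real.exp (L / 2))⁻¹)) * (2 * y) =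
      R * (16 * c₁ * 2 ^ Q.card * E * y) / Real.exp (L / 2) := by
      field_simp
      ring
    rw [e1, le_div_iff₀ hexp] at hfin
    have h6 : R * (c * Real.exp (L / 2)) ≤ R * (16 * c₁ * 2 ^ Q.card * E * y) := by
      linarith
    have h7 := le_of_mul_le_mul_left h6 hRpos
    rw [show (16 * c₁ / c) * y * (2 ^ Q.card * E) = (16 * c₁ * 2 ^ Q.card * E * y) / c by
      field_simp, le_div_iff₀ hc]
    linarith
  have h6 : Real.exp (L / 2) ≤ Real.exp (A + l + (0.07 * L + L / 100)) := by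
    refine h5.trans ?_
    rw [Real.exp_add, Real.exp_add, Real.exp_add, hy1, hA, Real.exp_log hApos]
    apply mul_le_mul_of_nonneg_left _ (by positivity)
    exact mul_le_mul h2Q hE1 hEpos.le (by positivity)
  rw [Real.exp_le_exp] at h6
  have h7 := le_abs_self A
  linarith

end Pool.Agent.PowF
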