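import Pool.Agent.PowF.DefsA
import Pool.Agent.H6.HR.Mertens

/-!
Norm forms: the number of residues with invertible norm, and the distribution of the symbols.
-/

set_option autoImplicit false

namespace Pool.Agent.PowF

open Pool.Agent.CycSyl NumberField NumberTheorySymbols

namespace Half

variable {p : ℕ}

theorem mem_box {n B : ℕ} {x : Fin (n + 1) → ℤ} : x ∈ box n B ↔ ∀ i, 0 ≤ x i ∧ x i < B := by
  unfold box
  rw [Fintype.mem_piFinset]
  simp only [Finset.mem_Ico]

/-- congruent arguments give congruent values -/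
theorem F_congr (Nf : NForm p) {M : ℤ} {x y : Fin (Nf.n + 1) → ℤ} (h : ∀ i, x i ≡ y i [ZMOD M]) :
    (Nf.F x : ℤ) ≡ Nf.F y [ZMOD M] := by
  have h1 : ∀ i, ∃ w, x i = y i + M * w := by
    intro i
    obtain ⟨w, hw⟩ := (h i).symm.dvd
    exact ⟨w, by linarith⟩
  choose w hw using h1
  have h2 : x = y + M • w := by
    funext i
    simp [hw i]
  rw [h2]
  exact Nf.F_add M y w

theorem F_congr_nat (Nf : NForm p) {M : ℕ} {x y : Fin (Nf.n + 1) → ℤ}
    (h : ∀ i, x i ≡ y i [ZMOD (M : ℤ)]) : Nf.F x ≡ Nf.F y [MOD M] :=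
  Int.natCast_modEq_iff.mp (F_congr Nf h)

theorem coprime_congr (Nf : NForm p) {M : ℕ} {x y : Fin (Nf.n + 1) → ℤ}
    (h : ∀ i, x i ≡ y i [ZMOD (M : ℤ)]) : (Nf.F x).Coprime M ↔ (Nf.F y).Coprime M := by
  unfold Nat.Coprime
  rw [(F_congr_nat Nf h).gcd_eq]

/-- the number of residues with invertible norm -/
noncomputable def GG (Nf : NForm p) (M : ℕ) : ℕ :=
  ((box Nf.n M).filter (fun x => (Nf.F x).Coprime M)).card

theorem GG_mul (Nf : NForm p) {a b : ℕ} (ha : 0 < a) (hb : 0 < b) (hab : a.Coprime b) :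
    GG Nf a * GG Nf b ≤ GG Nf (a * b) := by
  unfold GG
  rw [← Finset.card_product]
  refine Finset.card_le_card_of_injOn (fun xy => fun i =>
    ((Nat.chineseRemainder hab (xy.1 i).toNat (xy.2 i).toNat : ℕ) : ℤ)) ?_ ?_
  · rintro ⟨x, y⟩ hxy
    simp only [Finset.coe_product, Set.mem_prod, Finset.mem_coe, Finset.mem_filter] at hxy
    obtain ⟨⟨hx, hxc⟩, ⟨hy, hyc⟩⟩ := hxy
    rw [mem_box] at hx hy
    simp only [Finset.coe_filter, Set.mem_ofPred_eq]
    refine ⟨?_, ?_⟩
    · rw [mem_box]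
      intro i
      refine ⟨by positivity, ?_⟩
      exact_mod_cast Nat.chineseRemainder_lt_mul hab _ _ ha.ne' hb.ne'
    · refine Nat.Coprime.mul_right ?_ ?_
      · refine (coprime_congr Nf (y := x) ?_).mpr hxc
        intro i
        have h1 := (Nat.chineseRemainder hab (x i).toNat (y i).toNat).2.1
        have h2 := Int.natCast_modEq_iff.mpr h1
        rwa [Int.toNat_of_nonneg (hx i).1] at h2
      · refine (coprime_congr Nf (y := y) ?_).mpr hyc
        intro i
        have h1 := (Nat.chineseRemainder hab (x i).toNat (y i).toNat).2.2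
        have h2 := Int.natCast_modEq_iff.mpr h1
        rwa [Int.toNat_of_nonneg (hy i).1] at h2
  · rintro ⟨x, y⟩ hxy ⟨x', y'⟩ hxy' heq
    simp only [Finset.coe_product, Set.mem_prod, Finset.mem_coe, Finset.mem_filter] at hxy hxy'
    obtain ⟨⟨hx, -⟩, ⟨hy, -⟩⟩ := hxy
    obtain ⟨⟨hx', -⟩, ⟨hy', -⟩⟩ := hxy'
    rw [mem_box] at hx hy hx' hy'
    have key : ∀ i, x i = x' i ∧ y i = y' i := by
      intro i
      have h0 : (Nat.chineseRemainder hab (x i).toNat (y i).toNat : ℕ) =
          Nat.chineseRemainder hab (x' i).toNat (y' i).toNat := by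
        have h : ((Nat.chineseRemainder hab (x i).toNat (y i).toNat : ℕ) : ℤ) =
            ((Nat.chineseRemainder hab (x' i).toNat (y' i).toNat : ℕ) : ℤ) := congrFun heq i
        exact_mod_cast h
      have h1 := (Nat.chineseRemainder hab (x i).toNat (y i).toNat).2
      have h2 := (Nat.chineseRemainder hab (x' i).toNat (y' i).toNat).2
      rw [← h0] at h2
      have e1 : (x i).toNat ≡ (x' i).toNat [MOD a] := h1.1.symm.trans h2.1
      have e2 : (y i).toNat ≡ (y' i).toNat [MOD b] := h1.2.symm.trans h2.2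
      have l1 := hx i
      have l2 := hx' i
      have l3 := hy i
      have l4 := hy' i
      have f1 : (x i).toNat = (x' i).toNat := by
        have g1 : (x i).toNat < a := by omega
        have g2 : (x' i).toNat < a := by omega
        exact Nat.ModEq.eq_of_lt_of_lt e1 g1 g2
      have f2 : (y i).toNat = (y' i).toNat := by
        have g1 : (y i).toNat < b := by omega
        have g2 : (y' i).toNat < b := by omega
        exact Nat.ModEq.eq_of_lt_of_lt e2 g1 g2
      omega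
    refine Prod.ext ?_ ?_
    · funext i; exact (key i).1
    · funext i; exact (key i).2

theorem card_box (n B : ℕ) : (box n B).card = B ^ (n + 1) := by
  unfold box
  rw [Fintype.card_piFinset]
  simp

theorem GG_pow (Nf : NForm p) {l : ℕ} (hl : 0 < l) (e : ℕ) :
    GG Nf l * (l ^ e) ^ (Nf.n + 1) ≤ GG Nf (l ^ (e + 1)) := by
  rw [← card_box]
  unfold GG
  rw [← Finset.card_product]
  have hle : l ^ (e + 1) = l ^ e * l := pow_succ l e
  have hlpos : (0 : ℤ) < l := by exact_mod_cast hl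
  refine Finset.card_le_card_of_injOn (fun xy => fun i => xy.1 i + l * xy.2 i) ?_ ?_
  · rintro ⟨x, y⟩ hxy
    simp only [Finset.coe_product, Set.mem_prod, Finset.mem_coe, Finset.mem_filter] at hxy
    obtain ⟨⟨hx, hxc⟩, hy⟩ := hxy
    rw [mem_box] at hx hy
    simp only [Finset.coe_filter, Set.mem_ofPred_eq]
    refine ⟨?_, ?_⟩
    · rw [mem_box]
      intro i
      have l1 := hx i
      have l2 := hy i
      refine ⟨by have := mul_nonneg hlpos.le l2.1; linarith, ?_⟩
      have h3 : y i + 1 ≤ (l ^ e : ℕ) := by have := l2.2; omega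
      rw [hle]
      push_cast at h3 ⊢
      nlinarith
    · refine Nat.Coprime.pow_right _ ?_
      refine (coprime_congr Nf (y := x) ?_).mpr hxc
      intro i
      have : (l : ℤ) * y i ≡ 0 [ZMOD (l : ℤ)] := (Int.modEq_zero_iff_dvd).mpr (dvd_mul_right _ _)
      have h3 := (Int.ModEq.refl (x i)).add this
      rwa [add_zero] at h3
  · rintro ⟨x, y⟩ hxy ⟨x', y'⟩ hxy' heq
    simp only [Finset.coe_product, Set.mem_prod, Finset.mem_coe, Finset.mem_filter] at hxy hxy'
    obtain ⟨⟨hx, -⟩, hy⟩ := hxy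
    obtain ⟨⟨hx', -⟩, hy'⟩ := hxy'
    rw [mem_box] at hx hy hx' hy'
    have key : ∀ i, x i = x' i ∧ y i = y' i := by
      intro i
      have h0 : x i + l * y i = x' i + l * y' i := congrFun heq i
      have l1 := hx i
      have l2 := hx' i
      have e1 : x i = x' i := by
        have h1 : (x i + l * y i) % l = x i := by
          rw [Int.add_mul_emod_self_left]; exact Int.emod_eq_of_lt l1.1 l1.2
        have h2 : (x' i + l * y' i) % l = x' i := by
          rw [Int.add_mul_emod_self_left]; exact Int.emod_eq_of_lt l2.1 l2.2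
        rw [← h1, ← h2, h0]
      refine ⟨e1, ?_⟩
      rw [e1] at h0
      exact mul_left_cancel₀ hlpos.ne' (add_left_cancel h0)
    refine Prod.ext ?_ ?_
    · funext i; exact (key i).1
    · funext i; exact (key i).2

theorem GG_one_le (Nf : NForm p) {l : ℕ} (hl : 2 ≤ l) : 1 ≤ GG Nf l := by
  unfold GG
  rw [Nat.one_le_iff_ne_zero, ← Nat.pos_iff_ne_zero, Finset.card_pos]
  refine ⟨Pi.single 0 1, ?_⟩
  rw [Finset.mem_filter, mem_box, Nf.one]
  refine ⟨fun i => ?_, Nat.coprime_one_left l⟩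
  by_cases h : i = 0
  · subst h; simp; omega
  · simp [Pi.single_eq_of_ne h]; omega

theorem GG_prime (Nf : NForm p) {l : ℕ} (hl : l.Prime) :
    l ^ (Nf.n + 1) ≤ GG Nf l + (Nf.n + 1) * l ^ Nf.n := by
  have h1 : ((box Nf.n l).filter (fun x => ¬ (Nf.F x).Coprime l)).card ≤
      (Nf.n + 1) * l ^ Nf.n := by
    have hc : (Fintype.piFinset (fun _ : Fin Nf.n => Finset.Ico (0 : ℤ) l)).card = l ^ Nf.n := by
      rw [Fintype.card_piFinset]; simp
    rw [← hc]
    refine Finset.card_le_mul_card_image_of_maps_to (f := fun x => Fin.tail x) ?_ _ ?_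
    · intro x hx
      rw [Finset.mem_filter, mem_box] at hx
      rw [Fintype.mem_piFinset]
      intro i
      rw [Finset.mem_Ico]
      exact hx.1 i.succ
    · intro y _
      refine le_trans ?_ (Nf.root l hl (Fin.cons 0 y))
      refine Finset.card_le_card_of_injOn (fun x => (x 0).toNat) ?_ ?_
      · intro x hx
        simp only [Finset.coe_filter, Set.mem_ofPred_eq, Finset.mem_filter] at hx
        obtain ⟨⟨hxb, hxc⟩, hxy⟩ := hx
        rw [mem_box] at hxb
        simp only [Finset.coe_filter, Set.mem_ofPred_eq, Finset.mem_range]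
        have l1 := hxb 0
        refine ⟨by omega, ?_⟩
        rw [Int.toNat_of_nonneg l1.1, Fin.update_cons_zero, ← hxy, Fin.cons_self_tail]
        by_contra hnd
        exact hxc ((Nat.coprime_comm.mp ((Nat.Prime.coprime_iff_not_dvd hl).mpr hnd)))
      · intro x hx x' hx' heq
        simp only [Finset.coe_filter, Set.mem_ofPred_eq, Finset.mem_filter] at hx hx'
        obtain ⟨⟨hxb, -⟩, hxy⟩ := hx
        obtain ⟨⟨hxb', -⟩, hxy'⟩ := hx'
        rw [mem_box] at hxb hxb'
        have l1 := hxb 0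
        have l2 := hxb' 0
        have heq' : (x 0).toNat = (x' 0).toNat := heq
        have e0 : x 0 = x' 0 := by omega
        rw [← Fin.cons_self_tail x, ← Fin.cons_self_tail x', e0, hxy, hxy']
  have h2 := Finset.card_filter_add_card_filter_not (s := box Nf.n l)
    (fun x => (Nf.F x).Coprime l)
  rw [card_box] at h2
  unfold GG
  omega

theorem GG_prod (Nf : NForm p) (M : ℕ) (hM : 0 < M) :
    (M : ℝ) ^ (Nf.n + 1) * ∏ l ∈ M.primeFactors, ((GG Nf l : ℝ) / (l : ℝ) ^ (Nf.n + 1)) ≤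
      (GG Nf M : ℝ) := by
  induction M using Nat.recOnPosPrimePosCoprime with
  | prime_pow q e hq he =>
    rw [Nat.primeFactors_prime_pow he.ne' hq, Finset.prod_singleton]
    obtain ⟨f, rfl⟩ : ∃ f, e = f + 1 := ⟨e - 1, by omega⟩
    have h := GG_pow Nf hq.pos f
    have hq0 : (q : ℝ) ≠ 0 := by exact_mod_cast hq.ne_zero
    have h' : (GG Nf q : ℝ) * ((q : ℝ) ^ f) ^ (Nf.n + 1) ≤ GG Nf (q ^ (f + 1)) := by
      exact_mod_cast h
    refine le_trans (le_of_eq ?_) h'
    push_cast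
    field_simp
    ring
  | zero => exact absurd hM (lt_irrefl 0)
  | one =>
    rw [Nat.primeFactors_one, Finset.prod_empty]
    have : 0 < GG Nf 1 := by
      unfold GG
      rw [Finset.card_pos]
      refine ⟨0, ?_⟩
      rw [Finset.mem_filter, mem_box]
      exact ⟨fun i => ⟨le_rfl, by simp⟩, Nat.coprime_one_right _⟩
    have h1 : (1 : ℝ) ≤ GG Nf 1 := by exact_mod_cast this
    simpa using h1
  | coprime a b ha hb hab iha ihb =>
    have ha0 : 0 < a := by omega
    have hb0 : 0 < b := by omega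
    rw [Nat.Coprime.primeFactors_mul hab, Finset.prod_union hab.disjoint_primeFactors]
    have h := GG_mul Nf ha0 hb0 hab
    have h' : (GG Nf a : ℝ) * GG Nf b ≤ GG Nf (a * b) := by exact_mod_cast h
    refine le_trans ?_ h'
    have iha' := iha ha0
    have ihb' := ihb hb0
    set A : ℝ := ∏ l ∈ a.primeFactors, ((GG Nf l : ℝ) / (l : ℝ) ^ (Nf.n + 1)) with hA
    set B : ℝ := ∏ l ∈ b.primeFactors, ((GG Nf l : ℝ) / (l : ℝ) ^ (Nf.n + 1)) with hB
    have hB0 : 0 ≤ B := Finset.prod_nonneg fun l _ => by positivity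
    have h3 : ((a : ℝ) ^ (Nf.n + 1) * A) * ((b : ℝ) ^ (Nf.n + 1) * B) ≤ GG Nf a * GG Nf b :=
      mul_le_mul iha' ihb' (mul_nonneg (by positivity) hB0) (by positivity)
    refine le_trans (le_of_eq ?_) h3
    push_cast
    rw [mul_pow]
    ring

/-- one factor -/
theorem one_factor (Nf : NForm p) {l : ℕ} (hl : l.Prime) :
    Real.exp (-(((Nf.n + 1 : ℕ) : ℝ) * (1 / (l : ℝ)) +
      2 * ((Nf.n + 1 : ℕ) : ℝ) ^ 2 * (1 / (l : ℝ) ^ 2) +
      (if l ≤ 2 * (Nf.n + 1) then ((Nf.n + 1 : ℕ) : ℝ) * Real.log (2 * (Nf.n + 1 : ℕ)) else 0))) ≤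
      (GG Nf l : ℝ) / (l : ℝ) ^ (Nf.n + 1) := by
  set k : ℕ := Nf.n + 1 with hk
  have hl0 : (0 : ℝ) < l := by exact_mod_cast hl.pos
  have hkR : (0 : ℝ) < k := by rw [hk]; positivity
  have hlk : (0 : ℝ) < (l : ℝ) ^ k := by positivity
  split_ifs with h
  · have h1 : (1 : ℝ) ≤ GG Nf l := by exact_mod_cast GG_one_le Nf hl.two_le
    have hlR : (l : ℝ) ≤ 2 * k := by exact_mod_cast h
    have h2 : (l : ℝ) ^ k ≤ (2 * k) ^ k := pow_le_pow_left₀ hl0.le hlR k
    have h3 : Real.exp (k * Real.log (2 * k)) = (2 * (k : ℝ)) ^ k := by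
      rw [← Real.rpow_natCast, Real.rpow_def_of_pos (by positivity), mul_comm]
    have h4 : Real.exp (-((k : ℝ) * (1 / (l : ℝ)) + 2 * (k : ℝ) ^ 2 * (1 / (l : ℝ) ^ 2) +
        (k : ℝ) * Real.log (2 * (k : ℝ)))) ≤ Real.exp (-((k : ℝ) * Real.log (2 * (k : ℝ)))) := by
      apply Real.exp_le_exp.mpr
      have : 0 ≤ (k : ℝ) * (1 / (l : ℝ)) + 2 * (k : ℝ) ^ 2 * (1 / (l : ℝ) ^ 2) := by positivity
      linarith
    refine h4.trans ?_
    rw [Real.exp_neg, h3, ← one_div]
    rw [div_le_div_iff₀ (by positivity) hlk]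
    nlinarith
  · push Not at h
    have hlR : 2 * (k : ℝ) ≤ l := by
      have : 2 * k ≤ l := h.le
      exact_mod_cast this
    have h1 := GG_prime Nf hl
    have h1' : (l : ℝ) ^ k ≤ GG Nf l + k * (l : ℝ) ^ Nf.n := by
      rw [hk]; exact_mod_cast h1
    have h2 : 1 - (k : ℝ) / l ≤ (GG Nf l : ℝ) / (l : ℝ) ^ k := by
      rw [le_div_iff₀ hlk]
      have e : (1 - (k : ℝ) / l) * (l : ℝ) ^ k = (l : ℝ) ^ k - k * (l : ℝ) ^ Nf.n := by
        rw [hk, pow_succ]
        field_simp
      rw [e]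
      linarith
    refine le_trans ?_ h2
    set t : ℝ := (k : ℝ) / l with ht
    have ht0 : 0 < t := by positivity
    have ht1 : t ≤ 1 / 2 := by
      rw [ht, div_le_div_iff₀ hl0 (by norm_num)]
      linarith
    have e : (k : ℝ) * (1 / (l : ℝ)) + 2 * (k : ℝ) ^ 2 * (1 / (l : ℝ) ^ 2) + 0 = t + 2 * t ^ 2 := by
      rw [ht]; ring
    rw [e, Real.exp_neg]
    have h3 : 1 + (t + 2 * t ^ 2) ≤ Real.exp (t + 2 * t ^ 2) := by
      have := Real.add_one_le_exp (t + 2 * t ^ 2)
      linarith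
    have h4 : 1 ≤ (1 - t) * (1 + (t + 2 * t ^ 2)) := by nlinarith [mul_pos ht0 ht0]
    rw [inv_le_iff_one_le_mul₀ (Real.exp_pos _)]
    calc (1 : ℝ) ≤ (1 - t) * (1 + (t + 2 * t ^ 2)) := h4
      _ ≤ (1 - t) * Real.exp (t + 2 * t ^ 2) := by
          apply mul_le_mul_of_nonneg_left h3
          linarith

end Half

open Half in
/-- the number of residues modulo `M` whose norm is prime to `M` -/
theorem unit_count {p : ℕ} (Nf : NForm p) : ∃ c : ℝ, 0 < c ∧ ∀ (w : ℕ) (M : ℕ), 2 ≤ w → 0 < M →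
    (M.primeFactors.filter (fun l => w < l)).card ≤ w →
    c * (M : ℝ) ^ (Nf.n + 1) / (Real.log w) ^ (Nf.n + 1) ≤
      (((box Nf.n M).filter (fun x => (Nf.F x).Coprime M)).card : ℝ) := by
  obtain ⟨C, hC, hsum⟩ := Pool.Agent.H6.HR.sum_P_le
  set k : ℕ := Nf.n + 1 with hk
  have hkR : (0 : ℝ) < k := by rw [hk]; positivity
  have hk1 : (1 : ℝ) ≤ k := by rw [hk]; push_cast; linarith [(Nat.cast_nonneg Nf.n : (0:ℝ) ≤ Nf.n)]
  have hlog2k : 0 ≤ Real.log (2 * k) := Real.log_nonneg (by linarith)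
  refine ⟨Real.exp (-(k * C + k + 4 * (k : ℝ) ^ 2 + 2 * k * (k * Real.log (2 * k)))),
    Real.exp_pos _, ?_⟩
  intro w M hw hM hcard
  have hmain := GG_prod Nf M hM
  have hlw : 0 < Real.log w := Real.log_pos (by exact_mod_cast (by omega : 1 < w))
  have hM0 : (0 : ℝ) < (M : ℝ) ^ k := by positivity
  set g : ℕ → ℝ := fun l => (k : ℝ) * (1 / (l : ℝ)) + 2 * (k : ℝ) ^ 2 * (1 / (l : ℝ) ^ 2) +
      (if l ≤ 2 * k then (k : ℝ) * Real.log (2 * k) else 0) with hg
  have h1 : Real.exp (-∑ l ∈ M.primeFactors, g l) ≤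
      ∏ l ∈ M.primeFactors, ((GG Nf l : ℝ) / (l : ℝ) ^ k) := by
    rw [← Finset.sum_neg_distrib, Real.exp_sum]
    refine Finset.prod_le_prod (fun l _ => (Real.exp_pos _).le) fun l hl => ?_
    exact one_factor Nf (Nat.prime_of_mem_primeFactors hl)
  -- the three sums
  have s1 : ∑ l ∈ M.primeFactors, (1 : ℝ) / l ≤ Real.log (Real.log w) + C + 1 := by
    rw [← Finset.sum_filter_add_sum_filter_not M.primeFactors (fun l => w < l)]
    have a1 : ∑ l ∈ M.primeFactors.filter (fun l => w < l), (1 : ℝ) / l ≤ 1 := by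
      have hw0 : (0 : ℝ) < w := by exact_mod_cast (by omega : 0 < w)
      have : ∑ l ∈ M.primeFactors.filter (fun l => w < l), (1 : ℝ) / l ≤
          ∑ _l ∈ M.primeFactors.filter (fun l => w < l), (1 : ℝ) / w := by
        refine Finset.sum_le_sum fun l hl => ?_
        have := (Finset.mem_filter.mp hl).2
        exact one_div_le_one_div_of_le hw0 (by exact_mod_cast this.le)
      refine this.trans ?_
      rw [Finset.sum_const, nsmul_eq_mul, mul_one_div, div_le_one hw0]
      exact_mod_cast hcard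
    have a2 : ∑ l ∈ M.primeFactors.filter (fun l => ¬ w < l), (1 : ℝ) / l ≤
        ∑ l ∈ Pool.Agent.H6.HR.P w, (1 : ℝ) / l := by
      refine Finset.sum_le_sum_of_subset_of_nonneg ?_ (fun _ _ _ => by positivity)
      intro l hl
      rw [Finset.mem_filter] at hl
      rw [Pool.Agent.H6.HR.mem_P]
      exact ⟨Nat.prime_of_mem_primeFactors hl.1, by omega⟩
    have a3 := hsum w hw
    linarith
  have s2 : ∑ l ∈ M.primeFactors, (1 : ℝ) / (l : ℝ) ^ 2 ≤ 2 := by
    refine le_trans ?_ (Pool.Agent.H6.HR.sum_inv_sq_le M)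
    refine Finset.sum_le_sum_of_subset_of_nonneg ?_ (fun _ _ _ => by positivity)
    intro l hl
    rw [Finset.mem_Icc]
    exact ⟨(Nat.prime_of_mem_primeFactors hl).one_le,
      Nat.le_of_dvd hM (Nat.dvd_of_mem_primeFactors hl)⟩
  have s3 : ∑ l ∈ M.primeFactors, (if l ≤ 2 * k then (k : ℝ) * Real.log (2 * k) else 0) ≤
      2 * k * (k * Real.log (2 * k)) := by
    rw [← Finset.sum_filter, Finset.sum_const, nsmul_eq_mul]
    refine mul_le_mul_of_nonneg_right ?_ (by positivity)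
    have : (M.primeFactors.filter (fun l => l ≤ 2 * k)).card ≤ (Finset.Icc 1 (2 * k)).card := by
      refine Finset.card_le_card fun l hl => ?_
      rw [Finset.mem_filter] at hl
      rw [Finset.mem_Icc]
      exact ⟨(Nat.prime_of_mem_primeFactors hl.1).one_le, hl.2⟩
    rw [Nat.card_Icc, Nat.add_sub_cancel] at this
    exact_mod_cast this
  have h2 : ∑ l ∈ M.primeFactors, g l ≤ k * Real.log (Real.log w) + (k * C + k +
      4 * (k : ℝ) ^ 2 + 2 * k * (k * Real.log (2 * k))) := by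
    simp only [hg]
    rw [Finset.sum_add_distrib, Finset.sum_add_distrib, ← Finset.mul_sum, ← Finset.mul_sum]
    have b1 := mul_le_mul_of_nonneg_left s1 hkR.le
    have b2 := mul_le_mul_of_nonneg_left s2 (show (0:ℝ) ≤ 2 * (k : ℝ) ^ 2 by positivity)
    linarith
  have h3 : Real.exp (-(k * C + k + 4 * (k : ℝ) ^ 2 + 2 * k * (k * Real.log (2 * k)))) *
      (M : ℝ) ^ k / (Real.log w) ^ k = (M : ℝ) ^ k * Real.exp (-(k * Real.log (Real.log w) +
      (k * C + k + 4 * (k : ℝ) ^ 2 + 2 * k * (k * Real.log (2 * k))))) := by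
    have e1 : Real.exp (k * Real.log (Real.log w)) = (Real.log w) ^ k := by
      rw [← Real.rpow_natCast, Real.rpow_def_of_pos hlw, mul_comm]
    generalize (k * C + k + 4 * (k : ℝ) ^ 2 + 2 * k * (k * Real.log (2 * k))) = A
    rw [neg_add, Real.exp_add, Real.exp_neg (k * Real.log (Real.log w)), e1]
    field_simp
  rw [h3]
  refine le_trans ?_ hmain
  refine mul_le_mul_of_nonneg_left ?_ hM0.le
  refine le_trans ?_ h1
  apply Real.exp_le_exp.mpr
  linarith

/-! ### the symbols -/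

namespace Half

theorem jac_congr {d M a b : ℕ} (hdM : 4 * d ∣ M) (h : a ≡ b [MOD M])
    (ha : a.Coprime M) : J(-(d : ℤ) | a) = J(-(d : ℤ) | b) := by
  have h4 : a ≡ b [MOD (4 * d)] := h.of_dvd hdM
  have hb : b.Coprime M := by
    unfold Nat.Coprime at ha ⊢
    rw [← h.gcd_eq]; exact ha
  have hodd : ∀ c : ℕ, c.Coprime M → Odd c := by
    intro c hc
    have h2 : 2 ∣ M := (Dvd.intro (2 * d) (by ring)).trans hdM
    have := Nat.Coprime.coprime_dvd_right h2 hc
    exact Nat.coprime_two_right.mp this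
  rw [jacobiSym.mod_right _ (hodd a ha), jacobiSym.mod_right _ (hodd b hb)]
  have e : (-(d : ℤ)).natAbs = d := by simp
  rw [e]
  congr 1

theorem jac_ne_zero {d M a : ℕ} (hdM : 4 * d ∣ M) (ha : a.Coprime M) :
    J(-(d : ℤ) | a) = 1 ∨ J(-(d : ℤ) | a) = -1 := by
  have h1 : (-(d : ℤ)).gcd a = 1 := by
    rw [Int.gcd_comm, Int.gcd_neg]
    have h2 : d ∣ M := (Dvd.intro_left 4 rfl).trans hdM
    exact Nat.Coprime.coprime_dvd_right h2 ha
  exact jacobiSym.eq_one_or_neg_one h1

end Half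

open Half in
/-- exactly half of the invertible residues modulo `M` are nonresidues -/
theorem half_count {p : ℕ} (Nf : NForm p) {d M : ℕ} (hd : 0 < d) (hsq : Squarefree d)
    (hpd : ¬ p ∣ d) (hM : 0 < M) (hdM : 4 * d ∣ M) :
    2 * ((box Nf.n M).filter (fun x => (Nf.F x).Coprime M ∧ J(-(d : ℤ) | Nf.F x) = -1)).card =
      ((box Nf.n M).filter (fun x => (Nf.F x).Coprime M)).card := by
  obtain ⟨y, hyc, hyJ⟩ := Nf.flip d M hd hsq hpd hM
  obtain ⟨y', hy'⟩ := Nf.adj y
  have hM0 : (0 : ℤ) < M := by exact_mod_cast hM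
  set T : (Fin (Nf.n + 1) → ℤ) → (Fin (Nf.n + 1) → ℤ) := fun x i => Nf.mul x y i % M with hT
  have hTcong : ∀ x i, T x i ≡ Nf.mul x y i [ZMOD (M : ℤ)] := fun x i => Int.mod_modEq _ _
  have hTbox : ∀ x, T x ∈ box Nf.n M := by
    intro x
    rw [mem_box]
    intro i
    exact ⟨Int.emod_nonneg _ hM0.ne', Int.emod_lt_of_pos _ hM0⟩
  have hTF : ∀ x, Nf.F (T x) ≡ Nf.F x * Nf.F y [MOD M] := by
    intro x
    have := F_congr_nat Nf (x := T x) (y := Nf.mul x y) (hTcong x)
    rwa [Nf.F_mul] at this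
  have hTc : ∀ x, (Nf.F x).Coprime M → (Nf.F (T x)).Coprime M := by
    intro x hx
    have h1 : (Nf.F x * Nf.F y).Coprime M := Nat.Coprime.mul_left hx hyc
    unfold Nat.Coprime at h1 ⊢
    rw [(hTF x).gcd_eq]; exact h1
  have hTJ : ∀ x, (Nf.F x).Coprime M → J(-(d : ℤ) | Nf.F (T x)) = - J(-(d : ℤ) | Nf.F x) := by
    intro x hx
    rw [jac_congr hdM (hTF x) (hTc x hx)]
    have hne : ∀ a : ℕ, a.Coprime M → a ≠ 0 := by
      rintro a ha rfl
      have h2 : M = 1 := by simpa using ha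
      have h3 : 4 * d ≤ M := Nat.le_of_dvd hM hdM
      omega
    have : NeZero (Nf.F x) := ⟨hne _ hx⟩
    have : NeZero (Nf.F y) := ⟨hne _ hyc⟩
    rw [jacobiSym.mul_right, hyJ]
    ring
  -- injectivity
  have hTinj : ∀ x ∈ box Nf.n M, ∀ x' ∈ box Nf.n M, T x = T x' → x = x' := by
    intro x hx x' hx' heq
    rw [mem_box] at hx hx'
    have h1 : ∀ i, Nf.mul x y i ≡ Nf.mul x' y i [ZMOD (M : ℤ)] := by
      intro i
      have := congrFun heq i
      exact this
    have h2 : ∀ i, ∃ w, Nf.mul x y i = Nf.mul x' y i + M * w := by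
      intro i
      obtain ⟨w, hw⟩ := (h1 i).symm.dvd
      exact ⟨w, by linarith⟩
    choose w hw using h2
    have h3 : Nf.mul x y = Nf.mul x' y + (M : ℤ) • w := by
      funext i; simp [hw i]
    obtain ⟨u, hu⟩ := Nf.mul_add M (Nf.mul x' y) y' w
    have h4 : (Nf.F y : ℤ) • x = (Nf.F y : ℤ) • x' + (M : ℤ) • u := by
      rw [← hy' x, ← hy' x', h3, hu]
    funext i
    have h5 : (Nf.F y : ℤ) * x i = (Nf.F y : ℤ) * x' i + M * u i := by
      have := congrFun h4 i
      simpa using this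
    have h6 : (M : ℤ) ∣ (Nf.F y : ℤ) * (x i - x' i) := ⟨u i, by linarith⟩
    have h7 : IsCoprime (M : ℤ) (Nf.F y : ℤ) := (Nat.isCoprime_iff_coprime.mpr hyc).symm
    have h8 : (M : ℤ) ∣ x i - x' i := h7.dvd_of_dvd_mul_left h6
    have l1 := hx i
    have l2 := hx' i
    obtain ⟨v, hv⟩ := h8
    have h9 : v = 0 := by
      by_contra hv0
      rcases lt_or_gt_of_ne hv0 with h | h
      · have : v ≤ -1 := by omega
        nlinarith
      · have : 1 ≤ v := by omega
        nlinarith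
    rw [h9, mul_zero] at hv
    linarith
  set A := (box Nf.n M).filter (fun x => (Nf.F x).Coprime M) with hA
  set An := (box Nf.n M).filter (fun x => (Nf.F x).Coprime M ∧ J(-(d : ℤ) | Nf.F x) = -1)
    with hAn
  set Ap := (box Nf.n M).filter (fun x => (Nf.F x).Coprime M ∧ J(-(d : ℤ) | Nf.F x) = 1)
    with hAp
  have h1 : An.card ≤ Ap.card := by
    refine Finset.card_le_card_of_injOn T ?_ ?_
    · intro x hx
      rw [Finset.mem_coe, hAn, Finset.mem_filter] at hx
      rw [Finset.mem_coe, hAp, Finset.mem_filter]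
      exact ⟨hTbox x, hTc x hx.2.1, by rw [hTJ x hx.2.1, hx.2.2]; ring⟩
    · intro x hx x' hx' heq
      rw [Finset.mem_coe, hAn, Finset.mem_filter] at hx hx'
      exact hTinj x hx.1 x' hx'.1 heq
  have h2 : Ap.card ≤ An.card := by
    refine Finset.card_le_card_of_injOn T ?_ ?_
    · intro x hx
      rw [Finset.mem_coe, hAp, Finset.mem_filter] at hx
      rw [Finset.mem_coe, hAn, Finset.mem_filter]
      exact ⟨hTbox x, hTc x hx.2.1, by rw [hTJ x hx.2.1, hx.2.2]⟩
    · intro x hx x' hx' heq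
      rw [Finset.mem_coe, hAp, Finset.mem_filter] at hx hx'
      exact hTinj x hx.1 x' hx'.1 heq
  have h3 : A.card = Ap.card + An.card := by
    have hd1 : Disjoint Ap An := by
      rw [Finset.disjoint_left]
      intro x hx hx'
      rw [hAp, Finset.mem_filter] at hx
      rw [hAn, Finset.mem_filter] at hx'
      rw [hx.2.2] at hx'
      exact absurd hx'.2.2 (by norm_num)
    rw [← Finset.card_union_of_disjoint hd1]
    congr 1
    ext x
    simp only [hA, hAp, hAn, Finset.mem_union, Finset.mem_filter]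
    constructor
    · rintro ⟨hx, hc⟩
      rcases jac_ne_zero hdM hc with h | h
      · exact Or.inl ⟨hx, hc, h⟩
      · exact Or.inr ⟨hx, hc, h⟩
    · rintro (⟨hx, hc, -⟩ | ⟨hx, hc, -⟩)
      · exact ⟨hx, hc⟩
      · exact ⟨hx, hc⟩
  omega

end Pool.Agent.PowF
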