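import Pool.Agent.PowF.Lattice

/-!
Prime norms in an imaginary quadratic field.
-/

set_option autoImplicit false

namespace Pool.Agent.PowF

open NumberField NumberTheorySymbols

theorem sqd_elt (K : IntermediateField ℚ ℂ) [NumberField K] {d : ℕ} (hd : Sqd K d) :
    ∃ z : 𝓞 K, z * z = -((d : ℤ) : 𝓞 K) ∧ ((z : K) : ℂ) * ((z : K) : ℂ) = -((d : ℤ) : ℂ) := by
  obtain ⟨h0, hsq, z, hz, hzz⟩ := hd
  have hint : IsIntegral ℤ (⟨z, hz⟩ : K) := by
    refine ⟨Polynomial.X ^ 2 + Polynomial.C (d : ℤ), by monicity!, ?_⟩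
    have h1 : (⟨z, hz⟩ : K) ^ 2 = -((d : ℤ) : K) := by
      apply Subtype.ext
      simpa [sq] using hzz
    rw [Polynomial.eval₂_add, Polynomial.eval₂_pow, Polynomial.eval₂_X, Polynomial.eval₂_C, h1]
    simp
  refine ⟨⟨⟨z, hz⟩, hint⟩, ?_, hzz⟩
  apply RingOfIntegers.ext
  apply Subtype.ext
  show z * z = _
  rw [hzz]
  simp

theorem sqd_im (K : IntermediateField ℚ ℂ) [NumberField K] {d : ℕ} (hd : Sqd K d) (z : ℂ)
    (hz : z * z = -((d : ℤ) : ℂ)) : z.im ^ 2 = d ∧ z.re = 0 := by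
  have h1 := congrArg Complex.re hz
  have h2 := congrArg Complex.im hz
  simp at h1 h2
  have hd0 : (0 : ℝ) < d := by exact_mod_cast hd.1
  have h3 : z.re = 0 ∨ z.im = 0 := by
    have : z.re * z.im = 0 := by linarith
    exact mul_eq_zero.mp this
  rcases h3 with h3 | h3
  · rw [h3] at h1
    exact ⟨by nlinarith, h3⟩
  · rw [h3] at h1
    nlinarith [mul_self_nonneg z.re]

/-- a prime dividing the norm of an ideal exactly once is not inert -/
theorem not_inert' (K : IntermediateField ℚ ℂ) [NumberField K]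
    {d : ℕ} (hd : Sqd K d) {q : ℕ} (hq : q.Prime) (I : Ideal (𝓞 K))
    (hI : Ideal.absNorm I = q) : J(-(d : ℤ) | q) ≠ -1 := by
  intro h
  apply ZMod.nonsquare_of_jacobiSym_eq_neg_one h
  obtain ⟨z, hz, -⟩ := sqd_elt K hd
  have hcard : Nat.card (𝓞 K ⧸ I) = q := by
    rw [← hI, Ideal.absNorm_apply, Submodule.cardQuot_apply]
  have hfin : Finite (𝓞 K ⧸ I) := Nat.finite_of_card_ne_zero (by rw [hcard]; exact hq.ne_zero)
  let _ : Fintype (𝓞 K ⧸ I) := Fintype.ofFinite _
  have e : ZMod q ≃+* (𝓞 K ⧸ I) := ZMod.ringEquivOfPrime _ hq (by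
    rw [← Nat.card_eq_fintype_card, hcard])
  refine ⟨e.symm (Ideal.Quotient.mk I z), ?_⟩
  rw [← map_mul, ← map_mul, hz]
  push_cast
  rw [map_neg, map_natCast, map_neg, map_natCast]

/-- a prime dividing the norm of an ideal exactly once is not inert -/
theorem not_inert (K : IntermediateField ℚ ℂ) [NumberField K] (_h2 : Module.finrank ℚ K = 2)
    {d : ℕ} (hd : Sqd K d) {q : ℕ} (hq : q.Prime) (_hq2 : q ≠ 2) (I : Ideal (𝓞 K))
    (hI : Ideal.absNorm I = q) : J(-(d : ℤ) | q) ≠ -1 :=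
  not_inert' K hd hq I hI

/-- the squarefree part is at most the discriminant -/
theorem sqd_le_aD (K : IntermediateField ℚ ℂ) [NumberField K] (h2 : Module.finrank ℚ K = 2)
    {d : ℕ} (hd : Sqd K d) : d ≤ aD K := by
  obtain ⟨z, hz, hzC⟩ := sqd_elt K hd
  obtain ⟨him2, hre⟩ := sqd_im K hd _ hzC
  have hd0 : (0 : ℝ) < d := by exact_mod_cast hd.1
  have hzim : ((z : K) : ℂ).im ≠ 0 := by
    intro h
    rw [h] at him2
    simp at him2
    linarith
  have him : ∃ x : K, (x : ℂ).im ≠ 0 := ⟨z, hzim⟩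
  obtain ⟨b⟩ := exists_basis K h2
  have h1 := im_eq K b z 1
  set m : ℤ := b.repr z 0 * b.repr 1 1 - b.repr z 1 * b.repr 1 0 with hm
  have h3 : ((z : K) : ℂ).im = (m : ℝ) * om K b := by
    rw [← h1]
    simp
  have h4 := sqrt_aD K h2 him b
  have h5 : (aD K : ℝ) = 4 * (om K b) ^ 2 := by
    have h6 : (aD K : ℝ) = √(aD K : ℝ) ^ 2 := (Real.sq_sqrt (Nat.cast_nonneg _)).symm
    rw [h6, h4, mul_pow, sq_abs]
    norm_num
  have h7 : (4 : ℝ) * d = (m : ℝ) ^ 2 * aD K := by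
    rw [h5, ← him2, h3]
    ring
  have h8 : 4 * d = m.natAbs ^ 2 * aD K := by
    zify
    rw [sq_abs]
    exact_mod_cast h7
  have hm0 : m.natAbs ≠ 0 := by
    intro h
    rw [h] at h8
    have := hd.1
    omega
  -- the square divides `4 d`
  have h9 : m.natAbs ≤ 2 := by
    have hdvd : m.natAbs ^ 2 ∣ 4 * d := ⟨_, h8⟩
    rcases Nat.even_or_odd m.natAbs with ⟨k, hk⟩ | hodd
    · have hk2 : k ^ 2 ∣ d := by
        have : 4 * k ^ 2 ∣ 4 * d := by
          have e : m.natAbs ^ 2 = 4 * k ^ 2 := by rw [hk]; ring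
          rwa [e] at hdvd
        exact Nat.dvd_of_mul_dvd_mul_left (by norm_num) this
      have hk1 : k ∣ 1 := by
        rw [sq] at hk2
        rw [Nat.isUnit_iff.mp (hd.2.1 k hk2)]
      have := Nat.le_of_dvd one_pos hk1
      omega
    · have hcop : Nat.Coprime (m.natAbs ^ 2) 4 := by
        have : Nat.Coprime m.natAbs 2 := Nat.coprime_two_right.mpr hodd
        exact Nat.Coprime.pow 2 2 this
      have hk2 : m.natAbs ^ 2 ∣ d := hcop.dvd_of_dvd_mul_left hdvd
      rw [sq] at hk2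
      have hk1 := Nat.isUnit_iff.mp (hd.2.1 _ hk2)
      omega
  have h10 : m.natAbs ^ 2 ≤ 4 := Nat.pow_le_pow_left h9 2
  by_contra hcon
  push Not at hcon
  have h11 : m.natAbs ^ 2 * aD K ≤ 4 * aD K := Nat.mul_le_mul_right _ h10
  omega

/-- at most two ideals of given prime norm (this bounds the number of their classes) -/
theorem norm_prime_card (K : IntermediateField ℚ ℂ) [NumberField K] (h2 : Module.finrank ℚ K = 2)
    {q : ℕ} (hq : q.Prime) : {I : Ideal (𝓞 K) | Ideal.absNorm I = q}.ncard ≤ 2 ∧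
      {I : Ideal (𝓞 K) | Ideal.absNorm I = q}.Finite := by
  have hfin : {I : Ideal (𝓞 K) | Ideal.absNorm I = q}.Finite :=
    Ideal.finite_setOfPred_absNorm_eq q
  refine ⟨?_, hfin⟩
  by_contra hcon
  push Not at hcon
  rw [Set.two_lt_ncard_iff hfin] at hcon
  obtain ⟨I, J', L, hI, hJ, hL, hIJ, hIL, hJL⟩ := hcon
  have hI' : Ideal.absNorm I = q := hI
  have hJ' : Ideal.absNorm J' = q := hJ
  have hL' : Ideal.absNorm L = q := hL
  have hprime : ∀ A : Ideal (𝓞 K), Ideal.absNorm A = q → Prime A := by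
    intro A hA
    rw [← irreducible_iff_prime]
    apply Ideal.irreducible_of_irreducible_absNorm
    rw [hA]
    exact hq
  have hdvd : ∀ A : Ideal (𝓞 K), Ideal.absNorm A = q → A ∣ Ideal.span {((q : ℕ) : 𝓞 K)} := by
    intro A hA
    rw [Ideal.dvd_iff_le, Ideal.span_singleton_le_iff_mem, ← hA]
    exact Ideal.absNorm_mem _
  have hne : ∀ A B : Ideal (𝓞 K), Prime A → Prime B → A ≠ B → ¬ A ∣ B := by
    intro A B hA hB hAB h
    exact hAB (associated_iff_eq.mp ((hA.dvd_prime_iff_associated hB).mp h))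
  obtain ⟨X, hX⟩ := hdvd I hI'
  have h3 : J' ∣ X := by
    have h4 := hdvd J' hJ'
    rw [hX] at h4
    exact ((hprime J' hJ').dvd_or_dvd h4).resolve_left
      (hne _ _ (hprime J' hJ') (hprime I hI') hIJ.symm)
  obtain ⟨Y, rfl⟩ := h3
  have h5 : L ∣ Y := by
    have h4 := hdvd L hL'
    rw [hX] at h4
    have h6 := ((hprime L hL').dvd_or_dvd h4).resolve_left
      (hne _ _ (hprime L hL') (hprime I hI') hIL.symm)
    exact ((hprime L hL').dvd_or_dvd h6).resolve_left
      (hne _ _ (hprime L hL') (hprime J' hJ') hJL.symm)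
  obtain ⟨Z, rfl⟩ := h5
  have h7 := congrArg Ideal.absNorm hX
  rw [Ideal.absNorm_span_natCast, RingOfIntegers.rank, h2, map_mul, map_mul, map_mul, hI', hJ',
    hL'] at h7
  have hq2 := hq.two_le
  rcases Nat.eq_zero_or_pos (Ideal.absNorm Z) with h8 | h8
  · rw [h8] at h7
    simp at h7
    omega
  · have h9 : q ^ 2 * (q * Ideal.absNorm Z) = q ^ 2 * 1 := by
      rw [mul_one]
      conv_rhs => rw [h7]
      ring
    have h10 := Nat.eq_of_mul_eq_mul_left (by positivity) h9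
    have h11 : q * 1 ≤ q * Ideal.absNorm Z := Nat.mul_le_mul_left _ h8
    omega

end Pool.Agent.PowF
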