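import Pool.Agent.PowF.Defs

/-!
Module A4: incomplete sums of a Jacobi symbol with positive nonsquare numerator.
-/

set_option autoImplicit false

namespace Pool.Agent.PowF

open NumberTheorySymbols

/-- a prime occurring to an odd power in a number which is not a square -/
theorem exists_odd_val {D : ℕ} (hD : 0 < D) (hsq : ¬ IsSquare D) :
    ∃ l v D₁ : ℕ, l.Prime ∧ Odd v ∧ D = l ^ v * D₁ ∧ ¬ l ∣ D₁ := by
  obtain ⟨a, b, ha, hb, hab, hsf⟩ := Nat.sq_mul_squarefree_of_pos hD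
  have ha1 : a ≠ 1 := by
    rintro rfl
    exact hsq ⟨b, by rw [← hab]; ring⟩
  obtain ⟨l, hl, hla⟩ := Nat.exists_prime_and_dvd ha1
  obtain ⟨s, c, hc, hbc⟩ := Nat.exists_eq_pow_mul_and_not_dvd hb.ne' l hl.ne_one
  obtain ⟨m, hm⟩ := hla
  have hlm : ¬ l ∣ m := by
    rintro ⟨t, ht⟩
    have h1 : l * l ∣ a := ⟨t, by rw [hm, ht]; ring⟩
    exact hl.one_lt.ne' (Nat.isUnit_iff.mp (hsf l h1))
  refine ⟨l, 2 * s + 1, c ^ 2 * m, hl, ⟨s, rfl⟩, ?_, ?_⟩
  · rw [← hab, hbc, hm]; ring
  · rw [hl.dvd_mul]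
    rintro (h | h)
    · exact hc (hl.dvd_of_dvd_pow h)
    · exact hlm h

/-- a value `-1` of the symbol -/
theorem exists_neg {D : ℕ} (hD : 0 < D) (hsq : ¬ IsSquare D) :
    ∃ n₀ : ℕ, Odd n₀ ∧ J((D : ℤ) | n₀) = -1 := by
  obtain ⟨l, v, D₁, hl, hv, hDe, hlD⟩ := exists_odd_val hD hsq
  have hD1 : 0 < D₁ := Nat.pos_of_ne_zero (by rintro rfl; simp at hlD)
  have hfin : ∀ n₀ : ℕ, J((l : ℤ) | n₀) = -1 → J((D₁ : ℤ) | n₀) = 1 → J((D : ℤ) | n₀) = -1 := by
    intro n₀ h1 h2
    rw [hDe]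
    push_cast
    rw [jacobiSym.mul_left, jacobiSym.pow_left, h1, h2, hv.neg_one_pow, mul_one]
  by_cases hl2 : l = 2
  · subst hl2
    have hcop : Nat.Coprime 8 D₁ := by
      have : Nat.Coprime 2 D₁ := (Nat.prime_two.coprime_iff_not_dvd).mpr hlD
      exact (this.pow_left 3)
    obtain ⟨n₀, h8, h1⟩ := Nat.chineseRemainder hcop 5 1
    have h8' : n₀ % 8 = 5 := h8
    have hodd : Odd n₀ := Nat.odd_iff.mpr (by omega)
    refine ⟨n₀, hodd, hfin n₀ ?_ ?_⟩
    · have := jacobiSym.at_two hodd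
      push_cast
      rw [this, ZMod.χ₈_nat_mod_eight, h8']
      decide
    · have hD1odd : Odd D₁ := Nat.not_even_iff_odd.mp fun h => hlD h.two_dvd
      rw [jacobiSym.quadratic_reciprocity_one_mod_four' hD1odd (by omega)]
      have h3 : (n₀ : ℤ) % D₁ = 1 % D₁ := by exact_mod_cast h1
      rw [jacobiSym.mod_left' h3, jacobiSym.one_left]
  · have hlodd : Odd l := (hl.eq_two_or_odd').resolve_left hl2
    have hcop : Nat.Coprime l (8 * D₁) := by
      refine Nat.Coprime.mul_right ?_ ((hl.coprime_iff_not_dvd).mpr hlD)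
      exact ((Nat.coprime_primes hl Nat.prime_two).mpr hl2).pow_right 3
    have : Fact l.Prime := ⟨hl⟩
    have hchar : ringChar (ZMod l) ≠ 2 := by rw [ZMod.ringChar_zmod_n]; exact hl2
    obtain ⟨a, ha⟩ := FiniteField.exists_nonsquare hchar
    obtain ⟨n₀, h1, h8⟩ := Nat.chineseRemainder hcop a.val 1
    have h8' : n₀ % 8 = 1 := by
      have : n₀ ≡ 1 [MOD 8] := Nat.ModEq.of_mul_right D₁ h8
      exact this
    have hodd : Odd n₀ := Nat.odd_iff.mpr (by omega)
    refine ⟨n₀, hodd, hfin n₀ ?_ ?_⟩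
    · rw [jacobiSym.quadratic_reciprocity_one_mod_four' hlodd (by omega)]
      rw [ZMod.nonsquare_iff_jacobiSym_eq_neg_one]
      have h2 : ((n₀ : ℕ) : ZMod l) = a := by
        have := (ZMod.natCast_eq_natCast_iff _ _ _).mpr h1
        rw [this, ZMod.natCast_val, ZMod.cast_id]
      push_cast
      rw [h2]
      exact ha
    · have h3 : n₀ ≡ 1 [MOD 4 * D₁] := by
        have h4 : n₀ ≡ 1 [MOD 2 * (4 * D₁)] := by
          have : 2 * (4 * D₁) = 8 * D₁ := by ring
          rw [this]; exact h8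
        exact Nat.ModEq.of_mul_left 2 h4
      rw [jacobiSym.mod_right' D₁ hodd, h3, ← jacobiSym.mod_right' D₁ odd_one,
        jacobiSym.one_right]

/-- the summand -/
noncomputable def jg (D n : ℕ) : ℤ := if Odd n then J((D : ℤ) | n) else 0

theorem jg_period (D n : ℕ) : jg D (n + 4 * D) = jg D n := by
  unfold jg
  have h1 : Odd (n + 4 * D) ↔ Odd n := by
    rw [Nat.odd_add]
    constructor
    · intro h; exact h.mpr ⟨2 * D, by ring⟩
    · intro h; exact ⟨fun _ => ⟨2 * D, by ring⟩, fun _ => h⟩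
  by_cases h : Odd n
  · rw [if_pos h, if_pos (h1.mpr h), jacobiSym.mod_right' D (h1.mpr h), jacobiSym.mod_right' D h,
      Nat.add_mod_right]
  · rw [if_neg h, if_neg (fun h2 => h (h1.mp h2))]

theorem jg_mod (D n : ℕ) : jg D (n % (4 * D)) = jg D n := by
  conv_rhs => rw [← Nat.mod_add_div n (4 * D)]
  generalize n / (4 * D) = k
  generalize n % (4 * D) = m
  induction k with
  | zero => simp
  | succ k ih => rw [Nat.mul_succ, ← add_assoc, jg_period, ih]

theorem jg_mul (D : ℕ) {n₀ : ℕ} (hn : Odd n₀) (n : ℕ) :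
    jg D (n₀ * n) = J((D : ℤ) | n₀) * jg D n := by
  unfold jg
  by_cases h : Odd n
  · rw [if_pos h, if_pos (hn.mul h), jacobiSym.mul_right' _ hn.pos.ne' h.pos.ne']
  · rw [if_neg h, if_neg (fun h2 => h (Nat.odd_mul.mp h2).2), mul_zero]

theorem jg_full {D : ℕ} (hD : 0 < D) (hsq : ¬ IsSquare D) :
    ∑ n ∈ Finset.range (4 * D), jg D n = 0 := by
  obtain ⟨n₀, hodd, hJ⟩ := exists_neg hD hsq
  have hcopD : Nat.Coprime n₀ D := by
    by_contra hcon
    have : J((D : ℤ) | n₀) = 0 := by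
      rw [jacobiSym.eq_zero_iff]
      refine ⟨hodd.pos.ne', ?_⟩
      rw [Int.gcd_natCast_natCast, Nat.gcd_comm]
      exact hcon
    rw [this] at hJ
    norm_num at hJ
  have hcop : Nat.Coprime n₀ (4 * D) := by
    refine Nat.Coprime.mul_right ?_ hcopD
    exact (Nat.coprime_two_right.mpr hodd).pow_right 2
  have : NeZero (4 * D) := ⟨by omega⟩
  have hval : ∑ n ∈ Finset.range (4 * D), jg D n = ∑ x : ZMod (4 * D), jg D x.val := by
    symm
    refine Finset.sum_bij (fun x _ => x.val) ?_ ?_ ?_ ?_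
    · intro x _; exact Finset.mem_range.mpr x.val_lt
    · intro x _ y _ h; exact ZMod.val_injective _ h
    · intro n hn
      exact ⟨(n : ZMod (4 * D)), Finset.mem_univ _, ZMod.val_natCast_of_lt (Finset.mem_range.mp hn)⟩
    · intro x _; rfl
  have hperm : ∑ x : ZMod (4 * D), jg D x.val =
      ∑ x : ZMod (4 * D), jg D ((ZMod.unitOfCoprime n₀ hcop).mulLeft x).val :=
    (Equiv.sum_comp ((ZMod.unitOfCoprime n₀ hcop).mulLeft) fun x => jg D x.val).symm
  have hterm : ∀ x : ZMod (4 * D), jg D ((ZMod.unitOfCoprime n₀ hcop).mulLeft x).val =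
      - jg D x.val := by
    intro x
    have h1 : ((ZMod.unitOfCoprime n₀ hcop).mulLeft x).val = (n₀ * x.val) % (4 * D) := by
      rw [Units.mulLeft_apply, ZMod.coe_unitOfCoprime, ZMod.val_mul, ZMod.val_natCast,
        Nat.mod_mul_mod]
    rw [h1, jg_mod, jg_mul D hodd, hJ]
    ring
  rw [hval]
  rw [Finset.sum_congr rfl fun x _ => hterm x, Finset.sum_neg_distrib] at hperm
  omega

/-- incomplete sums of a Jacobi symbol with positive nonsquare numerator -/
theorem jac_sum {D : ℕ} (hD : 0 < D) (hsq : ¬ IsSquare D) (N : ℕ) :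
    |∑ n ∈ (Finset.range N).filter Odd, J((D : ℤ) | n)| ≤ 4 * D := by
  have h0 : ∑ n ∈ (Finset.range N).filter Odd, J((D : ℤ) | n) = ∑ n ∈ Finset.range N, jg D n := by
    rw [Finset.sum_filter]
    rfl
  rw [h0]
  induction N using Nat.strong_induction_on with
  | _ N ih =>
    by_cases hN : N < 4 * D
    · refine (Finset.abs_sum_le_sum_abs _ _).trans ?_
      have h1 : ∑ n ∈ Finset.range N, |jg D n| ≤ ∑ n ∈ Finset.range N, (1 : ℤ) := by
        refine Finset.sum_le_sum fun n _ => ?_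
        unfold jg
        split_ifs
        · rcases jacobiSym.trichotomy (D : ℤ) n with h | h | h <;> rw [h] <;> norm_num
        · norm_num
      refine h1.trans ?_
      simp only [Finset.sum_const, Finset.card_range, nsmul_eq_mul, mul_one]
      exact_mod_cast hN.le
    · obtain ⟨m, rfl⟩ := Nat.exists_eq_add_of_le (not_lt.mp hN)
      rw [Finset.sum_range_add, jg_full hD hsq, zero_add]
      have h2 : ∑ x ∈ Finset.range m, jg D (4 * D + x) = ∑ x ∈ Finset.range m, jg D x := by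
        refine Finset.sum_congr rfl fun x _ => ?_
        rw [add_comm, jg_period]
      rw [h2]
      refine ih m (by omega) ?_
      rw [Finset.sum_filter]
      rfl

end Pool.Agent.PowF
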