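import Pool.Agent.PowF.Defs

/-!
Covolumes of ideals of an imaginary quadratic field.
-/

set_option autoImplicit false

namespace Pool.Agent.PowF

open NumberField Module

section

variable (K : IntermediateField ℚ ℂ) [NumberField K]

/-- the inclusion -/
noncomputable def idH : K →ₐ[ℚ] ℂ := K.val

/-- the conjugate embedding -/
noncomputable def cjH : K →ₐ[ℚ] ℂ :=
  (Complex.conjAe.toAlgHom.restrictScalars ℚ).comp (idH K)

omit [NumberField K] in
theorem idH_apply (x : K) : idH K x = (x : ℂ) := rfl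

omit [NumberField K] in
theorem cjH_apply (x : K) : cjH K x = (starRingEnd ℂ) (x : ℂ) := rfl

omit [NumberField K] in
theorem val_ne_cj (him : ∃ x : K, (x : ℂ).im ≠ 0) : idH K ≠ cjH K := by
  intro h
  obtain ⟨x, hx⟩ := him
  have h1 : (x : ℂ).im = (cjH K x).im := congrArg (fun f : K →ₐ[ℚ] ℂ => (f x).im) h
  rw [cjH_apply, Complex.conj_im] at h1
  apply hx
  linarith

theorem univ_emb (h2 : Module.finrank ℚ K = 2) (him : ∃ x : K, (x : ℂ).im ≠ 0) :
    (Finset.univ : Finset (K →ₐ[ℚ] ℂ)) = Finset.cons (idH K) {cjH K}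
      (by rw [Finset.mem_singleton]; exact val_ne_cj K him) := by
  symm
  apply Finset.eq_univ_of_card
  rw [AlgHom.card ℚ K ℂ, h2, Finset.card_cons, Finset.card_singleton]

theorem trace_eq (h2 : Module.finrank ℚ K = 2) (him : ∃ x : K, (x : ℂ).im ≠ 0) (x : K) :
    ((Algebra.trace ℚ K x : ℚ) : ℂ) = (x : ℂ) + (starRingEnd ℂ) (x : ℂ) := by
  have h := trace_eq_sum_embeddings (K := ℚ) (L := K) ℂ (x := x)
  rw [univ_emb K h2 him, Finset.sum_cons, Finset.sum_singleton] at h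
  exact h

theorem norm_eq (h2 : Module.finrank ℚ K = 2) (him : ∃ x : K, (x : ℂ).im ≠ 0) (x : K) :
    ((Algebra.norm ℚ x : ℚ) : ℂ) = (x : ℂ) * (starRingEnd ℂ) (x : ℂ) := by
  have h := Algebra.norm_eq_prod_embeddings ℚ (L := K) ℂ (x := x)
  rw [univ_emb K h2 him, Finset.prod_cons, Finset.prod_singleton] at h
  exact h

/-- the norm of a principal ideal -/
theorem absNorm_span (h2 : Module.finrank ℚ K = 2) (him : ∃ x : K, (x : ℂ).im ≠ 0) (x : 𝓞 K) :
    (Ideal.absNorm (Ideal.span {x}) : ℝ) = ‖((x : K) : ℂ)‖ ^ 2 := by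
  rw [Ideal.absNorm_span_singleton]
  have h1 := norm_eq K h2 him (x : K)
  rw [← Algebra.coe_norm_int x, Complex.mul_conj, Complex.normSq_eq_norm_sq] at h1
  have h3 : ((Algebra.norm ℤ x : ℤ) : ℝ) = ‖((x : K) : ℂ)‖ ^ 2 := by
    exact_mod_cast h1
  rw [Nat.cast_natAbs, Int.cast_abs, h3, abs_of_nonneg (by positivity)]

/-- the `ℤ`-basis of the ring of integers -/
theorem exists_basis (h2 : Module.finrank ℚ K = 2) : Nonempty (Basis (Fin 2) ℤ (𝓞 K)) := by
  have h := RingOfIntegers.rank K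
  rw [h2] at h
  exact ⟨Module.finBasisOfFinrankEq ℤ (𝓞 K) h⟩

/-- the imaginary part of `β₀ * conj β₁` for a basis -/
noncomputable def om (b : Basis (Fin 2) ℤ (𝓞 K)) : ℝ :=
  ((((b 0 : 𝓞 K) : K) : ℂ) * (starRingEnd ℂ) (((b 1 : 𝓞 K) : K) : ℂ)).im

theorem discr_eq_om (h2 : Module.finrank ℚ K = 2) (him : ∃ x : K, (x : ℂ).im ≠ 0)
    (b : Basis (Fin 2) ℤ (𝓞 K)) : (discr K : ℝ) = -4 * (om K b) ^ 2 := by
  rw [← discr_eq_discr K b, Algebra.discr_def, Matrix.det_fin_two]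
  simp only [Algebra.traceMatrix_apply, Algebra.traceForm_apply]
  have htr : ∀ z : 𝓞 K, ((Algebra.trace ℤ (𝓞 K) z : ℤ) : ℂ) =
      ((z : K) : ℂ) + (starRingEnd ℂ) ((z : K) : ℂ) := by
    intro z
    rw [← trace_eq K h2 him, ← Algebra.coe_trace_int]
    simp
  have key : (((Algebra.trace ℤ (𝓞 K) (b 0 * b 0) * Algebra.trace ℤ (𝓞 K) (b 1 * b 1) -
      Algebra.trace ℤ (𝓞 K) (b 0 * b 1) * Algebra.trace ℤ (𝓞 K) (b 1 * b 0) : ℤ) : ℝ) : ℂ) =
      ((-4 * (om K b) ^ 2 : ℝ) : ℂ) := by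
    push_cast
    rw [htr, htr, htr, htr]
    simp only [map_mul, IntermediateField.coe_mul]
    set u := (((b 0 : 𝓞 K) : K) : ℂ) with hu
    set v := (((b 1 : 𝓞 K) : K) : ℂ) with hv
    have h1 : ((om K b : ℝ) : ℂ) * (2 * Complex.I) = u * (starRingEnd ℂ) v -
        (starRingEnd ℂ) u * v := by
      unfold om
      rw [← hu, ← hv]
      apply Complex.ext
      · simp
      · simp
        ring
    have h3 : ((om K b : ℝ) : ℂ) ^ 2 * (-4) = (u * (starRingEnd ℂ) v -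
        (starRingEnd ℂ) u * v) ^ 2 := by
      rw [← h1, mul_pow, mul_pow, Complex.I_sq]
      ring
    have h4 : (-4 : ℂ) * ((om K b : ℝ) : ℂ) ^ 2 = (u * (starRingEnd ℂ) v -
        (starRingEnd ℂ) u * v) ^ 2 := by
      rw [← h3]
      ring
    rw [h4]
    ring
  exact_mod_cast key

theorem sqrt_aD (h2 : Module.finrank ℚ K = 2) (him : ∃ x : K, (x : ℂ).im ≠ 0)
    (b : Basis (Fin 2) ℤ (𝓞 K)) : √(aD K : ℝ) = 2 * |om K b| := by
  rw [aD_eq, Nat.cast_natAbs, Int.cast_abs, discr_eq_om K h2 him b, abs_mul, abs_pow,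
    show |(-4 : ℝ)| = 2 ^ 2 by norm_num, ← mul_pow]
  exact Real.sqrt_sq (by positivity)

theorem im_comb (u v : ℂ) (a c a' c' : ℤ) :
    ((a • u + c • v) * (starRingEnd ℂ) (a' • u + c' • v)).im =
      ((a * c' - c * a' : ℤ) : ℝ) * (u * (starRingEnd ℂ) v).im := by
  simp
  ring

omit [NumberField K] in
/-- coordinates and the imaginary part -/
theorem im_eq (b : Basis (Fin 2) ℤ (𝓞 K)) (x y : 𝓞 K) :
    (((x : K) : ℂ) * (starRingEnd ℂ) ((y : K) : ℂ)).im =
      ((b.repr x 0 * b.repr y 1 - b.repr x 1 * b.repr y 0 : ℤ) : ℝ) * om K b := by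
  have hx : ∀ z : 𝓞 K, ((z : K) : ℂ) = (b.repr z 0) • (((b 0 : 𝓞 K) : K) : ℂ) +
      (b.repr z 1) • (((b 1 : 𝓞 K) : K) : ℂ) := by
    intro z
    have h := b.sum_repr z
    rw [Fin.sum_univ_two] at h
    conv_lhs => rw [← h]
    simp
  rw [hx x, hx y, im_comb]
  rfl

theorem om_ne_zero (h2 : Module.finrank ℚ K = 2) (him : ∃ x : K, (x : ℂ).im ≠ 0)
    (b : Basis (Fin 2) ℤ (𝓞 K)) : om K b ≠ 0 := by
  intro h
  have h1 := discr_eq_om K h2 him b
  rw [h] at h1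
  simp at h1
  exact discr_ne_zero K h1

theorem aD_pos : 0 < aD K := by
  rw [aD_eq]
  exact Int.natAbs_pos.mpr (discr_ne_zero K)

/-- real quotients of integers are rational -/
theorem exists_int_rel (h2 : Module.finrank ℚ K = 2) (him : ∃ x : K, (x : ℂ).im ≠ 0)
    (x y : 𝓞 K) (hy : y ≠ 0)
    (hxy : (((x : K) : ℂ) * (starRingEnd ℂ) ((y : K) : ℂ)).im = 0) :
    ∃ a c : ℤ, a ≠ 0 ∧ a • x = c • y := by
  obtain ⟨b⟩ := exists_basis K h2
  have h1 := im_eq K b x y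
  rw [hxy] at h1
  have h3 : b.repr x 0 * b.repr y 1 - b.repr x 1 * b.repr y 0 = 0 := by
    have := (mul_eq_zero.mp h1.symm).resolve_right (om_ne_zero K h2 him b)
    exact_mod_cast this
  have hrep : b.repr y 0 ≠ 0 ∨ b.repr y 1 ≠ 0 := by
    by_contra hcon
    push Not at hcon
    apply hy
    apply b.repr.injective
    rw [map_zero]
    ext i
    fin_cases i
    · exact hcon.1
    · exact hcon.2
  have hext : ∀ a c : ℤ, a * b.repr x 0 = c * b.repr y 0 → a * b.repr x 1 = c * b.repr y 1 →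
      a • x = c • y := by
    intro a c h4 h5
    apply b.repr.injective
    apply Finsupp.ext
    rw [Fin.forall_fin_two]
    rw [map_smul, map_smul, Finsupp.smul_apply, Finsupp.smul_apply, Finsupp.smul_apply,
      Finsupp.smul_apply, smul_eq_mul, smul_eq_mul, smul_eq_mul, smul_eq_mul]
    exact ⟨h4, h5⟩
  rcases hrep with h | h
  · exact ⟨b.repr y 0, b.repr x 0, h, hext _ _ (by ring) (by linarith)⟩
  · exact ⟨b.repr y 1, b.repr x 1, h, hext _ _ (by linarith) (by ring)⟩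

end

/-- two elements of an ideal which are not proportional span a lattice of large covolume -/
theorem det_ge (K : IntermediateField ℚ ℂ) [NumberField K] (h2 : Module.finrank ℚ K = 2)
    (him : ∃ x : K, (x : ℂ).im ≠ 0) (I : Ideal (𝓞 K)) (x y : 𝓞 K) (hx : x ∈ I) (hy : y ∈ I)
    (hxy : (((x : K) : ℂ) * (starRingEnd ℂ) ((y : K) : ℂ)).im ≠ 0) :
    (Ideal.absNorm I : ℝ) * √(aD K : ℝ) ≤
      2 * |(((x : K) : ℂ) * (starRingEnd ℂ) ((y : K) : ℂ)).im| := by
  obtain ⟨b⟩ := exists_basis K h2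
  have hI : I ≠ ⊥ := by
    rintro rfl
    rw [Ideal.mem_bot] at hx
    rw [hx] at hxy
    simp at hxy
  let bI := Ideal.selfBasis b I hI
  have hdet := Ideal.natAbs_det_basis_change b I bI
  -- the basis of the ideal in terms of the basis of the ring
  have hB : (((((bI 0 : I) : 𝓞 K) : K) : ℂ) *
      (starRingEnd ℂ) ((((bI 1 : I) : 𝓞 K) : K) : ℂ)).im =
      ((b.det ((↑) ∘ bI) : ℤ) : ℝ) * om K b := by
    rw [im_eq K b, Basis.det_apply, Matrix.det_fin_two]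
    simp only [Basis.toMatrix_apply, Function.comp]
    congr 2
    ring
  -- the elements in terms of the basis of the ideal
  have hz : ∀ z : I, (((z : 𝓞 K) : K) : ℂ) = (bI.repr z 0) • ((((bI 0 : I) : 𝓞 K) : K) : ℂ) +
      (bI.repr z 1) • ((((bI 1 : I) : 𝓞 K) : K) : ℂ) := by
    intro z
    have h := bI.sum_repr z
    rw [Fin.sum_univ_two] at h
    conv_lhs => rw [← h]
    simp
  have h3 : (((x : K) : ℂ) * (starRingEnd ℂ) ((y : K) : ℂ)).im =
      ((bI.repr ⟨x, hx⟩ 0 * bI.repr ⟨y, hy⟩ 1 - bI.repr ⟨x, hx⟩ 1 * bI.repr ⟨y, hy⟩ 0 : ℤ) : ℝ) *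
        (((b.det ((↑) ∘ bI) : ℤ) : ℝ) * om K b) := by
    rw [← hB, ← im_comb, ← hz, ← hz]
  rw [h3] at hxy ⊢
  rw [sqrt_aD K h2 him b, abs_mul, abs_mul, ← hdet, Nat.cast_natAbs, Int.cast_abs]
  set m := bI.repr ⟨x, hx⟩ 0 * bI.repr ⟨y, hy⟩ 1 - bI.repr ⟨x, hx⟩ 1 * bI.repr ⟨y, hy⟩ 0 with hm
  have hm0 : m ≠ 0 := by
    intro h
    rw [h] at hxy
    simp at hxy
  have hm1 : (1 : ℝ) ≤ |(m : ℝ)| := by
    rw [← Int.cast_abs]
    exact_mod_cast Int.one_le_abs hm0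
  have h5 : 0 ≤ |((b.det ((↑) ∘ bI) : ℤ) : ℝ)| * |om K b| := by positivity
  nlinarith

/-- an integral element of a quadratic field which is not real has large imaginary part -/
theorem im_ge (K : IntermediateField ℚ ℂ) [NumberField K] (h2 : Module.finrank ℚ K = 2)
    (x : 𝓞 K) (hx : ((x : K) : ℂ).im ≠ 0) : √(aD K : ℝ) ≤ 2 * |((x : K) : ℂ).im| := by
  have h := det_ge K h2 ⟨(x : K), hx⟩ ⊤ x 1 Submodule.mem_top Submodule.mem_top (by simpa using hx)
  simpa using h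

end Pool.Agent.PowF
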