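import Pool.Agent.PowF.DefsB

/-!
The total count for several slots.
-/

set_option autoImplicit false

namespace Pool.Agent.PowF

open Pool.Agent.CycSyl Pool.Agent.CycSyl.Hz NumberField NumberTheorySymbols

theorem PInv_and {s : ℕ} {P Q : Hz ℤ → Prop} (hP : PInv s P) (hQ : PInv s Q) :
    PInv s (fun x => P x ∧ Q x) :=
  ⟨fun x => and_congr (hP.neg x) (hQ.neg x), fun x => and_congr (hP.sc x) (hQ.sc x),
    fun x y hy => and_congr (hP.conj x y hy) (hQ.conj x y hy)⟩

theorem PInv_ball {s : ℕ} (F : Finset ℕ) (P : ℕ → Hz ℤ → Prop) (hP : ∀ q ∈ F, PInv s (P q)) :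
    PInv s (fun x => ∀ q ∈ F, P q x) :=
  ⟨fun x => forall₂_congr fun q hq => (hP q hq).neg x,
    fun x => forall₂_congr fun q hq => (hP q hq).sc x,
    fun x y hy => forall₂_congr fun q hq => (hP q hq).conj x y hy⟩

open Classical in
theorem PInv_PA {s : ℕ} {U A : Finset ℕ} (hA : ∀ q ∈ A, s.Coprime q)
    (hU : ∀ q ∈ U \ A, s.Coprime q) : PInv s (PA U A) :=
  PInv_and (PInv_ball A (fun q x => ¬ (q : ℤ) ∣ tr x) fun q hq => PInv_not (PInv_dvd (hA q hq)))
    (PInv_ball (U \ A) (fun q x => (q : ℤ) ∣ tr x) fun q hq => PInv_dvd (hU q hq))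

theorem coprime_prod_pow {n : ℕ} (A : Finset ℕ) (e : ℕ → ℕ) (h : ∀ q ∈ A, q.Coprime n) :
    (∏ q ∈ A, q ^ e q).Coprime n :=
  Nat.Coprime.prod_left fun q hq => (h q hq).pow_left _

theorem coprime_prod' {n : ℕ} (A : Finset ℕ) (h : ∀ q ∈ A, q.Coprime n) :
    (∏ q ∈ A, q).Coprime n :=
  Nat.Coprime.prod_left fun q hq => h q hq

open Classical in
theorem total_multi {R : Type*} [CommRing R] (w : Wt R) (e : ℕ → ℕ) (S : Finset ℕ)
    (hS : ∀ s ∈ S, s.Prime ∧ s.Coprime 22) (he : ∀ s ∈ S, ∃ j, e s = 2 * j + 3) (m : ℕ)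
    (hm : m.Coprime 22) (hSm : ∀ s ∈ S, ¬ s ∣ m) :
    ∑ A ∈ S.powerset, T w (PA S A) ((∏ s ∈ A, s ^ e s) * (∏ s ∈ S \ A, s) * m) =
      (∏ s ∈ S, Vs (T w (fun _ => True) s) ((s : ℤ) : R) (e s)) * T w (fun _ => True) m := by
  induction S using Finset.induction_on generalizing m with
  | empty =>
    rw [Finset.powerset_empty, Finset.sum_singleton, Finset.prod_empty, Finset.sdiff_empty,
      Finset.prod_empty, Finset.prod_empty, one_mul, one_mul, one_mul]
    apply T_congr
    intro x _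
    simp [PA]
  | insert s S hs ih =>
    have hsp := hS s (Finset.mem_insert_self s S)
    have hSp : ∀ q ∈ S, q.Prime ∧ q.Coprime 22 := fun q hq => hS q (Finset.mem_insert_of_mem hq)
    have hcop : ∀ q ∈ S, s.Coprime q := fun q hq =>
      (Nat.coprime_primes hsp.1 (hSp q hq).1).2 (fun h => hs (h ▸ hq))
    have hsm : ¬ s ∣ m := hSm s (Finset.mem_insert_self s S)
    obtain ⟨j, hj⟩ := he s (Finset.mem_insert_self s S)
    have he' : ∀ q ∈ S, ∃ j, e q = 2 * j + 3 := fun q hq => he q (Finset.mem_insert_of_mem hq)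
    have hcX : (((X s).card : R) - 1) = ((s : ℤ) : R) := by
      rw [card_X hsp.1 hsp.2]; push_cast; ring
    have hih : ∀ k : ℕ, ∑ A ∈ S.powerset, T w (PA S A)
        (s ^ k * ((∏ q ∈ A, q ^ e q) * (∏ q ∈ S \ A, q) * m)) =
        (∏ q ∈ S, Vs (T w (fun _ => True) q) ((q : ℤ) : R) (e q)) *
          T w (fun _ => True) (s ^ k * m) := by
      intro k
      rw [← ih hSp he' (s ^ k * m) (Nat.Coprime.mul_left (hsp.2.pow_left k) hm) ?_]
      · apply Finset.sum_congr rfl
        intro A _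
        congr 1
        ring
      · intro q hq hd
        rcases (hSp q hq).1.dvd_mul.1 hd with h | h
        · have h1 := (hSp q hq).1.dvd_of_dvd_pow h
          have h2 := (Nat.prime_dvd_prime_iff_eq (hSp q hq).1 hsp.1).1 h1
          exact hs (h2 ▸ hq)
        · exact hSm q (Finset.mem_insert_of_mem hq) h
    rw [Finset.sum_powerset_insert hs, ← Finset.sum_add_distrib, Finset.prod_insert hs]
    have hterm : ∀ A ∈ S.powerset,
        T w (PA (insert s S) A) ((∏ q ∈ A, q ^ e q) * (∏ q ∈ insert s S \ A, q) * m) +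
          T w (PA (insert s S) (insert s A)) ((∏ q ∈ insert s A, q ^ e q) *
            (∏ q ∈ insert s S \ insert s A, q) * m) =
        T w (PA S A) (s ^ (2 * j + 3) * ((∏ q ∈ A, q ^ e q) * (∏ q ∈ S \ A, q) * m)) -
          ((s : ℤ) : R) *
          T w (PA S A) (s ^ (2 * j + 1) * ((∏ q ∈ A, q ^ e q) * (∏ q ∈ S \ A, q) * m)) := by
      intro A hA
      have hAS : A ⊆ S := Finset.mem_powerset.1 hA
      have hsA : s ∉ A := fun h => hs (hAS h)
      have hN : ((∏ q ∈ A, q ^ e q) * (∏ q ∈ S \ A, q) * m).Coprime 22 :=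
        Nat.Coprime.mul_left (Nat.Coprime.mul_left
          (coprime_prod_pow A e fun q hq => (hSp q (hAS hq)).2)
          (coprime_prod' (S \ A) fun q hq => (hSp q (Finset.mem_sdiff.1 hq).1).2)) hm
      have hsN : ¬ s ∣ (∏ q ∈ A, q ^ e q) * (∏ q ∈ S \ A, q) * m := by
        rw [← hsp.1.coprime_iff_not_dvd, Nat.coprime_comm]
        exact Nat.Coprime.mul_left (Nat.Coprime.mul_left
          (coprime_prod_pow A e fun q hq => (hcop q (hAS hq)).symm)
          (coprime_prod' (S \ A) fun q hq => (hcop q (Finset.mem_sdiff.1 hq).1).symm))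
          ((hsp.1.coprime_iff_not_dvd.2 hsm).symm)
      have hV := T_V w hsp.1 hsp.2 hN hsN
        (PInv_PA (U := S) (A := A) (fun q hq => hcop q (hAS hq))
          (fun q hq => hcop q (Finset.mem_sdiff.1 hq).1)) j
      rw [hcX] at hV
      rw [hV, Finset.insert_sdiff_of_notMem _ hsA,
        Finset.prod_insert (fun h => hs (Finset.mem_sdiff.1 h).1),
        Finset.prod_insert hsA, hj]
      have hsd : insert s S \ insert s A = S \ A := by
        ext q
        simp only [Finset.mem_sdiff, Finset.mem_insert, not_or]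
        constructor
        · rintro ⟨h1 | h1, h2, h3⟩
          · exact absurd h1 h2
          · exact ⟨h1, h3⟩
        · rintro ⟨h1, h2⟩
          exact ⟨Or.inr h1, fun h => hs (h ▸ h1), h2⟩
      rw [hsd, add_comm]
      congr 1
      · have e1 : s ^ (2 * j + 3) * (∏ q ∈ A, q ^ e q) * (∏ q ∈ S \ A, q) * m =
            s ^ (2 * j + 3) * ((∏ q ∈ A, q ^ e q) * (∏ q ∈ S \ A, q) * m) := by ring
        rw [e1]
        apply T_congr
        intro x _
        simp only [PA, hsd, Finset.mem_insert, forall_eq_or_imp]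
        tauto
      · have e2 : (∏ q ∈ A, q ^ e q) * (s * ∏ q ∈ S \ A, q) * m =
            s * ((∏ q ∈ A, q ^ e q) * (∏ q ∈ S \ A, q) * m) := by ring
        rw [e2]
        apply T_congr
        intro x _
        simp only [PA, Finset.insert_sdiff_of_notMem _ hsA, Finset.mem_insert, forall_eq_or_imp]
        tauto
    rw [Finset.sum_congr rfl hterm, Finset.sum_sub_distrib, ← Finset.mul_sum, hih, hih]
    have hH := hecke_V w hsp.1 hsp.2 hm hsm (2 * j + 1)
    have e1 : 2 * j + 1 + 2 = 2 * j + 3 := by ring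
    rw [e1] at hH
    rw [hj]
    linear_combination (∏ q ∈ S, Vs (T w (fun _ => True) q) ((q : ℤ) : R) (e q)) * hH

end Pool.Agent.PowF
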